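import Pool.Agent.Lib.MP_b03f2e_al.Core

/-! Realises the unfolding lemma of `dg` once, so that no two later modules realise it apart. -/

namespace Pool.Agent.Lib.MP_b03f2e_al

theorem eqfix1 : True := by
  have := @Pool.Agent.PCan.dg.eq_def
  trivial

end Pool.Agent.Lib.MP_b03f2e_al
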