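import Pool.Agent.Lib.MP_b03f2e_al.Basic
import Pool.Agent.Lib.MP_b03f2e_al.EqFix

/-! Adapted bases. -/

namespace Pool.Agent.PCan

open MvPolynomial Matrix

variable {n : ℕ} {k : Type} [CommRing k] [IsDomain k]

/-- A family that spans in the graded sense is an invertible matrix over the fraction field
(because `eul e • δ_e` lies in the module). -/
theorem span_isUnit {w : List (Let n)} {f : Idx w → Idx w → RR k n} {dd : Idx w → ℤ}
    (hspan : ∀ d m, El w d m → ∃ l : Idx w → RR k n, (∀ a, Hz (d - dd a) (l a)) ∧
      ∀ e, m e = ∑ a, l a * f a e) :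
    IsUnit (Matrix.of fun e a => io k (f a e) : Matrix (Idx w) (Idx w) (QQ k n)) := by
  classical
  choose l _ hl using fun a0 => hspan _ _ (el_delta (k := k) w a0)
  refine IsUnit.of_mul_eq_one (Matrix.of fun a a0 => io k (l a0 a) / io k (eul k w a0)) ?_
  ext e a0
  have h0 : io k (eul k w a0) ≠ 0 := io_ne_zero (eul_ne_zero w a0)
  have h1 := congrArg (io k) (hl a0 e)
  rw [map_sum] at h1
  simp only [map_mul] at h1
  rw [Matrix.mul_apply]
  simp only [Matrix.of_apply]
  have h2 : ∑ a, io k (f a e) * (io k (l a0 a) / io k (eul k w a0)) =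
      (∑ a, io k (l a0 a) * io k (f a e)) / io k (eul k w a0) := by
    rw [Finset.sum_div]
    exact Finset.sum_congr rfl fun a _ => by ring
  rw [h2, ← h1, Matrix.one_apply]
  by_cases h : e = a0
  · subst h
    rw [Pi.single_eq_same, if_pos rfl, div_self h0]
  · rw [Pi.single_eq_of_ne h, if_neg h, map_zero, zero_div]

/-- Block triangularity of the inverse matrix: if the family respects a set `I` of indices, then
a combination supported on `I` only involves members indexed by `I`. -/
theorem coeff_zero {A : Type} [Fintype A] [DecidableEq A] {f : A → A → QQ k n}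
    (hu : IsUnit (Matrix.of fun e a => f a e : Matrix A A (QQ k n))) (I : Set A)
    (hI : ∀ a ∈ I, ∀ e, f a e ≠ 0 → e ∈ I) {l : A → QQ k n}
    (hl : ∀ e, (∑ a, l a * f a e) ≠ 0 → e ∈ I) : ∀ a, a ∉ I → l a = 0 := by
  classical
  set M : Matrix A A (QQ k n) := Matrix.of fun e a => f a e with hM
  obtain ⟨inv⟩ := hu.nonempty_invertible
  let b : A → ℕ := fun e => if e ∈ I then 0 else 1
  have hb : BlockTriangular M b := by
    intro i j hij
    by_contra hne
    have hj : j ∈ I := by
      by_contra hj
      simp only [b, if_neg hj] at hij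
      split_ifs at hij <;> omega
    have hi : i ∈ I := hI j hj i hne
    simp only [b, if_pos hi] at hij
    omega
  have hb' := blockTriangular_inv_of_blockTriangular hb
  intro a ha
  have h1 : l = M⁻¹ *ᵥ (M *ᵥ l) := by
    rw [Matrix.mulVec_mulVec, Matrix.inv_mul_of_invertible, Matrix.one_mulVec]
  rw [h1, Matrix.mulVec, dotProduct]
  refine Finset.sum_eq_zero fun e _ => ?_
  by_cases he : e ∈ I
  · have : M⁻¹ a e = 0 := hb' (by simp only [b, if_pos he, if_neg ha]; omega)
    rw [this, zero_mul]
  · have h2 : (M *ᵥ l) e = 0 := by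
      by_contra hne
      apply he
      apply hl
      rw [Matrix.mulVec, dotProduct] at hne
      convert hne using 2 with a
      rw [hM, Matrix.of_apply, mul_comm]
    rw [h2, mul_zero]

/-- The version of `coeff_zero` for a polynomial family. -/
private theorem coeff_zero_Q {w : List (Let n)} {f : Idx w → Idx w → RR k n} {dd : Idx w → ℤ}
    (hspan : ∀ d m, El w d m → ∃ l : Idx w → RR k n, (∀ a, Hz (d - dd a) (l a)) ∧
      ∀ e, m e = ∑ a, l a * f a e) (I : Set (Idx w))
    (hI : ∀ a ∈ I, ∀ e, f a e ≠ 0 → e ∈ I) {l : Idx w → QQ k n}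
    (hl : ∀ e, (∑ a, l a * io k (f a e)) ≠ 0 → e ∈ I) : ∀ a, a ∉ I → l a = 0 :=
  coeff_zero (f := fun a e => io k (f a e)) (span_isUnit hspan) I
    (fun a ha e he => hI a ha e (fun h0 => he (by rw [h0, map_zero]))) hl

private theorem coeff_zero_R {w : List (Let n)} {f : Idx w → Idx w → RR k n} {dd : Idx w → ℤ}
    (hspan : ∀ d m, El w d m → ∃ l : Idx w → RR k n, (∀ a, Hz (d - dd a) (l a)) ∧
      ∀ e, m e = ∑ a, l a * f a e) (I : Set (Idx w))
    (hI : ∀ a ∈ I, ∀ e, f a e ≠ 0 → e ∈ I) {l : Idx w → RR k n}
    (hl : ∀ e, (∑ a, l a * f a e) ≠ 0 → e ∈ I) : ∀ a, a ∉ I → l a = 0 := by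
  intro a ha
  have h := coeff_zero_Q hspan I hI (l := fun a => io k (l a)) (fun e he => hl e (fun h0 => he (by
    have := congrArg (io k) h0
    rw [map_sum, map_zero] at this
    simpa only [map_mul] using this))) a ha
  exact io_inj (h.trans (map_zero _).symm)

omit [IsDomain k] in
private theorem el_prod {w : List (Let n)} (Y : Finset (W n)) (i : W n → Fin n) :
    El w Y.card (fun e => ∏ y ∈ Y, (X (pt w e (i y)) - X (y (i y)) : RR k n)) := by
  classical
  induction Y using Finset.induction_on with
  | empty => simpa using el_one (k := k) w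
  | insert y Y hy ih =>
    have h1 : El w 1 (fun e => (X (pt w e (i y)) - X (y (i y)) : RR k n)) := by
      have h2 := (El.smul (Hz.X (k := k) (y (i y))) (el_one (k := k) w)).congr (add_zero 1)
      have h3 := (el_X (k := k) w (i y)).sub h2
      convert h3 using 2 with e
      simp
    have h4 := h1.mul ih
    simp only [Finset.prod_insert hy, Finset.card_insert_of_notMem hy]
    exact h4.congr (by push_cast; ring)

/-- One cleaning step: the component at `z` of a homogeneous element is the component at `z` of
a graded combination of the members over `z`. -/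
private theorem kill {w : List (Let n)} (κ : W n → ℤ)
    {f : Idx w → Idx w → RR k n}
    (hsupp : ∀ a e, f a e ≠ 0 → κ (pt w e) < κ (pt w a) ∨ pt w e = pt w a)
    (hspan : ∀ d m, El w d m → ∃ l : Idx w → RR k n, (∀ a, Hz (d - dg w a) (l a)) ∧
      ∀ e, m e = ∑ a, l a * f a e) {d : ℤ} {g : Idx w → RR k n} (hg : El w d g) (z : W n)
    (hz : ∀ e, g e ≠ 0 → κ z ≤ κ (pt w e) → pt w e ≠ z → ∀ a b, pt w e ≠ z * Equiv.swap a b) :
    ∃ l : Idx w → RR k n, (∀ b, Hz (d - dg w b) (l b)) ∧ (∀ b, pt w b ≠ z → l b = 0) ∧
      ∀ e, pt w e = z → g e = ∑ b, l b * f b e := by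
  classical
  let Y : Finset (W n) :=
    Finset.univ.filter (fun y => y ≠ z ∧ κ z ≤ κ y ∧ ∃ e, pt w e = y ∧ g e ≠ 0)
  have hY : ∀ y ∈ Y, y ≠ z ∧ ∀ a b, y ≠ z * Equiv.swap a b := by
    intro y hy
    obtain ⟨h1, h2, e, rfl, he⟩ := (Finset.mem_filter.mp hy).2
    exact ⟨h1, hz e he h2 h1⟩
  let P : (W n → Fin n) → RR k n := fun i => ∏ y ∈ Y, (X (z (i y)) - X (y (i y)))
  -- each product of separating roots gives an integral expansion over `z`
  have key : ∀ i : W n → Fin n, ∃ l : Idx w → RR k n, (∀ b, Hz (Y.card + d - dg w b) (l b)) ∧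
      (∀ b, pt w b ≠ z → l b = 0) ∧ ∀ e, pt w e = z → P i * g e = ∑ b, l b * f b e := by
    intro i
    obtain ⟨l, hl, hl'⟩ := hspan _ _ ((el_prod (k := k) (w := w) Y i).mul hg)
    have hz0 := coeff_zero_R hspan {e | κ (pt w e) < κ z ∨ pt w e = z}
      (by
        intro a ha e he
        rcases hsupp a e he with h | h
        · left
          rcases ha with ha | ha
          · exact h.trans ha
          · rw [← ha]; exact h
        · show κ (pt w e) < κ z ∨ pt w e = z
          rw [h]; exact ha) (l := l)
      (by
        intro e he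
        rw [← hl' e] at he
        by_contra hn
        have hn1 : ¬ κ (pt w e) < κ z := fun h => hn (Or.inl h)
        have hn2 : pt w e ≠ z := fun h => hn (Or.inr h)
        have hg0 : g e ≠ 0 := right_ne_zero_of_mul he
        have hmem : pt w e ∈ Y :=
          Finset.mem_filter.mpr ⟨Finset.mem_univ _, hn2, not_lt.mp hn1, e, rfl, hg0⟩
        exact left_ne_zero_of_mul he (Finset.prod_eq_zero hmem (sub_self _)))
    refine ⟨fun b => if pt w b = z then l b else 0, fun b => ?_, fun b hb => if_neg hb,
      fun e he => ?_⟩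
    · beta_reduce
      split_ifs
      · exact hl b
      · exact Hz.zero _
    · have h1 := hl' e
      simp only [he] at h1
      rw [show P i * g e = ∑ a, l a * f a e from h1]
      refine Finset.sum_congr rfl fun b _ => ?_
      beta_reduce
      split_ifs with hb
      · rfl
      · rw [zero_mul]
        by_cases hlb : l b = 0
        · rw [hlb, zero_mul]
        · have hb' : κ (pt w b) < κ z ∨ pt w b = z := by
            by_contra hn
            exact hlb (hz0 b hn)
          have hb'' : κ (pt w b) < κ z := hb'.resolve_right hb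
          have : f b e = 0 := by
            by_contra hf
            rcases hsupp b e hf with h | h
            · rw [he] at h; omega
            · exact hb (h.symm.trans he)
          rw [this, mul_zero]
  -- uniqueness over `z`
  have uniq : ∀ t : Idx w → QQ k n, (∀ b, pt w b ≠ z → t b = 0) →
      (∀ e, pt w e = z → ∑ b, t b * io k (f b e) = 0) → ∀ b, t b = 0 := by
    intro t ht ht' b
    by_cases hb : pt w b = z
    · refine coeff_zero_Q hspan {e | κ (pt w e) < κ z} ?_ (l := t) ?_ b ?_
      · intro a ha e he
        rcases hsupp a e he with h | h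
        · exact h.trans ha
        · show κ (pt w e) < κ z
          rw [h]; exact ha
      · intro e he
        obtain ⟨a, _, ha⟩ := Finset.exists_ne_zero_of_sum_ne_zero he
        have haz : pt w a = z := by
          by_contra h
          exact left_ne_zero_of_mul ha (ht a h)
        have hf : f a e ≠ 0 := fun h0 => right_ne_zero_of_mul ha (by rw [h0, map_zero])
        rcases hsupp a e hf with h | h
        · show κ (pt w e) < κ z
          rw [← haz]; exact h
        · exact absurd (ht' e (h.trans haz)) he
      · show ¬ κ (pt w b) < κ z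
        rw [hb]; exact lt_irrefl _
    · exact ht b hb
  by_cases hn : Y = ∅
  · by_cases hn0 : Nonempty (Fin n)
    · obtain ⟨i0⟩ := hn0
      obtain ⟨l, h1, h2, h3⟩ := key (fun _ => i0)
      refine ⟨l, fun b => (h1 b).congr (by rw [hn]; simp), h2, fun e he => ?_⟩
      rw [← h3 e he]
      simp only [P, hn, Finset.prod_empty, one_mul]
    · obtain ⟨l, h1, h2⟩ := hspan _ _ hg
      have hall : ∀ x : W n, x = z := fun x => Equiv.ext fun i => absurd ⟨i⟩ hn0
      exact ⟨l, h1, fun b hb => absurd (hall _) hb, fun e _ => h2 e⟩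
  obtain ⟨y0, hy0⟩ := Finset.nonempty_iff_ne_empty.mpr hn
  have hsep : ∀ y, y ≠ z → ∃ i, y i ≠ z i := by
    intro y hy
    by_contra h
    push Not at h
    exact hy (Equiv.ext h)
  obtain ⟨j0, _⟩ := hsep y0 (hY y0 hy0).1
  have hsep' : ∀ y : W n, ∃ i, y ∈ Y → y i ≠ z i := by
    intro y
    by_cases hy : y ∈ Y
    · obtain ⟨i, hi⟩ := hsep y (hY y hy).1
      exact ⟨i, fun _ => hi⟩
    · exact ⟨j0, fun h => absurd h hy⟩
  choose i0 hi0 using hsep'
  have hP0 : P i0 ≠ 0 :=
    Finset.prod_ne_zero_iff.mpr fun y hy => X_sub_ne_zero (hi0 y hy).symm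
  have hP0' : io k (P i0) ≠ 0 := io_ne_zero hP0
  obtain ⟨l0, h1, h2, h3⟩ := key i0
  have hint : ∀ b, ∃ r, io k (l0 b) / io k (P i0) = io k r := by
    intro b
    refine cop j0 z Y hY _ fun i _ => ?_
    obtain ⟨l, _, g2, g3⟩ := key i
    refine ⟨l b, ?_⟩
    have := uniq (fun b => io k (P i * l0 b - P i0 * l b))
      (fun b hb => by rw [h2 b hb, g2 b hb]; simp)
      (fun e he => by
        have e1 : ∑ b, (P i * l0 b - P i0 * l b) * f b e = 0 := by
          have e2 : ∑ b, (P i * l0 b - P i0 * l b) * f b e =
              P i * ∑ b, l0 b * f b e - P i0 * ∑ b, l b * f b e := by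
            rw [Finset.mul_sum, Finset.mul_sum, ← Finset.sum_sub_distrib]
            exact Finset.sum_congr rfl fun b _ => by ring
          rw [e2, ← h3 e he, ← g3 e he]
          ring
        have e3 := congrArg (io k) e1
        rw [map_sum, map_zero] at e3
        simpa only [map_mul] using e3) b
    rw [map_sub, map_mul, map_mul, sub_eq_zero] at this
    show io k (P i) * (io k (l0 b) / io k (P i0)) = io k (l b)
    rw [← mul_div_assoc, this, mul_div_cancel_left₀ _ hP0']
  choose r hr using hint
  have hr' : ∀ b, l0 b = P i0 * r b := by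
    intro b
    apply io_inj
    rw [map_mul, ← hr b, mul_div_cancel₀ _ hP0']
  have hPz : Hz Y.card (P i0) := Hz.prod_one Y fun y _ => (Hz.X _).sub (Hz.X _)
  refine ⟨r, fun b => ?_, fun b hb => ?_, fun e he => ?_⟩
  · exact (Hz.of_mul hPz hP0 (hr' b ▸ h1 b)).congr (by ring)
  · have := h2 b hb
    rw [hr' b] at this
    exact (mul_eq_zero.mp this).resolve_left hP0
  · apply mul_left_cancel₀ hP0
    rw [h3 e he, Finset.mul_sum]
    exact Finset.sum_congr rfl fun b _ => by rw [hr' b]; ring

/-- Graded combinations of a family. -/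
private def Comb {w : List (Let n)} (c : Idx w → Idx w → RR k n) (d : ℤ) (m : Idx w → RR k n) :
    Prop :=
  ∃ l : Idx w → RR k n, (∀ a, Hz (d - dg w a) (l a)) ∧ ∀ e, m e = ∑ a, l a * c a e

omit [IsDomain k] in
private theorem Comb.zero {w : List (Let n)} (c : Idx w → Idx w → RR k n) (d : ℤ) :
    Comb c d (fun _ => 0) :=
  ⟨fun _ => 0, fun _ => Hz.zero _, fun e => by simp⟩

omit [IsDomain k] in
private theorem Comb.add {w : List (Let n)} {c : Idx w → Idx w → RR k n} {d : ℤ}
    {m m' : Idx w → RR k n} (h : Comb c d m) (h' : Comb c d m') :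
    Comb c d (fun e => m e + m' e) := by
  obtain ⟨l, h1, h2⟩ := h
  obtain ⟨l', h1', h2'⟩ := h'
  refine ⟨fun a => l a + l' a, fun a => (h1 a).add (h1' a), fun e => ?_⟩
  beta_reduce
  rw [h2 e, h2' e, ← Finset.sum_add_distrib]
  exact Finset.sum_congr rfl fun a _ => by ring

omit [IsDomain k] in
private theorem Comb.smul {w : List (Let n)} {c : Idx w → Idx w → RR k n} {i d : ℤ} {r : RR k n}
    {m : Idx w → RR k n} (hr : Hz i r) (h : Comb c d m) : Comb c (i + d) (fun e => r * m e) := by
  obtain ⟨l, h1, h2⟩ := h
  refine ⟨fun a => r * l a, fun a => (hr.mul (h1 a)).congr (by ring), fun e => ?_⟩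
  beta_reduce
  rw [h2 e, Finset.mul_sum]
  exact Finset.sum_congr rfl fun a _ => by ring

omit [IsDomain k] in
private theorem Comb.sum {A : Type} {w : List (Let n)} {c : Idx w → Idx w → RR k n} {d : ℤ}
    (S : Finset A) {m : A → Idx w → RR k n} (h : ∀ a ∈ S, Comb c d (m a)) :
    Comb c d (fun e => ∑ a ∈ S, m a e) := by
  classical
  induction S using Finset.induction_on with
  | empty => simpa using Comb.zero c d
  | insert a S ha ih =>
    simp only [Finset.sum_insert ha]
    exact (h a (Finset.mem_insert_self _ _)).add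
      (ih fun b hb => h b (Finset.mem_insert_of_mem hb))

omit [IsDomain k] in
private theorem Comb.self {w : List (Let n)} (c : Idx w → Idx w → RR k n) (a : Idx w) :
    Comb c (dg w a) (c a) := by
  refine ⟨Pi.single a 1, fun b => ?_, fun e => ?_⟩
  · by_cases h : b = a
    · subst h
      rw [Pi.single_eq_same]
      exact Hz.one.congr (by ring)
    · rw [Pi.single_eq_of_ne h]
      exact Hz.zero _
  · rw [Finset.sum_eq_single a]
    · rw [Pi.single_eq_same, one_mul]
    · intro b _ hb
      rw [Pi.single_eq_of_ne hb, zero_mul]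
    · intro h
      exact absurd (Finset.mem_univ a) h

omit [IsDomain k] in
private theorem el_comb {w : List (Let n)} {f : Idx w → Idx w → RR k n} {dd : Idx w → ℤ}
    (hel : ∀ a, El w (dd a) (f a)) {d : ℤ} {l : Idx w → RR k n}
    (hl : ∀ a, Hz (d - dd a) (l a)) (S : Finset (Idx w)) :
    El w d (fun e => ∑ a ∈ S, l a * f a e) :=
  El.sum S (f := fun a e => l a * f a e) fun a _ => (El.smul (hl a) (hel a)).congr (by ring)

/-- Cleaning lemma: a spanning family that is triangular for a rank function refining the Bruhat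
order can be made triangular for the Bruhat order. -/
theorem clean {w : List (Let n)} (κ : W n → ℤ) (hκ : ∀ z x, Le z x → z ≠ x → κ z < κ x)
    {f : Idx w → Idx w → RR k n} (hel : ∀ a, El w (dg w a) (f a))
    (hsupp : ∀ a e, f a e ≠ 0 → κ (pt w e) < κ (pt w a) ∨ pt w e = pt w a)
    (hspan : ∀ d m, El w d m → ∃ l : Idx w → RR k n, (∀ a, Hz (d - dg w a) (l a)) ∧
      ∀ e, m e = ∑ a, l a * f a e) : ∃ c : Idx w → Idx w → RR k n, Adapted w c := by
  classical
  have main : ∀ a : Idx w, ∀ S : Finset (W n), (∀ z ∈ S, ∀ y, κ y < κ z → y ∈ S) →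
      (∀ z ∈ S, κ z < κ (pt w a)) → ∀ l : Idx w → RR k n, (∀ b, Hz (dg w a - dg w b) (l b)) →
      (∀ b, l b ≠ 0 → κ (pt w b) < κ (pt w a)) →
      (∀ e, f a e + ∑ b, l b * f b e ≠ 0 → Le (pt w e) (pt w a) ∨ pt w e ∈ S) →
      ∃ l' : Idx w → RR k n, (∀ b, Hz (dg w a - dg w b) (l' b)) ∧
        (∀ b, l' b ≠ 0 → κ (pt w b) < κ (pt w a)) ∧
        ∀ e, f a e + ∑ b, l' b * f b e ≠ 0 → Le (pt w e) (pt w a) := by
    intro a S
    induction S using Finset.induction_on_max_value κ with
    | empty =>
      intro _ _ l h1 h2 h3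
      exact ⟨l, h1, h2, fun e he => (h3 e he).resolve_right (Finset.notMem_empty _)⟩
    | insert z S hzS hmax ih =>
      intro hcl hlt l h1 h2 h3
      have hcl' : ∀ z' ∈ S, ∀ y, κ y < κ z' → y ∈ S := by
        intro z' hz' y hy
        rcases Finset.mem_insert.mp (hcl z' (Finset.mem_insert_of_mem hz') y hy) with h | h
        · have := hmax z' hz'
          rw [h] at hy
          omega
        · exact h
      have hlt' : ∀ z' ∈ S, κ z' < κ (pt w a) := fun z' hz' =>
        hlt z' (Finset.mem_insert_of_mem hz')
      by_cases hle : Le z (pt w a)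
      · refine ih hcl' hlt' l h1 h2 fun e he => ?_
        rcases h3 e he with h | h
        · exact Or.inl h
        · rcases Finset.mem_insert.mp h with h | h
          · left; rw [h]; exact hle
          · exact Or.inr h
      · have hg : El w (dg w a) (fun e => f a e + ∑ b, l b * f b e) :=
          (hel a).add (el_comb (dd := fun b => (dg w b : ℤ)) hel h1 Finset.univ)
        obtain ⟨r, r1, r2, r3⟩ := kill κ hsupp hspan hg z (by
          intro e he hz1 hz2 i j hij
          rcases swap_comparable z i j with h | h
          · rw [← hij] at h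
            have := hκ _ _ h hz2
            omega
          · rw [← hij] at h
            have h5 := hκ _ _ h (Ne.symm hz2)
            rcases h3 e he with h4 | h4
            · exact hle (h.trans h4)
            · rcases Finset.mem_insert.mp h4 with h4 | h4
              · exact hz2 h4
              · have := hmax _ h4
                omega)
        refine ih hcl' hlt' (fun b => l b - r b) (fun b => (h1 b).sub (r1 b)) ?_ ?_
        · intro b hb
          by_cases hlb : l b = 0
          · have hrb : r b ≠ 0 := fun h => hb (by rw [hlb, h, sub_zero])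
            have hbz : pt w b = z := by
              by_contra h
              exact hrb (r2 b h)
            rw [hbz]
            exact hlt z (Finset.mem_insert_self _ _)
          · exact h2 b hlb
        · intro e he
          have e1 : f a e + ∑ b, (l b - r b) * f b e =
              (f a e + ∑ b, l b * f b e) - ∑ b, r b * f b e := by
            rw [add_sub_assoc, ← Finset.sum_sub_distrib]
            congr 1
            exact Finset.sum_congr rfl fun b _ => by ring
          rw [e1] at he
          have hez : pt w e ≠ z := fun h => he (by rw [← r3 e h, sub_self])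
          by_cases h0 : ∑ b, r b * f b e = 0
          · rw [h0, sub_zero] at he
            rcases h3 e he with h | h
            · exact Or.inl h
            · exact Or.inr ((Finset.mem_insert.mp h).resolve_left hez)
          · obtain ⟨b, _, hb⟩ := Finset.exists_ne_zero_of_sum_ne_zero h0
            have hbz : pt w b = z := by
              by_contra h
              exact left_ne_zero_of_mul hb (r2 b h)
            rcases hsupp b e (right_ne_zero_of_mul hb) with h | h
            · rw [hbz] at h
              exact Or.inr ((Finset.mem_insert.mp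
                (hcl z (Finset.mem_insert_self _ _) _ h)).resolve_left hez)
            · exact absurd (h.trans hbz) hez
  have main' : ∀ a : Idx w, ∃ l' : Idx w → RR k n, (∀ b, Hz (dg w a - dg w b) (l' b)) ∧
      (∀ b, l' b ≠ 0 → κ (pt w b) < κ (pt w a)) ∧
      ∀ e, f a e + ∑ b, l' b * f b e ≠ 0 → Le (pt w e) (pt w a) := by
    intro a
    refine main a (Finset.univ.filter fun z => κ z < κ (pt w a)) ?_ ?_ (fun _ => 0)
      (fun _ => Hz.zero _) (fun _ h => absurd rfl h) ?_
    · intro z hz y hy
      exact Finset.mem_filter.mpr ⟨Finset.mem_univ _, hy.trans (Finset.mem_filter.mp hz).2⟩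
    · intro z hz
      exact (Finset.mem_filter.mp hz).2
    · intro e he
      simp only [zero_mul, Finset.sum_const_zero, add_zero] at he
      rcases hsupp a e he with h | h
      · exact Or.inr (Finset.mem_filter.mpr ⟨Finset.mem_univ _, h⟩)
      · left; rw [h]; exact Le.refl _
  choose L L1 L2 L3 using main'
  let c : Idx w → Idx w → RR k n := fun a e => f a e + ∑ b, L a b * f b e
  have hf : ∀ a, Comb c (dg w a) (f a) := by
    have wf : WellFounded (fun b a : Idx w => κ (pt w b) < κ (pt w a)) :=
      @Finite.wellFounded_of_trans_of_irrefl _ _ _ ⟨fun _ _ _ h1 h2 => h1.trans h2⟩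
        ⟨fun _ => lt_irrefl _⟩
    intro a
    induction a using wf.induction with
    | _ a ih =>
      have h1 : Comb c (dg w a) (fun e => ∑ b, (-L a b) * f b e) := by
        refine Comb.sum Finset.univ (m := fun b e => (-L a b) * f b e) fun b _ => ?_
        by_cases hb : L a b = 0
        · simpa [hb] using Comb.zero c (dg w a)
        · have := Comb.smul (L1 a b).neg (ih b (L2 a b hb))
          rwa [sub_add_cancel] at this
      have h2 := (Comb.self c a).add h1
      convert h2 using 2 with e
      simp only [c, neg_mul, Finset.sum_neg_distrib]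
      ring
  refine ⟨c, fun a => (hel a).add (el_comb (dd := fun b => (dg w b : ℤ)) hel (L1 a) Finset.univ),
    fun a e he => L3 a e he, fun d m hm => ?_⟩
  obtain ⟨l, h1, h2⟩ := hspan d m hm
  have h3 : Comb c d (fun e => ∑ a, l a * f a e) := by
    refine Comb.sum Finset.univ (m := fun a e => l a * f a e) fun a _ => ?_
    have := Comb.smul (h1 a) (hf a)
    rwa [sub_add_cancel] at this
  obtain ⟨l', g1, g2⟩ := h3
  exact ⟨l', g1, fun e => (h2 e).trans (g2 e)⟩

/-- The upper element of the coset `{z, z s}`. -/
private def upS (s : Let n) (z : W n) : W n := if Asc z s then z * s.sw else z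

private theorem upS_mul (s : Let n) (z : W n) : upS s (z * s.sw) = upS s z := by
  unfold upS
  by_cases h : Asc z s
  · rw [if_pos h, if_neg (fun h' => (asc_mul_sw z s).mp h' h)]
  · rw [if_neg h, if_pos ((asc_mul_sw z s).mpr h), mul_sw_sw]

private theorem upS_le (s : Let n) {z x : W n} (h : Le z x) : Le (upS s z) (upS s x) := by
  unfold upS
  by_cases hx : Asc x s <;> by_cases hz : Asc z s
  · rw [if_pos hx, if_pos hz]; exact le_mono h hx
  · rw [if_pos hx, if_neg hz]; exact h.trans (le_mul_sw_of_asc hx)
  · rw [if_neg hx, if_pos hz]; exact mul_sw_le hx h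
  · rw [if_neg hx, if_neg hz]; exact h

private theorem upS_pt (s : Let n) (w : List (Let n)) (e : Idx (s :: w)) :
    upS s (pt (s :: w) e) = upS s (pt w e.1) := by
  obtain ⟨e, b⟩ := e
  cases b
  · rw [pt_false]
  · rw [pt_true, upS_mul]

private def kap (s : Let n) (z : W n) : ℤ :=
  -2 * (phi (upS s z) : ℤ) + if Asc z s then 0 else 1

private theorem kap_lt (s : Let n) {z x : W n} (h : Le (upS s z) (upS s x))
    (hne : upS s z ≠ upS s x) : kap s z < kap s x := by
  have := phi_lt_of_le h hne
  unfold kap
  split_ifs <;> omega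

private theorem kap_cases (s : Let n) {z x : W n} (h : upS s z = upS s x) :
    z = x ∨ (Asc z s ∧ ¬ Asc x s ∧ kap s z < kap s x) ∨ (Asc x s ∧ z = x * s.sw) := by
  by_cases hx : Asc x s <;> by_cases hz : Asc z s
  · left
    unfold upS at h
    rw [if_pos hx, if_pos hz] at h
    exact mul_right_cancel h
  · right; right
    unfold upS at h
    rw [if_pos hx, if_neg hz] at h
    exact ⟨hx, h⟩
  · right; left
    refine ⟨hz, hx, ?_⟩
    unfold kap
    rw [h, if_pos hz, if_neg hx]
    omega
  · left
    unfold upS at h
    rwa [if_neg hx, if_neg hz] at h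

theorem exists_adapted (k : Type) [CommRing k] [IsDomain k] (w : List (Let n)) :
    ∃ c : Idx w → Idx w → RR k n, Adapted w c := by
  induction w with
  | nil =>
    refine ⟨fun _ _ => 1, fun _ => el_one [], fun _ _ _ => Le.refl _, fun d m hm => ?_⟩
    refine ⟨m, fun a => (hm.2 a).congr (by simp [dg]), fun e => ?_⟩
    rw [Finset.sum_eq_single e]
    · rw [mul_one]
    · intro b _ hb
      exact absurd rfl hb
    · intro h
      exact absurd (Finset.mem_univ e) h
  | cons s w ih =>
    obtain ⟨c, hc⟩ := ih
    let ρ : Idx w → Idx (s :: w) → RR k n := fun a e =>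
      X (pt (s :: w) e s.lo) - X (upS s (pt w a) s.lo)
    have hρ : ∀ a, El (s :: w) 1 (ρ a) := by
      intro a
      have h2 := (El.smul (Hz.X (k := k) (upS s (pt w a) s.lo))
        (el_one (k := k) (s :: w))).congr (add_zero 1)
      have h3 := (el_X (k := k) (s :: w) s.lo).sub h2
      convert h3 using 1
      funext e
      simp only [ρ, Pi.sub_apply, mul_one]
    let f : Idx (s :: w) → Idx (s :: w) → RR k n := fun a e =>
      if Asc (pt (s :: w) a) s then ρ a.1 e * c a.1 e.1 else c a.1 e.1
    refine clean (kap s) ?_ (f := f) ?_ ?_ ?_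
    · intro z x hle hne
      by_cases hu : upS s z = upS s x
      · rcases kap_cases s hu with h | h | h
        · exact absurd h hne
        · exact h.2.2
        · exact absurd (hle.antisymm (h.2 ▸ le_mul_sw_of_asc h.1)) hne
      · exact kap_lt s (upS_le s hle) hu
    · intro a
      by_cases h : Asc (pt (s :: w) a) s
      · have h1 := (hρ a.1).mul (el_diag s (hc.el a.1))
        have h2 : f a = fun e => ρ a.1 e * c a.1 e.1 := funext fun e => if_pos h
        rw [h2]
        exact h1.congr (by simp only [dg, if_pos h]; push_cast; ring)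
      · have h2 : f a = fun e => c a.1 e.1 := funext fun e => if_neg h
        rw [h2]
        exact (el_diag s (hc.el a.1)).congr (by simp only [dg, if_neg h]; push_cast; ring)
    · intro a e he
      have h0 : c a.1 e.1 ≠ 0 := by
        intro h
        apply he
        simp only [f, h, mul_zero, ite_self]
      have h1 := upS_le s (hc.below a.1 e.1 h0)
      rw [← upS_pt, ← upS_pt] at h1
      by_cases hu : upS s (pt (s :: w) e) = upS s (pt (s :: w) a)
      · rcases kap_cases s hu with h | h | h
        · exact Or.inr h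
        · exact Or.inl h.2.2
        · exfalso
          apply he
          have h3 : upS s (pt w a.1) = pt (s :: w) e := by
            rw [← upS_pt, h.2, upS, if_pos h.1]
          simp only [f, if_pos h.1, ρ, h3, sub_self, zero_mul]
      · exact Or.inl (kap_lt s h1 hu)
    · intro d F hF
      obtain ⟨h0, _, g, hg, hg'⟩ := hF.cons
      obtain ⟨l1, a1, a2⟩ := hc.span _ _ hg
      have hG : El w d (fun e => F (e, false) - ∑ a, l1 a * (ρ a (e, false) * c a e)) := by
        refine h0.sub (El.sum Finset.univ
          (f := fun a e => l1 a * (ρ a (e, false) * c a e)) fun a _ => ?_)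
        exact (El.smul (a1 a) ((hρ a).cons.1.mul (hc.el a))).congr (by ring)
      obtain ⟨l0, b1, b2⟩ := hc.span _ _ hG
      refine ⟨fun a => if Asc (pt (s :: w) a) s then l1 a.1 else l0 a.1, fun a => ?_, fun e => ?_⟩
      · beta_reduce
        by_cases h : Asc (pt (s :: w) a) s
        · rw [if_pos h]
          exact (a1 a.1).congr (by simp only [dg, if_pos h]; push_cast; ring)
        · rw [if_neg h]
          exact (b1 a.1).congr (by simp only [dg, if_neg h]; push_cast; ring)
      · rw [sum_idx]
        have e1 : ∀ a : Idx w,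
            (if Asc (pt (s :: w) (a, false)) s then l1 a else l0 a) * f (a, false) e +
            (if Asc (pt (s :: w) (a, true)) s then l1 a else l0 a) * f (a, true) e =
            l1 a * (ρ a e * c a e.1) + l0 a * c a e.1 := by
          intro a
          by_cases h : Asc (pt w a) s
          · have h' : ¬ Asc (pt w a * s.sw) s := fun h' => (asc_mul_sw _ s).mp h' h
            simp only [f, pt_false, pt_true, if_pos h, if_neg h']
          · have h' : Asc (pt w a * s.sw) s := (asc_mul_sw _ s).mpr h
            simp only [f, pt_false, pt_true, if_neg h, if_pos h']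
            ring
        rw [Finset.sum_congr rfl fun a _ => e1 a, Finset.sum_add_distrib, ← b2 e.1]
        obtain ⟨e, b⟩ := e
        cases b
        · ring
        · have e2 : ∑ a, l1 a * (ρ a (e, false) * c a e) - ∑ a, l1 a * (ρ a (e, true) * c a e) =
              rt k (pt w e) s * g e := by
            rw [a2 e, Finset.mul_sum, ← Finset.sum_sub_distrib]
            refine Finset.sum_congr rfl fun a _ => ?_
            simp only [ρ, pt_false, pt_true, rt, Equiv.Perm.mul_apply, Let.sw_lo]
            ring
          have e3 := hg' e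
          linear_combination e2 - e3

variable {w : List (Let n)} {c : Idx w → Idx w → RR k n}

/-- Uniqueness of the expansion, in the form used for products. -/
theorem Adapted.coeff_eq_zero (hc : Adapted w c) (I : Set (W n))
    (hI : ∀ x ∈ I, ∀ z, Le z x → z ∈ I) {l : Idx w → RR k n}
    (hl : ∀ e, (∑ a, l a * c a e) ≠ 0 → pt w e ∈ I) : ∀ a, pt w a ∉ I → l a = 0 :=
  coeff_zero_R (dd := fun a => (dg w a : ℤ)) hc.span {a | pt w a ∈ I}
    (fun a ha e he => hI _ ha _ (hc.below a e he)) hl

/-- Expansion of an element without support strictly above `y`: the coefficients of the basis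
elements strictly above `y` vanish. -/
theorem Adapted.expand (hc : Adapted w c) {y : W n} {d : ℤ} {m : Idx w → RR k n} (hm : El w d m)
    (hy : NoAbove w y m) : ∃ l : Idx w → RR k n, (∀ a, Hz (d - dg w a) (l a)) ∧
      ∀ e, pt w e = y → m e = ∑ a ∈ Finset.univ.filter (fun a => pt w a = y), l a * c a e := by
  obtain ⟨l, h1, h2⟩ := hc.span d m hm
  refine ⟨l, h1, fun e he => ?_⟩
  have h3 := hc.coeff_eq_zero {x | ¬ (Le y x ∧ x ≠ y)}
    (by
      rintro x hx z hz ⟨h4, h5⟩
      apply hx
      refine ⟨h4.trans hz, fun h6 => h5 ?_⟩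
      rw [h6] at hz
      exact hz.antisymm h4) (l := l)
    (by
      rintro e' he' ⟨h4, h5⟩
      rw [← h2 e'] at he'
      exact h5 (hy e' he' h4))
  rw [h2 e]
  refine (Finset.sum_filter_of_ne fun a _ ha => ?_).symm
  by_contra hne
  have h4 := hc.below a e (right_ne_zero_of_mul ha)
  rw [he] at h4
  exact left_ne_zero_of_mul ha (h3 a (fun h => h ⟨h4, hne⟩))

theorem below_of_noAbove {y : W n} {d : ℤ} {m : Idx w → RR k n} (hm : El w d m)
    (hy : NoAbove w y m) : ∃ m', El w d m' ∧ Below w y m' ∧ ∀ e, pt w e = y → m' e = m e := by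
  obtain ⟨c, hc⟩ := exists_adapted k w
  obtain ⟨l, h1, h2⟩ := hc.expand hm hy
  refine ⟨_, el_comb (dd := fun a => (dg w a : ℤ)) hc.el h1
    (Finset.univ.filter fun a => pt w a = y), fun e he => ?_, fun e he => (h2 e he).symm⟩
  obtain ⟨a, ha, ha'⟩ := Finset.exists_ne_zero_of_sum_ne_zero he
  rw [← (Finset.mem_filter.mp ha).2]
  exact hc.below a e (right_ne_zero_of_mul ha')

/-- The dual basis. -/
theorem Adapted.dual (hc : Adapted w c) : ∃ cv : Idx w → Idx w → RR k n,
    (∀ a, El w (w.length - dg w a) (cv a)) ∧ (∀ a, Above w (pt w a) (cv a)) ∧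
    (∀ a b, integ w (fun e => up (c b) e * up (cv a) e) = if b = a then 1 else 0) ∧
    ∀ d m, El w d m → ∃ l : Idx w → RR k n, (∀ a, Hz (d + dg w a - w.length) (l a)) ∧
      (∀ a, io k (l a) = integ w (fun e => up (c a) e * up m e)) ∧
      ∀ e, m e = ∑ a, l a * cv a e := by
  have hu := span_isUnit (dd := fun a => (dg w a : ℤ)) hc.span
  set M : Matrix (Idx w) (Idx w) (QQ k n) := Matrix.of fun e a => io k (c a e) with hM
  obtain ⟨inv⟩ := hu.nonempty_invertible
  have hE : ∀ e, io k (eul k w e) ≠ 0 := fun e => io_ne_zero (eul_ne_zero w e)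
  have hNM : ∀ a b, ∑ e, M⁻¹ a e * io k (c b e) = if a = b then 1 else 0 := by
    intro a b
    have := congrFun (congrFun (Matrix.inv_mul_of_invertible M) a) b
    rwa [Matrix.mul_apply, Matrix.one_apply] at this
  have hMN : ∀ e e', ∑ a, io k (c a e) * M⁻¹ a e' = if e = e' then 1 else 0 := by
    intro e e'
    have := congrFun (congrFun (Matrix.mul_inv_of_invertible M) e) e'
    rwa [Matrix.mul_apply, Matrix.one_apply] at this
  have hpair : ∀ a (g : Idx w → QQ k n),
      integ w (fun e => g e * (M⁻¹ a e * io k (eul k w e))) = ∑ e, M⁻¹ a e * g e := by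
    intro a g
    refine Finset.sum_congr rfl fun e _ => ?_
    have := hE e
    field_simp
  have hex : ∀ a, ∃ m', El w (-(dg w a : ℤ) + w.length) m' ∧
      (fun e => M⁻¹ a e * io k (eul k w e)) = up m' := by
    intro a
    refine perfect w _ _ fun d m hm => ?_
    obtain ⟨l, h1, h2⟩ := hc.span d m hm
    refine ⟨l a, (h1 a).congr (by ring), ?_⟩
    rw [hpair]
    have e1 : ∀ e, M⁻¹ a e * up m e = ∑ b, io k (l b) * (M⁻¹ a e * io k (c b e)) := by
      intro e
      rw [up, h2 e, map_sum, Finset.mul_sum]
      exact Finset.sum_congr rfl fun b _ => by rw [map_mul]; ring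
    rw [Finset.sum_congr rfl fun e _ => e1 e, Finset.sum_comm]
    simp only [← Finset.mul_sum, hNM]
    simp
  choose cv cv1 cv2 using hex
  have cv3 : ∀ a e, io k (cv a e) = M⁻¹ a e * io k (eul k w e) := fun a e =>
    (congrFun (cv2 a) e).symm
  refine ⟨cv, fun a => (cv1 a).congr (by ring), fun a e he => ?_, fun a b => ?_,
    fun d m hm => ?_⟩
  · by_contra hn
    refine he (hc.coeff_eq_zero {x | Le x (pt w e)} (fun x hx z hz => hz.trans hx)
      (l := fun b => cv b e) (fun e' he' => ?_) a hn)
    have e1 : io k (∑ b, cv b e * c b e') = (if e' = e then 1 else 0) * io k (eul k w e) := by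
      rw [← hMN, map_sum, Finset.sum_mul]
      exact Finset.sum_congr rfl fun b _ => by rw [map_mul, cv3]; ring
    by_cases h : e' = e
    · rw [h]; exact Le.refl _
    · rw [if_neg h, zero_mul] at e1
      exact absurd (io_inj (e1.trans (map_zero _).symm)) he'
  · rw [← cv2 a, hpair]
    have := hNM a b
    simp only [up]
    rw [this]
    simp only [eq_comm]
  · have h1 : ∀ a, ∃ r, Hz (dg w a + d - w.length) r ∧
        integ w (up fun e => c a e * m e) = io k r := fun a => integ_el ((hc.el a).mul hm)
    choose l l1 l2 using h1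
    have l3 : ∀ a, io k (l a) = integ w (fun e => up (c a) e * up m e) := by
      intro a
      rw [← l2 a]
      congr 1
      funext e
      simp only [up, map_mul]
    refine ⟨l, fun a => (l1 a).congr (by ring), l3, fun e => ?_⟩
    apply io_inj
    rw [map_sum]
    have e1 : ∀ a, io k (l a * cv a e) = ∑ e', (io k (c a e') * M⁻¹ a e) *
        (io k (m e') / io k (eul k w e') * io k (eul k w e)) := by
      intro a
      rw [map_mul, l3, cv3, integ, Finset.sum_mul]
      exact Finset.sum_congr rfl fun e' _ => by simp only [up]; ring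
    rw [Finset.sum_congr rfl fun a _ => e1 a, Finset.sum_comm]
    simp only [← Finset.sum_mul, hMN]
    have := hE e
    simp only [ite_mul, one_mul, zero_mul, Finset.sum_ite_eq', Finset.mem_univ, if_true]
    field_simp

theorem above_of_noBelow {x : W n} {d : ℤ} {m : Idx w → RR k n} (hm : El w d m)
    (hx : NoBelow w x m) : ∃ m', El w d m' ∧ Above w x m' ∧ ∀ e, pt w e = x → m' e = m e := by
  obtain ⟨c, hc⟩ := exists_adapted k w
  obtain ⟨cv, h1, h2, _, h4⟩ := hc.dual
  obtain ⟨l, l1, l2, l3⟩ := h4 d m hm
  refine ⟨_, el_comb (dd := fun a => (w.length : ℤ) - dg w a) h1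
    (fun a => (l1 a).congr (by ring)) (Finset.univ.filter fun a => pt w a = x),
    fun e he => ?_, fun e he => ?_⟩
  · obtain ⟨a, ha, ha'⟩ := Finset.exists_ne_zero_of_sum_ne_zero he
    rw [← (Finset.mem_filter.mp ha).2]
    exact h2 a e (right_ne_zero_of_mul ha')
  · rw [l3 e]
    refine Finset.sum_filter_of_ne fun a _ ha => ?_
    by_contra hne
    have h5 := h2 a e (right_ne_zero_of_mul ha)
    rw [he] at h5
    apply left_ne_zero_of_mul ha
    apply io_inj
    rw [l2 a, map_zero]
    refine Finset.sum_eq_zero fun e' _ => ?_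
    by_cases hc0 : c a e' = 0
    · simp only [up, hc0, map_zero, zero_mul, zero_div]
    · by_cases hm0 : m e' = 0
      · simp only [up, hm0, map_zero, mul_zero, zero_div]
      · have h6 := hc.below a e' hc0
        have h7 := hx e' hm0 (h6.trans h5)
        rw [h7] at h6
        exact absurd (h5.antisymm h6) hne

end Pool.Agent.PCan
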