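import Pool.Agent.Lib.MP_b03f2e_al.Perm

/-! Words, subexpressions, windows and the statistic `sig`. -/

namespace Pool.Agent.PCan

variable {n : ℕ}

@[simp] theorem pt_nil (e : Idx ([] : List (Let n))) : pt [] e = 1 := rfl
@[simp] theorem pt_true (s : Let n) (w : List (Let n)) (e : Idx w) :
    pt (s :: w) (e, true) = pt w e * s.sw := rfl
@[simp] theorem pt_false (s : Let n) (w : List (Let n)) (e : Idx w) :
    pt (s :: w) (e, false) = pt w e := rfl
@[simp] theorem prodL_nil : prodL ([] : List (Let n)) = 1 := rfl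
@[simp] theorem prodL_cons (s : Let n) (w : List (Let n)) : prodL (s :: w) = prodL w * s.sw := rfl
theorem sum_idx {M : Type} [AddCommMonoid M] (s : Let n) (w : List (Let n))
    (f : Idx (s :: w) → M) : ∑ e, f e = ∑ e : Idx w, (f (e, false) + f (e, true)) := by
  rw [Fintype.sum_prod_type]
  exact Finset.sum_congr rfl fun e _ => by rw [Fintype.sum_bool, add_comm]

theorem Red.len {w : List (Let n)} (h : Red w) : len (prodL w) = w.length := by
  induction h with
  | nil => simp
  | cons _ ha ih => rw [prodL_cons, len_mul_sw ha, ih, List.length_cons]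
theorem Red.le_top {w : List (Let n)} (h : Red w) (e : Idx w) : Le (pt w e) (prodL w) := by
  induction h with
  | nil => exact Le.refl _
  | cons _ ha ih =>
    obtain ⟨e, b⟩ := e
    cases b
    · exact (ih e).trans (le_mul_sw_of_asc ha)
    · exact le_mono (ih e) ha
theorem Red.eq_top {w : List (Let n)} (h : Red w) {e : Idx w} (he : pt w e = prodL w) :
    e = top w := by
  induction h with
  | nil => rfl
  | cons hw ha ih =>
    obtain ⟨e, b⟩ := e
    cases b
    · rw [pt_false, prodL_cons] at he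
      exact (mul_sw_ne _ _ (Le.antisymm (he ▸ hw.le_top e) (le_mul_sw_of_asc ha))).elim
    · rw [pt_true, prodL_cons] at he
      exact Prod.ext (ih (mul_right_cancel he)) rfl

theorem pt_pairI (w u : List (Let n)) (e : Idx w) (f : Idx u) :
    pt (u ++ w) (pairI w u e f) = pt w e * pt u f := by
  induction u with
  | nil => exact (mul_one _).symm
  | cons s u ih =>
    obtain ⟨f, b⟩ := f
    cases b
    · exact ih f
    · change pt (u ++ w) (pairI w u e f) * s.sw = pt w e * (pt u f * s.sw)
      rw [ih, mul_assoc]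
theorem pairI_surj (w u : List (Let n)) (x : Idx (u ++ w)) : ∃ e f, x = pairI w u e f := by
  induction u with
  | nil => exact ⟨x, (), rfl⟩
  | cons s u ih =>
    obtain ⟨x, b⟩ := x
    obtain ⟨e, f, rfl⟩ := ih x
    exact ⟨e, (f, b), rfl⟩
theorem pairI_inj (w u : List (Let n)) {e e' : Idx w} {f f' : Idx u}
    (h : pairI w u e f = pairI w u e' f') : e = e' ∧ f = f' := by
  induction u with
  | nil => exact ⟨h, rfl⟩
  | cons s u ih =>
    obtain ⟨h1, h2⟩ := Prod.ext_iff.1 h
    exact ⟨(ih h1).1, Prod.ext (ih h1).2 h2⟩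
theorem sum_pairI {M : Type} [AddCommMonoid M] (w u : List (Let n)) (F : Idx (u ++ w) → M) :
    ∑ x, F x = ∑ e : Idx w, ∑ f : Idx u, F (pairI w u e f) := by
  rw [← Fintype.sum_prod_type']
  refine (Fintype.sum_bijective (fun p : Idx w × Idx u => pairI w u p.1 p.2) ⟨fun p q h => ?_,
    fun x => ?_⟩ _ _ fun _ => rfl).symm
  · exact Prod.ext (pairI_inj w u h).1 (pairI_inj w u h).2
  · obtain ⟨e, f, rfl⟩ := pairI_surj w u x
    exact ⟨(e, f), rfl⟩
theorem emb_eq (w u : List (Let n)) (e : Idx w) : emb w u e = pairI w u e (top u) := by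
  induction u with
  | nil => rfl
  | cons s u ih => exact Prod.ext ih rfl
theorem pr_pairI (w u : List (Let n)) (e : Idx w) (f : Idx u) : pr w u (pairI w u e f) = e := by
  induction u with
  | nil => rfl
  | cons s u ih => exact ih f.1
theorem top_append (w u : List (Let n)) : top (u ++ w) = emb w u (top w) := by
  induction u with
  | nil => rfl
  | cons s u ih => exact Prod.ext ih rfl
theorem prodL_append (w u : List (Let n)) : prodL (u ++ w) = prodL w * prodL u := by
  rw [prodL, top_append, emb_eq, pt_pairI]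
  rfl

theorem pt_lf (s : Let n) (w : List (Let n)) (b : Bool) (e : Idx w) :
    pt (w ++ [s]) (lf s w b e) = if b then s.sw * pt w e else pt w e := by
  induction w with
  | nil => cases b <;> simp [lf, pt]
  | cons r w ih =>
    obtain ⟨e, c⟩ := e
    cases c
    · exact ih e
    · change pt (w ++ [s]) (lf s w b e) * r.sw =
        if b then s.sw * (pt w e * r.sw) else pt w e * r.sw
      rw [ih]
      cases b <;> simp [mul_assoc]
theorem lf_surj (s : Let n) (w : List (Let n)) (x : Idx (w ++ [s])) : ∃ b e, x = lf s w b e := by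
  induction w with
  | nil => exact ⟨x.2, (), rfl⟩
  | cons r w ih =>
    obtain ⟨x, c⟩ := x
    obtain ⟨b, e, rfl⟩ := ih x
    exact ⟨b, (e, c), rfl⟩
theorem lf_inj (s : Let n) (w : List (Let n)) {b b' : Bool} {e e' : Idx w}
    (h : lf s w b e = lf s w b' e') : b = b' ∧ e = e' := by
  induction w with
  | nil => exact ⟨(Prod.ext_iff.1 h).2, rfl⟩
  | cons r w ih =>
    obtain ⟨h1, h2⟩ := Prod.ext_iff.1 h
    exact ⟨(ih h1).1, Prod.ext (ih h1).2 h2⟩
theorem sum_lf {M : Type} [AddCommMonoid M] (s : Let n) (w : List (Let n))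
    (F : Idx (w ++ [s]) → M) : ∑ x, F x = ∑ e : Idx w, (F (lf s w false e) + F (lf s w true e)) := by
  have h : ∑ p : Idx w × Bool, F (lf s w p.2 p.1) = ∑ x, F x := by
    refine Fintype.sum_bijective (fun p : Idx w × Bool => lf s w p.2 p.1) ⟨fun p q h => ?_,
      fun x => ?_⟩ _ _ fun _ => rfl
    · exact Prod.ext (lf_inj s w h).2 (lf_inj s w h).1
    · obtain ⟨b, e, rfl⟩ := lf_surj s w x
      exact ⟨(e, b), rfl⟩
  rw [← h, Fintype.sum_prod_type]
  exact Finset.sum_congr rfl fun e _ => by rw [Fintype.sum_bool, add_comm]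

private theorem app_inv (x : W n) (v : Fin n) : x (x⁻¹ v) = v := x.apply_symm_apply v

private theorem fixFrom_mul_sw {t : ℕ} {x : W n} {s : Let n} (h1 : FixFrom t x)
    (h2 : s.a + 1 < t) : FixFrom t (x * s.sw) := by
  intro v hv
  rw [Equiv.Perm.mul_apply, s.sw_other, h1 v hv]
  · rintro rfl
    simp only [Let.lo] at hv
    omega
  · rintro rfl
    simp only [Let.hi] at hv
    omega

private theorem inv_lt_of_fixFrom {t : ℕ} {y : W n} (h : FixFrom t y) {a b : Fin n} (hab : a < b)
    (hy : y b < y a) : b.val < t := by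
  by_contra hb
  rw [h b (by omega)] at hy
  have h1 := Fin.lt_def.1 hy
  have h2 := y.injective (h (y a) (by omega))
  rw [h2] at hy
  exact lt_asymm hab hy

private theorem le_inv_of_fixBelow {t : ℕ} {y : W n} (h : FixBelow t y) {a b : Fin n}
    (hab : a < b) (hy : y b < y a) : t ≤ a.val := by
  by_contra ha
  rw [h a (by omega)] at hy
  have h1 := Fin.lt_def.1 hy
  have h2 := y.injective (h (y b) (by omega))
  rw [h2] at hy
  exact lt_asymm hab hy

theorem Win.fixFrom {t : ℕ} {w : List (Let n)} (h : Win t w) (e : Idx w) :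
    FixFrom t (pt w e) := by
  induction w with
  | nil => exact fun _ _ => rfl
  | cons s w ih =>
    obtain ⟨e, b⟩ := e
    have h1 := ih (fun r hr => h r (List.mem_cons_of_mem _ hr)) e
    cases b
    · exact h1
    · exact fixFrom_mul_sw h1 (h s List.mem_cons_self)
theorem WinHi.fixBelow {t : ℕ} {w : List (Let n)} (h : WinHi t w) (e : Idx w) :
    FixBelow t (pt w e) := by
  induction w with
  | nil => exact fun _ _ => rfl
  | cons s w ih =>
    obtain ⟨e, b⟩ := e
    have h1 := ih (fun r hr => h r (List.mem_cons_of_mem _ hr)) e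
    cases b
    · exact h1
    · have h2 := h s List.mem_cons_self
      intro v hv
      rw [pt_true, Equiv.Perm.mul_apply, s.sw_other, h1 v hv]
      · rintro rfl
        simp only [Let.lo] at hv
        omega
      · rintro rfl
        simp only [Let.hi] at hv
        omega
theorem FixFrom.pres {t : ℕ} {x : W n} (h : FixFrom t x) : Pres t x := by
  intro v
  by_cases hv : v.val < t
  · refine iff_of_true hv ?_
    by_contra h1
    have h2 := x.injective (h (x v) (by omega))
    rw [h2] at h1
    exact h1 hv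
  · rw [h v (by omega)]
theorem FixBelow.pres {t : ℕ} {x : W n} (h : FixBelow t x) : Pres t x := by
  intro v
  by_cases hv : v.val < t
  · rw [h v hv]
  · refine iff_of_false hv fun h1 => ?_
    have h2 := x.injective (h (x v) h1)
    rw [h2] at h1
    exact hv h1
theorem FixFrom.inv {t : ℕ} {x : W n} (h : FixFrom t x) : FixFrom t x⁻¹ :=
  fun v hv => Equiv.Perm.inv_eq_iff_eq.2 (h v hv).symm
theorem FixBelow.inv {t : ℕ} {x : W n} (h : FixBelow t x) : FixBelow t x⁻¹ :=
  fun v hv => Equiv.Perm.inv_eq_iff_eq.2 (h v hv).symm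
theorem Pres.mul {t : ℕ} {x y : W n} (hx : Pres t x) (hy : Pres t y) : Pres t (x * y) :=
  fun v => (hy v).trans (hx (y v))
theorem Pres.inv {t : ℕ} {x : W n} (hx : Pres t x) : Pres t x⁻¹ := by
  intro v
  have := hx (x⁻¹ v)
  rw [app_inv] at this
  exact this.symm
/-- Going down from an element of a window stays in the window. -/
theorem FixFrom.of_le {t : ℕ} {x z : W n} (hx : FixFrom t x) (h : Le z x) : FixFrom t z := by
  induction h with
  | refl => exact hx
  | tail _ hs ih =>
    obtain ⟨a, b, hab, hy, rfl⟩ := hs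
    have hb := inv_lt_of_fixFrom ih hab hy
    intro v hv
    rw [Equiv.Perm.mul_apply, Equiv.swap_apply_of_ne_of_ne, ih v hv]
    · rintro rfl
      have := Fin.lt_def.1 hab
      omega
    · rintro rfl
      omega
theorem FixBelow.of_le {t : ℕ} {x z : W n} (hx : FixBelow t x) (h : Le z x) : FixBelow t z := by
  induction h with
  | refl => exact hx
  | tail _ hs ih =>
    obtain ⟨a, b, hab, hy, rfl⟩ := hs
    have ha := le_inv_of_fixBelow ih hab hy
    intro v hv
    rw [Equiv.Perm.mul_apply, Equiv.swap_apply_of_ne_of_ne, ih v hv]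
    · rintro rfl
      omega
    · rintro rfl
      have := Fin.lt_def.1 hab
      omega

private theorem sig_eq (t : ℕ) (x : W n) :
    sig t x = ∑ p : Fin n, if (x p).val < t then p.val else 0 := by
  unfold sig
  rw [Finset.sum_filter]
  exact (Fintype.sum_equiv x _ _ fun p => by simp).symm

private theorem sig_swap (t : ℕ) (x : W n) {a b : Fin n} (hab : a ≠ b) :
    sig t (x * Equiv.swap a b) + (if (x a).val < t then a.val else 0) +
        (if (x b).val < t then b.val else 0) =
      sig t x + (if (x a).val < t then b.val else 0) + (if (x b).val < t then a.val else 0) := by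
  have key : ∀ f : Fin n → ℕ, ∑ p, f p = f a + f b + ∑ p ∈ (Finset.univ.erase a).erase b, f p := by
    intro f
    rw [add_assoc, Finset.add_sum_erase _ _ (Finset.mem_erase.2 ⟨hab.symm, Finset.mem_univ _⟩),
      Finset.add_sum_erase _ _ (Finset.mem_univ _)]
  have h1 : ∑ p ∈ (Finset.univ.erase a).erase b,
      (if ((x * Equiv.swap a b) p).val < t then p.val else 0) =
      ∑ p ∈ (Finset.univ.erase a).erase b, (if (x p).val < t then p.val else 0) := by
    refine Finset.sum_congr rfl fun p hp => ?_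
    obtain ⟨h2, h3⟩ := Finset.mem_erase.1 hp
    rw [Equiv.Perm.mul_apply, Equiv.swap_apply_of_ne_of_ne (Finset.mem_erase.1 h3).1 h2]
  rw [sig_eq, sig_eq, key, key fun p => if (x p).val < t then p.val else 0, h1]
  simp only [Equiv.Perm.mul_apply, Equiv.swap_apply_left, Equiv.swap_apply_right]
  omega

theorem sig_le {t : ℕ} {z y : W n} (h : Le z y) : sig t z ≤ sig t y := by
  induction h with
  | refl => exact le_rfl
  | tail _ hs ih =>
    obtain ⟨a, b, hab, hy, rfl⟩ := hs
    refine le_trans ?_ ih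
    rename_i y' _
    have h1 := sig_swap t y' hab.ne
    have h2 := Fin.lt_def.1 hab
    have h3 := Fin.lt_def.1 hy
    split_ifs at h1 <;> omega
theorem sig_mul_sw_le (t : ℕ) (x : W n) (s : Let n) : sig t (x * s.sw) ≤ sig t x + 1 := by
  have h1 := sig_swap t x s.lo_ne_hi
  have h2 : s.lo.val = s.a := rfl
  have h3 : s.hi.val = s.a + 1 := rfl
  unfold Let.sw
  split_ifs at h1 <;> omega
theorem sig_mul_sw {t : ℕ} {x : W n} {s : Let n} (h1 : (x s.lo).val < t) (h2 : t ≤ (x s.hi).val) :
    sig t (x * s.sw) = sig t x + 1 := by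
  have h0 := sig_swap t x s.lo_ne_hi
  have h4 : s.lo.val = s.a := rfl
  have h3 : s.hi.val = s.a + 1 := rfl
  unfold Let.sw
  split_ifs at h0 <;> omega
theorem sig_pres_mul {t : ℕ} {g : W n} (hg : Pres t g) (x : W n) : sig t (g * x) = sig t x := by
  rw [sig_eq, sig_eq]
  exact Finset.sum_congr rfl fun p _ => by
    simp only [Equiv.Perm.mul_apply, ← hg (x p)]
theorem sig_sw_mul {t : ℕ} {s : Let n} (hs : s.a + 1 = t) (x : W n) :
    sig t (s.sw * x) + (x⁻¹ s.lo).val = sig t x + (x⁻¹ s.hi).val := by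
  have hm : s.lo ∈ Finset.univ.filter (fun v : Fin n => v.val < t) := by
    simp only [Finset.mem_filter, Finset.mem_univ, true_and, Let.lo]
    omega
  unfold sig
  rw [← Finset.add_sum_erase _ _ hm, ← Finset.add_sum_erase _ (fun v => (x⁻¹ v).val) hm]
  have h1 : ∑ v ∈ (Finset.univ.filter (fun v : Fin n => v.val < t)).erase s.lo,
      ((s.sw * x)⁻¹ v).val =
      ∑ v ∈ (Finset.univ.filter (fun v : Fin n => v.val < t)).erase s.lo, (x⁻¹ v).val := by
    refine Finset.sum_congr rfl fun v hv => ?_
    obtain ⟨h2, h3⟩ := Finset.mem_erase.1 hv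
    rw [mul_inv_rev, Let.sw_inv, Equiv.Perm.mul_apply, s.sw_other h2]
    rintro rfl
    have := (Finset.mem_filter.1 h3).2
    simp only [Let.hi] at this
    omega
  rw [h1, mul_inv_rev, Let.sw_inv, Equiv.Perm.mul_apply, Let.sw_lo]
  omega

private theorem sig_pt (t : ℕ) (u : List (Let n)) (f : Idx u) :
    sig t (pt u f) ≤ sig t (1 : W n) + u.length ∧
      (sig t (1 : W n) + u.length ≤ sig t (pt u f) → f = top u) := by
  induction u with
  | nil => exact ⟨le_rfl, fun _ => rfl⟩
  | cons s u ih =>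
    obtain ⟨f, b⟩ := f
    obtain ⟨h1, h2⟩ := ih f
    cases b
    · rw [pt_false, List.length_cons]
      exact ⟨by omega, fun h => by omega⟩
    · have h3 := sig_mul_sw_le t (pt u f) s
      rw [pt_true, List.length_cons]
      exact ⟨by omega, fun h => Prod.ext (h2 (by omega)) rfl⟩

theorem TS.asc {t : ℕ} {s : Let n} {u : List (Let n)} (h : TS t (s :: u)) {z : W n}
    (hz : Pres t z) : Asc (z * prodL u) s := by
  cases h with
  | cons _ h1 h2 =>
    have h3 := (hz _).1 h1
    have h4 := (hz (prodL u s.hi)).not.1 (by omega)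
    exact Fin.lt_def.2 (by simp only [Equiv.Perm.mul_apply]; omega)
theorem TS.len_mul {t : ℕ} {u : List (Let n)} (h : TS t u) {z : W n} (hz : Pres t z) :
    len (z * prodL u) = len z + u.length := by
  induction h with
  | nil => simp
  | cons hu h1 h2 ih =>
    rw [prodL_cons, ← mul_assoc, len_mul_sw ((TS.cons hu h1 h2).asc hz), ih, List.length_cons,
      add_assoc]
theorem TS.sig_mul {t : ℕ} {u : List (Let n)} (h : TS t u) {z : W n} (hz : Pres t z) :
    sig t (z * prodL u) = sig t (1 : W n) + u.length := by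
  rw [sig_pres_mul hz]
  induction h with
  | nil => rfl
  | cons hu h1 h2 ih => rw [prodL_cons, sig_mul_sw h1 h2, ih, List.length_cons, add_assoc]
theorem TS.le_mul {t : ℕ} {u : List (Let n)} (h : TS t u) {z x : W n} (hz : Pres t z)
    (hx : Le x z) (f : Idx u) : Le (x * pt u f) (z * prodL u) := by
  induction h with
  | nil => simpa using hx
  | cons hu h1 h2 ih =>
    obtain ⟨f, b⟩ := f
    have ha := (TS.cons hu h1 h2).asc hz
    rw [prodL_cons, ← mul_assoc]
    cases b
    · exact (ih f).trans (le_mul_sw_of_asc ha)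
    · rw [pt_true, ← mul_assoc]
      exact le_mono (ih f) ha
/-- Above `z * prodL u` only the full subexpression of `u` occurs. -/
theorem TS.eq_top {t : ℕ} {u : List (Let n)} (h : TS t u) {z z' : W n} (hz : Pres t z)
    (hz' : Pres t z') {f : Idx u} (hle : Le (z * prodL u) (z' * pt u f)) : f = top u := by
  have h1 := sig_le (t := t) hle
  rw [h.sig_mul hz, sig_pres_mul hz'] at h1
  exact (sig_pt t u f).2 h1
theorem TS.red_append {t : ℕ} {u w : List (Let n)} (h : TS t u) (hw : Red w)
    (hp : Pres t (prodL w)) : Red (u ++ w) := by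
  induction h with
  | nil => exact hw
  | cons hu h1 h2 ih =>
    refine Red.cons ih ?_
    have := (TS.cons hu h1 h2).asc hp
    rw [← prodL_append] at this
    exact this

private theorem stair (t : ℕ) (ht : t < n) (k : ℕ) : ∀ x : W n, FixFrom (t + 1) x →
    (x⁻¹ ⟨t, ht⟩).val + k = t →
    ∃ u z, TS t u ∧ Win (t + 1) u ∧ FixFrom t z ∧ z * prodL u = x := by
  induction k with
  | zero =>
    intro x hx hj
    refine ⟨[], x, TS.nil, fun s hs => by simp at hs, fun v hv => ?_, mul_one _⟩
    by_cases h : v.val = t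
    · have h1 : x⁻¹ ⟨t, ht⟩ = ⟨t, ht⟩ := Fin.ext hj
      have h2 : v = ⟨t, ht⟩ := Fin.ext h
      rw [h2]
      exact (Equiv.Perm.inv_eq_iff_eq.1 h1).symm
    · exact hx v (by omega)
  | succ k ih =>
    intro x hx hj
    let s : Let n := ⟨(x⁻¹ ⟨t, ht⟩).val, by omega⟩
    have hsa : s.a = (x⁻¹ ⟨t, ht⟩).val := rfl
    have hlo : s.lo = x⁻¹ ⟨t, ht⟩ := rfl
    have hxlo : x s.lo = ⟨t, ht⟩ := by rw [hlo, app_inv]
    obtain ⟨u, z, h1, h2, h3, h4⟩ := ih (x * s.sw) (fixFrom_mul_sw hx (by omega)) (by
      rw [mul_inv_rev, Let.sw_inv, Equiv.Perm.mul_apply, ← hlo, Let.sw_lo]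
      simp only [Let.hi]
      omega)
    refine ⟨s :: u, z, TS.cons h1 ?_ ?_, fun r hr => ?_, h3, ?_⟩
    · rw [h3.pres, ← Equiv.Perm.mul_apply, h4, Equiv.Perm.mul_apply, Let.sw_lo]
      have k1 := (hx.pres s.hi).1 (by simp only [Let.hi]; omega)
      have k2 : (x s.hi).val ≠ t := fun h =>
        s.lo_ne_hi (x.injective (hxlo.trans (Fin.ext h.symm)))
      omega
    · rw [← not_lt, h3.pres, ← Equiv.Perm.mul_apply, h4, Equiv.Perm.mul_apply, Let.sw_hi, hxlo]
      exact lt_irrefl _
    · rcases List.mem_cons.1 hr with rfl | hr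
      · omega
      · exact h2 r hr
    · rw [prodL_cons, ← mul_assoc, h4, mul_sw_sw]

private theorem exists_adj {t : ℕ} (x : W n) {p q : Fin n} (hpq : p < q) (hp : (x p).val < t)
    (hq : t ≤ (x q).val) : ∃ r : Let n, (x r.lo).val < t ∧ t ≤ (x r.hi).val := by
  by_contra hne
  push Not at hne
  have key : ∀ d, ∀ h : p.val + d < n, (x ⟨p.val + d, h⟩).val < t := by
    intro d
    induction d with
    | zero => exact fun _ => hp
    | succ d ih => exact fun h => hne ⟨p.val + d, h⟩ (ih (by omega))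
  have h1 := Fin.lt_def.1 hpq
  have h2 := key (q.val - p.val) (by have := q.2; omega)
  have h3 : (⟨p.val + (q.val - p.val), by have := q.2; omega⟩ : Fin n) = q :=
    Fin.ext (by simp only; omega)
  rw [h3] at h2
  omega

private theorem bubble_aux {t : ℕ} {s : Let n} (hs : s.a + 1 = t) {y : W n} (hy : Pres t y)
    (m : ℕ) : ∀ u : List (Let n), TS t u → n * n ≤ u.length + m →
    (y * prodL u)⁻¹ s.lo < (y * prodL u)⁻¹ s.hi →
    ∃ (u : List (Let n)) (s' : Let n), TS t u ∧ (y * prodL u) s'.lo = s.lo ∧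
      (y * prodL u) s'.hi = s.hi := by
  induction m using Nat.strong_induction_on with
  | _ m ih =>
  intro u hu hm hlt
  obtain ⟨r, h1, h2⟩ := exists_adj (t := t) (y * prodL u) hlt
    (by rw [app_inv]; simp only [Let.lo]; omega)
    (by rw [app_inv]; simp only [Let.hi]; omega)
  by_cases hc : (y * prodL u)⁻¹ s.lo = r.lo ∧ (y * prodL u)⁻¹ s.hi = r.hi
  · exact ⟨u, r, hu, by rw [← hc.1, app_inv],
      by rw [← hc.2, app_inv]⟩
  · have hu' : TS t (r :: u) := TS.cons hu ((hy _).2 h1) (by
      have := (hy (prodL u r.hi)).not.2 (not_lt.2 h2)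
      omega)
    have hl := hu'.len_mul hy
    have hb : len (y * prodL (r :: u)) ≤ n * n := by
      unfold len
      simpa using Finset.card_le_univ (invs (y * prodL (r :: u)))
    rw [List.length_cons] at hl
    refine ih (m - 1) (by omega) (r :: u) hu' (by rw [List.length_cons]; omega) ?_
    rw [prodL_cons, ← mul_assoc, mul_inv_rev, Let.sw_inv, Equiv.Perm.mul_apply,
      Equiv.Perm.mul_apply]
    exact r.sw_lt hlt hc

private theorem mul_win_lo {t : ℕ} {z1 z2 : W n} (h2 : FixBelow t z2) {v : Fin n}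
    (hv : v.val < t) : (z1 * z2) v = z1 v := by
  rw [Equiv.Perm.mul_apply, h2 v hv]

private theorem mul_win_hi {t : ℕ} {z1 z2 : W n} (h1 : FixFrom t z1) (h2 : FixBelow t z2)
    {v : Fin n} (hv : t ≤ v.val) : (z1 * z2) v = z2 v := by
  have := (h2.pres v).not.1 (by omega)
  rw [Equiv.Perm.mul_apply, h1 _ (by omega)]

private theorem win_comm {t : ℕ} {z1 z2 : W n} (h1 : FixFrom t z1) (h2 : FixBelow t z2) :
    z1 * z2 = z2 * z1 := Equiv.ext fun v => by
  by_cases hv : v.val < t
  · rw [mul_win_lo h2 hv, Equiv.Perm.mul_apply, h2 _ ((h1.pres v).1 hv)]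
  · rw [mul_win_hi h1 h2 (by omega), Equiv.Perm.mul_apply, h1 v (by omega)]

private theorem invs_disj {t : ℕ} {z1 z2 : W n} (h1 : FixFrom t z1) (h2 : FixBelow t z2) :
    Disjoint (invs z1) (invs z2) := by
  refine Finset.disjoint_left.2 fun p a1 a2 => ?_
  obtain ⟨b1, b2⟩ := (Finset.mem_filter.1 a1).2
  have k1 := inv_lt_of_fixFrom h1 b1 b2
  have k2 := le_inv_of_fixBelow h2 b1 (Finset.mem_filter.1 a2).2.2
  have := Fin.lt_def.1 b1
  omega

private theorem invs_mul_win {t : ℕ} {z1 z2 : W n} (h1 : FixFrom t z1) (h2 : FixBelow t z2) :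
    invs (z1 * z2) = invs z1 ∪ invs z2 := by
  ext ⟨a, b⟩
  simp only [invs, Finset.mem_union, Finset.mem_filter, Finset.mem_univ, true_and,
    ← and_or_left]
  refine and_congr_right fun hab => ?_
  have hab' := Fin.lt_def.1 hab
  by_cases hb : b.val < t
  · rw [mul_win_lo h2 hb, mul_win_lo h2 (by omega), h2 b hb, h2 a (by omega)]
    exact (or_iff_left (lt_asymm hab)).symm
  by_cases ha : t ≤ a.val
  · rw [mul_win_hi h1 h2 ha, mul_win_hi h1 h2 (by omega), h1 a ha, h1 b (by omega)]
    exact (or_iff_right (lt_asymm hab)).symm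
  · rw [mul_win_lo h2 (v := a) (by omega), mul_win_hi h1 h2 (v := b) (by omega), h1 b (by omega),
      h2 a (by omega)]
    have k1 := (h1.pres a).1 (by omega)
    have k2 := (h2.pres b).not.1 hb
    simp only [Fin.lt_def]
    omega

theorem NF.win {t : ℕ} {w : List (Let n)} (h : NF t w) : Win t w := by
  induction h with
  | zero => exact fun s hs => by simp at hs
  | succ _ _ hu ih =>
    intro s hs
    rcases List.mem_append.1 hs with hs | hs
    · exact hu s hs
    · exact Nat.lt_succ_of_lt (ih s hs)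
theorem NF.red {t : ℕ} {w : List (Let n)} (h : NF t w) : Red w := by
  induction h with
  | zero => exact Red.nil
  | succ hw hu _ ih => exact hu.red_append ih (hw.win.fixFrom _).pres
theorem exists_NF (t : ℕ) (x : W n) (h : FixFrom t x) : ∃ w, NF t w ∧ prodL w = x := by
  induction t generalizing x with
  | zero => exact ⟨[], NF.zero, Equiv.ext fun v => (h v (Nat.zero_le _)).symm⟩
  | succ t ih =>
    by_cases ht : t < n
    · have hj := (h.inv.pres ⟨t, ht⟩).1 (Nat.lt_succ_self t)
      obtain ⟨u, z, h1, h2, h3, rfl⟩ := stair t ht (t - (x⁻¹ ⟨t, ht⟩).val) x h (by omega)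
      obtain ⟨w, hw, rfl⟩ := ih z h3
      exact ⟨u ++ w, NF.succ hw h1 h2, prodL_append w u⟩
    · obtain ⟨w, hw, rfl⟩ := ih x fun v hv => by have := v.2; omega
      exact ⟨[] ++ w, NF.succ hw TS.nil fun s hs => by simp at hs, rfl⟩
theorem exists_red (x : W n) : ∃ w, Red w ∧ prodL w = x := by
  obtain ⟨w, hw, h⟩ := exists_NF n x fun v hv => by have := v.2; omega
  exact ⟨w, hw.red, h⟩

/-- Bring the values `t-1` and `t` to adjacent positions by `t`-steps (induction on
`n * n - sig t`; among the positions between the two values there is an adjacent pair with a value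
`< t` followed by a value `≥ t`). -/
theorem exists_bubble {t : ℕ} {s : Let n} (hs : s.a + 1 = t) {y : W n} (hy : Pres t y) :
    ∃ (u : List (Let n)) (s' : Let n), TS t u ∧ (y * prodL u) s'.lo = s.lo ∧
      (y * prodL u) s'.hi = s.hi := by
  refine bubble_aux hs hy (n * n) [] TS.nil (by simp) ?_
  have h1 := (hy.inv s.lo).1 (by simp only [Let.lo]; omega)
  have h2 := (hy.inv s.hi).not.1 (by simp only [Let.hi]; omega)
  rw [prodL_nil, mul_one]
  exact Fin.lt_def.2 (by omega)

/-- Order, length and inversion products in a product of two windows. -/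
theorem le_mul_win {t : ℕ} {z1 x1 z2 x2 : W n} (hx1 : FixFrom t x1) (hx2 : FixBelow t x2)
    (h1 : Le z1 x1) (h2 : Le z2 x2) : Le (z1 * z2) (x1 * x2) := by
  have hz1 := hx1.of_le h1
  refine Le.trans (y := z1 * x2) ?_ ?_
  · clear h1
    induction h2 with
    | refl => exact Le.refl _
    | tail hl hs ih =>
      refine Relation.ReflTransGen.tail ih ?_
      obtain ⟨a, b, hab, hy, rfl⟩ := hs
      have hy' := hx2.of_le hl
      have ha := le_inv_of_fixBelow hy' hab hy
      have hab' := Fin.lt_def.1 hab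
      refine ⟨a, b, hab, ?_, (mul_assoc _ _ _).symm⟩
      rwa [mul_win_hi hz1 hy' ha, mul_win_hi hz1 hy' (by omega)]
  · rw [win_comm hz1 hx2, win_comm hx1 hx2]
    clear hz1
    induction h1 with
    | refl => exact Le.refl _
    | tail hl hs ih =>
      refine Relation.ReflTransGen.tail ih ?_
      obtain ⟨a, b, hab, hy, rfl⟩ := hs
      have hy' := hx1.of_le hl
      have hb := inv_lt_of_fixFrom hy' hab hy
      have hab' := Fin.lt_def.1 hab
      refine ⟨a, b, hab, ?_, (mul_assoc _ _ _).symm⟩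
      rwa [← win_comm hy' hx2, mul_win_lo hx2 hb, mul_win_lo hx2 (by omega)]
theorem mul_win_inj {t : ℕ} {z1 x1 z2 x2 : W n} (hz1 : FixFrom t z1) (hx1 : FixFrom t x1)
    (hz2 : FixBelow t z2) (hx2 : FixBelow t x2) (h : z1 * z2 = x1 * x2) : z1 = x1 ∧ z2 = x2 := by
  have h1 : z1 = x1 := Equiv.ext fun v => by
    by_cases hv : v.val < t
    · rw [← mul_win_lo hz2 hv, h, mul_win_lo hx2 hv]
    · rw [hz1 v (by omega), hx1 v (by omega)]
  subst h1
  exact ⟨rfl, mul_left_cancel h⟩
theorem len_mul_win {t : ℕ} {z1 z2 : W n} (h1 : FixFrom t z1) (h2 : FixBelow t z2) :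
    len (z1 * z2) = len z1 + len z2 := by
  unfold len
  rw [invs_mul_win h1 h2, Finset.card_union_of_disjoint (invs_disj h1 h2)]
theorem ee_mul_win (k : Type) [CommRing k] {t : ℕ} {z1 z2 : W n} (h1 : FixFrom t z1)
    (h2 : FixBelow t z2) : ee k (z1 * z2) = ee k z1 * ee k z2 := by
  unfold ee
  rw [invs_mul_win h1 h2, Finset.prod_union (invs_disj h1 h2)]
  congr 1
  · refine Finset.prod_congr rfl fun p hp => ?_
    obtain ⟨a1, a2⟩ := (Finset.mem_filter.1 hp).2
    have hb := inv_lt_of_fixFrom h1 a1 a2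
    have := Fin.lt_def.1 a1
    rw [mul_win_lo h2 hb, mul_win_lo h2 (by omega)]
  · refine Finset.prod_congr rfl fun p hp => ?_
    obtain ⟨a1, a2⟩ := (Finset.mem_filter.1 hp).2
    have ha := le_inv_of_fixBelow h2 a1 a2
    have := Fin.lt_def.1 a1
    rw [mul_win_hi h1 h2 ha, mul_win_hi h1 h2 (by omega)]

end Pool.Agent.PCan
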