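import Pool.Agent.Lib.MP_b03f2e_al.Defs
import Pool.Agent.Lib.MP_b03f2e_al.Words

/-! The length function of the affine symmetric group. -/

namespace Pool.Agent.PCan

variable {n : ℕ} [NeZero n]

/-- Periodic extension of a permutation. -/
def liftP (g : W n) (j : ℤ) : ℤ := (g (Fin.ofNat n (j % n).toNat)).val + n * (j / n)

/-- A regular translation. -/
def UU (n : ℕ) (j : ℤ) : ℤ := j + n * (n - 1 - 2 * (j % n))

/-- Affine permutations. -/
def AffP (n : ℕ) (x : ℤ → ℤ) : Prop :=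
  (∀ j, x (j + n) = x j + n) ∧ (∀ i j : Fin n, i ≠ j → (x i - x j) % n ≠ 0) ∧
    ∑ i : Fin n, x i = ∑ i : Fin n, (i.val : ℤ)

/-- Shi's formula for the length. -/
def shi (n : ℕ) (x : ℤ → ℤ) : ℕ :=
  ∑ p ∈ Finset.univ.filter (fun p : Fin n × Fin n => p.1 < p.2), ((x p.2 - x p.1) / n).natAbs

namespace AL

theorem npos : (0 : ℤ) < n := by exact_mod_cast Nat.pos_of_ne_zero (NeZero.ne n)

theorem nne : (n : ℤ) ≠ 0 := ne_of_gt npos

/-- The residue of an integer. -/
def res (n : ℕ) [NeZero n] (j : ℤ) : Fin n := Fin.ofNat n (j % n).toNat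

theorem res_val (j : ℤ) : ((res n j : ℕ) : ℤ) = j % n := by
  have h0 : 0 ≤ j % n := Int.emod_nonneg _ nne
  have h1 : j % n < n := Int.emod_lt_of_pos _ npos
  have h2 : (j % n).toNat < n := by omega
  simp only [res, Fin.ofNat, Nat.mod_eq_of_lt h2]
  omega

theorem fin_mod (i : Fin n) : ((i : ℕ) : ℤ) % n = (i : ℕ) :=
  Int.emod_eq_of_lt (by omega) (by exact_mod_cast i.2)

theorem fin_div (i : Fin n) : ((i : ℕ) : ℤ) / n = 0 :=
  Int.ediv_eq_zero_of_lt (by omega) (by exact_mod_cast i.2)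

theorem res_add (i : Fin n) (k : ℤ) : res n ((i : ℕ) + n * k) = i := by
  apply Fin.ext
  have := res_val (n := n) ((i : ℕ) + n * k)
  rw [Int.add_mul_emod_self_left, fin_mod] at this
  exact_mod_cast this

theorem res_fin (i : Fin n) : res n (i : ℕ) = i := by
  simpa using res_add i 0

theorem div_add (i : Fin n) (k : ℤ) : (((i : ℕ) : ℤ) + n * k) / n = k := by
  rw [Int.add_mul_ediv_left _ _ nne, fin_div, zero_add]

theorem res_split (j : ℤ) : ((res n j : ℕ) : ℤ) + n * (j / n) = j := by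
  rw [res_val]; exact Int.emod_add_mul_ediv j n

omit [NeZero n] in
theorem per_mul {x : ℤ → ℤ} (h : ∀ j, x (j + n) = x j + n) (j k : ℤ) :
    x (j + n * k) = x j + n * k := by
  induction k using Int.induction_on with
  | zero => simp
  | succ k ih =>
    have := h (j + n * k)
    rw [ih] at this
    rw [show j + (n : ℤ) * (k + 1) = j + n * k + n by ring, this]; ring
  | pred k ih =>
    have := h (j + n * (-k - 1))
    rw [show j + (n : ℤ) * (-k - 1) + n = j + n * -k by ring, ih] at this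
    linear_combination -this

theorem per_res {x : ℤ → ℤ} (h : ∀ j, x (j + n) = x j + n) (j : ℤ) :
    x j = x (res n j : ℕ) + n * (j / n) := by
  rw [← per_mul h, res_split]

theorem ext_per {x y : ℤ → ℤ} (hx : ∀ j, x (j + n) = x j + n) (hy : ∀ j, y (j + n) = y j + n)
    (h : ∀ i : Fin n, x (i : ℕ) = y (i : ℕ)) : x = y := by
  funext j
  rw [per_res hx, per_res hy, h]

theorem noncong {x : ℤ → ℤ} (h : AffP n x) {a b : ℤ} (hab : (a - b) % n ≠ 0) :
    (x a - x b) % n ≠ 0 := by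
  have hne : res n a ≠ res n b := by
    intro e
    apply hab
    have h1 := res_val (n := n) a
    have h2 := res_val (n := n) b
    rw [e] at h1
    exact (Int.emod_emod_of_dvd _ dvd_rfl).symm.trans
      (by rw [Int.sub_emod, ← h1, ← h2]; simp)
  have := h.2.1 _ _ hne
  rw [per_res h.1 a, per_res h.1 b]
  rwa [show x (res n a : ℕ) + n * (a / n) - (x (res n b : ℕ) + n * (b / n)) =
    x (res n a : ℕ) - x (res n b : ℕ) + n * (a / n - b / n) by ring, Int.add_mul_emod_self_left]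

theorem fin_noncong {i j : Fin n} (h : i ≠ j) : (((i : ℕ) : ℤ) - (j : ℕ)) % n ≠ 0 := by
  intro e
  have hd := Int.dvd_of_emod_eq_zero e
  have hi := i.2
  have hj := j.2
  have := Int.eq_zero_of_abs_lt_dvd hd (by rw [abs_lt]; constructor <;> omega)
  exact h (Fin.ext (by omega))

omit [NeZero n] in
theorem sA_per (i : Fin n) (j : ℤ) : sA n i (j + n) = sA n i j + n := by
  unfold sA
  rw [show j + (n : ℤ) - 1 = j - 1 + n by ring, Int.add_emod_right, Int.add_emod_right]
  split_ifs <;> ring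

theorem sA_val (i : Fin n) (j : ℤ) (h0 : 0 ≤ j) (h1 : j < n) :
    sA n i j = if j = (i : ℕ) then j + 1 else
      if j = (i : ℕ) + 1 ∨ (j = 0 ∧ ((i : ℕ) : ℤ) + 1 = n) then j - 1 else j := by
  unfold sA
  rw [Int.emod_eq_of_lt h0 h1]
  have hi := i.2
  have : (j - 1) % n = (i : ℕ) ↔ j = (i : ℕ) + 1 ∨ (j = 0 ∧ ((i : ℕ) : ℤ) + 1 = n) := by
    rcases eq_or_lt_of_le h0 with h | h
    · have e : (j - 1) % n = n - 1 := by
        rw [← Int.add_emod_right, Int.emod_eq_of_lt (by omega) (by omega)]; omega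
      rw [e]; omega
    · rw [Int.emod_eq_of_lt (by omega) (by omega)]; omega
  simp only [this]

/-- The next residue. -/
def nx (i : Fin n) : Fin n := res n ((i : ℕ) + 1)

theorem nx_spec (i : Fin n) : (((nx i : ℕ) : ℤ) = (i : ℕ) + 1) ∨
    (((nx i : ℕ) : ℤ) = 0 ∧ ((i : ℕ) : ℤ) + 1 = n) := by
  have hi := i.2
  unfold nx
  rw [res_val]
  rcases eq_or_lt_of_le (show ((i : ℕ) : ℤ) + 1 ≤ n by omega) with h | h
  · right; exact ⟨by rw [h]; simp, h⟩
  · left; exact Int.emod_eq_of_lt (by omega) h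

theorem nx_ne (hn : 2 ≤ n) (i : Fin n) : i ≠ nx i := by
  intro e
  have h := nx_spec i
  rw [← e] at h
  omega

theorem nx_eq (i : Fin n) : ∃ k : ℤ, ((i : ℕ) : ℤ) + 1 = (nx i : ℕ) + n * k :=
  ⟨_, (res_split _).symm⟩

theorem sA_self (i : Fin n) : sA n i (i : ℕ) = (i : ℕ) + 1 := by
  rw [sA_val i _ (by omega) (by exact_mod_cast i.2), if_pos rfl]

theorem sA_nx (hn : 2 ≤ n) (i : Fin n) : sA n i (nx i : ℕ) = (nx i : ℕ) - 1 := by
  have h := nx_spec i
  rw [sA_val i _ (by omega) (by exact_mod_cast (nx i).2), if_neg (by omega), if_pos h]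

theorem sA_other (i a : Fin n) (h1 : a ≠ i) (h2 : a ≠ nx i) : sA n i (a : ℕ) = (a : ℕ) := by
  have h := nx_spec i
  have h1' : (a : ℕ) ≠ i := fun e => h1 (Fin.ext e)
  have h2' : (a : ℕ) ≠ nx i := fun e => h2 (Fin.ext e)
  have ha := a.2
  rw [sA_val i _ (by omega) (by exact_mod_cast a.2), if_neg (by omega), if_neg (by omega)]

theorem sA_succ (hn : 2 ≤ n) (i : Fin n) : sA n i ((i : ℕ) + 1) = (i : ℕ) := by
  obtain ⟨k, hk⟩ := nx_eq i
  rw [hk, per_mul (sA_per i), sA_nx hn]
  omega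

theorem sA_swap (hn : 2 ≤ n) (i a : Fin n) :
    ∃ k : ℤ, sA n i (a : ℕ) = (Equiv.swap i (nx i) a : ℕ) + n * k := by
  obtain ⟨k, hk⟩ := nx_eq i
  by_cases h1 : a = i
  · subst h1
    rw [Equiv.swap_apply_left, sA_self]
    exact ⟨k, hk⟩
  by_cases h2 : a = nx i
  · subst h2
    rw [Equiv.swap_apply_right, sA_nx hn]
    exact ⟨-k, by linear_combination -hk⟩
  · rw [Equiv.swap_apply_of_ne_of_ne h1 h2, sA_other i a h1 h2]
    exact ⟨0, by simp⟩

theorem sA_invol (hn : 2 ≤ n) (i : Fin n) (j : ℤ) : sA n i (sA n i j) = j := by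
  have : sA n i ∘ sA n i = id := by
    refine ext_per (n := n) (fun j => ?_) (fun _ => rfl) fun a => ?_
    · simp only [Function.comp, sA_per]
    · simp only [Function.comp, id]
      by_cases h1 : a = i
      · subst h1
        rw [sA_self, sA_succ hn]
      by_cases h2 : a = nx i
      · subst h2
        obtain ⟨k, hk⟩ := nx_eq i
        rw [sA_nx hn, show ((nx i : ℕ) : ℤ) - 1 = (i : ℕ) + n * -k by linear_combination -hk,
          per_mul (sA_per i), sA_self]
        linear_combination hk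
      · rw [sA_other i a h1 h2, sA_other i a h1 h2]
  exact congrFun this j

theorem neg_div {u : ℤ} (h : u % n ≠ 0) : -u / n = -(u / n) - 1 := by
  rw [Int.neg_ediv, if_neg fun hd => h (Int.emod_eq_zero_of_dvd hd), Int.sign_eq_one_of_pos npos]

theorem div_neg_one {u : ℤ} (h0 : -(n : ℤ) ≤ u) (h1 : u < 0) : u / n = -1 := by
  have := Int.add_mul_ediv_left u 1 (nne (n := n))
  rw [Int.ediv_eq_zero_of_lt (by omega) (by omega)] at this
  omega

/-- The number of inversions between the classes of `a` and `b`. -/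
def TT (n : ℕ) (x : ℤ → ℤ) (a b : ℤ) : ℤ := |(x b - x a) / n - (b - a) / n|

theorem TT_per {x : ℤ → ℤ} (h : ∀ j, x (j + n) = x j + n) (a b k l : ℤ) :
    TT n x (a + n * k) (b + n * l) = TT n x a b := by
  unfold TT
  rw [per_mul h, per_mul h,
    show x b + n * l - (x a + n * k) = x b - x a + n * (l - k) by ring,
    show b + n * l - (a + n * k) = b - a + n * (l - k) by ring,
    Int.add_mul_ediv_left _ _ nne, Int.add_mul_ediv_left _ _ nne]
  congr 1; ring

theorem TT_symm {x : ℤ → ℤ} (h : AffP n x) {a b : ℤ} (hab : (a - b) % n ≠ 0) :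
    TT n x a b = TT n x b a := by
  unfold TT
  rw [show x b - x a = -(x a - x b) by ring, show b - a = -(a - b) by ring,
    neg_div hab, neg_div (noncong h hab), ← abs_neg]
  congr 1; ring

theorem two_shi {x : ℤ → ℤ} (h : AffP n x) :
    2 * (shi n x : ℤ) = ∑ p : Fin n × Fin n, TT n x (p.1 : ℕ) (p.2 : ℕ) := by
  have h1 : (shi n x : ℤ) =
      ∑ p : Fin n × Fin n, if p.1 < p.2 then TT n x (p.1 : ℕ) (p.2 : ℕ) else 0 := by
    rw [shi, Nat.cast_sum, Finset.sum_filter]
    refine Finset.sum_congr rfl fun p _ => ?_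
    split_ifs with hp
    · have h2 := p.2.2
      have h3 : (p.1 : ℕ) < p.2 := hp
      rw [TT, Int.ediv_eq_zero_of_lt (a := ((p.2 : ℕ) : ℤ) - (p.1 : ℕ)) (by omega) (by omega),
        sub_zero, Int.natCast_natAbs]
    · rfl
  have h2 : (shi n x : ℤ) =
      ∑ p : Fin n × Fin n, if p.2 < p.1 then TT n x (p.1 : ℕ) (p.2 : ℕ) else 0 := by
    rw [h1, ← Equiv.sum_comp (Equiv.prodComm (Fin n) (Fin n))]
    refine Finset.sum_congr rfl fun p _ => ?_
    simp only [Equiv.prodComm_apply, Prod.fst_swap, Prod.snd_swap]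
    split_ifs with hp
    · exact TT_symm h (fin_noncong (ne_of_lt hp))
    · rfl
  rw [two_mul]
  nth_rewrite 1 [h1]
  rw [h2, ← Finset.sum_add_distrib]
  refine Finset.sum_congr rfl fun p _ => ?_
  rcases lt_trichotomy p.1 p.2 with hp | hp | hp
  · rw [if_pos hp, if_neg (not_lt.2 hp.le), add_zero]
  · rw [hp]; simp [TT]
  · rw [if_neg (not_lt.2 hp.le), if_pos hp, zero_add]

theorem comp_sA (hn : 2 ≤ n) {x : ℤ → ℤ} (h : AffP n x) (i : Fin n) : AffP n (x ∘ sA n i) := by
  refine ⟨fun j => ?_, fun a b hab => ?_, ?_⟩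
  · simp only [Function.comp, sA_per, h.1]
  · refine noncong h ?_
    obtain ⟨k, hk⟩ := sA_swap hn i a
    obtain ⟨l, hl⟩ := sA_swap hn i b
    rw [hk, hl, show ((Equiv.swap i (nx i) a : ℕ) : ℤ) + n * k -
      ((Equiv.swap i (nx i) b : ℕ) + n * l) = (Equiv.swap i (nx i) a : ℕ) -
        (Equiv.swap i (nx i) b : ℕ) + n * (k - l) by ring, Int.add_mul_emod_self_left]
    exact fin_noncong fun e => hab ((Equiv.swap i (nx i)).injective e)
  · rw [← h.2.2, ← sub_eq_zero, ← Finset.sum_sub_distrib,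
      Fintype.sum_eq_add i (nx i) (nx_ne hn i)]
    · obtain ⟨k, hk⟩ := nx_eq i
      simp only [Function.comp]
      rw [sA_self, sA_nx hn, show ((nx i : ℕ) : ℤ) - 1 = (i : ℕ) + n * -k by
        linear_combination -hk, hk, per_mul h.1, per_mul h.1]
      ring
    · rintro a ⟨h1, h2⟩
      simp only [Function.comp]
      rw [sA_other i a h1 h2, sub_self]

theorem div_sA (hn : 2 ≤ n) (i a b : Fin n) (h1 : (a, b) ≠ (i, nx i)) (h2 : (a, b) ≠ (nx i, i)) :
    (sA n i (b : ℕ) - sA n i (a : ℕ)) / n = (((b : ℕ) : ℤ) - (a : ℕ)) / n := by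
  have hs := nx_spec i
  have ha := a.2
  have hb := b.2
  have hi := i.2
  have h1' : ¬ ((a : ℕ) = i ∧ (b : ℕ) = nx i) := fun e =>
    h1 (Prod.ext (Fin.ext e.1) (Fin.ext e.2))
  have h2' : ¬ ((a : ℕ) = nx i ∧ (b : ℕ) = i) := fun e =>
    h2 (Prod.ext (Fin.ext e.1) (Fin.ext e.2))
  have ea := sA_val i (a : ℕ) (by omega) (by omega)
  have eb := sA_val i (b : ℕ) (by omega) (by omega)
  generalize sA n i (a : ℕ) = u at *
  generalize sA n i (b : ℕ) = v at *
  rcases le_or_gt (a : ℕ) b with hab | hab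
  · have : 0 ≤ v - u ∧ v - u < n := by
      split_ifs at ea eb <;> omega
    rw [Int.ediv_eq_zero_of_lt this.1 this.2, Int.ediv_eq_zero_of_lt (by omega) (by omega)]
  · have : -(n : ℤ) ≤ v - u ∧ v - u < 0 := by
      split_ifs at ea eb <;> omega
    rw [div_neg_one this.1 this.2, div_neg_one (by omega) (by omega)]

theorem shi_step (hn : 2 ≤ n) {x : ℤ → ℤ} (h : AffP n x) (i : Fin n) :
    (shi n (x ∘ sA n i) : ℤ) - shi n x =
      |(x ((i : ℕ) + 1) - x (i : ℕ)) / n + 1| - |(x ((i : ℕ) + 1) - x (i : ℕ)) / n| := by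
  have h' := comp_sA hn h i
  obtain ⟨k, hk⟩ := nx_eq i
  have hone : (1 : ℤ) / n = 0 := Int.ediv_eq_zero_of_lt (by omega) (by omega)
  have hnc : (((i : ℕ) : ℤ) + 1 - (i : ℕ)) % n ≠ 0 := by
    rw [add_sub_cancel_left, Int.emod_eq_of_lt (by omega) (by omega)]; omega
  have e1 : TT n (x ∘ sA n i) (i : ℕ) (nx i : ℕ) = |(x ((i : ℕ) + 1) - x (i : ℕ)) / n + 1| := by
    rw [← TT_per h'.1 _ _ 0 k, ← hk, mul_zero, add_zero]
    simp only [TT, Function.comp]
    rw [sA_self, sA_succ hn, add_sub_cancel_left, hone, sub_zero,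
      show x (i : ℕ) - x ((i : ℕ) + 1) = -(x ((i : ℕ) + 1) - x (i : ℕ)) by ring,
      neg_div (noncong h hnc), ← abs_neg]
    congr 1; ring
  have e2 : TT n x (i : ℕ) (nx i : ℕ) = |(x ((i : ℕ) + 1) - x (i : ℕ)) / n| := by
    rw [← TT_per h.1 _ _ 0 k, ← hk, mul_zero, add_zero, TT, add_sub_cancel_left, hone, sub_zero]
  have hne := nx_ne hn i
  have key : 2 * (shi n (x ∘ sA n i) : ℤ) - 2 * shi n x =
      2 * (|(x ((i : ℕ) + 1) - x (i : ℕ)) / n + 1| - |(x ((i : ℕ) + 1) - x (i : ℕ)) / n|) := by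
    rw [two_shi h', two_shi h, ← Equiv.sum_comp
      (Equiv.prodCongr (Equiv.swap i (nx i)) (Equiv.swap i (nx i)))
      (fun p : Fin n × Fin n => TT n x (p.1 : ℕ) (p.2 : ℕ)), ← Finset.sum_sub_distrib,
      Fintype.sum_eq_add (i, nx i) (nx i, i) (fun e => hne (Prod.ext_iff.1 e).1)]
    · simp only [Equiv.prodCongr_apply, Prod.map, Equiv.swap_apply_left, Equiv.swap_apply_right]
      rw [TT_symm h (fin_noncong hne.symm), TT_symm h' (fin_noncong hne.symm), e1, e2]
      ring
    · rintro ⟨a, b⟩ ⟨h1, h2⟩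
      simp only [Equiv.prodCongr_apply, Prod.map]
      obtain ⟨k, hk⟩ := sA_swap hn i a
      obtain ⟨l, hl⟩ := sA_swap hn i b
      rw [← TT_per h.1 (Equiv.swap i (nx i) a : ℕ) _ k l, ← hk, ← hl]
      simp only [TT, Function.comp]
      rw [div_sA hn i a b h1 h2, sub_self]
  omega

end AL

open AL

theorem affP_id : AffP n id := ⟨fun _ => rfl, fun _ _ h => fin_noncong h, rfl⟩
theorem AffP.comp_sA (hn : 2 ≤ n) {x : ℤ → ℤ} (h : AffP n x) (i : Fin n) : AffP n (x ∘ sA n i) :=
  AL.comp_sA hn h i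
theorem sA_sA (hn : 2 ≤ n) (i : Fin n) (j : ℤ) : sA n i (sA n i j) = j := sA_invol hn i j
theorem shi_id : shi n id = 0 := by
  have h := two_shi (affP_id (n := n))
  simp only [TT, id, sub_self, abs_zero, Finset.sum_const_zero] at h
  omega
theorem shi_asc (hn : 2 ≤ n) {x : ℤ → ℤ} (h : AffP n x) {i : Fin n} (hi : x i < x (i + 1)) :
    shi n (x ∘ sA n i) = shi n x + 1 := by
  have h1 := shi_step hn h i
  have h2 : 0 ≤ (x ((i : ℕ) + 1) - x (i : ℕ)) / n := Int.ediv_nonneg (by omega) npos.le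
  rw [abs_of_nonneg h2, abs_of_nonneg (by omega)] at h1
  omega
theorem shi_desc (hn : 2 ≤ n) {x : ℤ → ℤ} (h : AffP n x) {i : Fin n} (hi : ¬ x i < x (i + 1)) :
    shi n (x ∘ sA n i) + 1 = shi n x := by
  have h1 := shi_step hn h i
  have hnc : (((i : ℕ) : ℤ) + 1 - (i : ℕ)) % n ≠ 0 := by
    rw [add_sub_cancel_left, Int.emod_eq_of_lt (by omega) (by omega)]; omega
  have h3 : x ((i : ℕ) + 1) - x (i : ℕ) ≠ 0 := fun e => noncong h hnc (by rw [e]; simp)
  have h2 : (x ((i : ℕ) + 1) - x (i : ℕ)) / n < 0 := Int.ediv_neg_of_neg_of_pos (by omega) npos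
  rw [abs_of_neg h2, abs_of_nonpos (by omega)] at h1
  omega
theorem eq_id_of_asc {x : ℤ → ℤ} (h : AffP n x) (hi : ∀ i : Fin n, x i < x (i + 1)) : x = id := by
  have hm : Monotone fun j => x j - j := by
    refine monotone_int_of_le_succ fun j => ?_
    have h1 := hi (res n j)
    have h2 := per_res h.1 j
    have h3 := per_mul h.1 ((res n j : ℕ) + 1) (j / n)
    rw [show ((res n j : ℕ) : ℤ) + 1 + n * (j / n) = j + 1 by
      linear_combination res_split (n := n) j] at h3
    omega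
  have hc : ∀ i : Fin n, x (i : ℕ) = (i : ℕ) + x 0 := fun i => by
    have hi := i.2
    have h1 := hm (show (0 : ℤ) ≤ (i : ℕ) by omega)
    have h2 := hm (show ((i : ℕ) : ℤ) ≤ 0 + n by omega)
    simp only [h.1] at h1 h2
    omega
  have h0 : x 0 = 0 := by
    have h1 := h.2.2
    simp only [hc, Finset.sum_add_distrib, Finset.sum_const, Finset.card_univ, Fintype.card_fin,
      nsmul_eq_mul, add_eq_left] at h1
    exact (mul_eq_zero.1 h1).resolve_left nne
  exact ext_per h.1 (fun _ => rfl) fun i => by rw [hc, h0, add_zero]; rfl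
theorem exists_wordA (hn : 2 ≤ n) {x : ℤ → ℤ} (h : AffP n x) :
    ∃ w, prodA n w = x ∧ w.length = shi n x := by
  induction hm : shi n x generalizing x with
  | zero =>
    refine ⟨[], (eq_id_of_asc h fun i => ?_).symm, rfl⟩
    by_contra hi
    have := shi_desc hn h hi
    omega
  | succ m ih =>
    by_cases hall : ∀ i : Fin n, x i < x (i + 1)
    · rw [eq_id_of_asc h hall, shi_id] at hm
      omega
    · obtain ⟨i, hi⟩ := not_forall.1 hall
      have h1 := shi_desc hn h hi
      obtain ⟨w, hw, hl⟩ := ih (h.comp_sA hn i) (by omega)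
      refine ⟨i :: w, ?_, by simp [hl]⟩
      funext j
      simp only [prodA, hw, Function.comp, sA_sA hn]
theorem affP_ptA (hn : 2 ≤ n) (w : List (Fin n)) (e : Sub n w) : AffP n (ptA n w e) := by
  induction w with
  | nil => exact affP_id
  | cons i w ih =>
    simp only [ptA]
    split_ifs
    · exact (ih e.1).comp_sA hn i
    · exact ih e.1

theorem AL.shi_comp_le (hn : 2 ≤ n) {x : ℤ → ℤ} (h : AffP n x) (i : Fin n) :
    shi n (x ∘ sA n i) ≤ shi n x + 1 := by
  by_cases hi : x i < x (i + 1)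
  · exact (shi_asc hn h hi).le
  · have := shi_desc hn h hi
    omega

theorem AL.prodA_le (hn : 2 ≤ n) (w : List (Fin n)) :
    AffP n (prodA n w) ∧ shi n (prodA n w) ≤ w.length := by
  induction w with
  | nil => exact ⟨affP_id, (shi_id (n := n)).le⟩
  | cons i w ih => exact ⟨ih.1.comp_sA hn i, (shi_comp_le hn ih.1 i).trans (Nat.succ_le_succ ih.2)⟩

theorem lenA_eq (hn : 2 ≤ n) {x : ℤ → ℤ} (h : AffP n x) : lenA n x = shi n x := by
  obtain ⟨w, hw, hl⟩ := exists_wordA hn h
  refine le_antisymm (Nat.sInf_le ⟨w, hw, hl⟩) (le_csInf ⟨_, w, hw, hl⟩ ?_)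
  rintro m ⟨v, hv, rfl⟩
  rw [← hv]
  exact (prodA_le hn v).2

/-- The full subexpression. -/
def topA : (w : List (Fin n)) → Sub n w
  | [] => ()
  | _ :: w => (topA w, true)

theorem ptA_top (w : List (Fin n)) : ptA n w (topA w) = prodA n w := by
  induction w with
  | nil => rfl
  | cons i w ih => simp only [ptA, topA, prodA, if_true, ih]
theorem shi_ptA_le (hn : 2 ≤ n) (w : List (Fin n)) (e : Sub n w) :
    shi n (ptA n w e) ≤ w.length ∧ (shi n (ptA n w e) = w.length → e = topA w) := by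
  induction w with
  | nil => exact ⟨(shi_id (n := n)).le, fun _ => rfl⟩
  | cons i w ih =>
    obtain ⟨e, b⟩ := e
    obtain ⟨h1, h2⟩ := ih e
    cases b with
    | false =>
      simp only [ptA, Bool.false_eq_true, if_false, List.length_cons]
      exact ⟨by omega, fun h => by omega⟩
    | true =>
      have h3 := shi_comp_le hn (affP_ptA hn w e) i
      simp only [ptA, if_true, List.length_cons, topA]
      exact ⟨by omega, fun h => by rw [h2 (by omega)]⟩

theorem AL.liftP_add (g : W n) (i : Fin n) (k : ℤ) :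
    liftP g ((i : ℕ) + n * k) = (g i).val + n * k := by
  change ((g (res n _)).val : ℤ) + _ = _
  rw [res_add, div_add]

theorem AL.liftP_per (g : W n) (j : ℤ) : liftP g (j + n) = liftP g j + n := by
  rw [← res_split (n := n) j, liftP_add,
    show ((res n j : ℕ) : ℤ) + n * (j / n) + n = (res n j : ℕ) + n * (j / n + 1) by ring, liftP_add]
  ring

theorem liftP_fin (g : W n) (i : Fin n) : liftP g i = (g i).val := by
  simpa using liftP_add g i 0
theorem liftP_one : liftP (1 : W n) = id :=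
  ext_per (liftP_per _) (fun _ => rfl) fun i => by rw [liftP_fin]; rfl
theorem liftP_mul (g h : W n) : liftP (g * h) = liftP g ∘ liftP h :=
  ext_per (liftP_per _) (fun j => by simp only [Function.comp, liftP_per]) fun i => by
    simp only [Function.comp, liftP_fin, Equiv.Perm.mul_apply]
theorem liftP_sw (s : Let n) : liftP s.sw = sA n s.lo := by
  refine ext_per (liftP_per _) (sA_per _) fun a => ?_
  have hs := s.h
  have hn : 2 ≤ n := by omega
  have hnx : nx s.lo = s.hi := by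
    apply Fin.ext
    have := nx_spec s.lo
    simp only [Let.lo, Let.hi] at this ⊢
    omega
  rw [liftP_fin, Let.sw]
  by_cases h1 : a = s.lo
  · rw [h1, Equiv.swap_apply_left, sA_self]
    simp [Let.lo, Let.hi]
  by_cases h2 : a = s.hi
  · rw [h2, Equiv.swap_apply_right, ← hnx, sA_nx hn, hnx]
    simp [Let.lo, Let.hi]
  · rw [Equiv.swap_apply_of_ne_of_ne h1 h2, sA_other _ _ h1 (by rwa [hnx])]

theorem AL.lu_fin (g : W n) (i : Fin n) :
    (liftP g ∘ UU n) (i : ℕ) = (g i).val + n * (n - 1 - 2 * ((i : ℕ) : ℤ)) := by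
  simp only [Function.comp, UU]
  rw [liftP_add, fin_mod]

theorem liftP_UU_inj {g h : W n} (e : liftP g ∘ UU n = liftP h ∘ UU n) : g = h := by
  ext i
  have h1 := lu_fin g i
  rw [e, lu_fin] at h1
  omega
theorem affP_liftP_UU (g : W n) : AffP n (liftP g ∘ UU n) := by
  refine ⟨fun j => ?_, fun a b hab => ?_, ?_⟩
  · simp only [Function.comp]
    rw [← liftP_per]
    congr 1
    simp only [UU, Int.add_emod_right]
    ring
  · rw [lu_fin, lu_fin, show ((g a).val : ℤ) + n * (n - 1 - 2 * ((a : ℕ) : ℤ)) -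
      ((g b).val + n * (n - 1 - 2 * ((b : ℕ) : ℤ))) = (g a).val - (g b).val +
        n * (2 * ((b : ℕ) : ℤ) - 2 * (a : ℕ)) by ring, Int.add_mul_emod_self_left]
    exact fin_noncong fun e => hab (g.injective e)
  · simp only [lu_fin]
    rw [Finset.sum_add_distrib, Equiv.sum_comp g (fun i : Fin n => (i.val : ℤ)), add_eq_left,
      ← Finset.mul_sum, Finset.sum_sub_distrib, ← Finset.mul_sum,
      Fin.sum_univ_eq_sum_range (fun i : ℕ => (i : ℤ)) n]
    have h1 : ((∑ i ∈ Finset.range n, i : ℕ) : ℤ) * 2 = n * (n - 1) := by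
      have h2 := Finset.sum_range_id_mul_two n
      have h3 : 1 ≤ n := Nat.pos_of_ne_zero (NeZero.ne n)
      zify [h3] at h2
      push_cast
      exact h2
    push_cast at h1
    simp only [Finset.sum_const, Finset.card_univ, Fintype.card_fin, nsmul_eq_mul]
    linear_combination (-(n : ℤ)) * h1

theorem AL.shi_lu (g : W n) : shi n (liftP g ∘ UU n) = len g +
    ∑ p ∈ Finset.univ.filter (fun p : Fin n × Fin n => p.1 < p.2), 2 * ((p.2 : ℕ) - p.1) := by
  have h1 : len g = ∑ p ∈ Finset.univ.filter (fun p : Fin n × Fin n => p.1 < p.2),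
      if g p.2 < g p.1 then 1 else 0 := by
    rw [← Finset.card_filter, Finset.filter_filter]; rfl
  rw [h1, ← Finset.sum_add_distrib, shi]
  refine Finset.sum_congr rfl fun p hp => ?_
  have hp' : (p.1 : ℕ) < p.2 := (Finset.mem_filter.1 hp).2
  rw [lu_fin, lu_fin, show ((g p.2).val : ℤ) + n * (n - 1 - 2 * ((p.2 : ℕ) : ℤ)) -
      ((g p.1).val + n * (n - 1 - 2 * ((p.1 : ℕ) : ℤ))) = (g p.2).val - (g p.1).val +
        n * (2 * ((p.1 : ℕ) : ℤ) - 2 * (p.2 : ℕ)) by ring, Int.add_mul_ediv_left _ _ nne]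
  have h2 := (g p.1).2
  have h3 := (g p.2).2
  split_ifs with hg
  · have h4 : (g p.2 : ℕ) < g p.1 := hg
    rw [div_neg_one (by omega) (by omega)]
    omega
  · have h4 : ¬ (g p.2 : ℕ) < g p.1 := hg
    rw [Int.ediv_eq_zero_of_lt (by omega) (by omega)]
    omega

theorem shi_liftP_UU (g : W n) : shi n (liftP g ∘ UU n) = len g + shi n (UU n) := by
  have h1 := shi_lu (1 : W n)
  have h2 : len (1 : W n) = 0 := by
    rw [len, Finset.card_eq_zero, invs, Finset.filter_eq_empty_iff]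
    rintro p - ⟨h3, h4⟩
    exact lt_asymm h3 h4
  rw [liftP_one, Function.id_comp, h2, zero_add] at h1
  rw [shi_lu, h1]
theorem isMax_liftP_UU (hn : 2 ≤ n) (g : W n) : IsMaxA n (liftP g ∘ UU n) := by
  intro i hi
  have h := affP_liftP_UU g
  rw [lenA_eq hn h, lenA_eq hn (h.comp_sA hn i)]
  have h1 := lu_fin g i
  have h2 := lu_fin g ⟨i + 1, hi⟩
  have h3 := (g i).2
  have h4 := (g ⟨i + 1, hi⟩).2
  push_cast at h2
  have h5 := shi_desc hn h (i := i) (by rw [h1, h2]; nlinarith)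
  omega

end Pool.Agent.PCan
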