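import Pool.Agent.Lib.MP_b03f2e_al.Stalk

/-! Morphisms, adjoints, the adjunction for the last letter, and maps out of reduced words. -/

namespace Pool.Agent.PCan

open MvPolynomial Matrix

variable {n : ℕ} {k : Type} [CommRing k] [IsDomain k]
variable {w w' w'' : List (Let n)}

theorem IsHom.congr {i j : ℤ} {K : Matrix (Idx w') (Idx w) (QQ k n)} (h : IsHom w w' i K)
    (hij : i = j) : IsHom w w' j K := hij ▸ h
theorem isHom_one (w : List (Let n)) : IsHom w w 0 (1 : Matrix (Idx w) (Idx w) (QQ k n)) := by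
  refine ⟨fun b a h => Matrix.one_apply_ne fun e => h (e ▸ rfl), fun d m hm => ?_⟩
  exact ⟨m, hm.congr (add_zero d).symm, Matrix.one_mulVec _⟩

theorem isHom_zero (w w' : List (Let n)) (j : ℤ) :
    IsHom w w' j (0 : Matrix (Idx w') (Idx w) (QQ k n)) := by
  refine ⟨fun b a _ => rfl, fun d m _ => ⟨0, El.zero _ _, ?_⟩⟩
  funext e
  simp [up]

theorem IsHom.mul {i j : ℤ} {K : Matrix (Idx w') (Idx w) (QQ k n)}
    {L : Matrix (Idx w'') (Idx w') (QQ k n)} (hL : IsHom w' w'' j L) (hK : IsHom w w' i K) :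
    IsHom w w'' (i + j) (L * K) := by
  refine ⟨fun b a h => ?_, fun d m hm => ?_⟩
  · rw [Matrix.mul_apply]
    refine Finset.sum_eq_zero fun c _ => ?_
    by_cases h1 : pt w'' b = pt w' c
    · rw [hK.block c a (h1 ▸ h), mul_zero]
    · rw [hL.block b c h1, zero_mul]
  · obtain ⟨m1, h1, e1⟩ := hK.map d m hm
    obtain ⟨m2, h2, e2⟩ := hL.map _ m1 h1
    exact ⟨m2, h2.congr (add_assoc _ _ _), by rw [← Matrix.mulVec_mulVec, e1, e2]⟩

theorem IsHom.sub {j : ℤ} {K L : Matrix (Idx w') (Idx w) (QQ k n)} (hK : IsHom w w' j K)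
    (hL : IsHom w w' j L) : IsHom w w' j (K - L) := by
  refine ⟨fun b a h => ?_, fun d m hm => ?_⟩
  · rw [Matrix.sub_apply, hK.block b a h, hL.block b a h, sub_zero]
  · obtain ⟨m1, h1, e1⟩ := hK.map d m hm
    obtain ⟨m2, h2, e2⟩ := hL.map d m hm
    refine ⟨m1 - m2, h1.sub h2, ?_⟩
    rw [Matrix.sub_mulVec, e1, e2]
    funext e
    simp [up]

theorem IsHom.pow {K : Matrix (Idx w) (Idx w) (QQ k n)} (hK : IsHom w w 0 K) (i : ℕ) :
    IsHom w w 0 (K ^ i) := by
  induction i with
  | zero => rw [pow_zero]; exact isHom_one w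
  | succ i ih => rw [pow_succ]; exact (ih.mul hK).congr (add_zero 0)


/-- A block matrix acts fibre by fibre. -/
theorem mulVec_fibre {K : Matrix (Idx w') (Idx w) (QQ k n)}
    (hK : ∀ b a, pt w' b ≠ pt w a → K b a = 0) {y : W n} {f g : Idx w → QQ k n}
    (h : ∀ e, pt w e = y → f e = g e) {b : Idx w'} (hb : pt w' b = y) :
    (K *ᵥ f) b = (K *ᵥ g) b := by
  simp only [Matrix.mulVec, dotProduct]
  refine Finset.sum_congr rfl fun a _ => ?_
  by_cases h1 : pt w' b = pt w a
  · rw [h a (h1 ▸ hb)]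
  · rw [hK b a h1, zero_mul, zero_mul]

theorem supp_of_act {K : Matrix (Idx w') (Idx w) (QQ k n)}
    (hK : ∀ b a, pt w' b ≠ pt w a → K b a = 0) {m : Idx w → RR k n} {m' : Idx w' → RR k n}
    (h : K *ᵥ up m = up m') {b : Idx w'} (hb : m' b ≠ 0) : ∃ a, pt w a = pt w' b ∧ m a ≠ 0 := by
  by_contra hn
  push Not at hn
  have h1 : (K *ᵥ up m) b = (K *ᵥ 0) b :=
    mulVec_fibre hK (y := pt w' b) (fun e he => by simp [up, hn e he]) rfl
  rw [h, Matrix.mulVec_zero] at h1
  exact io_ne_zero hb h1

theorem mulVec_ptmul {K : Matrix (Idx w') (Idx w) (QQ k n)}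
    (hK : ∀ b a, pt w' b ≠ pt w a → K b a = 0) (ρ : W n → QQ k n) (f : Idx w → QQ k n) :
    K *ᵥ (fun e => ρ (pt w e) * f e) = fun b => ρ (pt w' b) * (K *ᵥ f) b := by
  funext b
  simp only [Matrix.mulVec, dotProduct, Finset.mul_sum]
  refine Finset.sum_congr rfl fun a _ => ?_
  by_cases h1 : pt w' b = pt w a
  · rw [h1]; ring
  · rw [hK b a h1]; ring

theorem matrix_ext {K L : Matrix (Idx w') (Idx w) (QQ k n)}
    (h : ∀ d m, El w d m → K *ᵥ up m = L *ᵥ up m) : K = L := by
  ext b a
  have h1 := congrFun (h _ _ (el_delta w a)) b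
  have h2 : up (Pi.single a (eul k w a) : Idx w → RR k n) = Pi.single a (io k (eul k w a)) := by
    funext e
    by_cases he : e = a
    · subst he; simp [up]
    · simp [up, Pi.single_eq_of_ne he]
  rw [h2, Matrix.mulVec_single, Matrix.mulVec_single] at h1
  simp only [Pi.smul_apply, MulOpposite.smul_eq_mul_unop, MulOpposite.unop_op,
    Matrix.col_apply] at h1
  exact mul_right_cancel₀ (io_ne_zero (eul_ne_zero w a)) h1


/-- Project a homogeneous element to the summand, keeping the support conditions. -/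
theorem Idem.project {K : Matrix (Idx w) (Idx w) (QQ k n)} (hK : Idem w K) {d : ℤ}
    {m : Idx w → RR k n} (hm : El w d m) : ∃ m', El w d m' ∧ K *ᵥ up m = up m' ∧ Fix K m' ∧
      ∀ b, m' b ≠ 0 → ∃ a, pt w a = pt w b ∧ m a ≠ 0 := by
  obtain ⟨m', h1, e1⟩ := hK.1.map d m hm
  refine ⟨m', h1.congr (add_zero d), e1, ?_, fun b hb => supp_of_act hK.1.block e1 hb⟩
  unfold Fix
  rw [← e1, Matrix.mulVec_mulVec, hK.2]


/-- An element of the summand without support above `y` can be replaced by one supported on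
`≤ y` with the same fibre at `y`. -/
theorem Idem.below {K : Matrix (Idx w) (Idx w) (QQ k n)} (hK : Idem w K) {d : ℤ} {y : W n}
    {m : Idx w → RR k n} (hm : El w d m) (hf : Fix K m) (hy : NoAbove w y m) :
    ∃ m', El w d m' ∧ Fix K m' ∧ Below w y m' ∧ ∀ e, pt w e = y → m' e = m e := by
  obtain ⟨m1, h1, hb, he⟩ := below_of_noAbove hm hy
  obtain ⟨m2, h2, e2, f2, s2⟩ := hK.project h1
  refine ⟨m2, h2, f2, fun e hne => ?_, fun e hye => ?_⟩
  · obtain ⟨a, ha, hne'⟩ := s2 e hne
    exact ha ▸ hb a hne'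
  · have h3 : (K *ᵥ up m1) e = (K *ᵥ up m) e :=
      mulVec_fibre hK.1.block (y := y) (fun a ha => by simp [up, he a ha]) hye
    rw [e2, hf] at h3
    exact io_inj h3


theorem Below.noAbove {y : W n} {m : Idx w → RR k n} (h : Below w y m) : NoAbove w y m := by
  exact fun e he hle => (h e he).antisymm hle


theorem adj_adj (K : Matrix (Idx w') (Idx w) (QQ k n)) : adj w' w (adj w w' K) = K := by
  ext b a
  have h1 := io_ne_zero (eul_ne_zero (k := k) w a)
  have h2 := io_ne_zero (eul_ne_zero (k := k) w' b)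
  simp only [adj]
  field_simp

theorem adj_mul (L : Matrix (Idx w'') (Idx w') (QQ k n)) (K : Matrix (Idx w') (Idx w) (QQ k n)) :
    adj w w'' (L * K) = adj w w' K * adj w' w'' L := by
  ext a b
  simp only [adj, Matrix.mul_apply, Finset.sum_mul, Finset.sum_div]
  refine Finset.sum_congr rfl fun c _ => ?_
  have h1 := io_ne_zero (eul_ne_zero (k := k) w' c)
  have h2 := io_ne_zero (eul_ne_zero (k := k) w'' b)
  field_simp

theorem adj_one (w : List (Let n)) : adj w w (1 : Matrix (Idx w) (Idx w) (QQ k n)) = 1 := by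
  ext a b
  by_cases h : a = b
  · subst h
    simp only [adj, Matrix.one_apply_eq, one_mul]
    exact div_self (io_ne_zero (eul_ne_zero w a))
  · simp only [adj, Matrix.one_apply_ne h, Matrix.one_apply_ne (Ne.symm h), zero_mul, zero_div]

theorem adj_zero (w w' : List (Let n)) : adj w w' (0 : Matrix (Idx w') (Idx w) (QQ k n)) = 0 := by
  ext a b
  simp [adj]

theorem adj_diag (K : Matrix (Idx w) (Idx w) (QQ k n)) (a : Idx w) : adj w w K a a = K a a := by
  simp only [adj]
  exact mul_div_cancel_right₀ _ (io_ne_zero (eul_ne_zero w a))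

theorem adj_block {K : Matrix (Idx w') (Idx w) (QQ k n)}
    (hK : ∀ b a, pt w' b ≠ pt w a → K b a = 0) : ∀ a b, pt w a ≠ pt w' b → adj w w' K a b = 0 := by
  intro a b h
  simp only [adj, hK b a (Ne.symm h), zero_mul, zero_div]

theorem integ_adj (K : Matrix (Idx w') (Idx w) (QQ k n)) (f : Idx w → QQ k n)
    (g : Idx w' → QQ k n) :
    integ w' (fun e => (K *ᵥ f) e * g e) = integ w (fun e => f e * (adj w w' K *ᵥ g) e) := by
  simp only [integ, adj, Matrix.mulVec, dotProduct, Finset.sum_mul, Finset.mul_sum, Finset.sum_div]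
  rw [Finset.sum_comm]
  refine Finset.sum_congr rfl fun a _ => Finset.sum_congr rfl fun b _ => ?_
  have h1 := io_ne_zero (eul_ne_zero (k := k) w a)
  have h2 := io_ne_zero (eul_ne_zero (k := k) w' b)
  field_simp

theorem BF_adj {K : Matrix (Idx w') (Idx w) (QQ k n)} (hK : ∀ b a, pt w' b ≠ pt w a → K b a = 0)
    (y : W n) (f : Idx w → QQ k n) (g : Idx w' → QQ k n) :
    BF w' y (K *ᵥ f) g = BF w y f (adj w w' K *ᵥ g) := by
  have h := integ_adj K (fun e => (if pt w e = y then 1 else 0) * f e) g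
  rw [mulVec_ptmul hK (fun x => if x = y then 1 else 0) f] at h
  simp only [BF, Finset.sum_filter]
  congr 1
  simp only [integ] at h
  convert h using 2 with e _ e _
  · split_ifs <;> simp
  · split_ifs <;> simp

theorem IsHom.adj {j : ℤ} {K : Matrix (Idx w') (Idx w) (QQ k n)} (hK : IsHom w w' j K) :
    IsHom w' w (j + w.length - w'.length) (adj w w' K) := by
  refine ⟨adj_block hK.block, fun d m hm => ?_⟩
  obtain ⟨m', h1, e1⟩ := perfect w (j + d - w'.length) (PCan.adj w w' K *ᵥ up m) fun d1 m1 hm1 => by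
    obtain ⟨m2, h2, e2⟩ := hK.map d1 m1 hm1
    obtain ⟨r, hr, er⟩ := integ_el (h2.mul hm)
    refine ⟨r, hr.congr (by ring), ?_⟩
    rw [← integ_adj, e2, ← er]
    congr 1
    funext e
    simp [up]
  exact ⟨m', h1.congr (by ring), e1⟩

theorem Idem.adj {K : Matrix (Idx w) (Idx w) (QQ k n)} (hK : Idem w K) : Idem w (adj w w K) := by
  exact ⟨hK.1.adj.congr (by ring), by rw [← adj_mul, hK.2]⟩

theorem Prim.adj {K : Matrix (Idx w) (Idx w) (QQ k n)} (hK : Prim w K) : Prim w (adj w w K) := by
  refine ⟨hK.1.adj, fun h => hK.2.1 ?_, fun F hF h1 h2 => ?_⟩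
  · rw [← adj_adj K, h, adj_zero]
  · have e1 : PCan.adj w w F * K = PCan.adj w w F := by
      conv_rhs => rw [← h2, adj_mul, adj_adj]
    have e2 : K * PCan.adj w w F = PCan.adj w w F := by
      conv_rhs => rw [← h1, adj_mul, adj_adj]
    rcases hK.2.2 _ hF.adj e1 e2 with h | h
    · left
      rw [← adj_adj F, h, adj_zero]
    · right
      rw [← adj_adj F, h]


theorem extK_mulVec (s : Let n) (K : Matrix (Idx w) (Idx w) (QQ k n)) (f : Idx (s :: w) → QQ k n)
    (e : Idx w) (b : Bool) : (extK s K *ᵥ f) (e, b) = (K *ᵥ fun a => f (a, b)) e := by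
  simp only [Matrix.mulVec, dotProduct]
  rw [sum_idx]
  refine Finset.sum_congr rfl fun a _ => ?_
  cases b <;> simp [extK]

theorem Idem.extK {K : Matrix (Idx w) (Idx w) (QQ k n)} (hK : Idem w K) (s : Let n) :
    Idem (s :: w) (extK s K) := by
  refine ⟨⟨?_, fun d F hF => ?_⟩, ?_⟩
  · rintro ⟨b, β⟩ ⟨a, α⟩ h
    simp only [PCan.extK]
    split_ifs with h1
    · subst h1
      refine hK.1.block b a fun h2 => h ?_
      cases β <;> simp [h2]
    · rfl
  · obtain ⟨h0, -, g, hg, e⟩ := hF.cons
    obtain ⟨m0, hm0, e0⟩ := hK.1.map _ _ h0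
    obtain ⟨g', hg', eg⟩ := hK.1.map _ _ hg
    refine ⟨fun x => if x.2 then m0 x.1 - rt k (pt w x.1) s * g' x.1 else m0 x.1,
      el_cons_of (g := g') (by simpa using hm0) (hg'.congr (by ring)) (fun x => by simp), ?_⟩
    funext ⟨x, β⟩
    rw [extK_mulVec]
    cases β
    · exact congrFun e0 x
    · have h1 : (fun a => up F (a, true)) =
          up (fun a => F (a, false)) - fun a => io k (rt k (pt w a) s) * up g a := by
        funext a
        simp only [up, Pi.sub_apply, ← map_mul, ← e a, ← map_sub, sub_sub_cancel]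
      rw [h1, Matrix.mulVec_sub, e0, mulVec_ptmul hK.1.block (fun x => io k (rt k x s)), eg]
      simp [up]
  · ext ⟨b, β⟩ ⟨a, α⟩
    have h1 := congrFun (congrFun hK.2 b) a
    rw [Matrix.mul_apply] at h1
    rw [Matrix.mul_apply, sum_idx]
    cases β <;> cases α <;> simp [PCan.extK, h1]

theorem adj_extK {K : Matrix (Idx w) (Idx w) (QQ k n)}
    (hK : ∀ b a, pt w b ≠ pt w a → K b a = 0) (s : Let n) :
    adj (s :: w) (s :: w) (extK s K) = extK s (adj w w K) := by
  ext ⟨a, α⟩ ⟨b, β⟩
  simp only [adj, extK, eul]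
  by_cases h : α = β
  · subst h
    simp only [if_true]
    by_cases h1 : pt w b = pt w a
    · have h2 : pt (s :: w) (b, α) = pt (s :: w) (a, α) := by cases α <;> simp [h1]
      have h3 := io_ne_zero (rt_ne_zero (k := k) (pt (s :: w) (a, α)) s)
      have h4 := io_ne_zero (eul_ne_zero (k := k) w b)
      rw [h2, map_mul, map_mul]
      field_simp
    · simp [hK b a h1]
  · simp [h, Ne.symm h]

theorem fix_extK (s : Let n) (K : Matrix (Idx w) (Idx w) (QQ k n)) (F : Idx (s :: w) → RR k n) :
    Fix (extK s K) F ↔ Fix K (fun e => F (e, false)) ∧ Fix K (fun e => F (e, true)) := by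
  unfold Fix
  constructor
  · intro h
    constructor
    · funext e
      have h1 := congrFun h (e, false)
      rw [extK_mulVec] at h1
      exact h1
    · funext e
      have h1 := congrFun h (e, true)
      rw [extK_mulVec] at h1
      exact h1
  · rintro ⟨h0, h1⟩
    funext ⟨e, b⟩
    rw [extK_mulVec]
    cases b
    · exact congrFun h0 e
    · exact congrFun h1 e

/-- The divided difference of a fixed element is fixed. -/
theorem fix_div {K : Matrix (Idx w) (Idx w) (QQ k n)} (hK : ∀ b a, pt w b ≠ pt w a → K b a = 0)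
    (ρ : W n → RR k n) (hρ : ∀ x, ρ x ≠ 0) {f g h : Idx w → RR k n} (hf : Fix K f) (hg : Fix K g)
    (hh : ∀ e, f e - g e = ρ (pt w e) * h e) : Fix K h := by
  unfold Fix at hf hg ⊢
  have h1 : (fun e => io k (ρ (pt w e)) * up h e) = up f - up g := by
    funext e
    simp only [up, Pi.sub_apply, ← map_mul, ← hh e, map_sub]
  have h2 := mulVec_ptmul hK (fun x => io k (ρ x)) (up h)
  rw [h1, Matrix.mulVec_sub, hf, hg, ← h1] at h2
  funext e
  exact (mul_left_cancel₀ (io_ne_zero (hρ _)) (congrFun h2 e)).symm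


private theorem Hom_pair {K : Matrix (Idx w) (Idx w) (QQ k n)} {s : Let n} {x : W n}
    (hx : Asc x s) {d : ℤ} {f : Idx w → RR k n} (hf : El w d f) (hK : Fix K f)
    (hb : Below w (x * s.sw) f) {e : Idx w} (he : pt w e = x ∨ pt w e = x * s.sw) (hne : f e ≠ 0) :
    Occ w K x d ∨ Occ w K (x * s.sw) d := by
  by_cases h : ∃ a, pt w a = x * s.sw ∧ f a ≠ 0
  · exact Or.inr ⟨f, hf, hK, hb.noAbove, h⟩
  · refine Or.inl ⟨f, hf, hK, fun a ha hle => ?_, e, ?_, hne⟩
    · exact (between hx hle (hb a ha)).resolve_right fun h1 => h ⟨a, h1, ha⟩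
    · exact he.resolve_right fun h1 => h ⟨e, h1, hne⟩

/-- Pair rule, upper element. -/
theorem occ_ext_upper {K : Matrix (Idx w) (Idx w) (QQ k n)} (hK : Idem w K) {s : Let n} {x : W n}
    (hx : Asc x s) {d : ℤ} (h : Occ (s :: w) (extK s K) (x * s.sw) d) :
    Occ w K x d ∨ Occ w K (x * s.sw) d := by
  obtain ⟨m, hm, hf, hn, e, he, hne⟩ := h
  obtain ⟨F, hF, fF, bF, eF⟩ := (hK.extK s).below hm hf hn
  obtain ⟨h0, h1, -⟩ := hF.cons
  obtain ⟨f0, f1⟩ := (fix_extK s K F).1 fF
  rw [← eF e he] at hne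
  have hd : ¬ Asc (x * s.sw) s := fun h => (asc_mul_sw x s).1 h hx
  obtain ⟨e, b⟩ := e
  cases b
  · rw [pt_false] at he
    refine Hom_pair hx h0 f0 (fun a ha => ?_) (Or.inr he) hne
    simpa using bF _ ha
  · rw [pt_true] at he
    refine Hom_pair hx h1 f1 (fun a ha => ?_) (Or.inl (mul_right_cancel he)) hne
    simpa using mul_sw_le hd (bF _ ha)

/-- Pair rule, lower element. -/
theorem occ_ext_lower {K : Matrix (Idx w) (Idx w) (QQ k n)} (hK : Idem w K) {s : Let n} {x : W n}
    (hx : Asc x s) {d : ℤ} (h : Occ (s :: w) (extK s K) x d) :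
    Occ w K x (d - 1) ∨ Occ w K (x * s.sw) (d - 1) := by
  obtain ⟨m, hm, hf, hn, e, he, hne⟩ := h
  obtain ⟨F, hF, fF, bF, eF⟩ := (hK.extK s).below hm hf hn
  obtain ⟨-, -, g, hg, eg⟩ := hF.cons
  obtain ⟨f0, f1⟩ := (fix_extK s K F).1 fF
  rw [← eF e he] at hne
  have fg : Fix K g := fix_div hK.1.block (fun y => rt k y s) (fun y => rt_ne_zero y s) f0 f1 eg
  have hno : ¬ Le (x * s.sw) x := fun h => mul_sw_ne x s (h.antisymm (le_mul_sw_of_asc hx))
  have bg : Below w (x * s.sw) g := fun a ha => by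
    by_cases h0 : F (a, false) = 0
    · have h1 : F (a, true) ≠ 0 := fun h1 => by
        have h2 := eg a
        rw [h0, h1, sub_zero] at h2
        exact mul_ne_zero (rt_ne_zero _ s) ha h2.symm
      simpa using le_mono (bF _ h1) hx
    · have h1 : Le (pt w a) x := by simpa using bF _ h0
      exact h1.trans (le_mul_sw_of_asc hx)
  obtain ⟨e, b⟩ := e
  cases b
  · rw [pt_false] at he
    refine Hom_pair hx hg fg bg (Or.inl he) fun h0 => hne ?_
    have h1 : F (e, true) = 0 := by
      by_contra h1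
      have h2 := bF _ h1
      rw [pt_true, he] at h2
      exact hno h2
    have h2 := eg e
    rwa [h0, h1, mul_zero, sub_zero] at h2
  · rw [pt_true] at he
    have he' : pt w e = x * s.sw := by rw [← he, mul_sw_sw]
    refine Hom_pair hx hg fg bg (Or.inr he') fun h0 => hne ?_
    have h1 : F (e, false) = 0 := by
      by_contra h1
      have h2 := bF _ h1
      rw [pt_false, he'] at h2
      exact hno h2
    have h2 := eg e
    rwa [h0, h1, mul_zero, zero_sub, neg_eq_zero] at h2


theorem occ_ext_of {K : Matrix (Idx w) (Idx w) (QQ k n)} (hK : Idem w K) {s : Let n} {x : W n}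
    (hx : Asc x s) {d : ℤ} (h : Occ w K x d) : Occ (s :: w) (extK s K) (x * s.sw) d := by
  obtain ⟨m, hm, hf, hn, e, he, hne⟩ := h
  obtain ⟨F, hF, fF, bF, eF⟩ := hK.below hm hf hn
  rw [← eF e he] at hne
  refine ⟨fun a => F a.1, el_diag s hF, (fix_extK s K _).2 ⟨fF, fF⟩, Below.noAbove ?_,
    (e, true), by rw [pt_true, he], hne⟩
  rintro ⟨a, b⟩ ha
  cases b
  · rw [pt_false]
    exact (bF a ha).trans (le_mul_sw_of_asc hx)
  · rw [pt_true]
    exact le_mono (bF a ha) hx


/-- From a morphism into `s :: w'` to a morphism out of `s :: w`. -/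
noncomputable def fromExt (s : Let n) (P : Matrix (Idx (s :: w')) (Idx w) (QQ k n)) :
    Matrix (Idx w') (Idx (s :: w)) (QQ k n) :=
  fun b a => (if a.2 then - P (b, true) a.1 else P (b, false) a.1) / io k (rt k (pt w' b) s)

/-- From a morphism out of `s :: w` to a morphism into `s :: w'`. -/
noncomputable def toExt (s : Let n) (K : Matrix (Idx w') (Idx (s :: w)) (QQ k n)) :
    Matrix (Idx (s :: w')) (Idx w) (QQ k n) :=
  fun b a => (if b.2 then - K b.1 (a, true) else K b.1 (a, false)) * io k (rt k (pt w' b.1) s)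

theorem fromExt_toExt (s : Let n) (K : Matrix (Idx w') (Idx (s :: w)) (QQ k n)) :
    fromExt s (toExt s K) = K := by
  ext b ⟨a, α⟩
  have h := io_ne_zero (rt_ne_zero (k := k) (pt w' b) s)
  cases α
  · simp only [fromExt, toExt, Bool.false_eq_true, if_false]
    field_simp
  · simp only [fromExt, toExt, if_true]
    field_simp

theorem fromExt_mulVec (s : Let n) (P : Matrix (Idx (s :: w')) (Idx w) (QQ k n))
    (f : Idx (s :: w) → QQ k n) (b : Idx w') : (fromExt s P *ᵥ f) b =
      ((P *ᵥ fun a => f (a, false)) (b, false) - (P *ᵥ fun a => f (a, true)) (b, true)) /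
        io k (rt k (pt w' b) s) := by
  simp only [Matrix.mulVec, dotProduct]
  rw [sum_idx, ← Finset.sum_sub_distrib, Finset.sum_div]
  refine Finset.sum_congr rfl fun a _ => ?_
  simp only [fromExt, Bool.false_eq_true, if_false, if_true]
  ring

theorem IsHom.fromExt {s : Let n} {j : ℤ} {P : Matrix (Idx (s :: w')) (Idx w) (QQ k n)}
    (h : IsHom w (s :: w') (j + 1) P) : IsHom (s :: w) w' j (fromExt s P) := by
  refine ⟨?_, fun d F hF => ?_⟩
  · rintro b ⟨a, α⟩ hne
    cases α
    · rw [pt_false] at hne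
      simp only [PCan.fromExt, Bool.false_eq_true, if_false]
      rw [h.block (b, false) a (by rwa [pt_false]), zero_div]
    · rw [pt_true] at hne
      simp only [PCan.fromExt, if_true]
      rw [h.block (b, true) a (fun h1 => hne (by rw [← h1, pt_true, mul_sw_sw])), neg_zero,
        zero_div]
  · obtain ⟨h0, -, g, hg, e⟩ := hF.cons
    obtain ⟨G0, hG0, e0⟩ := h.map _ _ h0
    obtain ⟨G, hG, eg⟩ := h.map _ _ hg
    obtain ⟨-, -, g0, hg0, e1⟩ := hG0.cons
    obtain ⟨-, hG1, -⟩ := hG.cons
    refine ⟨g0 - fun b => G (b, true),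
      El.sub (hg0.congr (by ring)) (hG1.congr (by ring)), ?_⟩
    funext b
    have h1 : (fun a => up F (a, true)) =
        up (fun a => F (a, false)) - fun a => io k (rt k (pt w a) s) * up g a := by
      funext a
      simp only [up, Pi.sub_apply, ← map_mul, ← e a, ← map_sub, sub_sub_cancel]
    have h2 : (fun a => up F (a, false)) = up (fun a => F (a, false)) := rfl
    have h3 := io_ne_zero (rt_ne_zero (k := k) (pt w' b) s)
    have h4 := congrArg (io k) (e1 b)
    rw [map_sub, map_mul] at h4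
    rw [fromExt_mulVec, h1, h2, Matrix.mulVec_sub, e0,
      mulVec_ptmul h.block (fun x => io k (rt k x s)), eg, div_eq_iff h3]
    simp only [up, Pi.sub_apply, pt_true, rt_mul_sw, map_neg, map_sub]
    linear_combination h4

theorem IsHom.toExt {s : Let n} {j : ℤ} {K : Matrix (Idx w') (Idx (s :: w)) (QQ k n)}
    (h : IsHom (s :: w) w' j K) : IsHom w (s :: w') (j + 1) (toExt s K) := by
  refine ⟨?_, fun d m hm => ?_⟩
  · rintro ⟨b, β⟩ a hne
    cases β
    · rw [pt_false] at hne
      simp only [PCan.toExt, Bool.false_eq_true, if_false]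
      rw [h.block b (a, false) (by rwa [pt_false]), zero_mul]
    · rw [pt_true] at hne
      simp only [PCan.toExt, if_true]
      rw [h.block b (a, true) (fun h1 => hne (by rw [h1, pt_true, mul_sw_sw])), neg_zero,
        zero_mul]
  · have hF : El (s :: w) (1 + d) fun x => if x.2 then 0 else rt k (pt w x.1) s * m x.1 :=
      el_cons_of (g := m) (by simpa using (el_rt w s).mul hm) (hm.congr (by ring))
        (fun x => by simp)
    obtain ⟨A, hA, eA⟩ := h.map _ _ (el_diag s hm)
    obtain ⟨B, hB, eB⟩ := h.map _ _ hF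
    refine ⟨fun x => if x.2 then B x.1 - rt k (pt w' x.1) s * A x.1 else B x.1,
      el_cons_of (g := A) (by simpa using hB.congr (by ring)) (hA.congr (by ring))
        (fun x => by simp), ?_⟩
    have h1 : up (fun x : Idx (s :: w) => if x.2 then 0 else rt k (pt w x.1) s * m x.1) =
        fun x => io k (rt k (pt (s :: w) x) s) * (if x.2 then 0 else up m x.1) := by
      funext ⟨a, α⟩
      cases α <;> simp [up]
    rw [h1, mulVec_ptmul h.block (fun x => io k (rt k x s))] at eB
    funext ⟨b, β⟩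
    have h2 := congrFun eA b
    have h3 := congrFun eB b
    simp only [Matrix.mulVec, dotProduct] at h2 h3 ⊢
    rw [sum_idx] at h2 h3
    simp only [Bool.false_eq_true, if_false, if_true, mul_zero, add_zero, up,
      Finset.sum_add_distrib] at h2 h3
    cases β
    · simp only [PCan.toExt, Bool.false_eq_true, if_false, up]
      rw [← h3, Finset.mul_sum]
      exact Finset.sum_congr rfl fun a _ => by ring
    · simp only [PCan.toExt, if_true, up, map_sub, map_mul]
      rw [← h3, ← h2, mul_add, sub_add_cancel_left, Finset.mul_sum, ← Finset.sum_neg_distrib]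
      exact Finset.sum_congr rfl fun a _ => by ring


/-- Maps out of a reduced word with prescribed value on the top class. -/
theorem exists_phi {z : List (Let n)} (hz : Red z) : ∀ (w : List (Let n)) (d : ℤ)
    (c : Idx w → RR k n), El w d c → NoAbove w (prodL z) c →
      ∃ K, IsHom z w d K ∧ ∀ e, pt w e = prodL z → K e (top z) = up c e := by
  induction hz with
  | nil =>
    intro w d c hc hn
    refine ⟨fun e _ => up c e, ⟨fun b a hb => ?_, fun d' m hm => ?_⟩, fun e _ => rfl⟩
    · have h1 : c b = 0 := by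
        by_contra h1
        exact hb (hn b h1 (one_le _))
      simp [up, h1]
    · refine ⟨fun e => m () * c e, El.smul (hm.2 ()) hc, ?_⟩
      funext e
      simp only [Matrix.mulVec, dotProduct, up, map_mul]
      rw [Fintype.sum_unique, mul_comm]
  | @cons s z _ hs ih =>
    intro w d c hc hn
    rw [prodL_cons] at hn
    obtain ⟨c1, h1, b1, e1⟩ := below_of_noAbove hc hn
    have hd : ¬ Asc (prodL z * s.sw) s := fun h => (asc_mul_sw _ s).1 h hs
    have h2 : El (s :: w) (d + 1) fun e =>
        (X (pt (s :: w) e s.lo) - X ((prodL z * s.sw) s.lo)) * c1 e.1 := by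
      have h3 := ((el_X (s :: w) s.lo).mul (el_diag s h1)).sub
        (El.smul (Hz.X ((prodL z * s.sw) s.lo)) (el_diag s h1))
      refine (add_comm 1 d) ▸ ?_
      convert h3 using 1
      funext e
      simp only [Pi.sub_apply]
      ring
    obtain ⟨P, hP, eP⟩ := ih (s :: w) (d + 1) _ h2 (by
      rintro ⟨e, b⟩ hne hle
      have h3 := b1 e (right_ne_zero_of_mul hne)
      have h4 : Le (pt (s :: w) (e, b)) (prodL z * s.sw) := by
        cases b
        · rwa [pt_false]
        · rw [pt_true]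
          exact mul_sw_le hd h3
      refine (between hs hle h4).resolve_right fun h5 => left_ne_zero_of_mul hne ?_
      rw [h5, sub_self])
    refine ⟨fromExt s P, hP.fromExt, fun e he => ?_⟩
    rw [prodL_cons] at he
    have h3 := eP (e, true) (by rw [pt_true, he, mul_sw_sw])
    have h4 := io_ne_zero (rt_ne_zero (k := k) (pt w e) s)
    show (-P (e, true) (top z)) / io k (rt k (pt w e) s) = up c e
    rw [h3, div_eq_iff h4]
    simp only [up, pt_true, e1 e he, ← he, rt, Equiv.Perm.mul_apply, Let.sw_lo, map_mul, map_sub]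
    ring


theorem eul_top {z : List (Let n)} (hz : Red z) :
    eul k z (top z) = (-1) ^ z.length * ee k (prodL z) := by
  induction hz with
  | nil => simp [eul]
  | @cons s z _ hs ih =>
    show eul k z (top z) * rt k (prodL (s :: z)) s = _
    rw [ih, prodL_cons, rt_mul_sw, ee_mul_sw k hs, List.length_cons, pow_succ]
    ring


end Pool.Agent.PCan
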