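import Pool.Agent.Lib.MP_b03f2e_al.AffLen
import Pool.Agent.Lib.MP_b03f2e_al.Hom

/-! Restriction from the affine flag variety to an open piece that fibres over the finite one. -/

namespace Pool.Agent.PCan

open MvPolynomial Matrix

section
variable (n : ℕ) (k : Type) [Field k] [NeZero n]

/-- `E` is the projector onto a direct summand: idempotent, of degree zero, and compatible with
the decomposition of the localised bimodule into its components at group elements. -/
structure IsSummandL (w : List (Fin n)) (E : BS n k w →ₗ[MvPolynomial (Fin n) k] BS n k w) :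
    Prop where
  idem : E ∘ₗ E = E
  deg : ∀ (d : ℕ) (m : BS n k w), (∀ e, (m.1 e).IsHomogeneous d) → ∀ e, ((E m).1 e).IsHomogeneous d
  loc : ∀ (y : ℤ → ℤ) (m : BS n k w), (∀ e, ptA n w e = y → m.1 e = 0) →
    ∀ e, ptA n w e = y → (E m).1 e = 0

/-- The equivariant stalk of the summand at `y`. -/
noncomputable def stalkL (w : List (Fin n)) (E : BS n k w →ₗ[MvPolynomial (Fin n) k] BS n k w)
    (y : ℤ → ℤ) :
    Submodule (MvPolynomial (Fin n) k) ({e : Sub n w // ptA n w e = y} → MvPolynomial (Fin n) k) :=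
  (LinearMap.range ((BS n k w).subtype ∘ₗ E)).map (LinearMap.funLeft _ _ Subtype.val)

end

theorem IsSummand.exists_lin {n : ℕ} {k : Type} [Field k] [NeZero n] {w : List (Fin n)}
    {E : (Sub n w → MvPolynomial (Fin n) k) → Sub n w → MvPolynomial (Fin n) k}
    (hE : IsSummand n k w E) : ∃ L, IsSummandL n k w L ∧ ∀ y, stalkL n k w L y = stalk n k w E y := by
  have h0 : ∀ e, E 0 e = 0 := fun e =>
    hE.loc _ 0 (BS n k w).zero_mem (fun _ _ => rfl) e rfl
  let L : BS n k w →ₗ[MvPolynomial (Fin n) k] BS n k w :=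
    { toFun := fun m => ⟨E m.1, hE.mem _ m.2⟩
      map_add' := fun m m' => Subtype.ext (funext fun e => by
        have h := hE.lin 1 _ m.2 _ m'.2 e
        simp only [one_mul] at h
        exact h)
      map_smul' := fun r m => Subtype.ext (funext fun e => by
        have h := hE.lin r _ m.2 _ (BS n k w).zero_mem e
        simp only [Pi.zero_apply, add_zero, h0] at h
        exact h) }
  refine ⟨L, ⟨LinearMap.ext fun m => Subtype.ext (hE.idem _ m.2), fun d m => hE.deg d _ m.2,
    fun y m => hE.loc y _ m.2⟩, fun y => ?_⟩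
  refine le_antisymm ?_ (Submodule.span_le.2 ?_)
  · rintro _ ⟨_, ⟨m, rfl⟩, rfl⟩
    exact Submodule.subset_span ⟨m.1, m.2, fun _ => rfl⟩
  · rintro f ⟨m, hm, hf⟩
    exact ⟨_, ⟨⟨m, hm⟩, rfl⟩, (funext hf).symm⟩

variable {n : ℕ} [NeZero n]

def toSub : (w : List (Let n)) → Idx w → Sub n (w.map Let.lo)
  | [], _ => ()
  | _ :: w, e => (toSub w e.1, e.2)

def ofSub : (w : List (Let n)) → Sub n (w.map Let.lo) → Idx w
  | [], _ => ()
  | _ :: w, e => (ofSub w e.1, e.2)

def embA (w : List (Let n)) : (u : List (Fin n)) → Idx w → Sub n (u ++ w.map Let.lo)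
  | [], e => toSub w e
  | _ :: u, e => (embA w u e, true)

def prA (w : List (Let n)) : (u : List (Fin n)) → Sub n (u ++ w.map Let.lo) → Idx w
  | [], e => ofSub w e
  | _ :: u, e => prA w u e.1

private theorem ofSub_toSub (w : List (Let n)) (e : Idx w) : ofSub w (toSub w e) = e := by
  induction w with
  | nil => rfl
  | cons s w ih => exact Prod.ext (ih e.1) rfl

private theorem toSub_ofSub (w : List (Let n)) (x : Sub n (w.map Let.lo)) :
    toSub w (ofSub w x) = x := by
  induction w with
  | nil => rfl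
  | cons s w ih => exact Prod.ext (ih x.1) rfl

private theorem ptA_true (i : Fin n) (w : List (Fin n)) (e : Sub n w) :
    ptA n (i :: w) (e, true) = ptA n w e ∘ sA n i := rfl

private theorem ptA_false (i : Fin n) (w : List (Fin n)) (e : Sub n w) :
    ptA n (i :: w) (e, false) = ptA n w e := rfl

private theorem ptA_toSub (w : List (Let n)) (e : Idx w) :
    ptA n (w.map Let.lo) (toSub w e) = liftP (pt w e) := by
  induction w with
  | nil => exact liftP_one.symm
  | cons s w ih =>
    obtain ⟨e, b⟩ := e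
    cases b
    · exact ih e
    · rw [pt_true, liftP_mul, liftP_sw, ← ih e]
      rfl

/-- The part of a subexpression that belongs to the later letters. -/
private def sndA (v : List (Fin n)) : (u : List (Fin n)) → Sub n (u ++ v) → Sub n u
  | [], _ => ()
  | _ :: u, e => (sndA v u e.1, e.2)

private theorem ptA_split (w : List (Let n)) (u : List (Fin n))
    (x : Sub n (u ++ w.map Let.lo)) : ptA n (u ++ w.map Let.lo) x =
      liftP (pt w (prA w u x)) ∘ ptA n u (sndA (w.map Let.lo) u x) := by
  induction u with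
  | nil => exact (congrArg _ (toSub_ofSub w x).symm).trans (ptA_toSub w (ofSub w x))
  | cons i u ih =>
    obtain ⟨x, b⟩ := x
    cases b
    · exact ih x
    · exact congrArg (· ∘ sA n i) (ih x)

private theorem eq_embA (w : List (Let n)) (u : List (Fin n)) (x : Sub n (u ++ w.map Let.lo))
    (h : sndA (w.map Let.lo) u x = topA u) : x = embA w u (prA w u x) := by
  induction u with
  | nil => exact (toSub_ofSub w x).symm
  | cons i u ih =>
    have h2 : x.2 = true := congrArg Prod.snd h
    exact Prod.ext (ih x.1 (congrArg Prod.fst h)) h2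

theorem prA_embA (w : List (Let n)) (u : List (Fin n)) (e : Idx w) : prA w u (embA w u e) = e := by
  induction u with
  | nil => exact ofSub_toSub w e
  | cons i u ih => exact ih
theorem ptA_embA (w : List (Let n)) (u : List (Fin n)) (e : Idx w) :
    ptA n (u ++ w.map Let.lo) (embA w u e) = liftP (pt w e) ∘ prodA n u := by
  induction u with
  | nil => exact ptA_toSub w e
  | cons i u ih => exact congrArg (· ∘ sA n i) ih
theorem prodA_append (w : List (Let n)) (u : List (Fin n)) :
    prodA n (u ++ w.map Let.lo) = liftP (prodL w) ∘ prodA n u := by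
  induction u with
  | nil =>
    induction w with
    | nil => exact liftP_one.symm
    | cons s w ih =>
      have h : prodL (s :: w) = prodL w * s.sw := rfl
      rw [h, liftP_mul, liftP_sw]
      exact congrArg (· ∘ sA n s.lo) ih
  | cons i u ih => exact congrArg (· ∘ sA n i) ih

/-- Over `g U` only the subexpressions that take all of `u` occur. -/
theorem exists_embA (hn : 2 ≤ n) {u : List (Fin n)} (hu : prodA n u = UU n)
    (hl : u.length = shi n (UU n)) (w : List (Let n)) {g : W n} {x : Sub n (u ++ w.map Let.lo)}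
    (hx : ptA n (u ++ w.map Let.lo) x = liftP g ∘ UU n) : ∃ e, x = embA w u e ∧ pt w e = g := by
  rw [ptA_split] at hx
  have h1 : ptA n u (sndA (w.map Let.lo) u x) = liftP ((pt w (prA w u x))⁻¹ * g) ∘ UU n := by
    rw [liftP_mul, Function.comp_assoc, ← hx, ← Function.comp_assoc, ← liftP_mul, inv_mul_cancel,
      liftP_one, Function.id_comp]
  obtain ⟨h2, h3⟩ := shi_ptA_le hn u (sndA (w.map Let.lo) u x)
  have h4 := h3 (by
    rw [h1, shi_liftP_UU] at h2 ⊢
    omega)
  rw [h4, ptA_top, hu] at hx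
  exact ⟨_, eq_embA w u x h4, liftP_UU_inj hx⟩

variable {k : Type} [Field k]

private theorem mem_consA (i : Fin n) (w : List (Fin n)) (F : Sub n (i :: w) → RR k n) :
    F ∈ BS n k (i :: w) ↔ (fun e => F (e, false)) ∈ BS n k w ∧ ∃ g ∈ BS n k w, ∀ e,
      F (e, false) - F (e, true) =
        (xA n k (ptA n w e i) - xA n k (ptA n w e (i + 1))) * g e := Iff.rfl

private theorem xA_fin (i : Fin n) : xA n k (i.val : ℤ) = X i := by
  rw [xA, ← Int.natCast_mod, Int.toNat_natCast, Nat.mod_eq_of_lt i.2]
  exact congrArg X (Fin.ext (Nat.mod_eq_of_lt i.2))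

private theorem root_eq (g : W n) (s : Let n) :
    xA n k (liftP g s.lo) - xA n k (liftP g (s.lo + 1)) = rt k g s := by
  have h : ((s.lo.val : ℤ) + 1) = (s.hi.val : ℤ) := by simp [Let.lo, Let.hi]
  rw [h, liftP_fin, liftP_fin, xA_fin, xA_fin, rt]

private theorem sA_mod (i : Fin n) {j j' : ℤ} (h : j % n = j' % n) :
    sA n i j % n = sA n i j' % n := by
  have h1 : (j - 1) % n = (j' - 1) % n := Int.ModEq.sub_right 1 h
  have h2 : (j + 1) % n = (j' + 1) % n := Int.ModEq.add_right 1 h
  unfold sA
  rw [h, h1]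
  split_ifs
  · exact h2
  · exact h1
  · exact h

private theorem ptA_mod (w : List (Fin n)) (e : Sub n w) {j j' : ℤ} (h : j % n = j' % n) :
    ptA n w e j % n = ptA n w e j' % n := by
  induction w generalizing j j' with
  | nil => exact h
  | cons i w ih =>
    obtain ⟨e, b⟩ := e
    cases b
    · exact ih e h
    · exact ih e (sA_mod i h)

private theorem xA_ptA (w : List (Fin n)) (e : Sub n w) {j j' : ℤ} (h : j % n = j' % n) :
    xA n k (ptA n w e j) = xA n k (ptA n w e j') := by
  rw [xA, xA, ptA_mod w e h]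

private theorem root_mul (i : Fin n) (j : ℤ) : ∃ c : RR k n, ∀ (w : List (Fin n)) (e : Sub n w),
    xA n k (ptA n w e j) - xA n k (ptA n w e (sA n i j)) =
      c * (xA n k (ptA n w e i) - xA n k (ptA n w e (i + 1))) := by
  have hi : (i.val : ℤ) % n = i.val := by rw [← Int.natCast_mod, Nat.mod_eq_of_lt i.2]
  unfold sA
  split_ifs with h1 h2
  · have h : j % n = (i.val : ℤ) % n := h1.trans hi.symm
    exact ⟨1, fun w e => by
      rw [one_mul, xA_ptA w e h, xA_ptA w e (Int.ModEq.add_right 1 h)]⟩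
  · have h : (j - 1) % n = (i.val : ℤ) % n := h2.trans hi.symm
    have h' : j % n = ((i.val : ℤ) + 1) % n := by
      have h3 : (j - 1 + 1) % n = ((i.val : ℤ) + 1) % n := Int.ModEq.add_right 1 h
      rwa [sub_add_cancel] at h3
    exact ⟨-1, fun w e => by
      rw [xA_ptA w e h, xA_ptA w e h']
      ring⟩
  · exact ⟨0, fun w e => by rw [sub_self, zero_mul]⟩

private theorem true_of_mul {i : Fin n} {w : List (Fin n)}
    (ih : ∀ (j : ℤ) (F : Sub n w → RR k n), F ∈ BS n k w →
      (fun x => xA n k (ptA n w x j) * F x) ∈ BS n k w)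
    {F : Sub n (i :: w) → RR k n} (h : F ∈ BS n k (i :: w)) :
    (fun e => F (e, true)) ∈ BS n k w := by
  obtain ⟨h0, g, hg, hF⟩ := (mem_consA i w F).1 h
  have h1 : (fun e => F (e, true)) = (fun e => F (e, false)) -
      ((fun x => xA n k (ptA n w x i) * g x) - fun x => xA n k (ptA n w x (i + 1)) * g x) := by
    funext e
    have h2 := hF e
    simp only [Pi.sub_apply]
    linear_combination -h2
  rw [h1]
  exact (BS n k w).sub_mem h0 ((BS n k w).sub_mem (ih _ g hg) (ih _ g hg))

private theorem mul_xA (w : List (Fin n)) : ∀ (j : ℤ) (F : Sub n w → RR k n), F ∈ BS n k w →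
    (fun x => xA n k (ptA n w x j) * F x) ∈ BS n k w := by
  induction w with
  | nil => exact fun _ _ _ => Submodule.mem_top
  | cons i w ih =>
    intro j F h
    obtain ⟨h0, g, hg, hF⟩ := (mem_consA i w F).1 h
    obtain ⟨c, hc⟩ := root_mul (k := k) i j
    refine (mem_consA i w _).2 ⟨ih j _ h0,
      (fun x => xA n k (ptA n w x j) * g x) + c • fun e => F (e, true),
      (BS n k w).add_mem (ih j g hg) ((BS n k w).smul_mem c (true_of_mul ih h)), fun e => ?_⟩
    have h1 := hF e
    have h2 := hc w e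
    simp only [Pi.add_apply, Pi.smul_apply, smul_eq_mul, ptA_true, ptA_false, Function.comp_apply]
    linear_combination xA n k (ptA n w e j) * h1 + F (e, true) * h2

theorem mem_BS_of (w : List (Let n)) (u : List (Fin n)) {m : Idx w → RR k n} (h : m ∈ MM k w) :
    (fun x => m (prA w u x)) ∈ BS n k (u ++ w.map Let.lo) := by
  induction u with
  | nil =>
    induction w with
    | nil => exact Submodule.mem_top
    | cons s w ih =>
      obtain ⟨h0, g, hg, hF⟩ := (mem_cons s w m).1 h
      refine (mem_consA s.lo (w.map Let.lo) _).2 ⟨ih h0, _, ih hg, fun e => ?_⟩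
      have h1 := ptA_toSub w (ofSub w e)
      rw [toSub_ofSub] at h1
      rw [h1, root_eq]
      exact hF (ofSub w e)
  | cons i u ih =>
    exact (mem_consA i (u ++ w.map Let.lo) _).2 ⟨ih, 0, (BS n k _).zero_mem, fun e => by
      rw [Pi.zero_apply, mul_zero]
      exact sub_self _⟩
theorem mem_MM_of (w : List (Let n)) (u : List (Fin n)) {F : Sub n (u ++ w.map Let.lo) → RR k n}
    (h : F ∈ BS n k (u ++ w.map Let.lo)) : (fun e => F (embA w u e)) ∈ MM k w := by
  induction u with
  | nil =>
    induction w with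
    | nil => exact Submodule.mem_top
    | cons s w ih =>
      obtain ⟨h0, g, hg, hF⟩ := (mem_consA s.lo (w.map Let.lo) F).1 h
      refine (mem_cons s w _).2 ⟨ih h0, _, ih hg, fun e => ?_⟩
      have h1 := hF (toSub w e)
      rw [ptA_toSub, root_eq] at h1
      exact h1
  | cons i u ih => exact ih (true_of_mul (mul_xA _) h)

/-- The matrix of a linear map on the finite module. -/
private theorem exists_matrix {w : List (Let n)} (T : MM k w →ₗ[RR k n] (Idx w → RR k n))
    (m : MM k w) : (Matrix.of fun b a =>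
      io k (T ⟨_, (el_delta w a).1⟩ b) / io k (eul k w a)) *ᵥ up m.1 = up (T m) := by
  have h1 : (∏ a, eul k w a) • m = ∑ a, ((∏ c ∈ Finset.univ.erase a, eul k w c) * m.1 a) •
      (⟨_, (el_delta w a).1⟩ : MM k w) := by
    apply Subtype.ext
    funext e
    rw [Submodule.coe_sum, Finset.sum_apply, Finset.sum_eq_single e
      (fun a _ ha => by simp [Pi.single_eq_of_ne ha.symm]) (by simp)]
    simp only [Submodule.coe_smul, Pi.smul_apply, smul_eq_mul, Pi.single_eq_same]
    rw [← Finset.mul_prod_erase _ _ (Finset.mem_univ e)]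
    ring
  funext b
  have h2 := congrArg (fun z => io k (T z b)) h1
  simp only [map_smul, map_sum, Finset.sum_apply, Pi.smul_apply, smul_eq_mul, map_mul] at h2
  have hD : io k (∏ a, eul k w a) ≠ 0 :=
    io_ne_zero (Finset.prod_ne_zero_iff.2 fun a _ => eul_ne_zero w a)
  refine mul_left_cancel₀ hD ?_
  rw [up, h2, Matrix.mulVec, dotProduct, Finset.mul_sum]
  refine Finset.sum_congr rfl fun a _ => ?_
  have ha : io k (eul k w a) ≠ 0 := io_ne_zero (eul_ne_zero w a)
  rw [← Finset.mul_prod_erase _ _ (Finset.mem_univ a), map_mul, Matrix.of_apply, up]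
  field_simp

/-- Extension of an element of the finite module, constant in the later letters. -/
private noncomputable def liftM (w : List (Let n)) (u : List (Fin n)) :
    MM k w →ₗ[RR k n] BS n k (u ++ w.map Let.lo) where
  toFun m := ⟨fun x => m.1 (prA w u x), mem_BS_of w u m.2⟩
  map_add' _ _ := rfl
  map_smul' _ _ := rfl

/-- A summand gives a degree zero endomorphism of the finite module. -/
theorem aff_restrict (hn : 2 ≤ n) {u : List (Fin n)} (hu : prodA n u = UU n)
    (hl : u.length = shi n (UU n)) {w : List (Let n)} (hw : Red w)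
    {E : BS n k (u ++ w.map Let.lo) →ₗ[MvPolynomial (Fin n) k] BS n k (u ++ w.map Let.lo)}
    (hE : IsSummandL n k _ E) (h0 : stalkL n k _ E (prodA n (u ++ w.map Let.lo)) ≠ ⊥) :
    ∃ K, IsHom w w 0 K ∧ K (top w) (top w) = 1 ∧ ∀ (d : ℕ) (m m' : Idx w → RR k n), El w d m →
      K *ᵥ up m = up m' → ∃ F : BS n k (u ++ w.map Let.lo), (∀ x, ((E F).1 x).IsHomogeneous d) ∧
        ∀ e, (E F).1 (embA w u e) = m' e := by
  set T : MM k w →ₗ[RR k n] (Idx w → RR k n) := LinearMap.funLeft _ _ (embA w u) ∘ₗ
    (BS n k (u ++ w.map Let.lo)).subtype ∘ₗ E ∘ₗ liftM w u with hT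
  have hTa : ∀ m b, T m b = (E (liftM w u m)).1 (embA w u b) := fun _ _ => rfl
  have hLa : ∀ (m : MM k w) e, (liftM w u m).1 (embA w u e) = m.1 e := fun m e =>
    congrArg m.1 (prA_embA w u e)
  have hpt : ∀ b, ptA n (u ++ w.map Let.lo) (embA w u b) = liftP (pt w b) ∘ UU n := fun b => by
    rw [ptA_embA, hu]
  have hdeg : ∀ (d : ℕ) (m : Idx w → RR k n) (hm : El w d m) x,
      ((E (liftM w u ⟨m, hm.1⟩)).1 x).IsHomogeneous d := fun d m hm =>
    hE.deg d _ fun x => (hz_iff d _).1 (hm.2 _)
  refine ⟨Matrix.of fun b a => io k (T ⟨_, (el_delta w a).1⟩ b) / io k (eul k w a),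
    ⟨fun b a hne => ?_, fun d m hm => ⟨T ⟨m, hm.1⟩, ⟨mem_MM_of w u (E _).2, fun e => ?_⟩,
      exists_matrix T ⟨m, hm.1⟩⟩⟩, ?_, fun d m m' hm hK => ⟨liftM w u ⟨m, hm.1⟩, hdeg d m hm,
      fun e => congrFun (up_inj ((exists_matrix T ⟨m, hm.1⟩).symm.trans hK)) e⟩⟩
  · rw [Matrix.of_apply, hTa, hE.loc (liftP (pt w b) ∘ UU n) _ (fun x hx => ?_) _ (hpt b),
      map_zero, zero_div]
    obtain ⟨e, rfl, he⟩ := exists_embA hn hu hl w hx
    rw [hLa]
    exact Pi.single_eq_of_ne (fun h : e = a => hne (by rw [← he, h])) _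
  · rw [add_zero]
    rcases lt_or_ge d 0 with hd | hd
    · have : (⟨m, hm.1⟩ : MM k w) = 0 :=
        Subtype.ext (funext fun e => (hm.2 e).eq_zero_of_neg hd)
      rw [this, map_zero]
      exact Hz.zero d
    · obtain ⟨d, rfl⟩ := Int.eq_ofNat_of_zero_le hd
      exact (hz_iff d _).2 (hdeg d m hm _)
  · have hy : prodA n (u ++ w.map Let.lo) = liftP (prodL w) ∘ UU n := by rw [prodA_append, hu]
    have hone : ∀ x, ptA n (u ++ w.map Let.lo) x = liftP (prodL w) ∘ UU n →
        x = embA w u (top w) := fun x hx => by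
      obtain ⟨e, rfl, he⟩ := exists_embA hn hu hl w hx
      rw [hw.eq_top he]
    have key : ∀ F : BS n k (u ++ w.map Let.lo),
        eul k w (top w) * (E F).1 (embA w u (top w)) =
          F.1 (embA w u (top w)) * T ⟨_, (el_delta w (top w)).1⟩ (top w) := fun F => by
      have h1 := hE.loc (liftP (prodL w) ∘ UU n) (eul k w (top w) • F -
        F.1 (embA w u (top w)) • liftM w u ⟨_, (el_delta w (top w)).1⟩) (fun x hx => by
          have h2 : (liftM w u ⟨_, (el_delta (k := k) w (top w)).1⟩).1 (embA w u (top w)) =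
              eul k w (top w) := by
            rw [hLa]
            exact Pi.single_eq_same _ _
          rw [hone x hx]
          simp only [Submodule.coe_sub, Submodule.coe_smul, Pi.sub_apply, Pi.smul_apply,
            smul_eq_mul, h2]
          ring) _ (hpt (top w))
      simp only [map_sub, map_smul, Submodule.coe_sub, Submodule.coe_smul, Pi.sub_apply,
        Pi.smul_apply, smul_eq_mul] at h1
      rw [hTa]
      exact sub_eq_zero.1 h1
    obtain ⟨z, ⟨_, ⟨F, rfl⟩, rfl⟩, hz⟩ := (Submodule.ne_bot_iff _).1 h0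
    obtain ⟨⟨x, hx⟩, hxz⟩ := Function.ne_iff.1 hz
    have hne : (E F).1 (embA w u (top w)) ≠ 0 := by
      rw [← hone x (hx.trans hy)]
      exact hxz
    have h3 := key (E F)
    rw [show E (E F) = E F from LinearMap.congr_fun hE.idem F, mul_comm] at h3
    rw [Matrix.of_apply, ← mul_left_cancel₀ hne h3]
    exact div_self (io_ne_zero (eul_ne_zero w _))

private theorem finite_sub (w : List (Fin n)) : Finite (Sub n w) := by
  induction w with
  | nil => exact inferInstanceAs (Finite Unit)
  | cons i w ih => exact inferInstanceAs (Finite (Sub n w × Bool))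

/-- A stalk element outside `R_+ M` is a generator. -/
theorem gens_ne_zero (hn : 2 ≤ n) {u : List (Fin n)} (hu : prodA n u = UU n)
    (hl : u.length = shi n (UU n)) {w : List (Let n)}
    {E : BS n k (u ++ w.map Let.lo) →ₗ[MvPolynomial (Fin n) k] BS n k (u ++ w.map Let.lo)}
    {y : W n} {d : ℕ} {F : BS n k (u ++ w.map Let.lo)} (hF : ∀ x, ((E F).1 x).IsHomogeneous d)
    (h : ¬ ∃ g ∈ mI k n • MM k w, ∀ e, pt w e = y → (E F).1 (embA w u e) = g e) :
    gens n k (stalkL n k _ E (liftP y ∘ UU n)) d ≠ 0 := by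
  have hpt : ∀ b, pt w b = y → ptA n (u ++ w.map Let.lo) (embA w u b) = liftP y ∘ UU n :=
    fun b hb => by rw [ptA_embA, hu, hb]
  have key : ∀ z ∈ mI k n • stalkL n k _ E (liftP y ∘ UU n), ∃ g ∈ mI k n • MM k w,
      ∀ e (he : pt w e = y), z ⟨embA w u e, hpt e he⟩ = g e := fun z hz => by
    refine Submodule.smul_induction_on hz ?_ ?_
    · rintro r hr _ ⟨_, ⟨G, rfl⟩, rfl⟩
      exact ⟨_, Submodule.smul_mem_smul hr (mem_MM_of w u (E G).2), fun _ _ => rfl⟩
    · rintro a b ⟨f, hf, hf'⟩ ⟨g, hg, hg'⟩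
      exact ⟨f + g, Submodule.add_mem _ hf hg, fun e he => by
        rw [Pi.add_apply, Pi.add_apply, hf' e he, hg' e he]⟩
  have := finite_sub (u ++ w.map Let.lo)
  have : Module.Finite k (Submodule.pi (Set.univ :
      Set {e : Sub n (u ++ w.map Let.lo) // ptA n _ e = liftP y ∘ UU n})
      fun _ => homogeneousSubmodule (Fin n) k d) :=
    Module.Finite.iff_fg.2 (Submodule.fg_pi fun _ => homogeneousSubmodule_fg (Fin n) k d)
  have : Module.Finite k (degPart n k (stalkL n k _ E (liftP y ∘ UU n)) d) :=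
    Submodule.finiteDimensional_of_le (inf_le_right : degPart n k _ d ≤ _)
  intro h0
  have h1 := Submodule.Quotient.subsingleton_iff.1 (Module.finrank_zero_iff.1 h0)
  have hz : (fun e : {e : Sub n (u ++ w.map Let.lo) // ptA n _ e = liftP y ∘ UU n} =>
      (E F).1 e.1) ∈ degPart n k (stalkL n k _ E (liftP y ∘ UU n)) d :=
    ⟨⟨_, ⟨F, rfl⟩, rfl⟩, fun e _ => hF e.1⟩
  have h2 : (⟨_, hz⟩ : degPart n k _ d) ∈ (⊤ : Submodule k _) := Submodule.mem_top
  rw [← h1] at h2
  obtain ⟨g, hg, hg'⟩ := key _ h2.1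
  exact h ⟨g, hg, hg'⟩

end Pool.Agent.PCan
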