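import Pool.Agent.Lib.MP_b03f2e_al.Words

/-! The Bott-Samelson module: grading, ring structure, integration, self-duality. -/

namespace Pool.Agent.PCan

open MvPolynomial Matrix

variable {n : ℕ} {k : Type} [CommRing k]

private theorem wt_eq (d : Fin n →₀ ℕ) :
    Finsupp.weight (fun _ => (1 : ℤ)) d = ((Finsupp.weight (1 : Fin n → ℕ) d : ℕ) : ℤ) := by
  rw [Finsupp.weight_eq_sum, Finsupp.weight_eq_sum]
  simp

private theorem wt_nonneg (d : Fin n →₀ ℕ) : 0 ≤ Finsupp.weight (fun _ => (1 : ℤ)) d := by
  rw [wt_eq]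
  exact Int.natCast_nonneg _

private theorem wt_zero {d : Fin n →₀ ℕ} (h : Finsupp.weight (fun _ => (1 : ℤ)) d = 0) :
    d = 0 := by
  rw [wt_eq] at h
  have h2 : Finsupp.weight (1 : Fin n → ℕ) d = 0 := by exact_mod_cast h
  ext i
  have h3 := Finsupp.le_weight (1 : Fin n → ℕ) (s := i) (by simp) d
  rw [h2] at h3
  simpa using h3

theorem Hz.zero (j : ℤ) : Hz j (0 : RR k n) := isWeightedHomogeneous_zero k _ j
theorem Hz.add {j : ℤ} {a b : RR k n} (ha : Hz j a) (hb : Hz j b) : Hz j (a + b) :=
  IsWeightedHomogeneous.add ha hb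
theorem Hz.neg {j : ℤ} {a : RR k n} (ha : Hz j a) : Hz j (-a) :=
  IsWeightedHomogeneous.neg ha
theorem Hz.sub {j : ℤ} {a b : RR k n} (ha : Hz j a) (hb : Hz j b) : Hz j (a - b) :=
  IsWeightedHomogeneous.sub ha hb
theorem Hz.mul {i j : ℤ} {a b : RR k n} (ha : Hz i a) (hb : Hz j b) : Hz (i + j) (a * b) :=
  IsWeightedHomogeneous.mul ha hb
theorem Hz.sum {A : Type} {j : ℤ} (S : Finset A) {f : A → RR k n} (h : ∀ a ∈ S, Hz j (f a)) :
    Hz j (∑ a ∈ S, f a) := IsWeightedHomogeneous.sum S f j h
theorem Hz.prod_one {A : Type} (S : Finset A) {f : A → RR k n} (h : ∀ a ∈ S, Hz 1 (f a)) :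
    Hz S.card (∏ a ∈ S, f a) := by
  have h1 := IsWeightedHomogeneous.prod (w := fun _ : Fin n => (1 : ℤ)) S f (fun _ => (1 : ℤ)) h
  rw [Finset.sum_const, nsmul_eq_mul, mul_one] at h1
  exact h1
theorem Hz.C (a : k) : Hz 0 (MvPolynomial.C a : RR k n) := isWeightedHomogeneous_C _ a
theorem Hz.one : Hz 0 (1 : RR k n) := isWeightedHomogeneous_one k _
theorem Hz.X (i : Fin n) : Hz 1 (MvPolynomial.X i : RR k n) :=
  isWeightedHomogeneous_X k (fun _ => (1 : ℤ)) i
theorem Hz.congr {i j : ℤ} {a : RR k n} (ha : Hz i a) (h : i = j) : Hz j a := h ▸ ha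
theorem Hz.eq_zero_of_neg {j : ℤ} {a : RR k n} (ha : Hz j a) (hj : j < 0) : a = 0 := by
  refine IsWeightedHomogeneous.eq_zero_of_no_monomials ha (fun d hd => ?_)
  have := wt_nonneg d
  omega
theorem Hz.eq_C {a : RR k n} (ha : Hz 0 a) : a = MvPolynomial.C (constantCoeff a) := by
  have h := IsWeightedHomogeneous.eq_monomial_of_unique_weight (d₀ := 0) ha
    (fun d hd => wt_zero hd)
  exact h
theorem Hz.mem_mI {j : ℤ} {a : RR k n} (ha : Hz j a) (hj : j ≠ 0) : a ∈ mI k n := by
  have h := IsWeightedHomogeneous.coeff_eq_zero ha 0 (by rw [map_zero]; exact hj.symm)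
  exact h
theorem Hz.unique {i j : ℤ} {a : RR k n} (hi : Hz i a) (hj : Hz j a) (h : a ≠ 0) : i = j :=
  IsWeightedHomogeneous.inj_right h hi hj
theorem hz_iff (d : ℕ) (a : RR k n) : Hz (d : ℤ) a ↔ a.IsHomogeneous d := by
  constructor
  · intro h u hu
    have h1 := h hu
    rw [wt_eq] at h1
    exact_mod_cast h1
  · intro h u hu
    have h1 := h hu
    rw [wt_eq, h1]
theorem Hz.rename {j : ℤ} {a : RR k n} (ha : Hz j a) (g : W n) : Hz j (rename g a) := by
  rcases lt_or_ge j 0 with hj | hj
  · rw [ha.eq_zero_of_neg hj, map_zero]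
    exact Hz.zero j
  · obtain ⟨d, rfl⟩ := Int.eq_ofNat_of_zero_le hj
    exact (hz_iff d _).2 ((hz_iff d a).1 ha).rename_isHomogeneous
theorem hz_rt (x : W n) (s : Let n) : Hz 1 (rt k x s) := (Hz.X _).sub (Hz.X _)
theorem hz_ee (x : W n) : Hz (len x) (ee k x) :=
  Hz.prod_one (invs x) (fun _ _ => (Hz.X _).sub (Hz.X _))
theorem hz_eul (w : List (Let n)) (e : Idx w) : Hz w.length (eul k w e) := by
  induction w with
  | nil => exact Hz.one
  | cons s w ih =>
    exact ((ih e.1).mul (hz_rt (pt (s :: w) e) s)).congr (by rw [List.length_cons]; push_cast; ring)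
theorem rename_mem_mI (g : W n) {a : RR k n} (h : a ∈ mI k n) : rename g a ∈ mI k n := by
  have h1 : constantCoeff a = 0 := h
  show constantCoeff (rename g a) = 0
  rw [constantCoeff_rename, h1]
theorem rename_mem_mI_sq (g : W n) {a : RR k n} (h : a ∈ mI k n ^ 2) : rename g a ∈ mI k n ^ 2 := by
  rw [pow_two] at h ⊢
  refine Submodule.mul_induction_on h (fun x hx y hy => ?_) (fun x y hx hy => ?_)
  · rw [map_mul]
    exact Ideal.mul_mem_mul (rename_mem_mI g hx) (rename_mem_mI g hy)
  · rw [map_add]
    exact Ideal.add_mem _ hx hy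

theorem mem_cons (s : Let n) (w : List (Let n)) (F : Idx (s :: w) → RR k n) :
    F ∈ MM k (s :: w) ↔ (fun e => F (e, false)) ∈ MM k w ∧ ∃ g ∈ MM k w, ∀ e,
      F (e, false) - F (e, true) = rt k (pt w e) s * g e := Iff.rfl
private theorem mem_diag (s : Let n) {w : List (Let n)} {m : Idx w → RR k n} (h : m ∈ MM k w) :
    (fun e : Idx (s :: w) => m e.1) ∈ MM k (s :: w) :=
  (mem_cons s w _).2 ⟨h, 0, (MM k w).zero_mem, fun e => by
    rw [Pi.zero_apply, mul_zero, sub_self]⟩
private theorem mem_one (w : List (Let n)) : (fun _ => (1 : RR k n)) ∈ MM k w := by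
  induction w with
  | nil => exact Submodule.mem_top
  | cons s w ih => exact mem_diag s ih
theorem mem_X (w : List (Let n)) (i : Fin n) : (fun e => (X (pt w e i) : RR k n)) ∈ MM k w := by
  induction w with
  | nil => exact Submodule.mem_top
  | cons s w ih =>
    rw [mem_cons]
    refine ⟨by simpa only [pt_false] using ih, ?_⟩
    by_cases h1 : i = s.lo
    · refine ⟨fun _ => 1, mem_one w, fun e => ?_⟩
      rw [pt_false, pt_true, h1, Equiv.Perm.mul_apply, Let.sw_lo, mul_one, rt]
    · by_cases h2 : i = s.hi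
      · refine ⟨-(fun _ => 1), (MM k w).neg_mem (mem_one w), fun e => ?_⟩
        rw [pt_false, pt_true, h2, Equiv.Perm.mul_apply, Let.sw_hi, rt, Pi.neg_apply]
        ring
      · refine ⟨0, (MM k w).zero_mem, fun e => ?_⟩
        rw [pt_false, pt_true, Equiv.Perm.mul_apply, s.sw_other h1 h2, Pi.zero_apply, mul_zero,
          sub_self]
private theorem mem_rt (w : List (Let n)) (s : Let n) : (fun e => rt k (pt w e) s) ∈ MM k w :=
  (MM k w).sub_mem (mem_X w s.lo) (mem_X w s.hi)
theorem mem_mul {w : List (Let n)} {f g : Idx w → RR k n} (hf : f ∈ MM k w) (hg : g ∈ MM k w) :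
    f * g ∈ MM k w := by
  induction w with
  | nil => exact Submodule.mem_top
  | cons s w ih =>
    obtain ⟨hf0, a, ha, hfa⟩ := (mem_cons s w f).1 hf
    obtain ⟨hg0, b, hb, hgb⟩ := (mem_cons s w g).1 hg
    rw [mem_cons]
    refine ⟨ih hf0 hg0, a * (fun e => g (e, false)) + (fun e => f (e, false)) * b
      - (fun e => rt k (pt w e) s) * (a * b), ?_, fun e => ?_⟩
    · exact (MM k w).sub_mem ((MM k w).add_mem (ih ha hg0) (ih hf0 hb))
        (ih (mem_rt w s) (ih ha hb))
    · have h1 := hfa e
      have h2 := hgb e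
      simp only [Pi.mul_apply, Pi.add_apply, Pi.sub_apply]
      linear_combination (g (e, false) - rt k (pt w e) s * b e) * h1 + f (e, true) * h2
theorem mem_true {s : Let n} {w : List (Let n)} {F : Idx (s :: w) → RR k n}
    (h : F ∈ MM k (s :: w)) : (fun e => F (e, true)) ∈ MM k w := by
  obtain ⟨h0, g, hg, hF⟩ := (mem_cons s w F).1 h
  have h1 : (fun e => F (e, true)) =
      (fun e => F (e, false)) - (fun e => rt k (pt w e) s) * g := by
    funext e
    have h2 := hF e
    simp only [Pi.mul_apply, Pi.sub_apply]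
    linear_combination -h2
  rw [h1]
  exact (MM k w).sub_mem h0 (mem_mul (mem_rt w s) hg)

theorem El.zero (w : List (Let n)) (d : ℤ) : El w d (0 : Idx w → RR k n) :=
  ⟨(MM k w).zero_mem, fun _ => Hz.zero d⟩
theorem El.congr {w : List (Let n)} {d d' : ℤ} {m : Idx w → RR k n} (h : El w d m) (hd : d = d') :
    El w d' m := hd ▸ h
theorem El.add {w : List (Let n)} {d : ℤ} {f g : Idx w → RR k n} (hf : El w d f) (hg : El w d g) :
    El w d (f + g) := ⟨(MM k w).add_mem hf.1 hg.1, fun e => (hf.2 e).add (hg.2 e)⟩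
theorem El.sub {w : List (Let n)} {d : ℤ} {f g : Idx w → RR k n} (hf : El w d f) (hg : El w d g) :
    El w d (f - g) := ⟨(MM k w).sub_mem hf.1 hg.1, fun e => (hf.2 e).sub (hg.2 e)⟩
theorem El.neg {w : List (Let n)} {d : ℤ} {f : Idx w → RR k n} (hf : El w d f) : El w d (-f) :=
  ⟨(MM k w).neg_mem hf.1, fun e => (hf.2 e).neg⟩
theorem El.smul {w : List (Let n)} {i d : ℤ} {r : RR k n} {f : Idx w → RR k n} (hr : Hz i r)
    (hf : El w d f) : El w (i + d) (fun e => r * f e) :=
  ⟨(MM k w).smul_mem r hf.1, fun e => hr.mul (hf.2 e)⟩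
theorem El.mul {w : List (Let n)} {i d : ℤ} {f g : Idx w → RR k n} (hf : El w i f)
    (hg : El w d g) : El w (i + d) (fun e => f e * g e) :=
  ⟨mem_mul hf.1 hg.1, fun e => (hf.2 e).mul (hg.2 e)⟩
theorem El.sum {A : Type} {w : List (Let n)} {d : ℤ} (S : Finset A) {f : A → Idx w → RR k n}
    (h : ∀ a ∈ S, El w d (f a)) : El w d (fun e => ∑ a ∈ S, f a e) := by
  refine ⟨?_, fun e => Hz.sum S (fun a ha => (h a ha).2 e)⟩
  have h1 : (fun e => ∑ a ∈ S, f a e) = ∑ a ∈ S, f a := by
    funext e
    rw [Finset.sum_apply]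
  rw [h1]
  exact (MM k w).sum_mem (fun a ha => (h a ha).1)
theorem el_one (w : List (Let n)) : El w 0 (fun _ => (1 : RR k n)) :=
  ⟨mem_one w, fun _ => Hz.one⟩
theorem el_X (w : List (Let n)) (i : Fin n) : El w 1 (fun e => (X (pt w e i) : RR k n)) :=
  ⟨mem_X w i, fun _ => Hz.X _⟩
theorem el_rt (w : List (Let n)) (s : Let n) : El w 1 (fun e => rt k (pt w e) s) :=
  ⟨mem_rt w s, fun _ => hz_rt _ s⟩
private theorem mem_delta (w : List (Let n)) (a : Idx w) :
    (Pi.single a (eul k w a) : Idx w → RR k n) ∈ MM k w := by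
  induction w with
  | nil => exact Submodule.mem_top
  | cons s w ih =>
    obtain ⟨a, b⟩ := a
    rw [mem_cons]
    cases b with
    | false =>
      have key : ∀ e : Idx w,
          (Pi.single (a, false) (eul k (s :: w) (a, false)) : Idx (s :: w) → RR k n) (e, false) =
            rt k (pt w e) s * (Pi.single a (eul k w a) : Idx w → RR k n) e := by
        intro e
        by_cases he : e = a
        · subst he
          rw [Pi.single_eq_same, Pi.single_eq_same, eul, pt_false, mul_comm]
        · rw [Pi.single_eq_of_ne he, Pi.single_eq_of_ne (fun h => he (congrArg Prod.fst h)),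
            mul_zero]
      refine ⟨?_, _, ih a, fun e => ?_⟩
      · rw [funext key]
        exact mem_mul (mem_rt w s) (ih a)
      · rw [key e, Pi.single_eq_of_ne (fun h => Bool.noConfusion (congrArg Prod.snd h)), sub_zero]
    | true =>
      have key : ∀ e : Idx w,
          (Pi.single (a, true) (eul k (s :: w) (a, true)) : Idx (s :: w) → RR k n) (e, false) =
            0 := fun e => Pi.single_eq_of_ne (fun h => Bool.noConfusion (congrArg Prod.snd h)) _
      refine ⟨?_, _, ih a, fun e => ?_⟩
      · rw [funext key]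
        exact (MM k w).zero_mem
      · rw [key e]
        by_cases he : e = a
        · subst he
          rw [Pi.single_eq_same, Pi.single_eq_same, eul, pt_true, rt_mul_sw]
          ring
        · rw [Pi.single_eq_of_ne he, Pi.single_eq_of_ne (fun h => he (congrArg Prod.fst h)),
            mul_zero, sub_zero]
theorem el_delta (w : List (Let n)) (a : Idx w) :
    El w w.length (Pi.single a (eul k w a) : Idx w → RR k n) := by
  refine ⟨mem_delta w a, fun e => ?_⟩
  by_cases he : e = a
  · subst he
    rw [Pi.single_eq_same]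
    exact hz_eul w e
  · rw [Pi.single_eq_of_ne he]
    exact Hz.zero _
theorem el_cons_of {s : Let n} {w : List (Let n)} {d : ℤ} {F : Idx (s :: w) → RR k n}
    {g : Idx w → RR k n} (h0 : El w d (fun e => F (e, false))) (hg : El w (d - 1) g)
    (h : ∀ e, F (e, false) - F (e, true) = rt k (pt w e) s * g e) : El (s :: w) d F := by
  refine ⟨(mem_cons s w F).2 ⟨h0.1, g, hg.1, h⟩, ?_⟩
  rintro ⟨e, b⟩
  cases b with
  | false => exact h0.2 e
  | true =>
    have h1 : F (e, true) = F (e, false) - rt k (pt w e) s * g e := by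
      have h2 := h e
      linear_combination -h2
    rw [h1]
    exact (h0.2 e).sub (((hz_rt (pt w e) s).mul (hg.2 e)).congr (by ring))
theorem el_diag (s : Let n) {w : List (Let n)} {d : ℤ} {m : Idx w → RR k n} (h : El w d m) :
    El (s :: w) d (fun e => m e.1) := ⟨mem_diag s h.1, fun e => h.2 e.1⟩

variable [IsDomain k]

theorem X_sub_ne_zero {a b : Fin n} (h : a ≠ b) : (X a - X b : RR k n) ≠ 0 :=
  sub_ne_zero.2 (fun h1 => h (X_injective h1))
theorem rt_ne_zero (x : W n) (s : Let n) : rt k x s ≠ 0 :=
  X_sub_ne_zero (fun h => s.lo_ne_hi (x.injective h))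
theorem ee_ne_zero (x : W n) : ee k x ≠ 0 := by
  refine Finset.prod_ne_zero_iff.2 (fun p hp => X_sub_ne_zero ?_)
  exact (Finset.mem_filter.1 hp).2.2.ne
theorem eul_ne_zero (w : List (Let n)) (e : Idx w) : eul k w e ≠ 0 := by
  induction w with
  | nil => exact one_ne_zero
  | cons s w ih => exact mul_ne_zero (ih e.1) (rt_ne_zero _ s)
theorem io_inj : Function.Injective (io k : RR k n → QQ k n) :=
  IsFractionRing.injective (RR k n) (QQ k n)
theorem io_ne_zero {a : RR k n} (h : a ≠ 0) : io k a ≠ 0 :=
  fun h1 => h (io_inj (by rw [h1, map_zero]))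
theorem up_inj {A : Type} {f g : A → RR k n} (h : up f = up g) : f = g :=
  funext (fun e => io_inj (congrFun h e))
theorem X_sub_not_mem_sq {a b : Fin n} (h : a ≠ b) {c : k} (hc : c ≠ 0) :
    (X a - X b : RR k n) * C c ∉ mI k n ^ 2 := by
  have key : ∀ f : RR k n, f ∈ mI k n ^ 2 → constantCoeff (pderiv a f) = 0 := by
    intro f hf
    rw [pow_two] at hf
    refine Submodule.mul_induction_on hf (fun x hx y hy => ?_) (fun x y hx hy => ?_)
    · have hx0 : constantCoeff x = 0 := hx
      have hy0 : constantCoeff y = 0 := hy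
      rw [pderiv_mul, map_add, map_mul, map_mul, hx0, hy0, mul_zero, zero_mul, add_zero]
    · rw [map_add, map_add, hx, hy, add_zero]
  intro hm
  have h1 := key _ hm
  rw [pderiv_mul, pderiv_C, mul_zero, add_zero, map_sub, pderiv_X_self,
    pderiv_X_of_ne h.symm, sub_zero, one_mul, constantCoeff_C] at h1
  exact hc h1

omit [IsDomain k] in
private theorem comp_mul {i : ℤ} {a : RR k n} (ha : Hz i a) (m : ℤ) (q : RR k n) :
    weightedHomogeneousComponent (fun _ => (1 : ℤ)) (i + m) (a * q) =
      a * weightedHomogeneousComponent (fun _ => (1 : ℤ)) m q := by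
  induction q using MvPolynomial.induction_on' with
  | monomial u c =>
    have h1 : Hz (Finsupp.weight (fun _ => (1 : ℤ)) u) (monomial u c : RR k n) :=
      isWeightedHomogeneous_monomial _ u c rfl
    have h2 := ha.mul h1
    by_cases hm : m = Finsupp.weight (fun _ => (1 : ℤ)) u
    · rw [hm, IsWeightedHomogeneous.weightedHomogeneousComponent_same h1,
        IsWeightedHomogeneous.weightedHomogeneousComponent_same h2]
    · rw [IsWeightedHomogeneous.weightedHomogeneousComponent_ne m h1 hm,
        IsWeightedHomogeneous.weightedHomogeneousComponent_ne (i + m) h2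
          (fun h => hm (add_left_cancel h)), mul_zero]
  | add p q hp hq => rw [mul_add, map_add, map_add, hp, hq, mul_add]

/-- A quotient of homogeneous polynomials is homogeneous. -/
theorem Hz.of_mul {i j : ℤ} {a q : RR k n} (ha : Hz i a) (h0 : a ≠ 0) (h : Hz j (a * q)) :
    Hz (j - i) q := by
  intro u hu
  by_contra hne
  have h1 := comp_mul ha (Finsupp.weight (fun _ => (1 : ℤ)) u) q
  rw [IsWeightedHomogeneous.weightedHomogeneousComponent_ne _ h
    (fun h2 => hne (by rw [← h2]; ring))] at h1
  have h3 := (mul_eq_zero.1 h1.symm).resolve_left h0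
  have h4 := coeff_weightedHomogeneousComponent (w := fun _ : Fin n => (1 : ℤ))
    (Finsupp.weight (fun _ => (1 : ℤ)) u) q u
  rw [h3, if_pos rfl, coeff_zero] at h4
  exact hu h4.symm

theorem El.cons {s : Let n} {w : List (Let n)} {d : ℤ} {F : Idx (s :: w) → RR k n}
    (h : El (s :: w) d F) : El w d (fun e => F (e, false)) ∧ El w d (fun e => F (e, true)) ∧
      ∃ g, El w (d - 1) g ∧ ∀ e, F (e, false) - F (e, true) = rt k (pt w e) s * g e := by
  obtain ⟨h0, g, hg, hF⟩ := (mem_cons s w F).1 h.1
  refine ⟨⟨h0, fun e => h.2 _⟩, ⟨mem_true h.1, fun e => h.2 _⟩, g, ⟨hg, fun e => ?_⟩, hF⟩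
  refine Hz.of_mul (hz_rt (pt w e) s) (rt_ne_zero _ s) ?_
  rw [← hF e]
  exact (h.2 _).sub (h.2 _)

theorem integ_cons (s : Let n) (w : List (Let n)) (f : Idx (s :: w) → QQ k n) :
    integ (s :: w) f = integ w (fun e => (f (e, false) - f (e, true)) / io k (rt k (pt w e) s)) := by
  unfold integ
  rw [sum_idx]
  refine Finset.sum_congr rfl (fun e _ => ?_)
  have h1 := io_ne_zero (eul_ne_zero (k := k) w e)
  have h2 := io_ne_zero (rt_ne_zero (k := k) (pt w e) s)
  rw [eul, eul, pt_false, pt_true, rt_mul_sw, map_mul, map_mul, map_neg]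
  field_simp
  ring
private theorem integ_up_cons {s : Let n} {w : List (Let n)} {m : Idx (s :: w) → RR k n}
    {g : Idx w → RR k n} (h : ∀ e, m (e, false) - m (e, true) = rt k (pt w e) s * g e) :
    integ (s :: w) (up m) = integ w (up g) := by
  rw [integ_cons]
  congr 1
  funext e
  have h2 := io_ne_zero (rt_ne_zero (k := k) (pt w e) s)
  unfold up
  rw [← map_sub, h e, map_mul, mul_div_cancel_left₀ _ h2]
private theorem integ_nil (f : Idx ([] : List (Let n)) → QQ k n) : integ [] f = f () := by
  unfold integ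
  rw [Finset.sum_eq_single ()]
  · rw [eul, map_one, div_one]
  · intro b _ hb
    exact absurd rfl hb
  · intro hb
    exact absurd (Finset.mem_univ _) hb
theorem integ_mem {w : List (Let n)} {m : Idx w → RR k n} (h : m ∈ MM k w) :
    ∃ r, integ w (up m) = io k r := by
  induction w with
  | nil => exact ⟨m (), integ_nil _⟩
  | cons s w ih =>
    obtain ⟨_, g, hg, hF⟩ := (mem_cons s w m).1 h
    rw [integ_up_cons hF]
    exact ih hg
theorem integ_el {w : List (Let n)} {d : ℤ} {m : Idx w → RR k n} (h : El w d m) :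
    ∃ r, Hz (d - w.length) r ∧ integ w (up m) = io k r := by
  induction w generalizing d with
  | nil => exact ⟨m (), (h.2 ()).congr (by simp), integ_nil _⟩
  | cons s w ih =>
    obtain ⟨_, _, g, hg, hF⟩ := h.cons
    rw [integ_up_cons hF]
    obtain ⟨r, hr, hr'⟩ := ih hg
    exact ⟨r, hr.congr (by rw [List.length_cons]; push_cast; ring), hr'⟩

/-- The module is its own dual lattice. -/
theorem perfect (w : List (Let n)) (j : ℤ) (g : Idx w → QQ k n)
    (h : ∀ d m, El w d m → ∃ r, Hz (d + j) r ∧ integ w (fun e => up m e * g e) = io k r) :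
    ∃ m', El w (j + w.length) m' ∧ g = up m' := by
  induction w generalizing j with
  | nil =>
    obtain ⟨r, hr, hr'⟩ := h 0 _ (el_one [])
    rw [integ_nil] at hr'
    refine ⟨fun _ => r, ⟨Submodule.mem_top, fun _ => hr.congr (by simp)⟩, ?_⟩
    funext e
    have h1 : g () = io k r := by simpa [up] using hr'
    exact h1
  | cons s w ih =>
    obtain ⟨q, hq, hq'⟩ := ih j (fun e => (g (e, false) - g (e, true)) / io k (rt k (pt w e) s))
      (fun d m hm => by
        obtain ⟨r, hr, hr'⟩ := h d _ (el_diag s hm)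
        refine ⟨r, hr, ?_⟩
        rw [← hr', integ_cons]
        congr 1
        funext e
        unfold up
        ring)
    obtain ⟨p, hp, hp'⟩ := ih (j + 1) (fun e => g (e, false))
      (fun d m hm => by
        have hF : El (s :: w) (1 + d)
            (fun e : Idx (s :: w) => if e.2 then 0 else rt k (pt w e.1) s * m e.1) :=
          el_cons_of (g := m) ((el_rt w s).mul hm) (hm.congr (by ring)) (fun e => by simp)
        obtain ⟨r, hr, hr'⟩ := h (1 + d) _ hF
        refine ⟨r, hr.congr (by ring), ?_⟩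
        rw [← hr', integ_cons]
        congr 1
        funext e
        have h2 := io_ne_zero (rt_ne_zero (k := k) (pt w e) s)
        simp only [up, if_true, Bool.false_eq_true, if_false, map_zero, map_mul]
        field_simp
        ring)
    refine ⟨fun e : Idx (s :: w) => if e.2 then p e.1 - rt k (pt w e.1) s * q e.1 else p e.1,
      el_cons_of (g := q) (hp.congr (by rw [List.length_cons]; push_cast; ring))
        (hq.congr (by rw [List.length_cons]; push_cast; ring)) (fun e => by simp), ?_⟩
    funext e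
    obtain ⟨e, b⟩ := e
    have h1 : g (e, false) = io k (p e) := congrFun hp' e
    have h2 : (g (e, false) - g (e, true)) / io k (rt k (pt w e) s) = io k (q e) := congrFun hq' e
    have h3 := io_ne_zero (rt_ne_zero (k := k) (pt w e) s)
    cases b with
    | false => simpa [up] using h1
    | true =>
      rw [div_eq_iff h3] at h2
      simp only [up, if_true, map_sub, map_mul]
      linear_combination h1 - h2

theorem nondeg (w : List (Let n)) (g : Idx w → QQ k n)
    (h : ∀ d m, El w d m → integ w (fun e => up m e * g e) = 0) : g = 0 := by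
  funext a
  have h1 := h _ _ (el_delta w a)
  unfold integ at h1
  rw [Finset.sum_eq_single a] at h1
  · have h2 := io_ne_zero (eul_ne_zero (k := k) w a)
    unfold up at h1
    beta_reduce at h1
    rw [Pi.single_eq_same, mul_div_cancel_left₀ _ h2] at h1
    exact h1
  · intro b _ hb
    unfold up
    beta_reduce
    rw [Pi.single_eq_of_ne hb, map_zero, zero_mul, zero_div]
  · intro hb
    exact absurd (Finset.mem_univ _) hb

omit [IsDomain k] in
private theorem dvd_sub_rename (c d : Fin n) (r : RR k n) :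
    (X c - X d : RR k n) ∣ r - rename (Function.update id c d) r := by
  induction r using MvPolynomial.induction_on with
  | C a => rw [rename_C, sub_self]; exact dvd_zero _
  | add p q hp hq =>
    rw [map_add, add_sub_add_comm]
    exact dvd_add hp hq
  | mul_X p i hp =>
    have h1 : p * X i - rename (Function.update id c d) (p * X i) =
        (p - rename (Function.update id c d) p) * X i +
          rename (Function.update id c d) p * (X i - X (Function.update id c d i)) := by
      rw [map_mul, rename_X]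
      ring
    rw [h1]
    refine dvd_add (hp.mul_right _) (Dvd.dvd.mul_left ?_ _)
    by_cases hi : i = c
    · rw [hi, Function.update_self]
    · rw [Function.update_of_ne hi, id, sub_self]
      exact dvd_zero _

/-- Two different roots are coprime (substitute `X c ↦ X d`). -/
theorem cop_two {a b c d : Fin n} (hab : a ≠ b) (hcd : c ≠ d) (h1 : ¬ (a = c ∧ b = d))
    (h2 : ¬ (a = d ∧ b = c)) {q : QQ k n} (ha : ∃ r, io k (X a - X b) * q = io k r)
    (hc : ∃ r, io k (X c - X d) * q = io k r) : ∃ r, q = io k r := by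
  obtain ⟨r1, hr1⟩ := ha
  obtain ⟨r2, hr2⟩ := hc
  have h3 : r1 * (X c - X d) = r2 * (X a - X b) := by
    apply io_inj
    rw [map_mul, map_mul, ← hr1, ← hr2]
    ring
  have h4 := congrArg (rename (Function.update id c d)) h3
  rw [map_mul, map_mul, map_sub, map_sub, rename_X, rename_X, rename_X, rename_X,
    Function.update_self, Function.update_of_ne hcd.symm, id, sub_self, mul_zero] at h4
  have h5 : Function.update id c d a ≠ Function.update id c d b := by
    by_cases hac : a = c
    · have hbc : b ≠ c := fun h => hab (hac.trans h.symm)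
      rw [hac, Function.update_self, Function.update_of_ne hbc, id]
      exact fun h => h1 ⟨hac, h.symm⟩
    · by_cases hbc : b = c
      · rw [hbc, Function.update_self, Function.update_of_ne hac, id]
        exact fun h => h2 ⟨h, hbc⟩
      · rw [Function.update_of_ne hac, Function.update_of_ne hbc, id, id]
        exact hab
  have h6 := (mul_eq_zero.1 h4.symm).resolve_right (X_sub_ne_zero h5)
  have h7 := dvd_sub_rename c d r2
  rw [h6, sub_zero] at h7
  obtain ⟨t, ht⟩ := h7
  refine ⟨t, mul_left_cancel₀ (io_ne_zero (X_sub_ne_zero (k := k) hcd)) ?_⟩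
  rw [hr2, ht, map_mul]

/-- If every product of separating roots clears the denominator of `q`, then `q` is a
polynomial, provided no `y ∈ Y` is `z` or `z` times a transposition. -/
theorem cop (i0 : Fin n) (z : W n) (Y : Finset (W n))
    (hY : ∀ y ∈ Y, y ≠ z ∧ ∀ a b, y ≠ z * Equiv.swap a b)
    (q : QQ k n) (h : ∀ i : W n → Fin n, (∀ y ∈ Y, y (i y) ≠ z (i y)) →
      ∃ r, io k (∏ y ∈ Y, (X (z (i y)) - X (y (i y)))) * q = io k r) : ∃ r, q = io k r := by
  classical
  induction Y using Finset.induction_on generalizing q with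
  | empty =>
    obtain ⟨r, hr⟩ := h (fun _ => i0) (fun y hy => absurd hy (Finset.notMem_empty y))
    rw [Finset.prod_empty, map_one, one_mul] at hr
    exact ⟨r, hr⟩
  | insert y Y hy ih =>
    have key : ∀ j : Fin n, y j ≠ z j → ∃ r, io k (X (z j) - X (y j)) * q = io k r := by
      intro j hj
      refine ih (fun y' hy' => hY y' (Finset.mem_insert_of_mem hy')) _ (fun i hi => ?_)
      have hne : ∀ y' ∈ Y, y' ≠ y := fun y' hy' h => hy (h ▸ hy')
      obtain ⟨r, hr⟩ := h (Function.update i y j) (fun y' hy' => by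
        rcases Finset.mem_insert.1 hy' with h1 | h1
        · rw [h1, Function.update_self]
          exact hj
        · rw [Function.update_of_ne (hne y' h1)]
          exact hi y' h1)
      refine ⟨r, ?_⟩
      rw [← hr, Finset.prod_insert hy, Function.update_self, map_mul,
        Finset.prod_congr rfl (fun y' hy' => by rw [Function.update_of_ne (hne y' hy')] :
          ∀ y' ∈ Y, (X (z (Function.update i y j y')) - X (y' (Function.update i y j y')) :
            RR k n) = X (z (i y')) - X (y' (i y')))]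
      ring
    obtain ⟨hy1, hy2⟩ := hY y (Finset.mem_insert_self y Y)
    obtain ⟨i, j, hi, hj, h1, h2⟩ := two_roots hy1 hy2
    exact cop_two hi.symm hj.symm h1 h2 (key i hi) (key j hj)

theorem finite_el [Finite k] (w : List (Let n)) (d : ℤ) :
    {m : Idx w → RR k n | El w d m}.Finite := by
  have h1 : {r : RR k n | Hz d r}.Finite := by
    rcases lt_or_ge d 0 with hd | hd
    · exact (Set.finite_singleton 0).subset (fun r hr => Hz.eq_zero_of_neg hr hd)
    · obtain ⟨d, rfl⟩ := Int.eq_ofNat_of_zero_le hd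
      have h2 : Module.Finite k (homogeneousSubmodule (Fin n) k d) :=
        Module.Finite.iff_fg.2 (homogeneousSubmodule_fg (Fin n) k d)
      have h3 : Finite (homogeneousSubmodule (Fin n) k d) := Module.finite_of_finite k
      have h4 : (homogeneousSubmodule (Fin n) k d : Set (RR k n)).Finite := Set.toFinite _
      exact h4.subset (fun r hr => (hz_iff d r).1 hr)
  exact (Set.Finite.pi' (fun _ : Idx w => h1)).subset (fun m hm e => hm.2 e)

end Pool.Agent.PCan
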