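import Mathlib

/-!
Finite type A model used in the proofs.  Words are listed from the last letter to the first.
-/

namespace Pool.Agent.PCan

open MvPolynomial

abbrev W (n : ℕ) := Equiv.Perm (Fin n)

/-- A simple reflection of `S_n`, swapping the positions `a` and `a+1`. -/
structure Let (n : ℕ) where
  a : ℕ
  h : a + 1 < n

variable {n : ℕ}

def Let.lo (s : Let n) : Fin n := ⟨s.a, by have := s.h; omega⟩
def Let.hi (s : Let n) : Fin n := ⟨s.a + 1, s.h⟩
def Let.sw (s : Let n) : W n := Equiv.swap s.lo s.hi

/-- One step down in the Bruhat order. -/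
def Step (y z : W n) : Prop := ∃ a b : Fin n, a < b ∧ y b < y a ∧ z = y * Equiv.swap a b

/-- Bruhat order: `Le z y` means `z ≤ y`. -/
def Le (z y : W n) : Prop := Relation.ReflTransGen Step y z

/-- `x < x s`. -/
def Asc (x : W n) (s : Let n) : Prop := x s.lo < x s.hi

instance (x : W n) (s : Let n) : Decidable (Asc x s) := inferInstanceAs (Decidable (_ < _))

/-- `x < s x`. -/
def LAsc (x : W n) (s : Let n) : Prop := x⁻¹ s.lo < x⁻¹ s.hi

def invs (x : W n) : Finset (Fin n × Fin n) :=
  Finset.univ.filter (fun p => p.1 < p.2 ∧ x p.2 < x p.1)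

def len (x : W n) : ℕ := (invs x).card

/-- `x` fixes every value `≥ t`. -/
def FixFrom (t : ℕ) (x : W n) : Prop := ∀ v : Fin n, t ≤ v.val → x v = v

/-- `x` fixes every value `< t`. -/
def FixBelow (t : ℕ) (x : W n) : Prop := ∀ v : Fin n, v.val < t → x v = v

/-- `x` preserves the set of values `< t`. -/
def Pres (t : ℕ) (x : W n) : Prop := ∀ v : Fin n, v.val < t ↔ (x v).val < t

/-- Sum of the positions of the values `< t`. -/
def sig (t : ℕ) (x : W n) : ℕ :=
  ∑ v ∈ Finset.univ.filter (fun v : Fin n => v.val < t), (x⁻¹ v).val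

@[reducible] def Idx : List (Let n) → Type
  | [] => Unit
  | _ :: w => Idx w × Bool

instance instFintypeIdx : (w : List (Let n)) → Fintype (Idx w)
  | [] => inferInstanceAs (Fintype Unit)
  | _ :: w => @instFintypeProd _ _ (instFintypeIdx w) _

instance instDecEqIdx : (w : List (Let n)) → DecidableEq (Idx w)
  | [] => inferInstanceAs (DecidableEq Unit)
  | _ :: w => @instDecidableEqProd _ _ (instDecEqIdx w) _

def pt : (w : List (Let n)) → Idx w → W n
  | [], _ => 1
  | s :: w, e => if e.2 then pt w e.1 * s.sw else pt w e.1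

def top : (w : List (Let n)) → Idx w
  | [] => ()
  | _ :: w => (top w, true)

def prodL (w : List (Let n)) : W n := pt w (top w)

/-- Reduced words. -/
inductive Red : List (Let n) → Prop
  | nil : Red []
  | cons {s : Let n} {w : List (Let n)} : Red w → Asc (prodL w) s → Red (s :: w)

/-- Words all of whose letters move a value `< t` to the right past a value `≥ t`. -/
inductive TS (t : ℕ) : List (Let n) → Prop
  | nil : TS t []
  | cons {s : Let n} {u : List (Let n)} :
      TS t u → (prodL u s.lo).val < t → t ≤ (prodL u s.hi).val → TS t (s :: u)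

/-- All letters act inside the positions `< t`. -/
def Win (t : ℕ) (w : List (Let n)) : Prop := ∀ s ∈ w, s.a + 1 < t

/-- All letters act inside the positions `≥ t`. -/
def WinHi (t : ℕ) (w : List (Let n)) : Prop := ∀ s ∈ w, t ≤ s.a

/-- Staircase normal form of a word in the window `< t`. -/
inductive NF : ℕ → List (Let n) → Prop
  | zero : NF 0 []
  | succ {t : ℕ} {u w : List (Let n)} : NF t w → TS t u → Win (t + 1) u → NF (t + 1) (u ++ w)

/-- Polynomial degree of the adapted basis element attached to a subexpression. -/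
def dg : (w : List (Let n)) → Idx w → ℕ
  | [], _ => 0
  | s :: w, e => dg w e.1 + if Asc (pt (s :: w) e) s then 1 else 0

/-- All later letters taken. -/
def emb (w : List (Let n)) : (u : List (Let n)) → Idx w → Idx (u ++ w)
  | [], e => e
  | _ :: u, e => (emb w u e, true)

/-- Forget the later letters. -/
def pr (w : List (Let n)) : (u : List (Let n)) → Idx (u ++ w) → Idx w
  | [], e => e
  | _ :: u, e => pr w u e.1

/-- A subexpression of `u ++ w` from subexpressions of the two parts. -/
def pairI (w : List (Let n)) : (u : List (Let n)) → Idx w → Idx u → Idx (u ++ w)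
  | [], e, _ => e
  | _ :: u, e, f => (pairI w u e f.1, f.2)

/-- A subexpression of `w ++ [s]` (`s` is the first letter). -/
def lf (s : Let n) : (w : List (Let n)) → Bool → Idx w → Idx (w ++ [s])
  | [], b, _ => ((), b)
  | _ :: w, b, e => (lf s w b e.1, e.2)

abbrev RR (k : Type) [CommRing k] (n : ℕ) := MvPolynomial (Fin n) k
abbrev QQ (k : Type) [CommRing k] (n : ℕ) := FractionRing (MvPolynomial (Fin n) k)

variable (k : Type) [CommRing k]

noncomputable abbrev io : RR k n →+* QQ k n := algebraMap (RR k n) (QQ k n)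

/-- The root `x(α_s)`. -/
noncomputable def rt (x : W n) (s : Let n) : RR k n := X (x s.lo) - X (x s.hi)

/-- Product of the inversion roots. -/
noncomputable def ee (x : W n) : RR k n := ∏ p ∈ invs x, (X (x p.2) - X (x p.1))

/-- Euler class of the tangent space at a fixed point of the Bott-Samelson variety. -/
noncomputable def eul : (w : List (Let n)) → Idx w → RR k n
  | [], _ => 1
  | s :: w, e => eul w e.1 * rt k (pt (s :: w) e) s

noncomputable def MM : (w : List (Let n)) → Submodule (RR k n) (Idx w → RR k n)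
  | [] => ⊤
  | s :: w =>
    { carrier := {F | (fun e => F (e, false)) ∈ MM w ∧ ∃ g ∈ MM w, ∀ e,
        F (e, false) - F (e, true) = rt k (pt w e) s * g e}
      zero_mem' := ⟨(MM w).zero_mem, 0, (MM w).zero_mem, fun e => by
        rw [Pi.zero_apply, Pi.zero_apply, Pi.zero_apply, mul_zero, sub_zero]⟩
      add_mem' := by
        rintro F G ⟨hF, f, hf, hf'⟩ ⟨hG, g, hg, hg'⟩
        refine ⟨(MM w).add_mem hF hG, f + g, (MM w).add_mem hf hg, fun e => ?_⟩
        have h1 := hf' e
        have h2 := hg' e
        simp only [Pi.add_apply]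
        linear_combination h1 + h2
      smul_mem' := by
        rintro r F ⟨hF, f, hf, hf'⟩
        refine ⟨(MM w).smul_mem r hF, r • f, (MM w).smul_mem r hf, fun e => ?_⟩
        have h1 := hf' e
        simp only [Pi.smul_apply, smul_eq_mul]
        linear_combination r * h1 }

variable {k}

/-- Homogeneous of degree `j : ℤ`. -/
def Hz (j : ℤ) (r : RR k n) : Prop := r.IsWeightedHomogeneous (fun _ => (1 : ℤ)) j

/-- Homogeneous element of degree `d` of the Bott-Samelson module. -/
def El (w : List (Let n)) (d : ℤ) (m : Idx w → RR k n) : Prop :=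
  m ∈ MM k w ∧ ∀ e, Hz d (m e)

/-- Supported on `≤ y`. -/
def Below (w : List (Let n)) (y : W n) (m : Idx w → RR k n) : Prop :=
  ∀ e, m e ≠ 0 → Le (pt w e) y

/-- Supported on `≥ y`. -/
def Above (w : List (Let n)) (y : W n) (m : Idx w → RR k n) : Prop :=
  ∀ e, m e ≠ 0 → Le y (pt w e)

/-- No support strictly above `y`. -/
def NoAbove (w : List (Let n)) (y : W n) (m : Idx w → RR k n) : Prop :=
  ∀ e, m e ≠ 0 → Le y (pt w e) → pt w e = y

/-- No support strictly below `y`. -/
def NoBelow (w : List (Let n)) (y : W n) (m : Idx w → RR k n) : Prop :=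
  ∀ e, m e ≠ 0 → Le (pt w e) y → pt w e = y

noncomputable def up {A : Type} (m : A → RR k n) : A → QQ k n := fun e => io k (m e)

/-- Adapted basis: homogeneous, triangular for the Bruhat order, spanning in the graded sense. -/
structure Adapted (w : List (Let n)) (c : Idx w → Idx w → RR k n) : Prop where
  el : ∀ a, El w (dg w a) (c a)
  below : ∀ a, Below w (pt w a) (c a)
  span : ∀ d m, El w d m → ∃ l : Idx w → RR k n, (∀ a, Hz (d - dg w a) (l a)) ∧
    ∀ e, m e = ∑ a, l a * c a e

variable [IsDomain k]

open Matrix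

/-- Morphism of degree `j` from the module of `w` to the module of `w'`. -/
structure IsHom (w w' : List (Let n)) (j : ℤ) (K : Matrix (Idx w') (Idx w) (QQ k n)) : Prop where
  block : ∀ b a, pt w' b ≠ pt w a → K b a = 0
  map : ∀ d m, El w d m → ∃ m', El w' (d + j) m' ∧ K *ᵥ up m = up m'

def Fix {A : Type} [Fintype A] (K : Matrix A A (QQ k n)) (m : A → RR k n) : Prop :=
  K *ᵥ up m = up m

/-- Adjoint for the integration pairings. -/
noncomputable def adj (w w' : List (Let n)) (K : Matrix (Idx w') (Idx w) (QQ k n)) :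
    Matrix (Idx w) (Idx w') (QQ k n) :=
  fun a b => K b a * io k (eul k w a) / io k (eul k w' b)

/-- Integration over the Bott-Samelson variety by localisation. -/
noncomputable def integ (w : List (Let n)) (f : Idx w → QQ k n) : QQ k n :=
  ∑ e, f e / io k (eul k w e)

/-- The local intersection form at `y`. -/
noncomputable def BF (w : List (Let n)) (y : W n) (f g : Idx w → QQ k n) : QQ k n :=
  io k (ee k y) * ∑ e ∈ Finset.univ.filter (fun e => pt w e = y), f e * g e / io k (eul k w e)

def Idem (w : List (Let n)) (K : Matrix (Idx w) (Idx w) (QQ k n)) : Prop :=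
  IsHom w w 0 K ∧ K * K = K

def Prim (w : List (Let n)) (K : Matrix (Idx w) (Idx w) (QQ k n)) : Prop :=
  Idem w K ∧ K ≠ 0 ∧ ∀ F, Idem w F → F * K = F → K * F = F → F = 0 ∨ F = K

/-- The costalk at `y` of the summand `K` has a non-zero element of polynomial degree `d`. -/
def Occ (w : List (Let n)) (K : Matrix (Idx w) (Idx w) (QQ k n)) (y : W n) (d : ℤ) : Prop :=
  ∃ m, El w d m ∧ Fix K m ∧ NoAbove w y m ∧ ∃ e, pt w e = y ∧ m e ≠ 0

/-- Perverse degree. -/
def nd (w : List (Let n)) (y : W n) (d : ℤ) : ℤ := 2 * d - w.length + len y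

def Perv (w : List (Let n)) (K : Matrix (Idx w) (Idx w) (QQ k n)) : Prop :=
  ∀ y d, Occ w K y d → 0 ≤ nd w y d

/-- The local intersection form of the summand `K` at `y` takes its values in `J`. -/
def FormIn (w : List (Let n)) (K : Matrix (Idx w) (Idx w) (QQ k n)) (y : W n)
    (J : Ideal (RR k n)) : Prop :=
  ∀ d d' m m', El w d m → El w d' m' → Fix K m → Fix (adj w w K) m' → NoAbove w y m →
    NoAbove w y m' → ∃ r ∈ J, BF w y (up m) (up m') = io k r

/-- The augmentation ideal. -/
noncomputable def mI (k : Type) [CommRing k] (n : ℕ) : Ideal (RR k n) :=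
  RingHom.ker (constantCoeff : RR k n →+* k)

/-- All indecomposable objects `E_x` of `S_n` are perverse. -/
def AllPerv (k : Type) [CommRing k] [IsDomain k] (n : ℕ) : Prop :=
  ∀ (w : List (Let n)) (K : Matrix (Idx w) (Idx w) (QQ k n)), Red w → Prim w K →
    K (top w) (top w) = 1 → Perv w K

/-- A perverse summand whose local forms away from `x` vanish at the origin and whose costalk at
`y` has an element of perverse degree zero. -/
structure Gd (w : List (Let n)) (K : Matrix (Idx w) (Idx w) (QQ k n)) (x y : W n) : Prop where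
  idem : Idem w K
  perv : Perv w K
  form : ∀ z, z ≠ x → FormIn w K z (mI k n)
  occ : ∃ d, Occ w K y d ∧ nd w y d = 0

/-- `K ⊗ 1` on the word with one more last letter. -/
noncomputable def extK {w : List (Let n)} (s : Let n) (K : Matrix (Idx w) (Idx w) (QQ k n)) :
    Matrix (Idx (s :: w)) (Idx (s :: w)) (QQ k n) :=
  fun a b => if a.2 = b.2 then K a.1 b.1 else 0

/-- The action of `S_n` on the fraction field. -/
noncomputable def actQ (g : W n) : QQ k n ≃+* QQ k n :=
  IsFractionRing.ringEquivOfRingEquiv (renameEquiv k g).toRingEquiv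

/-- Reduction of coefficients. -/
noncomputable abbrev red (p : ℕ) : RR ℤ n →+* RR (ZMod p) n :=
  MvPolynomial.map (Int.castRingHom (ZMod p))

/-- `K` over the integers lifts `L` over the prime field. -/
def Lifts (p : ℕ) [Fact p.Prime] (w w' : List (Let n)) (K : Matrix (Idx w') (Idx w) (QQ ℤ n))
    (L : Matrix (Idx w') (Idx w) (QQ (ZMod p) n)) : Prop :=
  ∀ d m m', El w d m → K *ᵥ up m = up m' →
    L *ᵥ up (fun e => red p (m e)) = up (fun e => red p (m' e))

/-- The data extracted from a nil-Hecke word. -/
structure WD (p N : ℕ) (v : List (Let n)) (y : W n) (d0 : ℕ) (c : Idx v → RR ℤ n) : Prop where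
  win : Win N v
  el : El v d0 c
  below : Below v y c
  low : ∀ e, pt v e = y → d0 ≤ dg v e
  uniq : ∀ e e', pt v e = y → pt v e' = y → dg v e = d0 → dg v e' = d0 → e = e'
  deg0 : nd v y d0 = 0
  form : ∃ B : ℤ, B ≠ 0 ∧ (p : ℤ) ∣ B ∧ BF v y (up c) (up c) = io ℤ (C B)
  nz : ∃ e, pt v e = y ∧ red p (c e) ≠ 0

/-- Operators on polynomials in four variables. -/
inductive Op
  | x : Op
  | d : Fin 3 → Op
  deriving DecidableEq

/-- `Ev ops f B`: applying the operators (multiplication by `-y₀`, Demazure operators; first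
the head of the list) to `f` and evaluating at the origin gives `B`. -/
inductive Ev : List Op → MvPolynomial (Fin 4) ℤ → ℤ → Prop
  | nil (f : MvPolynomial (Fin 4) ℤ) : Ev [] f (constantCoeff f)
  | x {r : List Op} {f : MvPolynomial (Fin 4) ℤ} {B : ℤ} : Ev r (-X 0 * f) B → Ev (Op.x :: r) f B
  | d {r : List Op} {f g : MvPolynomial (Fin 4) ℤ} {B : ℤ} (i : Fin 3) :
      f - rename (Equiv.swap i.castSucc i.succ) f = (X i.castSucc - X i.succ) * g →
      Ev r g B → Ev (Op.d i :: r) f B

/-- Pairs reached by the subtractive Euclidean algorithm in `s` steps. -/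
inductive Reach : ℕ → ℕ → ℕ → Prop
  | base : Reach 0 1 0
  | u {s a b : ℕ} : Reach s a b → Reach (s + 1) (a + b) b
  | f {s a b : ℕ} : Reach s a b → Reach (s + 1) (a + b) a

end Pool.Agent.PCan
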