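import Mathlib

/-!
Definitions for the statement on spherical p-canonical coefficients in affine type A.
The affine Weyl group acts on the integers; a word is listed from its last letter to its first.
-/

namespace Pool.Agent.PCan

open MvPolynomial

variable (n : ℕ)

/-- The simple reflection `s_i`: swaps `j` and `j+1` for all `j ≡ i` mod `n`. -/
def sA (i : Fin n) (j : ℤ) : ℤ :=
  if j % n = (i : ℕ) then j + 1 else if (j - 1) % n = (i : ℕ) then j - 1 else j

/-- The product of a word. -/
def prodA : List (Fin n) → ℤ → ℤ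
  | [] => id
  | i :: w => prodA w ∘ sA n i

/-- Coxeter length. -/
noncomputable def lenA (x : ℤ → ℤ) : ℕ := sInf {m | ∃ w, prodA n w = x ∧ w.length = m}

/-- `x` is the longest element of its coset `x W_I`. -/
def IsMaxA (x : ℤ → ℤ) : Prop := ∀ i : Fin n, (i : ℕ) + 1 < n → lenA n (x ∘ sA n i) < lenA n x

/-- Subexpressions of a word. -/
@[reducible] def Sub : List (Fin n) → Type
  | [] => Unit
  | _ :: w => Sub w × Bool

/-- The product of a subexpression. -/
def ptA : (w : List (Fin n)) → Sub n w → ℤ → ℤ
  | [], _ => id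
  | i :: w, e => if e.2 then ptA w e.1 ∘ sA n i else ptA w e.1

/-- Pairs of functions `(F₀, F₁)` with `F₀ ∈ N` and `F₀ - F₁ ∈ ρ N`. -/
def stepM {R A : Type} [CommRing R] (N : Submodule R (A → R)) (ρ : A → R) :
    Submodule R (A × Bool → R) where
  carrier := {F | (fun e => F (e, false)) ∈ N ∧ ∃ g ∈ N, ∀ e, F (e, false) - F (e, true) = ρ e * g e}
  zero_mem' := ⟨N.zero_mem, 0, N.zero_mem, fun e => by
    rw [Pi.zero_apply, Pi.zero_apply, Pi.zero_apply, mul_zero, sub_zero]⟩
  add_mem' := by
    rintro F G ⟨hF, f, hf, hf'⟩ ⟨hG, g, hg, hg'⟩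
    refine ⟨N.add_mem hF hG, f + g, N.add_mem hf hg, fun e => ?_⟩
    have h1 := hf' e
    have h2 := hg' e
    simp only [Pi.add_apply]
    linear_combination h1 + h2
  smul_mem' := by
    rintro r F ⟨hF, f, hf, hf'⟩
    refine ⟨N.smul_mem r hF, r • f, N.smul_mem r hf, fun e => ?_⟩
    have h1 := hf' e
    simp only [Pi.smul_apply, smul_eq_mul]
    linear_combination r * h1

variable (k : Type) [Field k] [NeZero n]

/-- The weight `x_j`, `j` taken mod `n`. -/
noncomputable def xA (j : ℤ) : MvPolynomial (Fin n) k := X (Fin.ofNat n (j % n).toNat)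

/-- The Bott-Samelson bimodule, as functions on subexpressions (torus fixed points). -/
noncomputable def BS :
    (w : List (Fin n)) → Submodule (MvPolynomial (Fin n) k) (Sub n w → MvPolynomial (Fin n) k)
  | [] => ⊤
  | i :: w => stepM (BS w) fun e => xA n k (ptA n w e i) - xA n k (ptA n w e (i + 1))

/-- `E` restricts to the projector onto a direct summand of the Bott-Samelson bimodule: a linear
idempotent of degree zero, compatible with the decomposition of the localised bimodule into its
components at group elements. -/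
structure IsSummand (w : List (Fin n))
    (E : (Sub n w → MvPolynomial (Fin n) k) → Sub n w → MvPolynomial (Fin n) k) : Prop where
  mem : ∀ m ∈ BS n k w, E m ∈ BS n k w
  lin : ∀ r : MvPolynomial (Fin n) k, ∀ m ∈ BS n k w, ∀ m' ∈ BS n k w, ∀ e,
    E (fun x => r * m x + m' x) e = r * E m e + E m' e
  idem : ∀ m ∈ BS n k w, E (E m) = E m
  deg : ∀ d : ℕ, ∀ m ∈ BS n k w, (∀ e, (m e).IsHomogeneous d) → ∀ e, (E m e).IsHomogeneous d
  loc : ∀ y : ℤ → ℤ, ∀ m ∈ BS n k w, (∀ e, ptA n w e = y → m e = 0) →
    ∀ e, ptA n w e = y → E m e = 0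

/-- The equivariant stalk of the summand at `y`. -/
noncomputable def stalk (w : List (Fin n))
    (E : (Sub n w → MvPolynomial (Fin n) k) → Sub n w → MvPolynomial (Fin n) k) (y : ℤ → ℤ) :
    Submodule (MvPolynomial (Fin n) k) ({e : Sub n w // ptA n w e = y} → MvPolynomial (Fin n) k) :=
  Submodule.span _ {f | ∃ m ∈ BS n k w, ∀ e, f e = E m e.1}

/-- The part of polynomial degree `d` of a module of functions. -/
noncomputable def degPart {A : Type} (S : Submodule (MvPolynomial (Fin n) k) (A → MvPolynomial (Fin n) k))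
    (d : ℕ) : Submodule k (A → MvPolynomial (Fin n) k) :=
  S.restrictScalars k ⊓ Submodule.pi Set.univ (fun _ => homogeneousSubmodule (Fin n) k d)

/-- The dimension of the degree `d` part of `S / R_+ S`. -/
noncomputable def gens {A : Type}
    (S : Submodule (MvPolynomial (Fin n) k) (A → MvPolynomial (Fin n) k)) (d : ℕ) : ℕ :=
  Module.finrank k (degPart n k S d ⧸
    (degPart n k (RingHom.ker (constantCoeff : MvPolynomial (Fin n) k →+* k) • S) d).comap
      (degPart n k S d).subtype)

end Pool.Agent.PCan
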