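import Pool.Agent.Lib.MP_b03f2e_al.Mirror

/-! Adding a first letter. -/

namespace Pool.Agent.PCan

open MvPolynomial Matrix

variable {n : ℕ} {k : Type} [CommRing k] [IsDomain k] {w : List (Let n)} {s : Let n}

omit [IsDomain k] in
theorem El.rename_const {d : ℤ} {r : RR k n} (hr : Hz d r) (g : W n) : Hz d (rename g r) :=
  hr.rename g

omit [IsDomain k] in
theorem eul_lf (s : Let n) (w : List (Let n)) (e : Idx w) :
    eul k (w ++ [s]) (lf s w false e) = (X s.lo - X s.hi) * eul k w e ∧
    eul k (w ++ [s]) (lf s w true e) = - (X s.lo - X s.hi) * rename s.sw (eul k w e) := by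
  induction w with
  | nil =>
    constructor
    · show (1 : RR k n) * rt k (pt [s] ((), false)) s = _ * 1
      rw [pt_false, pt_nil]
      simp [rt]
    · show (1 : RR k n) * rt k (pt [s] ((), true)) s = _ * rename s.sw 1
      rw [pt_true, rt_mul_sw, pt_nil]
      simp [rt]
  | cons s2 w ih =>
    obtain ⟨e, b⟩ := e
    obtain ⟨h0, h1⟩ := ih e
    constructor
    · have hp := pt_lf s (s2 :: w) false (e, b)
      show eul k (w ++ [s]) (lf s w false e) *
        rt k (pt ((s2 :: w) ++ [s]) (lf s (s2 :: w) false (e, b))) s2 =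
        _ * (eul k w e * rt k (pt (s2 :: w) (e, b)) s2)
      rw [hp, h0, if_neg Bool.false_ne_true]
      ring
    · have hp := pt_lf s (s2 :: w) true (e, b)
      show eul k (w ++ [s]) (lf s w true e) *
        rt k (pt ((s2 :: w) ++ [s]) (lf s (s2 :: w) true (e, b))) s2 =
        _ * rename s.sw (eul k w e * rt k (pt (s2 :: w) (e, b)) s2)
      rw [hp, h1, if_pos rfl, map_mul, rename_rt]
      ring

omit [IsDomain k] in
private theorem ren_ren (s : Let n) (r : RR k n) : rename s.sw (rename s.sw r) = r := by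
  rw [rename_rename, ← Equiv.Perm.coe_mul, Let.sw_mul_self, Equiv.Perm.coe_one, rename_id_apply]

omit [IsDomain k] in
private theorem ren_inj (s : Let n) {a b : RR k n} (h : rename s.sw a = rename s.sw b) : a = b := by
  rw [← ren_ren s a, h, ren_ren]

omit [IsDomain k] in
private theorem hz_al (s : Let n) : Hz 1 (X s.lo - X s.hi : RR k n) := (Hz.X _).sub (Hz.X _)

private theorem al_ne (s : Let n) : (X s.lo - X s.hi : RR k n) ≠ 0 := X_sub_ne_zero s.lo_ne_hi

private theorem left_div (s : Let n) {d : ℤ} {r : RR k n} (hr : Hz d r) :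
    ∃ q, Hz (d - 1) q ∧ r - rename s.sw r = (X s.lo - X s.hi) * q := by
  have h : ∀ r : RR k n, (X s.lo - X s.hi : RR k n) ∣ r - rename s.sw r := by
    intro r
    induction r using MvPolynomial.induction_on with
    | C a => simp
    | add p q hp hq =>
      have : p + q - rename s.sw (p + q) = (p - rename s.sw p) + (q - rename s.sw q) := by
        rw [map_add]; ring
      rw [this]
      exact hp.add hq
    | mul_X p i hp =>
      have e1 : p * X i - rename s.sw (p * X i) =
          (p - rename s.sw p) * X i + rename s.sw p * (X i - X (s.sw i)) := by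
        rw [map_mul, rename_X]; ring
      rw [e1]
      refine (hp.mul_right _).add (Dvd.dvd.mul_left ?_ _)
      by_cases h1 : i = s.lo
      · rw [h1, Let.sw_lo]
      · by_cases h2 : i = s.hi
        · rw [h2, Let.sw_hi]
          exact ⟨-1, by ring⟩
        · rw [s.sw_other h1 h2, sub_self]
          exact dvd_zero _
  obtain ⟨q, hq⟩ := h r
  exact ⟨q, Hz.of_mul (hz_al s) (al_ne s) (hq ▸ hr.sub (hr.rename s.sw)), hq⟩

private noncomputable def lfE (s : Let n) (w : List (Let n)) : Bool × Idx w ≃ Idx (w ++ [s]) :=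
  Equiv.ofBijective (fun p => lf s w p.1 p.2)
    ⟨fun _ _ h => Prod.ext (lf_inj s w h).1 (lf_inj s w h).2,
      fun x => by
        obtain ⟨b, e, h⟩ := lf_surj s w x
        exact ⟨(b, e), h.symm⟩⟩

private theorem lfE_symm (s : Let n) (w : List (Let n)) (b : Bool) (e : Idx w) :
    (lfE s w).symm (lf s w b e) = (b, e) := (lfE s w).symm_apply_apply (b, e)

private theorem exists_mk {A : Type} (s : Let n) (w : List (Let n)) (f g : Idx w → A) :
    ∃ F : Idx (w ++ [s]) → A, (∀ e, F (lf s w false e) = f e) ∧ ∀ e, F (lf s w true e) = g e :=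
  ⟨fun x => if ((lfE s w).symm x).1 then g ((lfE s w).symm x).2 else f ((lfE s w).symm x).2,
    fun e => by simp [lfE_symm], fun e => by simp [lfE_symm]⟩

private theorem pt_lf0 (s : Let n) (w : List (Let n)) (e : Idx w) :
    pt (w ++ [s]) (lf s w false e) = pt w e := by
  rw [pt_lf, if_neg Bool.false_ne_true]

private theorem pt_lf1 (s : Let n) (w : List (Let n)) (e : Idx w) :
    pt (w ++ [s]) (lf s w true e) = s.sw * pt w e := by
  rw [pt_lf, if_pos rfl]

/-- The module of `w ++ [s]` in terms of the module of `w`. -/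
theorem el_lf (s : Let n) (w : List (Let n)) : ∀ (d : ℤ) (F : Idx (w ++ [s]) → RR k n),
    El (w ++ [s]) d F ↔ El w d (fun e => F (lf s w false e)) ∧ ∃ g, El w (d - 1) g ∧
      ∀ e, F (lf s w false e) - rename s.sw (F (lf s w true e)) = (X s.lo - X s.hi) * g e := by
  induction w with
  | nil =>
    intro d F
    have hrt : ∀ e : Idx ([] : List (Let n)), rt k (pt [] e) s = X s.lo - X s.hi := fun e => by
      simp [rt]
    constructor
    · intro hF
      obtain ⟨h0, h1, g, hg, eg⟩ := El.cons (s := s) (w := []) hF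
      obtain ⟨q, hq, eq⟩ := left_div s (h1.2 ())
      refine ⟨h0, fun e => g e + q, ⟨Submodule.mem_top, fun e => (hg.2 e).add hq⟩, fun e => ?_⟩
      have e1 := eg e
      rw [hrt] at e1
      show F ((), false) - rename s.sw (F ((), true)) = _
      linear_combination e1 + eq
    · rintro ⟨h0, g, hg, eg⟩
      have e1 : F ((), false) - rename s.sw (F ((), true)) = (X s.lo - X s.hi) * g () := eg ()
      have h2 : Hz d (rename s.sw (F ((), true))) := by
        have e2 : rename s.sw (F ((), true)) = F ((), false) - (X s.lo - X s.hi) * g () := by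
          linear_combination -e1
        rw [e2]
        exact (h0.2 ()).sub (((hz_al s).mul (hg.2 ())).congr (by ring))
      have h3 : Hz d (F ((), true)) := by
        have := h2.rename s.sw
        rwa [ren_ren] at this
      obtain ⟨q, hq, eq⟩ := left_div s h3
      refine el_cons_of (s := s) (w := []) (g := fun e => g e - q) h0
        ⟨Submodule.mem_top, fun e => (hg.2 e).sub hq⟩ fun e => ?_
      rw [hrt]
      show F ((), false) - F ((), true) = (X s.lo - X s.hi) * (g () - q)
      linear_combination e1 - eq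
  | cons s2 w ih =>
    intro d F
    constructor
    · intro hF
      obtain ⟨h0, h1, G, hG, eG⟩ := El.cons (s := s2) (w := w ++ [s]) hF
      obtain ⟨a0, gf, hgf, egf⟩ := (ih _ _).1 h0
      obtain ⟨-, gt, hgt, egt⟩ := (ih _ _).1 h1
      obtain ⟨b0, g2, hg2, eg2⟩ := (ih _ _).1 hG
      refine ⟨el_cons_of (g := fun e => G (lf s w false e)) a0 b0 fun e => ?_,
        fun e => if e.2 then gt e.1 else gf e.1,
        el_cons_of (g := g2) (by simpa using hgf) hg2 fun e => ?_, ?_⟩
      · have e1 := eG (lf s w false e)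
        rw [pt_lf0] at e1
        exact e1
      · have e1 := eG (lf s w false e)
        have e2 := congrArg (rename s.sw) (eG (lf s w true e))
        rw [pt_lf0] at e1
        rw [pt_lf1, map_sub, map_mul, rename_rt, sw_sw_mul] at e2
        have e3 := egf e
        have e4 := egt e
        have e5 := eg2 e
        apply mul_left_cancel₀ (al_ne (k := k) s)
        simp only [Bool.false_eq_true, if_false, if_true]
        linear_combination e4 - e3 + e1 - e2 + rt k (pt w e) s2 * e5
      · rintro ⟨e, b⟩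
        cases b
        · exact egf e
        · exact egt e
    · rintro ⟨hA, g, hg, eg⟩
      obtain ⟨a0, -, G0, hG0, eG0⟩ := hA.cons
      obtain ⟨c0, -, g2, hg2, eg2⟩ := hg.cons
      obtain ⟨G, G1, G2⟩ := exists_mk s w G0
        (fun e => rename s.sw (G0 e - (X s.lo - X s.hi) * g2 e))
      have h0 : El (w ++ [s]) d (fun x => F (x, false)) :=
        (ih _ _).2 ⟨a0, _, c0, fun e => eg (e, false)⟩
      have hG : El (w ++ [s]) (d - 1) G := by
        refine (ih _ _).2 ⟨by simpa only [G1] using hG0, g2, hg2, fun e => ?_⟩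
        rw [G1, G2, ren_ren]
        ring
      refine el_cons_of (s := s2) (w := w ++ [s]) (g := G) h0 hG fun x => ?_
      obtain ⟨b, e, rfl⟩ := lf_surj s w x
      cases b
      · rw [G1, pt_lf0]
        exact eG0 e
      · apply ren_inj s
        rw [G2, pt_lf1, map_sub, map_mul, rename_rt, sw_sw_mul, ren_ren]
        have e1 : F (lf s w false e, false) - rename s.sw (F (lf s w true e, false)) =
          (X s.lo - X s.hi) * g (e, false) := eg (e, false)
        have e2 : F (lf s w false e, true) - rename s.sw (F (lf s w true e, true)) =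
          (X s.lo - X s.hi) * g (e, true) := eg (e, true)
        have e3 : F (lf s w false e, false) - F (lf s w false e, true) =
          rt k (pt w e) s2 * G0 e := eG0 e
        have e4 := eg2 e
        linear_combination e2 - e1 + e3 - (X s.lo - X s.hi) * e4

/-- `K'` is `1 ⊗ K`. -/
def IsLeft (s : Let n) (w : List (Let n)) (K : Matrix (Idx w) (Idx w) (QQ k n))
    (K' : Matrix (Idx (w ++ [s])) (Idx (w ++ [s])) (QQ k n)) : Prop :=
  ∀ a b, K' (lf s w false a) (lf s w false b) = K a b ∧
    K' (lf s w true a) (lf s w true b) = actQ s.sw (K a b) ∧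
    K' (lf s w false a) (lf s w true b) = 0 ∧ K' (lf s w true a) (lf s w false b) = 0

variable {K : Matrix (Idx w) (Idx w) (QQ k n)}
  {K' : Matrix (Idx (w ++ [s])) (Idx (w ++ [s])) (QQ k n)}

private theorem actQ_actQ (s : Let n) (q : QQ k n) : actQ s.sw (actQ s.sw q) = q := by
  obtain ⟨a, b, -, rfl⟩ := IsFractionRing.div_surjective (RR k n) q
  rw [map_div₀, map_div₀, actQ_io, actQ_io, actQ_io, actQ_io, ren_ren, ren_ren]

private theorem IsLeft.mv0 (h : IsLeft s w K K') (f : Idx (w ++ [s]) → QQ k n) (e : Idx w) :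
    (K' *ᵥ f) (lf s w false e) = (K *ᵥ fun a => f (lf s w false a)) e := by
  simp only [Matrix.mulVec, dotProduct]
  rw [sum_lf]
  refine Finset.sum_congr rfl fun a _ => ?_
  rw [(h e a).1, (h e a).2.2.1, zero_mul, add_zero]

private theorem IsLeft.mv1 (h : IsLeft s w K K') (f : Idx (w ++ [s]) → QQ k n) (e : Idx w) :
    actQ s.sw ((K' *ᵥ f) (lf s w true e)) =
      (K *ᵥ fun a => actQ s.sw (f (lf s w true a))) e := by
  simp only [Matrix.mulVec, dotProduct]
  rw [sum_lf, map_sum]
  refine Finset.sum_congr rfl fun a _ => ?_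
  rw [(h e a).2.1, (h e a).2.2.2, zero_mul, zero_add, map_mul, actQ_actQ]

private theorem IsLeft.act (h : IsLeft s w K K') (F F' : Idx (w ++ [s]) → RR k n) :
    K' *ᵥ up F = up F' ↔
      K *ᵥ up (fun e => F (lf s w false e)) = up (fun e => F' (lf s w false e)) ∧
      K *ᵥ up (fun e => rename s.sw (F (lf s w true e))) =
        up (fun e => rename s.sw (F' (lf s w true e))) := by
  have e1 : ∀ G : Idx (w ++ [s]) → RR k n, (fun a => actQ s.sw (up G (lf s w true a))) =
      up (fun e => rename s.sw (G (lf s w true e))) := fun G => funext fun a => actQ_io _ _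
  constructor
  · intro hF
    constructor
    · funext e
      have h1 := congrFun hF (lf s w false e)
      rw [h.mv0] at h1
      exact h1
    · funext e
      have h1 := congrArg (actQ s.sw) (congrFun hF (lf s w true e))
      rw [h.mv1, e1] at h1
      rw [h1]
      exact congrFun (e1 F') e
  · rintro ⟨h0, h1⟩
    funext x
    obtain ⟨b, e, rfl⟩ := lf_surj s w x
    cases b
    · rw [h.mv0]
      exact congrFun h0 e
    · apply (actQ s.sw).injective
      rw [h.mv1, e1, h1]
      exact (congrFun (e1 F') e).symm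

theorem IsLeft.fix (h : IsLeft s w K K') (F : Idx (w ++ [s]) → RR k n) :
    Fix K' F ↔ Fix K (fun e => F (lf s w false e)) ∧
      Fix K (fun e => rename s.sw (F (lf s w true e))) := h.act F F

theorem IsLeft.adj (h : IsLeft s w K K') :
    IsLeft s w (adj w w K) (adj (w ++ [s]) (w ++ [s]) K') := by
  intro a b
  have h1 := io_ne_zero (al_ne (k := k) s)
  have h2 := io_ne_zero (eul_ne_zero (k := k) w b)
  refine ⟨?_, ?_, ?_, ?_⟩
  · simp only [PCan.adj]
    rw [(h b a).1, (eul_lf s w a).1, (eul_lf s w b).1, map_mul, map_mul]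
    field_simp
  · simp only [PCan.adj]
    have h3 : actQ s.sw (io k (eul k w b)) ≠ 0 := (map_ne_zero _).2 h2
    rw [(h b a).2.1, (eul_lf s w a).2, (eul_lf s w b).2, map_mul, map_mul, map_neg, map_div₀,
      map_mul, ← actQ_io, ← actQ_io]
    field_simp
  · simp only [PCan.adj]
    rw [(h b a).2.2.2, zero_mul, zero_div]
  · simp only [PCan.adj]
    rw [(h b a).2.2.1, zero_mul, zero_div]

theorem exists_left (s : Let n) (hK : Idem w K) : ∃ K', Idem (w ++ [s]) K' ∧ IsLeft s w K K' := by
  let L : Matrix (Idx (w ++ [s])) (Idx (w ++ [s])) (QQ k n) := fun x y =>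
    if ((lfE s w).symm x).1 then
      (if ((lfE s w).symm y).1 then actQ s.sw (K ((lfE s w).symm x).2 ((lfE s w).symm y).2) else 0)
    else (if ((lfE s w).symm y).1 then 0 else K ((lfE s w).symm x).2 ((lfE s w).symm y).2)
  have hL : IsLeft s w K L := fun a b => by simp [L, lfE_symm]
  refine ⟨L, ⟨⟨fun x y hxy => ?_, fun d F hF => ?_⟩, ?_⟩, hL⟩
  · obtain ⟨β, b, rfl⟩ := lf_surj s w x
    obtain ⟨α, a, rfl⟩ := lf_surj s w y
    cases β <;> cases α
    · rw [pt_lf0, pt_lf0] at hxy
      rw [(hL b a).1, hK.1.block b a hxy]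
    · exact (hL b a).2.2.1
    · exact (hL b a).2.2.2
    · rw [pt_lf1, pt_lf1] at hxy
      rw [(hL b a).2.1, hK.1.block b a fun h => hxy (by rw [h]), map_zero]
  · obtain ⟨h0, g, hg, eg⟩ := (el_lf s w d F).1 hF
    obtain ⟨m0, hm0, e0⟩ := hK.1.map _ _ h0
    obtain ⟨g', hg', eg'⟩ := hK.1.map _ _ hg
    obtain ⟨G, G1, G2⟩ := exists_mk s w m0
      (fun e => rename s.sw (m0 e - (X s.lo - X s.hi) * g' e))
    refine ⟨G, (el_lf s w _ G).2 ⟨by simpa only [G1] using hm0, g', hg'.congr (by ring),
      fun e => ?_⟩, (hL.act F G).2 ⟨by simpa only [G1] using e0, ?_⟩⟩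
    · rw [G1, G2, ren_ren]
      ring
    · have h1 : up (fun e => rename s.sw (F (lf s w true e))) =
          up (fun a => F (lf s w false a)) - fun a => io k (X s.lo - X s.hi) * up g a := by
        funext a
        simp only [up, Pi.sub_apply, ← map_mul, ← eg a, ← map_sub, sub_sub_cancel]
      rw [h1, Matrix.mulVec_sub, e0, mulVec_ptmul hK.1.block (fun _ => io k (X s.lo - X s.hi)),
        eg']
      funext a
      simp only [up, Pi.sub_apply, G2, ren_ren, map_sub, map_mul]
  · ext x y
    obtain ⟨β, b, rfl⟩ := lf_surj s w x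
    obtain ⟨α, a, rfl⟩ := lf_surj s w y
    have h1 := congrFun (congrFun hK.2 b) a
    rw [Matrix.mul_apply] at h1
    rw [Matrix.mul_apply, sum_lf]
    cases β <;> cases α
    · simp only [(hL _ _).1, (hL _ _).2.2.1, zero_mul, add_zero, h1]
    · simp only [(hL _ _).2.2.1, zero_mul, mul_zero, add_zero, Finset.sum_const_zero]
    · simp only [(hL _ _).2.2.2, zero_mul, mul_zero, add_zero, Finset.sum_const_zero]
    · simp only [(hL _ _).2.1, (hL _ _).2.2.2, zero_mul, zero_add, ← map_mul, ← map_sum, h1]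

omit [IsDomain k] in
private theorem lle_mono {x z : W n} (h : Le z x) (hx : LAsc x s) : Le (s.sw * z) (s.sw * x) :=
  sw_mul_le (fun h' => (lasc_sw_mul x s).1 h' hx) (h.trans (le_sw_mul_of_lasc hx))

private theorem Left_pair {x : W n} (hx : LAsc x s) {d : ℤ} {G : Idx w → RR k n} (hG : El w d G)
    (hf : Fix K G) (hb : Below w (s.sw * x) G) {e : Idx w}
    (he : pt w e = x ∨ pt w e = s.sw * x) (hne : G e ≠ 0) :
    Occ w K x d ∨ Occ w K (s.sw * x) d := by
  by_cases h : ∃ a, pt w a = s.sw * x ∧ G a ≠ 0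
  · exact Or.inr ⟨G, hG, hf, hb.noAbove, h⟩
  · refine Or.inl ⟨G, hG, hf, fun a ha h1 => ?_, e, ?_, hne⟩
    · exact (lbetween hx h1 (hb a ha)).resolve_right fun h2 => h ⟨a, h2, ha⟩
    · exact he.resolve_right fun h1 => h ⟨e, h1, hne⟩

omit [IsDomain k] in
private theorem ren_ne (s : Let n) {a : RR k n} : rename s.sw a ≠ 0 ↔ a ≠ 0 :=
  ⟨fun h h0 => h (by rw [h0, map_zero]), fun h h0 => h (ren_inj s (h0.trans (map_zero _).symm))⟩

theorem IsLeft.occ_upper (h : IsLeft s w K K') (hK : Idem w K) (hK' : Idem (w ++ [s]) K')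
    {x : W n} (hx : LAsc x s) {d : ℤ} (ho : Occ (w ++ [s]) K' (s.sw * x) d) :
    Occ w K x d ∨ Occ w K (s.sw * x) d := by
  obtain ⟨m, hm, hf, hn, e, he, hne⟩ := ho
  obtain ⟨F, hF, fF, bF, eF⟩ := hK'.below hm hf hn
  obtain ⟨h0, g, hg, eg⟩ := (el_lf s w d F).1 hF
  have h1 : El w d (fun e => rename s.sw (F (lf s w true e))) := by
    have h2 := h0.sub ((El.smul (hz_al s) hg).congr (by ring))
    convert h2 using 1
    funext a
    simp only [Pi.sub_apply, ← eg a, sub_sub_cancel]
  obtain ⟨f0, f1⟩ := (h.fix F).1 fF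
  rw [← eF e he] at hne
  have hd : ¬ LAsc (s.sw * x) s := fun h => (lasc_sw_mul x s).1 h hx
  obtain ⟨b, e, rfl⟩ := lf_surj s w e
  cases b
  · rw [pt_lf0] at he
    refine Left_pair hx h0 f0 (fun a ha => ?_) (Or.inr he) hne
    have h2 := bF _ ha
    rwa [pt_lf0] at h2
  · rw [pt_lf1] at he
    refine Left_pair hx h1 f1 (fun a ha => ?_) (Or.inl (mul_left_cancel he)) ((ren_ne s).2 hne)
    have h2 := sw_mul_le hd (bF _ ((ren_ne s).1 ha))
    rwa [pt_lf1, sw_sw_mul] at h2

theorem IsLeft.occ_lower (h : IsLeft s w K K') (hK : Idem w K) (hK' : Idem (w ++ [s]) K')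
    {x : W n} (hx : LAsc x s) {d : ℤ} (ho : Occ (w ++ [s]) K' x d) :
    Occ w K x (d - 1) ∨ Occ w K (s.sw * x) (d - 1) := by
  obtain ⟨m, hm, hf, hn, e, he, hne⟩ := ho
  obtain ⟨F, hF, fF, bF, eF⟩ := hK'.below hm hf hn
  obtain ⟨-, g, hg, eg⟩ := (el_lf s w d F).1 hF
  obtain ⟨f0, f1⟩ := (h.fix F).1 fF
  rw [← eF e he] at hne
  have fg : Fix K g :=
    fix_div hK.1.block (fun _ => X s.lo - X s.hi) (fun _ => al_ne s) f0 f1 eg
  have hno : ¬ Le (s.sw * x) x := fun h => sw_mul_ne x s (h.antisymm (le_sw_mul_of_lasc hx))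
  have bg : Below w (s.sw * x) g := fun a ha => by
    by_cases h0 : F (lf s w false a) = 0
    · have h1 : F (lf s w true a) ≠ 0 := fun h1 => by
        have h2 := eg a
        rw [h0, h1, map_zero, sub_zero] at h2
        exact mul_ne_zero (al_ne s) ha h2.symm
      have h2 := lle_mono (bF _ h1) hx
      rwa [pt_lf1, sw_sw_mul] at h2
    · have h1 := bF _ h0
      rw [pt_lf0] at h1
      exact h1.trans (le_sw_mul_of_lasc hx)
  obtain ⟨b, e, rfl⟩ := lf_surj s w e
  cases b
  · rw [pt_lf0] at he
    refine Left_pair hx hg fg bg (Or.inl he) fun h0 => hne ?_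
    have h1 : F (lf s w true e) = 0 := by
      by_contra h1
      have h2 := bF _ h1
      rw [pt_lf1, he] at h2
      exact hno h2
    have h2 := eg e
    rwa [h0, h1, mul_zero, map_zero, sub_zero] at h2
  · rw [pt_lf1] at he
    have he' : pt w e = s.sw * x := by rw [← he, sw_sw_mul]
    refine Left_pair hx hg fg bg (Or.inr he') fun h0 => (ren_ne s).2 hne ?_
    have h1 : F (lf s w false e) = 0 := by
      by_contra h1
      have h2 := bF _ h1
      rw [pt_lf0, he'] at h2
      exact hno h2
    have h2 := eg e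
    rwa [h0, h1, mul_zero, zero_sub, neg_eq_zero] at h2

theorem IsLeft.occ_of (h : IsLeft s w K K') (hK : Idem w K) {x : W n} (hx : ¬ LAsc x s) {d : ℤ}
    (ho : Occ w K x d) : Occ (w ++ [s]) K' x d := by
  obtain ⟨m, hm, hf, hn, e, he, hne⟩ := ho
  obtain ⟨F, hF, fF, bF, eF⟩ := hK.below hm hf hn
  rw [← eF e he] at hne
  obtain ⟨G, G1, G2⟩ := exists_mk s w F (fun a => rename s.sw (F a))
  refine ⟨G, (el_lf s w d G).2 ⟨by simpa only [G1] using hF, 0, El.zero _ _, fun a => ?_⟩,
    (h.fix G).2 ⟨by simpa only [G1] using fF, by simpa only [G2, ren_ren] using fF⟩,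
    Below.noAbove fun y hy => ?_, lf s w false e, by rw [pt_lf0, he], by rw [G1]; exact hne⟩
  · rw [G1, G2, ren_ren, sub_self, Pi.zero_apply, mul_zero]
  · obtain ⟨b, a, rfl⟩ := lf_surj s w y
    cases b
    · rw [G1] at hy
      rw [pt_lf0]
      exact bF a hy
    · rw [G2] at hy
      rw [pt_lf1]
      exact sw_mul_le hx (bF a ((ren_ne s).1 hy))

end Pool.Agent.PCan
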