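import Pool.Agent.Lib.MP_b03f2e_al.Hom

/-! External products of summands in two windows. -/

namespace Pool.Agent.PCan

open MvPolynomial Matrix

variable {n : ℕ} {k : Type} [CommRing k] [IsDomain k] {t : ℕ} {w1 w2 : List (Let n)}

omit [IsDomain k] in
private theorem rt_win {z1 z2 : W n} (h1 : FixFrom t z1) (h2 : FixBelow t z2) {s : Let n}
    (hs : t ≤ s.a) : rt k (z1 * z2) s = rt k z2 s := by
  have key : ∀ v : Fin n, t ≤ v.val → (z1 * z2) v = z2 v := fun v hv => by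
    rw [Equiv.Perm.mul_apply]
    refine h1 _ ?_
    by_contra hc
    have := (h2.pres v).2 (by omega)
    omega
  rw [rt, rt, key s.lo hs, key s.hi (Nat.le_succ_of_le hs)]

private theorem winHi_tail {s : Let n} {w : List (Let n)} (h : WinHi t (s :: w)) : WinHi t w :=
  fun r hr => h r (List.mem_cons_of_mem _ hr)

private theorem exists_fun {α : Type} (w u : List (Let n)) (φ : Idx w → Idx u → α) :
    ∃ F : Idx (u ++ w) → α, ∀ a b, F (pairI w u a b) = φ a b := by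
  choose p q hpq using pairI_surj w u
  refine ⟨fun x => φ (p x) (q x), fun a b => ?_⟩
  obtain ⟨e1, e2⟩ := pairI_inj w u (hpq (pairI w u a b))
  show φ (p _) (q _) = _
  rw [← e1, ← e2]

omit [IsDomain k] in
private theorem rt_pair {s : Let n} (h1 : Win t w1) (h2 : WinHi t (s :: w2)) (a : Idx w1)
    (b : Idx w2) : rt k (pt (w2 ++ w1) (pairI w1 w2 a b)) s = rt k (pt w2 b) s := by
  rw [pt_pairI, rt_win (h1.fixFrom a) ((winHi_tail h2).fixBelow b) (h2 s List.mem_cons_self)]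

private theorem pt_pair_iff (h1 : Win t w1) (h2 : WinHi t w2) {z1 z2 : W n} (hz1 : FixFrom t z1)
    (hz2 : FixBelow t z2) (a : Idx w1) (b : Idx w2) :
    pt (w2 ++ w1) (pairI w1 w2 a b) = z1 * z2 ↔ pt w1 a = z1 ∧ pt w2 b = z2 := by
  rw [pt_pairI]
  exact ⟨mul_win_inj (h1.fixFrom a) hz1 (h2.fixBelow b) hz2, fun h => by rw [h.1, h.2]⟩

omit [IsDomain k] in
theorem eul_pairI (h1 : Win t w1) (h2 : WinHi t w2) (a : Idx w1) (b : Idx w2) :
    eul k (w2 ++ w1) (pairI w1 w2 a b) = eul k w1 a * eul k w2 b := by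
  induction w2 with
  | nil => exact (mul_one _).symm
  | cons s w2 ih =>
    have e := pt_pairI w1 (s :: w2) a b
    show eul k (w2 ++ w1) (pairI w1 w2 a b.1) *
      rt k (pt ((s :: w2) ++ w1) (pairI w1 (s :: w2) a b)) s =
        eul k w1 a * (eul k w2 b.1 * rt k (pt (s :: w2) b) s)
    rw [e, ih (winHi_tail h2), rt_win (h1.fixFrom a) (h2.fixBelow b) (h2 s List.mem_cons_self),
      mul_assoc]

theorem el_prod (h1 : Win t w1) (h2 : WinHi t w2) {d1 d2 : ℤ} {f : Idx w1 → RR k n}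
    {g : Idx w2 → RR k n} (hf : El w1 d1 f) (hg : El w2 d2 g) {F : Idx (w2 ++ w1) → RR k n}
    (hF : ∀ a b, F (pairI w1 w2 a b) = f a * g b) : El (w2 ++ w1) (d1 + d2) F := by
  induction w2 generalizing d2 with
  | nil =>
    have e : F = fun a : Idx w1 => g () * f a := funext fun a => (hF a ()).trans (mul_comm _ _)
    rw [e]
    exact (El.smul (hg.2 ()) hf).congr (add_comm _ _)
  | cons s w2 ih =>
    obtain ⟨h0, -, g', hg', hd⟩ := hg.cons
    obtain ⟨G, hG⟩ := exists_fun w1 w2 fun a b => f a * g' b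
    refine el_cons_of (s := s) (w := w2 ++ w1) (g := G)
      (ih (winHi_tail h2) h0 fun a b => hF a (b, false))
      ((ih (winHi_tail h2) hg' hG).congr (by ring)) fun e => ?_
    obtain ⟨a, b, rfl⟩ := pairI_surj w1 w2 e
    have e0 : F (pairI w1 w2 a b, false) = f a * g (b, false) := hF a (b, false)
    have e1 : F (pairI w1 w2 a b, true) = f a * g (b, true) := hF a (b, true)
    rw [e0, e1, hG, rt_pair h1 h2, ← mul_sub, hd]
    ring

private theorem el_dec (h1 : Win t w1) (h2 : WinHi t w2) {d : ℤ} {F : Idx (w2 ++ w1) → RR k n}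
    (hF : El (w2 ++ w1) d F) : ∃ (ι : Type) (_ : Fintype ι) (dd : ι → ℤ)
      (f : ι → Idx w1 → RR k n) (g : ι → Idx w2 → RR k n), (∀ i, El w1 (d - dd i) (f i)) ∧
        (∀ i, El w2 (dd i) (g i)) ∧ ∀ a b, F (pairI w1 w2 a b) = ∑ i, f i a * g i b := by
  induction w2 generalizing d with
  | nil =>
    refine ⟨Unit, inferInstance, fun _ => 0, fun _ => F, fun _ _ => 1,
      fun _ => El.congr (w := w1) hF (sub_zero d).symm, fun _ => el_one _, fun a b => ?_⟩
    rw [Fintype.sum_unique, mul_one]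
    rfl
  | cons s w2 ih =>
    obtain ⟨h0, -, G, hG, hd⟩ := El.cons (s := s) (w := w2 ++ w1) hF
    obtain ⟨ι0, _, d0, f0, g0, hf0, hg0, e0⟩ := ih (winHi_tail h2) h0
    obtain ⟨ι1, _, d1, f1, g1, hf1, hg1, e1⟩ := ih (winHi_tail h2) hG
    refine ⟨ι0 ⊕ ι1, inferInstance, Sum.elim d0 fun i => d1 i + 1, Sum.elim f0 f1,
      Sum.elim (fun i e => g0 i e.1)
        fun i e => if e.2 then -(rt k (pt w2 e.1) s * g1 i e.1) else 0, ?_, ?_, ?_⟩
    · rintro (i | i)
      · exact hf0 i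
      · exact (hf1 i).congr (by simp only [Sum.elim_inr]; ring)
    · rintro (i | i)
      · exact el_diag s (hg0 i)
      · refine el_cons_of (g := g1 i) (El.zero _ _) ((hg1 i).congr (by simp)) fun e => ?_
        simp
    · rintro a ⟨b, c⟩
      rw [Fintype.sum_sum_type]
      cases c
      · refine (e0 a b).trans ?_
        simp
      · have h3 := hd (pairI w1 w2 a b)
        have h4 := e0 a b
        rw [rt_pair h1 h2, e1, Finset.mul_sum] at h3
        have h5 : ∑ i, f1 i a * -(rt k (pt w2 b) s * g1 i b) =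
            -∑ i, rt k (pt w2 b) s * (f1 i a * g1 i b) := by
          rw [← Finset.sum_neg_distrib]
          exact Finset.sum_congr rfl fun i _ => by ring
        show F (pairI w1 w2 a b, true) = ∑ i, f0 i a * g0 i b +
          ∑ i, f1 i a * -(rt k (pt w2 b) s * g1 i b)
        rw [h5]
        linear_combination h4 - h3

/-- Every homogeneous element is a combination of an adapted basis of the second factor with
coefficients in the first factor. -/
theorem el_prod_expand (h1 : Win t w1) (h2 : WinHi t w2) {c : Idx w2 → Idx w2 → RR k n}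
    (hc : Adapted w2 c) {d : ℤ} {F : Idx (w2 ++ w1) → RR k n} (hF : El (w2 ++ w1) d F) :
    ∃ g : Idx w2 → Idx w1 → RR k n, (∀ j, El w1 (d - dg w2 j) (g j)) ∧
      ∀ a b, F (pairI w1 w2 a b) = ∑ j, g j a * c j b := by
  obtain ⟨ι, _, dd, f, g, hf, hg, e⟩ := el_dec h1 h2 hF
  choose l hl hl' using fun i => hc.span _ _ (hg i)
  refine ⟨fun j a => ∑ i, l i j * f i a,
    fun j => El.sum _ fun i _ => (El.smul (hl i j) (hf i)).congr (by ring), fun a b => ?_⟩
  rw [e]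
  simp only [hl', Finset.mul_sum, Finset.sum_mul]
  rw [Finset.sum_comm]
  exact Finset.sum_congr rfl fun j _ => Finset.sum_congr rfl fun i _ => by ring

omit [IsDomain k] in
private theorem mulVec_prod {K1 : Matrix (Idx w1) (Idx w1) (QQ k n)}
    {K2 : Matrix (Idx w2) (Idx w2) (QQ k n)}
    {K : Matrix (Idx (w2 ++ w1)) (Idx (w2 ++ w1)) (QQ k n)}
    (hK : ∀ a b a' b', K (pairI w1 w2 a b) (pairI w1 w2 a' b') = K1 a a' * K2 b b')
    {ι : Type} (S : Finset ι) {u : ι → Idx w1 → QQ k n} {v : ι → Idx w2 → QQ k n}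
    {U : Idx (w2 ++ w1) → QQ k n} (hU : ∀ a b, U (pairI w1 w2 a b) = ∑ i ∈ S, u i a * v i b)
    (a : Idx w1) (b : Idx w2) :
    (K *ᵥ U) (pairI w1 w2 a b) = ∑ i ∈ S, (K1 *ᵥ u i) a * (K2 *ᵥ v i) b := by
  simp only [mulVec, dotProduct]
  rw [sum_pairI]
  simp only [hK, hU, Finset.sum_mul_sum]
  simp only [Finset.mul_sum]
  refine Eq.trans (Finset.sum_congr rfl fun a' _ => ?_) Finset.sum_comm
  refine Eq.trans Finset.sum_comm ?_
  exact Finset.sum_congr rfl fun i _ => Finset.sum_congr rfl fun b' _ => by ring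

omit [IsDomain k] in
private theorem prod_block {K1 : Matrix (Idx w1) (Idx w1) (QQ k n)}
    {K2 : Matrix (Idx w2) (Idx w2) (QQ k n)} (hK1 : Idem w1 K1) (hK2 : Idem w2 K2)
    {K : Matrix (Idx (w2 ++ w1)) (Idx (w2 ++ w1)) (QQ k n)}
    (hK : ∀ a b a' b', K (pairI w1 w2 a b) (pairI w1 w2 a' b') = K1 a a' * K2 b b') :
    ∀ x x', pt (w2 ++ w1) x ≠ pt (w2 ++ w1) x' → K x x' = 0 := by
  intro x x' h
  obtain ⟨a, b, rfl⟩ := pairI_surj w1 w2 x
  obtain ⟨a', b', rfl⟩ := pairI_surj w1 w2 x'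
  rw [pt_pairI, pt_pairI] at h
  rw [hK]
  by_cases ha : pt w1 a = pt w1 a'
  · rw [hK2.1.block b b' fun hb => h (by rw [ha, hb]), mul_zero]
  · rw [hK1.1.block a a' ha, zero_mul]

theorem exists_prodK (h1 : Win t w1) (h2 : WinHi t w2) {K1 : Matrix (Idx w1) (Idx w1) (QQ k n)}
    {K2 : Matrix (Idx w2) (Idx w2) (QQ k n)} (hK1 : Idem w1 K1) (hK2 : Idem w2 K2) :
    ∃ K, Idem (w2 ++ w1) K ∧
      ∀ a b a' b', K (pairI w1 w2 a b) (pairI w1 w2 a' b') = K1 a a' * K2 b b' := by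
  choose L hL using fun (a : Idx w1) (b : Idx w2) =>
    exists_fun w1 w2 fun a' b' => K1 a a' * K2 b b'
  obtain ⟨K, hK'⟩ := exists_fun w1 w2 L
  have hK : ∀ a b a' b', Matrix.of K (pairI w1 w2 a b) (pairI w1 w2 a' b') =
      K1 a a' * K2 b b' := fun a b a' b' => by rw [Matrix.of_apply, hK', hL]
  refine ⟨Matrix.of K, ⟨⟨prod_block hK1 hK2 hK, fun d m hm => ?_⟩, ?_⟩, hK⟩
  · obtain ⟨ι, _, dd, f, g, hf, hg, e⟩ := el_dec h1 h2 hm
    choose f' hf' hf'' _ using fun i => hK1.project (hf i)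
    choose g' hg' hg'' _ using fun i => hK2.project (hg i)
    choose P hP using fun i => exists_fun w1 w2 fun a b => f' i a * g' i b
    refine ⟨fun x => ∑ i, P i x,
      El.sum _ fun i _ => (el_prod h1 h2 (hf' i) (hg' i) (hP i)).congr (by ring), ?_⟩
    funext x
    obtain ⟨a, b, rfl⟩ := pairI_surj w1 w2 x
    rw [mulVec_prod hK Finset.univ (u := fun i => up (f i)) (v := fun i => up (g i))
      fun a b => by simp only [up, e, map_sum, map_mul]]
    simp only [hf'', hg'', up, hP, map_sum, map_mul]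
  · ext x x'
    obtain ⟨a, b, rfl⟩ := pairI_surj w1 w2 x
    obtain ⟨a', b', rfl⟩ := pairI_surj w1 w2 x'
    rw [Matrix.mul_apply, sum_pairI, hK, ← hK1.2, ← hK2.2, Matrix.mul_apply, Matrix.mul_apply,
      Finset.sum_mul_sum]
    simp only [hK]
    exact Finset.sum_congr rfl fun _ _ => Finset.sum_congr rfl fun _ _ => by ring

/-- At `z1 * z2` a costalk element of the product summand is a sum of products of costalk
elements of the two summands. -/
theorem prod_fibre (h1 : Win t w1) (h2 : WinHi t w2) {K1 : Matrix (Idx w1) (Idx w1) (QQ k n)}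
    {K2 : Matrix (Idx w2) (Idx w2) (QQ k n)} (hK1 : Idem w1 K1) (hK2 : Idem w2 K2)
    {K : Matrix (Idx (w2 ++ w1)) (Idx (w2 ++ w1)) (QQ k n)}
    (hK : ∀ a b a' b', K (pairI w1 w2 a b) (pairI w1 w2 a' b') = K1 a a' * K2 b b')
    {z1 z2 : W n} (hz1 : FixFrom t z1) (hz2 : FixBelow t z2) {d : ℤ}
    {F : Idx (w2 ++ w1) → RR k n} (hF : El (w2 ++ w1) d F) (hf : Fix K F)
    (hn : NoAbove (w2 ++ w1) (z1 * z2) F) :
    ∃ (S : Finset (Idx w2)) (dd : Idx w2 → ℤ) (f : Idx w2 → Idx w1 → RR k n)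
      (g : Idx w2 → Idx w2 → RR k n),
      (∀ j ∈ S, El w1 (d - dd j) (f j) ∧ Fix K1 (f j) ∧ NoAbove w1 z1 (f j)) ∧
      (∀ j ∈ S, El w2 (dd j) (g j) ∧ Fix K2 (g j) ∧ NoAbove w2 z2 (g j)) ∧
      ∀ a b, pt w1 a = z1 → pt w2 b = z2 → F (pairI w1 w2 a b) = ∑ j ∈ S, f j a * g j b := by
  obtain ⟨c, hc⟩ := exists_adapted k w2
  obtain ⟨g, hg, e⟩ := el_prod_expand h1 h2 hc hF
  have key : ∀ a j, Le z1 (pt w1 a) → Le z2 (pt w2 j) → g j a ≠ 0 →
      pt w2 j = z2 ∧ pt w1 a = z1 := by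
    intro a j ha hj h0
    by_contra hcon
    refine h0 (hc.coeff_eq_zero {x | Le z2 x → x = z2 ∧ pt w1 a = z1} ?_ (l := fun j => g j a) ?_
      j fun h => hcon (h hj))
    · intro x hx z hz h3
      obtain ⟨rfl, h4⟩ := hx (h3.trans hz)
      exact ⟨hz.antisymm h3, h4⟩
    · intro b hb h3
      rw [← e] at hb
      have h4 := hn _ hb (by
        rw [pt_pairI]
        exact le_mul_win (h1.fixFrom a) (h2.fixBelow b) ha h3)
      exact ((pt_pair_iff h1 h2 hz1 hz2 a b).1 h4).symm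
  choose f' hf1 hf2 hf3 hf4 using fun j => hK1.project (hg j)
  choose c' hc1 hc2 hc3 hc4 using fun j => hK2.project (hc.el j)
  refine ⟨Finset.univ.filter fun j => pt w2 j = z2, fun j => dg w2 j, f', c',
    fun j hj => ⟨hf1 j, hf3 j, fun a ha h3 => ?_⟩, fun j hj => ⟨hc1 j, hc3 j, fun b hb h3 => ?_⟩,
    fun a b ha hb => ?_⟩
  · obtain ⟨a', h4, h5⟩ := hf4 j a ha
    rw [← h4] at h3 ⊢
    exact (key a' j h3 ((Finset.mem_filter.1 hj).2 ▸ Le.refl _) h5).2
  · obtain ⟨b', h4, h5⟩ := hc4 j b hb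
    have h6 := hc.below j b' h5
    rw [h4, (Finset.mem_filter.1 hj).2] at h6
    exact h6.antisymm h3
  · obtain ⟨U, hU⟩ := exists_fun w1 w2 fun a b =>
      ∑ j ∈ Finset.univ.filter fun j => pt w2 j = z2, up (g j) a * up (c j) b
    have h3 : (K *ᵥ up F) (pairI w1 w2 a b) = (K *ᵥ U) (pairI w1 w2 a b) := by
      refine mulVec_fibre (prod_block hK1 hK2 hK) (y := z1 * z2) (fun x hx => ?_)
        ((pt_pair_iff h1 h2 hz1 hz2 a b).2 ⟨ha, hb⟩)
      obtain ⟨a', b', rfl⟩ := pairI_surj w1 w2 x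
      obtain ⟨ha', hb'⟩ := (pt_pair_iff h1 h2 hz1 hz2 a' b').1 hx
      rw [hU]
      simp only [up, ← map_mul, ← map_sum]
      rw [e]
      refine congrArg _ (Finset.sum_subset (Finset.subset_univ _) fun j _ hj => ?_).symm
      by_contra h4
      have h5 := hc.below j b' (right_ne_zero_of_mul h4)
      rw [hb'] at h5
      exact hj (Finset.mem_filter.2
        ⟨Finset.mem_univ _, (key a' j (ha' ▸ Le.refl _) h5 (left_ne_zero_of_mul h4)).1⟩)
    rw [hf, mulVec_prod hK _ hU] at h3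
    simp only [hf2, hc2, up, ← map_mul, ← map_sum] at h3
    exact io_inj h3

private theorem four_sum {Q A B J J' : Type} [Field Q] (SA : Finset A) (SB : Finset B)
    (S : Finset J) (S' : Finset J') (x y : Q) (f : J → A → Q) (g : J → B → Q) (f' : J' → A → Q)
    (g' : J' → B → Q) (p : A → Q) (q : B → Q) :
    x * y * ∑ a ∈ SA, ∑ b ∈ SB,
        (∑ j ∈ S, f j a * g j b) * (∑ j ∈ S', f' j a * g' j b) / (p a * q b) =
      ∑ j ∈ S, ∑ j' ∈ S', (x * ∑ a ∈ SA, f j a * f' j' a / p a) *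
        (y * ∑ b ∈ SB, g j b * g' j' b / q b) := by
  calc _ = ∑ ab ∈ SA ×ˢ SB, ∑ jj ∈ S ×ˢ S', x * y * (f jj.1 ab.1 * g jj.1 ab.2 *
          (f' jj.2 ab.1 * g' jj.2 ab.2) / (p ab.1 * q ab.2)) := by
        simp only [Finset.sum_product, Finset.sum_mul_sum, Finset.sum_div]
        simp only [Finset.mul_sum]
    _ = ∑ jj ∈ S ×ˢ S', ∑ ab ∈ SA ×ˢ SB, x * y * (f jj.1 ab.1 * g jj.1 ab.2 *
          (f' jj.2 ab.1 * g' jj.2 ab.2) / (p ab.1 * q ab.2)) := Finset.sum_comm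
    _ = _ := by
        simp only [Finset.sum_product]
        refine Finset.sum_congr rfl fun j _ => Finset.sum_congr rfl fun j' _ => ?_
        rw [mul_mul_mul_comm, Finset.sum_mul_sum, Finset.mul_sum]
        refine Finset.sum_congr rfl fun a _ => ?_
        rw [Finset.mul_sum]
        exact Finset.sum_congr rfl fun b _ => by ring

private theorem BF_pair (h1 : Win t w1) (h2 : WinHi t w2) {z1 z2 : W n} (hz1 : FixFrom t z1)
    (hz2 : FixBelow t z2) (U V : Idx (w2 ++ w1) → QQ k n) :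
    BF (w2 ++ w1) (z1 * z2) U V = io k (ee k z1) * io k (ee k z2) *
      ∑ a ∈ Finset.univ.filter (fun a => pt w1 a = z1),
        ∑ b ∈ Finset.univ.filter (fun b => pt w2 b = z2),
          U (pairI w1 w2 a b) * V (pairI w1 w2 a b) / (io k (eul k w1 a) * io k (eul k w2 b)) := by
  rw [BF, ee_mul_win k hz1 hz2, map_mul, Finset.sum_filter, sum_pairI, Finset.sum_filter]
  refine congrArg _ (Finset.sum_congr rfl fun a _ => ?_)
  simp only [pt_pair_iff h1 h2 hz1 hz2, eul_pairI h1 h2, map_mul, Finset.sum_filter]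
  by_cases ha : pt w1 a = z1
  · simp only [ha, true_and, if_true]
  · simp only [ha, false_and, if_false, Finset.sum_const_zero]

private theorem nd_pair {z1 z2 : W n} (hz1 : FixFrom t z1) (hz2 : FixBelow t z2) (d1 d2 : ℤ) :
    nd (w2 ++ w1) (z1 * z2) (d1 + d2) = nd w1 z1 d1 + nd w2 z2 d2 := by
  simp only [nd, len_mul_win hz1 hz2, List.length_append]
  push_cast
  ring

theorem product (h1 : Win t w1) (h2 : WinHi t w2) {K1 : Matrix (Idx w1) (Idx w1) (QQ k n)}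
    {K2 : Matrix (Idx w2) (Idx w2) (QQ k n)} {x1 y1 x2 y2 : W n} (hG1 : Gd w1 K1 x1 y1)
    (hG2 : Gd w2 K2 x2 y2) :
    ∃ K : Matrix (Idx (w2 ++ w1)) (Idx (w2 ++ w1)) (QQ k n), Idem (w2 ++ w1) K ∧
      Perv (w2 ++ w1) K ∧ (∃ d, Occ (w2 ++ w1) K (y1 * y2) d ∧ nd (w2 ++ w1) (y1 * y2) d = 0) ∧
      ∀ z1 z2, FixFrom t z1 → FixBelow t z2 → z1 ≠ x1 → z2 ≠ x2 →
        FormIn (w2 ++ w1) K (z1 * z2) (mI k n ^ 2) := by
  obtain ⟨K, hI, hK⟩ := exists_prodK h1 h2 hG1.idem hG2.idem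
  refine ⟨K, hI, ?_, ?_, ?_⟩
  · rintro y d ⟨m, hm, hf, hn, x, rfl, h0⟩
    obtain ⟨a, b, rfl⟩ := pairI_surj w1 w2 x
    rw [pt_pairI] at hn ⊢
    obtain ⟨S, dd, f, g, hf', hg', e⟩ := prod_fibre h1 h2 hG1.idem hG2.idem hK (h1.fixFrom a)
      (h2.fixBelow b) hm hf hn
    rw [e a b rfl rfl] at h0
    obtain ⟨j, hj, h3⟩ := Finset.exists_ne_zero_of_sum_ne_zero h0
    have p1 := hG1.perv _ _ ⟨f j, (hf' j hj).1, (hf' j hj).2.1, (hf' j hj).2.2, a, rfl,
      left_ne_zero_of_mul h3⟩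
    have p2 := hG2.perv _ _ ⟨g j, (hg' j hj).1, (hg' j hj).2.1, (hg' j hj).2.2, b, rfl,
      right_ne_zero_of_mul h3⟩
    rw [← sub_add_cancel d (dd j), nd_pair (h1.fixFrom a) (h2.fixBelow b)]
    exact add_nonneg p1 p2
  · obtain ⟨d1, ⟨m1, a1, a2, a3, a, rfl, a4⟩, a5⟩ := hG1.occ
    obtain ⟨d2, ⟨m2, b1, b2, b3, b, rfl, b4⟩, b5⟩ := hG2.occ
    obtain ⟨f, f1, f2, f3, f4⟩ := hG1.idem.below a1 a2 a3
    obtain ⟨g, g1, g2, g3, g4⟩ := hG2.idem.below b1 b2 b3
    obtain ⟨F, hF⟩ := exists_fun w1 w2 fun a b => f a * g b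
    refine ⟨d1 + d2, ⟨F, el_prod h1 h2 f1 g1 hF, ?_, Below.noAbove fun x hx => ?_,
      pairI w1 w2 a b, pt_pairI _ _ _ _, ?_⟩, ?_⟩
    · funext x
      obtain ⟨a', b', rfl⟩ := pairI_surj w1 w2 x
      rw [mulVec_prod hK (Finset.univ : Finset Unit) (u := fun _ => up f) (v := fun _ => up g)
        fun a b => by simp only [up, hF, map_mul, Fintype.sum_unique], Fintype.sum_unique, f2, g2]
      simp only [up, hF, map_mul]
    · obtain ⟨a', b', rfl⟩ := pairI_surj w1 w2 x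
      rw [hF] at hx
      rw [pt_pairI]
      exact le_mul_win (h1.fixFrom a) (h2.fixBelow b) (f3 a' (left_ne_zero_of_mul hx))
        (g3 b' (right_ne_zero_of_mul hx))
    · rw [hF, f4 a rfl, g4 b rfl]
      exact mul_ne_zero a4 b4
    · rw [nd_pair (h1.fixFrom a) (h2.fixBelow b), a5, b5, add_zero]
  · intro z1 z2 hz1 hz2 n1 n2 d d' m m' hm hm' hf hf' hn hn'
    have hK' : ∀ a b a' b', adj (w2 ++ w1) (w2 ++ w1) K (pairI w1 w2 a b) (pairI w1 w2 a' b') =
        adj w1 w1 K1 a a' * adj w2 w2 K2 b b' := by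
      intro a b a' b'
      simp only [adj, hK, eul_pairI h1 h2, map_mul]
      ring
    obtain ⟨S, dd, f, g, p1, p2, e⟩ := prod_fibre h1 h2 hG1.idem hG2.idem hK hz1 hz2 hm hf hn
    obtain ⟨S', dd', f', g', q1, q2, e'⟩ :=
      prod_fibre h1 h2 hG1.idem.adj hG2.idem.adj hK' hz1 hz2 hm' hf' hn'
    have h3 : BF (w2 ++ w1) (z1 * z2) (up m) (up m') = ∑ j ∈ S, ∑ j' ∈ S',
        BF w1 z1 (up (f j)) (up (f' j')) * BF w2 z2 (up (g j)) (up (g' j')) := by
      rw [BF_pair h1 h2 hz1 hz2]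
      refine Eq.trans (congrArg _ (Finset.sum_congr rfl fun a ha =>
        Finset.sum_congr rfl fun b hb => ?_)) (four_sum _ _ S S' _ _ (fun j => up (f j))
          (fun j => up (g j)) (fun j => up (f' j)) (fun j => up (g' j)) _ _)
      have ha' := (Finset.mem_filter.1 ha).2
      have hb' := (Finset.mem_filter.1 hb).2
      simp only [up, e a b ha' hb', e' a b ha' hb', map_sum, map_mul]
    have hadd : ∀ x y : QQ k n, (∃ r ∈ mI k n ^ 2, x = io k r) → (∃ r ∈ mI k n ^ 2, y = io k r) →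
        ∃ r ∈ mI k n ^ 2, x + y = io k r := by
      rintro _ _ ⟨r, hr, rfl⟩ ⟨r', hr', rfl⟩
      exact ⟨r + r', add_mem hr hr', (map_add _ _ _).symm⟩
    have hzero : ∃ r ∈ mI k n ^ 2, (0 : QQ k n) = io k r := ⟨0, zero_mem _, (map_zero _).symm⟩
    rw [h3]
    refine Finset.sum_induction _ (fun x => ∃ r ∈ mI k n ^ 2, x = io k r) hadd hzero
      fun j hj => Finset.sum_induction _ (fun x => ∃ r ∈ mI k n ^ 2, x = io k r) hadd hzero
        fun j' hj' => ?_
    obtain ⟨r, hr, e1⟩ := hG1.form z1 n1 _ _ _ _ (p1 j hj).1 (q1 j' hj').1 (p1 j hj).2.1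
      (q1 j' hj').2.1 (p1 j hj).2.2 (q1 j' hj').2.2
    obtain ⟨r', hr', e2⟩ := hG2.form z2 n2 _ _ _ _ (p2 j hj).1 (q2 j' hj').1 (p2 j hj).2.1
      (q2 j' hj').2.1 (p2 j hj).2.2 (q2 j' hj').2.2
    exact ⟨r * r', by rw [pow_two]; exact Ideal.mul_mem_mul hr hr', by rw [e1, e2, map_mul]⟩

end Pool.Agent.PCan
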