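import Pool.Agent.Lib.MP_b03f2e_al.Hom

/-! Adding or deleting `t`-steps at the end of a word. -/

namespace Pool.Agent.PCan

open MvPolynomial Matrix

variable {n : ℕ} {k : Type} [CommRing k] [IsDomain k]

theorem pt_emb (w u : List (Let n)) (e : Idx w) : pt (u ++ w) (emb w u e) = pt w e * prodL u := by
  rw [emb_eq, pt_pairI]
  rfl
theorem pr_emb (w u : List (Let n)) (e : Idx w) : pr w u (emb w u e) = e := by
  rw [emb_eq, pr_pairI]
theorem emb_inj (w u : List (Let n)) : Function.Injective (emb w u) :=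
  Function.LeftInverse.injective (pr_emb w u)
omit [IsDomain k] in
theorem El.comp_pr {w : List (Let n)} (u : List (Let n)) {d : ℤ} {m : Idx w → RR k n}
    (h : El w d m) : El (u ++ w) d (fun x => m (pr w u x)) := by
  induction u with
  | nil => exact h
  | cons s u ih => exact el_diag s ih
theorem El.comp_emb {w : List (Let n)} (u : List (Let n)) {d : ℤ} {m : Idx (u ++ w) → RR k n}
    (h : El (u ++ w) d m) : El w d (fun e => m (emb w u e)) := by
  induction u with
  | nil => exact h
  | cons s u ih => exact ih (El.cons (s := s) (w := u ++ w) h).2.1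

/-- Product of the roots met along `u` from `x`. -/
private noncomputable def QE (k : Type) [CommRing k] : List (Let n) → W n → RR k n
  | [], _ => 1
  | s :: u, x => QE k u x * rt k (x * prodL u) s

private theorem QE_ne_zero (u : List (Let n)) (x : W n) : QE k u x ≠ 0 := by
  induction u with
  | nil => exact one_ne_zero
  | cons s u ih => exact mul_ne_zero ih (rt_ne_zero _ s)

omit [IsDomain k] in
private theorem eul_emb (w u : List (Let n)) (e : Idx w) :
    eul k (u ++ w) (emb w u e) = eul k w e * ((-1) ^ u.length * QE k u (pt w e)) := by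
  induction u with
  | nil =>
    show eul k w e = eul k w e * ((-1) ^ 0 * 1)
    rw [pow_zero, mul_one, mul_one]
  | cons s u ih =>
    show eul k (u ++ w) (emb w u e) * rt k (pt (s :: (u ++ w)) (emb w u e, true)) s =
      eul k w e * ((-1) ^ (u.length + 1) * (QE k u (pt w e) * rt k (pt w e * prodL u) s))
    rw [ih, pt_true, rt_mul_sw, pt_emb]
    ring

omit [IsDomain k] in
private theorem ee_TS {t : ℕ} {u : List (Let n)} (hu : TS t u) {z : W n} (hz : Pres t z) :
    ee k (z * prodL u) = ee k z * QE k u z := by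
  induction hu with
  | nil =>
    show ee k (z * 1) = ee k z * 1
    rw [mul_one, mul_one]
  | @cons s u hu h1 h2 ih =>
    show ee k (z * prodL (s :: u)) = ee k z * (QE k u z * rt k (z * prodL u) s)
    rw [prodL_cons, ← mul_assoc, ee_mul_sw k ((TS.cons hu h1 h2).asc hz), ih, mul_assoc]

variable {t : ℕ} {w u : List (Let n)}

theorem exists_emb (hu : TS t u) (hw : ∀ e, Pres t (pt w e)) {z : W n} (hz : Pres t z)
    {x : Idx (u ++ w)} (hx : Le (z * prodL u) (pt (u ++ w) x)) : ∃ e, x = emb w u e := by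
  obtain ⟨e, f, rfl⟩ := pairI_surj w u x
  rw [pt_pairI] at hx
  exact ⟨e, by rw [emb_eq, hu.eq_top hz (hw e) hx]⟩

theorem BF_emb (hu : TS t u) (hw : ∀ e, Pres t (pt w e)) {z : W n} (hz : Pres t z)
    (f g : Idx (u ++ w) → QQ k n) : BF (u ++ w) (z * prodL u) f g =
      (-1) ^ u.length * BF w z (fun e => f (emb w u e)) (fun e => g (emb w u e)) := by
  unfold BF
  rw [Finset.sum_filter, Finset.sum_filter,
    ← Fintype.sum_of_injective (emb w u) (emb_inj w u) _ _ (fun x hx => if_neg fun h => by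
      obtain ⟨e, he⟩ := exists_emb hu hw hz (x := x) (h ▸ Le.refl _)
      exact hx ⟨e, he.symm⟩) (fun _ => rfl),
    Finset.mul_sum, Finset.mul_sum, Finset.mul_sum]
  refine Finset.sum_congr rfl fun e _ => ?_
  by_cases he : pt w e = z
  · have h1 := io_ne_zero (eul_ne_zero (k := k) w e)
    have h2 := io_ne_zero (QE_ne_zero (k := k) u z)
    have h3 : ((-1 : QQ k n) ^ u.length) ≠ 0 := pow_ne_zero _ (neg_ne_zero.2 one_ne_zero)
    have h4 : ((-1 : QQ k n) ^ u.length) * (-1) ^ u.length = 1 := by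
      rw [← mul_pow, neg_mul_neg, one_mul, one_pow]
    rw [if_pos (by rw [pt_emb, he]), if_pos he, eul_emb, he, ee_TS hu hz, map_mul, map_mul,
      map_mul, map_pow, map_neg, map_one]
    field_simp
    linear_combination (-(io k (ee k z) * f (emb w u e) * g (emb w u e))) * h4
  · rw [if_neg (by rw [pt_emb]; exact fun h => he (mul_right_cancel h)), if_neg he, mul_zero,
      mul_zero, mul_zero]

theorem nd_emb (hu : TS t u) {z : W n} (hz : Pres t z) (d : ℤ) :
    nd (u ++ w) (z * prodL u) d = nd w z d := by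
  unfold nd
  rw [hu.len_mul hz, List.length_append]
  push_cast
  ring

/-- `K'` restricts to `K` on the subexpressions that take all of `u`. -/
def Restr (w u : List (Let n)) (K : Matrix (Idx w) (Idx w) (QQ k n))
    (K' : Matrix (Idx (u ++ w)) (Idx (u ++ w)) (QQ k n)) : Prop :=
  ∀ a b, K' (emb w u a) (emb w u b) = K a b

theorem exists_ext (u : List (Let n)) {K : Matrix (Idx w) (Idx w) (QQ k n)} (hK : Idem w K) :
    ∃ K', Idem (u ++ w) K' ∧ Restr w u K K' := by
  induction u with
  | nil => exact ⟨K, hK, fun _ _ => rfl⟩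
  | cons s u ih =>
    obtain ⟨K', h1, h2⟩ := ih
    exact ⟨extK s K', h1.extK s, fun a b => (if_pos rfl).trans (h2 a b)⟩

private theorem restr_mulVec {K : Matrix (Idx w) (Idx w) (QQ k n)}
    {K' : Matrix (Idx (u ++ w)) (Idx (u ++ w)) (QQ k n)} (hu : TS t u)
    (hw : ∀ e, Pres t (pt w e)) (h : Restr w u K K')
    (hK' : ∀ b a, pt (u ++ w) b ≠ pt (u ++ w) a → K' b a = 0) (f : Idx (u ++ w) → QQ k n)
    (e : Idx w) : (K' *ᵥ f) (emb w u e) = (K *ᵥ fun a => f (emb w u a)) e := by
  unfold Matrix.mulVec dotProduct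
  refine (Fintype.sum_of_injective (emb w u) (emb_inj w u) _ _ (fun x hx => ?_)
    (fun a => ?_)).symm
  · have h0 : K' (emb w u e) x = 0 := hK' _ _ fun h1 => by
      obtain ⟨a, ha⟩ := exists_emb hu hw (hw e) (x := x) (by
        rw [← h1, pt_emb]
        exact Le.refl _)
      exact hx ⟨a, ha.symm⟩
    show K' (emb w u e) x * f x = 0
    rw [h0, zero_mul]
  · show K e a * f (emb w u a) = K' (emb w u e) (emb w u a) * f (emb w u a)
    rw [h e a]

theorem exists_restr (hu : TS t u) (hw : ∀ e, Pres t (pt w e))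
    {K' : Matrix (Idx (u ++ w)) (Idx (u ++ w)) (QQ k n)} (hK : Idem (u ++ w) K') :
    ∃ K, Idem w K ∧ Restr w u K K' := by
  have hR : Restr w u (fun a b => K' (emb w u a) (emb w u b)) K' := fun _ _ => rfl
  refine ⟨_, ⟨⟨fun b a hba => hK.1.block _ _ ?_, fun d m hm => ?_⟩, ?_⟩, hR⟩
  · rw [pt_emb, pt_emb]
    exact fun h => hba (mul_right_cancel h)
  · obtain ⟨m', hm', hmm⟩ := hK.1.map d _ (hm.comp_pr u)
    refine ⟨fun e => m' (emb w u e), hm'.comp_emb u, funext fun e => ?_⟩
    have h1 := restr_mulVec hu hw hR hK.1.block (up fun x => m (pr w u x)) e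
    rw [hmm] at h1
    have h2 : (fun a => up (fun x => m (pr w u x)) (emb w u a)) = up m := by
      funext a
      show io k (m (pr w u (emb w u a))) = io k (m a)
      rw [pr_emb]
    rw [h2] at h1
    exact h1.symm
  · funext a b
    have h1 := restr_mulVec hu hw hR hK.1.block (fun x => K' x (emb w u b)) a
    have h2 : (K' * K') (emb w u a) (emb w u b) = K' (emb w u a) (emb w u b) := by rw [hK.2]
    exact h1.symm.trans h2

variable {K : Matrix (Idx w) (Idx w) (QQ k n)} {K' : Matrix (Idx (u ++ w)) (Idx (u ++ w)) (QQ k n)}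

theorem Restr.mulVec (hu : TS t u) (hw : ∀ e, Pres t (pt w e)) (h : Restr w u K K')
    (hK' : ∀ b a, pt (u ++ w) b ≠ pt (u ++ w) a → K' b a = 0) (f : Idx (u ++ w) → QQ k n)
    (e : Idx w) : (K' *ᵥ f) (emb w u e) = (K *ᵥ fun a => f (emb w u a)) e :=
  restr_mulVec hu hw h hK' f e

theorem Restr.adj (h : Restr w u K K') (hK : ∀ b a, pt w b ≠ pt w a → K b a = 0) :
    Restr w u (adj w w K) (adj (u ++ w) (u ++ w) K') := by
  intro a b
  show K' (emb w u b) (emb w u a) * io k (eul k (u ++ w) (emb w u a)) /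
    io k (eul k (u ++ w) (emb w u b)) = K b a * io k (eul k w a) / io k (eul k w b)
  rw [h b a]
  by_cases hab : pt w b = pt w a
  · have h2 : io k ((-1) ^ u.length * QE k u (pt w a)) ≠ 0 :=
      io_ne_zero (mul_ne_zero (pow_ne_zero _ (neg_ne_zero.2 one_ne_zero)) (QE_ne_zero u _))
    rw [eul_emb, eul_emb, hab, map_mul (io k) (eul k w a), map_mul (io k) (eul k w b),
      ← mul_assoc, mul_div_mul_right _ _ h2]
  · rw [hK b a hab, zero_mul, zero_mul, zero_div, zero_div]

private theorem restr_data (hu : TS t u) (hw : ∀ e, Pres t (pt w e)) (h : Restr w u K K')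
    (hK' : Idem (u ++ w) K') {z : W n} {d : ℤ} {m : Idx (u ++ w) → RR k n}
    (hm : El (u ++ w) d m) (hf : Fix K' m) (ha : NoAbove (u ++ w) (z * prodL u) m) :
    El w d (fun e => m (emb w u e)) ∧ Fix K (fun e => m (emb w u e)) ∧
      NoAbove w z (fun e => m (emb w u e)) := by
  refine ⟨hm.comp_emb u, funext fun e => ?_, fun e he hle => ?_⟩
  · have h1 := h.mulVec hu hw hK'.1.block (up m) e
    have h2 : K' *ᵥ up m = up m := hf
    rw [h2] at h1
    exact h1.symm
  · have h1 := ha (emb w u e) he (by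
      rw [pt_emb]
      exact hu.le_mul (hw e) hle (top u))
    rw [pt_emb] at h1
    exact mul_right_cancel h1

private theorem ext_data (hu : TS t u) (hw : ∀ e, Pres t (pt w e)) (h : Restr w u K K')
    (hK : Idem w K) (hK' : Idem (u ++ w) K') {z : W n} (hz : Pres t z) {d : ℤ}
    {m : Idx w → RR k n} (hm : El w d m) (hf : Fix K m) (ha : NoAbove w z m) :
    ∃ m', El (u ++ w) d m' ∧ Fix K' m' ∧ NoAbove (u ++ w) (z * prodL u) m' ∧
      ∀ e, pt w e = z → m' (emb w u e) = m e := by
  obtain ⟨m1, hm1, hf1, hb1, he1⟩ := hK.below hm hf ha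
  obtain ⟨m3, hm3, h23, hf3, hs3⟩ := hK'.project (hm1.comp_pr u)
  refine ⟨m3, hm3, hf3, Below.noAbove fun b hb => ?_, fun e he => ?_⟩
  · obtain ⟨a, ha1, ha2⟩ := hs3 b hb
    obtain ⟨e, f, rfl⟩ := pairI_surj w u a
    rw [pr_pairI] at ha2
    rw [← ha1, pt_pairI]
    exact hu.le_mul hz (hb1 e ha2) f
  · have h1 := h.mulVec hu hw hK'.1.block (up fun x => m1 (pr w u x)) e
    have h2 : (fun a => up (fun x => m1 (pr w u x)) (emb w u a)) = up m1 := by
      funext a
      show io k (m1 (pr w u (emb w u a))) = io k (m1 a)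
      rw [pr_emb]
    have h3 : K *ᵥ up m1 = up m1 := hf1
    rw [h23, h2, h3] at h1
    rw [← he1 e he]
    exact io_inj h1

theorem Restr.occ_iff (hu : TS t u) (hw : ∀ e, Pres t (pt w e)) (h : Restr w u K K')
    (hK : Idem w K) (hK' : Idem (u ++ w) K') {z : W n} (hz : Pres t z) (d : ℤ) :
    Occ (u ++ w) K' (z * prodL u) d ↔ Occ w K z d := by
  constructor
  · rintro ⟨m, hm, hf, ha, x, hx, hx0⟩
    obtain ⟨h1, h2, h3⟩ := restr_data hu hw h hK' hm hf ha
    obtain ⟨e, rfl⟩ := exists_emb hu hw hz (x := x) (hx ▸ Le.refl _)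
    rw [pt_emb] at hx
    exact ⟨_, h1, h2, h3, e, mul_right_cancel hx, hx0⟩
  · rintro ⟨m, hm, hf, ha, e, he, he0⟩
    obtain ⟨m', h1, h2, h3, h4⟩ := ext_data hu hw h hK hK' hz hm hf ha
    exact ⟨m', h1, h2, h3, emb w u e, by rw [pt_emb, he], by rw [h4 e he]; exact he0⟩

theorem Restr.formIn_iff (hu : TS t u) (hw : ∀ e, Pres t (pt w e)) (h : Restr w u K K')
    (hK : Idem w K) (hK' : Idem (u ++ w) K') {z : W n} (hz : Pres t z) (J : Ideal (RR k n)) :
    FormIn (u ++ w) K' (z * prodL u) J ↔ FormIn w K z J := by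
  have hadj := h.adj hK.1.block
  have h4 : ((-1 : QQ k n) ^ u.length) * (-1) ^ u.length = 1 := by
    rw [← mul_pow, neg_mul_neg, one_mul, one_pow]
  constructor
  · intro hF d d' m m' hm hm' hf hf' ha ha'
    obtain ⟨p, hp1, hp2, hp3, hp4⟩ := ext_data hu hw h hK hK' hz hm hf ha
    obtain ⟨q, hq1, hq2, hq3, hq4⟩ := ext_data hu hw hadj hK.adj hK'.adj hz hm' hf' ha'
    obtain ⟨r, hr, hB⟩ := hF d d' p q hp1 hq1 hp2 hq2 hp3 hq3
    refine ⟨(-1) ^ u.length * r, J.mul_mem_left _ hr, ?_⟩
    rw [BF_emb hu hw hz, BF_congr (f := fun e => up p (emb w u e))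
      (g := fun e => up q (emb w u e)) (f' := up m) (g' := up m')
      (fun e he => congrArg (io k) (hp4 e he)) (fun e he => congrArg (io k) (hq4 e he))] at hB
    rw [map_mul, map_pow, map_neg, map_one, ← hB, ← mul_assoc, h4, one_mul]
  · intro hF d d' m m' hm hm' hf hf' ha ha'
    obtain ⟨hp1, hp2, hp3⟩ := restr_data hu hw h hK' hm hf ha
    obtain ⟨hq1, hq2, hq3⟩ := restr_data hu hw hadj hK'.adj hm' hf' ha'
    obtain ⟨r, hr, hB⟩ := hF d d' _ _ hp1 hq1 hp2 hq2 hp3 hq3
    refine ⟨(-1) ^ u.length * r, J.mul_mem_left _ hr, ?_⟩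
    rw [BF_emb hu hw hz, map_mul, map_pow, map_neg, map_one, ← hB]
    rfl

/-- Cut the staircase word until the largest value of the window separates `y` from the top. -/
theorem delete {N : ℕ} {w : List (Let n)} (hw : NF N w) :
    ∀ (K : Matrix (Idx w) (Idx w) (QQ k n)) (y : W n), Gd w K (prodL w) y → y ≠ prodL w →
      ∃ (t : ℕ) (w' : List (Let n)) (K' : Matrix (Idx w') (Idx w') (QQ k n)) (x y' : W n)
        (v : Fin n), t ≤ N ∧ v.val + 1 = t ∧ Win t w' ∧ FixFrom t x ∧ FixFrom t y' ∧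
          Gd w' K' x y' ∧ y'⁻¹ v ≠ x⁻¹ v := by
  induction hw with
  | zero =>
    intro K y hG hy
    obtain ⟨d, ⟨m, -, -, -, e, he, -⟩, -⟩ := hG.occ
    exact absurd he.symm hy
  | @succ t u w hw hu hwin ih =>
    intro K y hG hy
    have hW : Win (t + 1) (u ++ w) := (NF.succ hw hu hwin).win
    obtain ⟨d, hocc, hnd⟩ := hG.occ
    have hyF : FixFrom (t + 1) y := by
      obtain ⟨m, -, -, -, e, he, -⟩ := hocc
      exact he ▸ hW.fixFrom e
    have hxF : FixFrom (t + 1) (prodL (u ++ w)) := hW.fixFrom _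
    by_cases hc : ∃ v : Fin n, v.val = t ∧ y⁻¹ v ≠ (prodL (u ++ w))⁻¹ v
    · obtain ⟨v, hv, hv'⟩ := hc
      exact ⟨t + 1, u ++ w, K, _, y, v, le_rfl, by rw [hv], hW, hxF, hyF, hG, hv'⟩
    · have hc' : ∀ v : Fin n, v.val = t → y⁻¹ v = (prodL (u ++ w))⁻¹ v := fun v hv => by
        by_contra hne
        exact hc ⟨v, hv, hne⟩
      have hwF : FixFrom t (prodL w) := hw.win.fixFrom _
      have huF : FixFrom (t + 1) (prodL u) := hwin.fixFrom _
      have hP : ∀ e, Pres t (pt w e) := fun e => (hw.win.fixFrom e).pres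
      have hzF : FixFrom t (y * (prodL u)⁻¹) := by
        intro v hv
        rw [Equiv.Perm.mul_apply]
        rcases hv.eq_or_lt with h1 | h1
        · have h2 := hc' v h1.symm
          rw [prodL_append, _root_.mul_inv_rev, Equiv.Perm.mul_apply, hwF.inv v hv] at h2
          rw [← h2]
          exact y.apply_symm_apply v
        · rw [huF.inv v h1, hyF v h1]
      have hyz : y = y * (prodL u)⁻¹ * prodL u := by rw [inv_mul_cancel_right]
      obtain ⟨K0, hK0, hR⟩ := exists_restr hu hP hG.idem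
      have hG0 : Gd w K0 (prodL w) (y * (prodL u)⁻¹) := by
        refine ⟨hK0, fun y' d' ho => ?_, fun z' hz' => ?_, d, ?_, ?_⟩
        · have hy' : Pres t y' := by
            obtain ⟨m, -, -, -, e, he, -⟩ := ho
            exact he ▸ hP e
          rw [← nd_emb (w := w) hu hy']
          exact hG.perv _ _ ((hR.occ_iff hu hP hK0 hG.idem hy' d').2 ho)
        · by_cases hz : Pres t z'
          · refine (hR.formIn_iff hu hP hK0 hG.idem hz _).1 (hG.form _ fun h1 => hz' ?_)
            rw [prodL_append] at h1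
            exact mul_right_cancel h1
          · intro d1 d2 m m' _ _ _ _ _ _
            refine ⟨0, (mI k n).zero_mem, ?_⟩
            unfold BF
            rw [Finset.sum_eq_zero, mul_zero, map_zero]
            intro e he
            exact absurd ((Finset.mem_filter.1 he).2 ▸ hP e) hz
        · refine (hR.occ_iff hu hP hK0 hG.idem hzF.pres d).1 ?_
          rw [← hyz]
          exact hocc
        · rw [← nd_emb (w := w) hu hzF.pres, ← hyz]
          exact hnd
      obtain ⟨t', w', K', x, y', v, h1, h2⟩ := ih K0 _ hG0 (fun h1 => hy (by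
        rw [prodL_append, ← h1, inv_mul_cancel_right]))
      exact ⟨t', w', K', x, y', v, h1.trans (Nat.le_succ t), h2⟩

end Pool.Agent.PCan
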