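import Pool.Agent.Lib.MP_b03f2e_al.Split
import Pool.Agent.Lib.MP_b03f2e_al.Suffix
import Pool.Agent.Lib.MP_b03f2e_al.Product
import Pool.Agent.Lib.MP_b03f2e_al.Left

/-! The doubling lemma. -/

namespace Pool.Agent.PCan

open MvPolynomial Matrix

variable {n : ℕ}

theorem hat_parts {k : Type} [CommRing k] [IsDomain k] {w : List (Let n)} {s s' : Let n}
    {K : Matrix (Idx w) (Idx w) (QQ k n)}
    {K' : Matrix (Idx ((s' :: w) ++ [s])) (Idx ((s' :: w) ++ [s])) (QQ k n)}
    (hL : IsLeft s (s' :: w) (extK s' K) K') {x : W n} (hx : Asc x s') (hl : LAsc x s)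
    (hc0 : x * s'.sw = s.sw * x) (hs : ∀ e, pt w e ≠ x * s'.sw) {d : ℤ}
    {c : Idx ((s' :: w) ++ [s]) → RR k n} (hc : El _ d c) (hf : Fix K' c)
    (hb : Below _ (x * s'.sw) c) :
    El w d (fun e => c (lf s (s' :: w) false (e, true))) ∧
    Fix K (fun e => c (lf s (s' :: w) false (e, true))) ∧
    NoAbove w x (fun e => c (lf s (s' :: w) false (e, true))) ∧
    El w d (fun e => rename s.sw (c (lf s (s' :: w) true (e, false)))) ∧
    Fix K (fun e => rename s.sw (c (lf s (s' :: w) true (e, false)))) ∧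
    NoAbove w x (fun e => rename s.sw (c (lf s (s' :: w) true (e, false)))) := by
  obtain ⟨h1, g, hg, hge⟩ := (el_lf s (s' :: w) d c).1 hc
  obtain ⟨h2, h3⟩ := (hL.fix c).1 hf
  have h4 : El (s' :: w) d (fun e => rename s.sw (c (lf s (s' :: w) true e))) := by
    have h5 := h1.sub ((El.smul ((Hz.X s.lo).sub (Hz.X s.hi)) hg).congr (by ring))
    convert h5 using 1
    funext e
    rw [Pi.sub_apply, ← hge e]
    ring
  refine ⟨h1.cons.2.1, ((fix_extK s' K _).1 h2).2, fun e he hle => ?_, h4.cons.1,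
    ((fix_extK s' K _).1 h3).1, fun e he hle => ?_⟩
  · have h5 := hb _ he
    rw [pt_lf, if_neg Bool.false_ne_true, pt_true] at h5
    rcases between hx (le_mul_sw hx hle) h5 with h | h
    · exact absurd (by rw [← h, mul_sw_sw]) (hs e)
    · exact mul_right_cancel h
  · have h5 := hb (lf s (s' :: w) true (e, false)) (fun h => he (by simp only [h, map_zero]))
    rw [pt_lf, if_pos rfl, pt_false, hc0] at h5
    rcases lbetween hl (le_sw_mul hl hle) h5 with h | h
    · exact absurd (by rw [hc0, ← h, sw_sw_mul]) (hs e)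
    · exact mul_left_cancel h

theorem hat_BF {k : Type} [CommRing k] [IsDomain k] {w : List (Let n)} {s s' : Let n} {x : W n}
    (hlo : x s'.lo = s.lo) (hhi : x s'.hi = s.hi) (hx : Asc x s') (hl : LAsc x s)
    (hc0 : x * s'.sw = s.sw * x) (hs : ∀ e, pt w e ≠ x * s'.sw)
    (c c' : Idx ((s' :: w) ++ [s]) → RR k n) :
    io k (X s.lo - X s.hi) * BF _ (x * s'.sw) (up c) (up c') =
      - BF w x (up fun e => c (lf s (s' :: w) false (e, true)))
          (up fun e => c' (lf s (s' :: w) false (e, true))) +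
        actQ s.sw (BF w x (up fun e => rename s.sw (c (lf s (s' :: w) true (e, false))))
          (up fun e => rename s.sw (c' (lf s (s' :: w) true (e, false))))) := by
  have hrt : rt k x s' = X s.lo - X s.hi := by
    unfold rt
    rw [hlo, hhi]
  have hα : (X s.lo - X s.hi : RR k n) ≠ 0 := X_sub_ne_zero s.lo_ne_hi
  have hee : rename s.sw (ee k x) = ee k x := by
    have h1 := ee_mul_sw k hx
    rw [hc0, ee_sw_mul k hl, hrt, mul_comm] at h1
    exact mul_right_cancel₀ hα h1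
  have hrr : ∀ r : RR k n, rename s.sw (rename s.sw r) = r := by
    intro r
    rw [rename_rename, ← Equiv.Perm.coe_mul, Let.sw_mul_self, Equiv.Perm.coe_one, rename_id_apply]
  have hrα : rename s.sw (X s.lo - X s.hi : RR k n) = - (X s.lo - X s.hi) := by
    rw [map_sub, rename_X, rename_X, Let.sw_lo, Let.sw_hi, neg_sub]
  unfold BF
  rw [Finset.sum_filter, Finset.sum_filter, Finset.sum_filter, sum_lf, sum_idx, map_mul, map_sum,
    ee_mul_sw k hx, hrt, actQ_io, hee]
  simp only [Finset.mul_sum]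
  rw [← Finset.sum_neg_distrib, ← Finset.sum_add_distrib]
  refine Finset.sum_congr rfl fun e _ => ?_
  simp only [pt_lf, pt_false, pt_true, Bool.false_eq_true, if_false, if_true]
  have n4 : s.sw * (pt w e * s'.sw) ≠ x * s'.sw := by
    intro h
    rw [← mul_assoc] at h
    apply hs e
    rw [hc0, ← mul_right_cancel h, sw_sw_mul]
  rw [if_neg (hs e), if_neg n4]
  by_cases he : pt w e = x
  · rw [if_pos (by rw [he, hc0]), if_pos (by rw [he]), if_pos he, if_pos he]
    rw [(eul_lf s (s' :: w) (e, false)).2, (eul_lf s (s' :: w) (e, true)).1]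
    have u1 : eul k (s' :: w) (e, false) = eul k w e * (X s.lo - X s.hi) := by
      rw [← hrt, ← he, ← pt_false s' w e]
      rfl
    have u2 : eul k (s' :: w) (e, true) = eul k w e * (- (X s.lo - X s.hi)) := by
      rw [← hrt, ← he, ← rt_mul_sw, ← pt_true s' w e]
      rfl
    have v1 := io_ne_zero hα
    have v2 := io_ne_zero (eul_ne_zero (k := k) w e)
    have v3 : io k (rename s.sw (eul k w e)) ≠ 0 := io_ne_zero fun h =>
      eul_ne_zero (k := k) w e (by rw [← hrr (eul k w e), h, map_zero])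
    rw [u1, u2, map_mul (rename s.sw), hrα]
    unfold up
    simp only [map_div₀, map_mul, map_neg, actQ_io, hrr]
    generalize io k (X s.lo - X s.hi) = α at v1 ⊢
    field_simp
    ring
  · rw [if_neg (fun h => he (by rw [hc0] at h; exact mul_left_cancel h)),
      if_neg (fun h => he (mul_right_cancel h)), if_neg he, if_neg he]
    simp

/-- The local form of `B_s M B_s'` at `s x = x s'` is a divided difference of the form of `M`
at `x`, when `x s'` is not in the support of `M`. -/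
theorem form_hat {k : Type} [CommRing k] [IsDomain k] {w : List (Let n)} {s s' : Let n}
    {K : Matrix (Idx w) (Idx w) (QQ k n)} (hK : Idem w K)
    {K' : Matrix (Idx ((s' :: w) ++ [s])) (Idx ((s' :: w) ++ [s])) (QQ k n)}
    (hL : IsLeft s (s' :: w) (extK s' K) K') (hK' : Idem ((s' :: w) ++ [s]) K') {x : W n}
    (hlo : x s'.lo = s.lo) (hhi : x s'.hi = s.hi) (hs : ∀ e, pt w e ≠ x * s'.sw)
    (hF : FormIn w K x (mI k n ^ 2)) {d d' : ℤ} {c c' : Idx ((s' :: w) ++ [s]) → RR k n}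
    (hc : El _ d c) (hc' : El _ d' c') (hf : Fix K' c) (hf' : Fix (adj _ _ K') c')
    (ha : NoAbove _ (x * s'.sw) c) (ha' : NoAbove _ (x * s'.sw) c') {κ : k}
    (hB : BF _ (x * s'.sw) (up c) (up c') = io k (C κ)) : κ = 0 := by
  have hx : Asc x s' := by
    unfold Asc
    rw [hlo, hhi]
    exact s.lo_lt_hi
  have hl : LAsc x s := by
    unfold LAsc
    rw [Equiv.Perm.inv_eq_iff_eq.2 hlo.symm, Equiv.Perm.inv_eq_iff_eq.2 hhi.symm]
    exact s'.lo_lt_hi
  have hc0 : x * s'.sw = s.sw * x := by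
    unfold Let.sw
    rw [← hlo, ← hhi, Equiv.swap_apply_apply, inv_mul_cancel_right]
  obtain ⟨b, hb, hbf, hbb, hbe⟩ := hK'.below hc hf ha
  obtain ⟨b', hb', hbf', hbb', hbe'⟩ := hK'.adj.below hc' hf' ha'
  rw [← BF_congr (f := up b) (g := up b') (fun e he => by unfold up; rw [hbe e he])
    (fun e he => by unfold up; rw [hbe' e he])] at hB
  have hLa := hL.adj
  rw [adj_extK hK.1.block] at hLa
  obtain ⟨e1, f1, n1, e2, f2, n2⟩ := hat_parts hL hx hl hc0 hs hb hbf hbb
  obtain ⟨e1', f1', n1', e2', f2', n2'⟩ := hat_parts hLa hx hl hc0 hs hb' hbf' hbb'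
  obtain ⟨r1, hr1, q1⟩ := hF _ _ _ _ e1 e1' f1 f1' n1 n1'
  obtain ⟨r2, hr2, q2⟩ := hF _ _ _ _ e2 e2' f2 f2' n2 n2'
  have h := hat_BF hlo hhi hx hl hc0 hs b b'
  rw [hB, q1, q2, actQ_io, ← map_mul, ← map_neg, ← map_add] at h
  by_contra hκ
  refine X_sub_not_mem_sq s.lo_ne_hi hκ ?_
  rw [io_inj h]
  exact add_mem (neg_mem hr1) (rename_mem_mI_sq _ hr2)

variable {k : Type} [Field k] [Finite k]

/-- If all `E_x` are perverse, a costalk element of negative degree forces a point above it where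
the local form takes a non-zero constant value and the costalk has a negative degree. -/
theorem top_of_neg (hA : AllPerv k n) {w : List (Let n)} {K : Matrix (Idx w) (Idx w) (QQ k n)}
    (hK : Idem w K) {y : W n} {d : ℤ} (ho : Occ w K y d) (hd : nd w y d < 0) :
    ∃ (x : W n) (j d1 d2 : ℤ) (c c' : Idx w → RR k n) (κ : k), Le y x ∧ Occ w K x j ∧
      nd w x j < 0 ∧ El w d1 c ∧ El w d2 c' ∧ Fix K c ∧ Fix (adj w w K) c' ∧ NoAbove w x c ∧
      NoAbove w x c' ∧ κ ≠ 0 ∧ BF w x (up c) (up c') = io k (C κ) := by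
  obtain ⟨K0, hK0, h1, h2, ho0⟩ := prim_decomp hK ho
  obtain ⟨x, d1, d2, c, c', κ, hc, hc', hf, hf', ha, ha', hκ, hB⟩ := exists_top hK0.1 hK0.2.1
  obtain ⟨z, hz, rfl⟩ := exists_red x
  obtain ⟨U, V, hI⟩ := split hK0 hc hc' hf hf' ha ha' hκ hB hz rfl
  have h3 := hA z _ hz hI.prim hI.top _ _ (hI.occ ho0)
  refine ⟨prodL z, d1, d1, d2, c, c', κ, hI.le hz ho0, (hI.occ_top hz).mono h2, ?_, hc, hc', ?_, ?_,
    ha, ha', hκ, hB⟩
  · unfold nd at *
    rw [hz.len]
    omega
  · unfold Fix at *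
    rw [← hf, mulVec_mulVec, h2]
  · unfold Fix at *
    rw [← hf', mulVec_mulVec, ← adj_mul, h1]

theorem double_core (hA : AllPerv k n) {t : ℕ} {s : Let n} (hs : s.a + 1 = t) {w : List (Let n)}
    (hw : ∀ e, Pres t (pt w e)) {K : Matrix (Idx w) (Idx w) (QQ k n)} (hK : Idem w K)
    (hP : Perv w K) {y : W n} (ho : ∃ d, Occ w K y d ∧ nd w y d = 0)
    (hF : ∀ e, (pt w e)⁻¹ s.lo = y⁻¹ s.lo → (pt w e)⁻¹ s.hi = y⁻¹ s.hi →
      FormIn w K (pt w e) (mI k n ^ 2)) : False := by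
  obtain ⟨d, ho, hd⟩ := ho
  have hy : Pres t y := by
    obtain ⟨_, _, _, _, e, he, _⟩ := ho
    exact he ▸ hw e
  obtain ⟨u, s', hu, hlo, hhi⟩ := exists_bubble hs hy
  obtain ⟨K1, hK1, hR⟩ := exists_ext u hK
  have hK2 := hK1.extK s'
  obtain ⟨K3, hK3, hL⟩ := exists_left s hK2
  set x0 := y * prodL u with hx0
  have hu' : TS t (s' :: u) := by
    refine TS.cons hu ((hy _).2 ?_) (not_lt.1 fun h => ?_)
    · rw [← Equiv.Perm.mul_apply, hlo]
      show s.a < t
      omega
    · have := (hy _).1 h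
      rw [← Equiv.Perm.mul_apply, hhi] at this
      have : s.a + 1 < t := this
      omega
  have a0 : Asc x0 s' := hu'.asc hy
  have ilo : x0⁻¹ s.lo = s'.lo := Equiv.Perm.inv_eq_iff_eq.2 hlo.symm
  have ihi : x0⁻¹ s.hi = s'.hi := Equiv.Perm.inv_eq_iff_eq.2 hhi.symm
  have l0 : LAsc x0 s := by
    unfold LAsc
    rw [ilo, ihi]
    exact s'.lo_lt_hi
  have shape : ∀ e, Le x0 (pt (u ++ w) e) → ∃ e0, pt (u ++ w) e = pt w e0 * prodL u := by
    intro e he
    obtain ⟨e0, rfl⟩ := exists_emb hu hw hy he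
    exact ⟨e0, pt_emb w u e0⟩
  have clA : ∀ z j, Le x0 z → Occ (u ++ w) K1 z j →
      (∃ e0, z = pt w e0 * prodL u) ∧ Asc z s' ∧ 0 ≤ nd (u ++ w) z j := by
    intro z j hz hoz
    obtain ⟨e0, he0⟩ : ∃ e0, z = pt w e0 * prodL u := by
      obtain ⟨_, _, _, _, e, he, _⟩ := hoz
      subst he
      exact shape e hz
    refine ⟨⟨e0, he0⟩, he0 ▸ hu'.asc (hw e0), ?_⟩
    rw [he0] at hoz ⊢
    rw [nd_emb hu (hw e0)]
    exact hP _ _ ((hR.occ_iff hu hw hK hK1 (hw e0) j).1 hoz)
  have clB : ∀ z j, Le x0 z → Occ (s' :: (u ++ w)) (extK s' K1) z j →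
      0 ≤ nd (s' :: (u ++ w)) z j ∧
        (nd (s' :: (u ++ w)) z j = 0 → ¬ Asc z s' ∧ ∃ e0, z * s'.sw = pt w e0 * prodL u) := by
    intro z j hz hoz
    have hz' := le_mul_sw a0 hz
    by_cases hzs : Asc z s'
    · rcases occ_ext_lower hK1 hzs hoz with h | h
      · have := (clA _ _ hz h).2.2
        unfold nd at *
        rw [List.length_cons]
        push_cast
        constructor
        · omega
        · intro h
          omega
      · exact absurd hzs ((asc_mul_sw z s').1 (clA _ _ hz' h).2.1)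
    · have h1 : Asc (z * s'.sw) s' := (asc_mul_sw z s').2 hzs
      have h2 := len_mul_sw h1
      rw [mul_sw_sw] at h2
      rcases occ_ext_upper hK1 h1 (d := j) (by rw [mul_sw_sw]; exact hoz) with h | h
      · obtain ⟨h3, _, h4⟩ := clA _ _ hz' h
        refine ⟨?_, fun _ => ⟨hzs, h3⟩⟩
        unfold nd at *
        rw [List.length_cons, h2]
        push_cast
        omega
      · rw [mul_sw_sw] at h
        exact absurd (clA _ _ hz h).2.1 hzs
  have o1 : Occ (u ++ w) K1 x0 d := (hR.occ_iff hu hw hK hK1 hy d).2 ho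
  have o2 := occ_ext_of hK1 a0 o1
  have l1 : ¬ LAsc (x0 * s'.sw) s := by
    unfold LAsc
    rw [_root_.mul_inv_rev, Equiv.Perm.mul_apply, Equiv.Perm.mul_apply, ilo, ihi, Let.sw_inv, Let.sw_lo,
      Let.sw_hi]
    exact not_lt.2 s'.lo_lt_hi.le
  have o3 := hL.occ_of hK2 l1 o2
  have n3 : nd ((s' :: (u ++ w)) ++ [s]) (x0 * s'.sw) d < 0 := by
    have := nd_emb (w := w) hu hy d
    rw [← hx0] at this
    unfold nd at *
    rw [List.length_append, List.length_cons, List.length_singleton, len_mul_sw a0]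
    push_cast
    omega
  obtain ⟨x', j, d1, d2, c, c', κ, hle, hoj, hnj, hc, hc', hf, hf', ha, ha', hκ, hB⟩ :=
    top_of_neg hA hK3 o3 n3
  have hx' : Le x0 x' := (le_mul_sw_of_asc a0).trans hle
  have hsx' := le_sw_mul l0 hx'
  have hlen : ((s' :: (u ++ w)) ++ [s]).length = (s' :: (u ++ w)).length + 1 := by
    rw [List.length_append, List.length_singleton]
  have key : ¬ LAsc x' s ∧ ¬ Asc x' s' ∧ ∃ e0, x' * s'.sw = pt w e0 * prodL u := by
    by_cases hl : LAsc x' s
    · exfalso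
      rcases hL.occ_lower hK2 hK3 hl hoj with h | h
      · have := (clB _ _ hx' h).1
        unfold nd at this hnj
        rw [hlen] at hnj
        push_cast at hnj
        omega
      · have := (clB _ _ hsx' h).1
        unfold nd at this hnj
        rw [hlen] at hnj
        rw [len_sw_mul hl] at this
        push_cast at hnj this
        omega
    · have h1 : LAsc (s.sw * x') s := (lasc_sw_mul x' s).2 hl
      have h2 := len_sw_mul h1
      rw [sw_sw_mul] at h2
      rcases hL.occ_upper hK2 hK3 h1 (d := j) (by rw [sw_sw_mul]; exact hoj) with h | h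
      · exfalso
        have := (clB _ _ hsx' h).1
        unfold nd at this hnj
        rw [hlen, h2] at hnj
        push_cast at hnj
        omega
      · rw [sw_sw_mul] at h
        obtain ⟨h3, h4⟩ := clB _ _ hx' h
        refine ⟨hl, h4 ?_⟩
        unfold nd at h3 hnj ⊢
        rw [hlen] at hnj
        push_cast at hnj
        omega
  obtain ⟨k1, k2, e0, he0⟩ := key
  obtain ⟨x, rfl⟩ : ∃ x, x' = x * s'.sw := ⟨x' * s'.sw, (mul_sw_sw _ _).symm⟩
  rw [mul_sw_sw] at he0
  have hx : Le x0 x := by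
    have := le_mul_sw a0 hx'
    rwa [mul_sw_sw] at this
  have lx : x⁻¹ s.lo < x⁻¹ s.hi := by
    have h1 := sig_le (t := t) (le_sw_mul l0 hx)
    have h2 := sig_sw_mul hs x
    have h3 : sig t x = sig t x0 := by rw [he0, hu.sig_mul (hw e0), hx0, hu.sig_mul hy]
    refine lt_of_le_of_ne (Fin.le_def.2 (by omega)) fun h => s.lo_ne_hi (x⁻¹.injective h)
  have adjc : x⁻¹ s.lo = s'.lo ∧ x⁻¹ s.hi = s'.hi := by
    by_contra h
    apply k1
    unfold LAsc
    rw [_root_.mul_inv_rev, Equiv.Perm.mul_apply, Equiv.Perm.mul_apply, Let.sw_inv]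
    exact s'.sw_lt lx h
  have xlo : x s'.lo = s.lo := (Equiv.Perm.inv_eq_iff_eq.1 adjc.1).symm
  have xhi : x s'.hi = s.hi := (Equiv.Perm.inv_eq_iff_eq.1 adjc.2).symm
  have hF0 : FormIn w K (pt w e0) (mI k n ^ 2) := by
    refine hF e0 ?_ ?_
    · rw [he0, Equiv.Perm.mul_apply] at xlo
      rw [hx0, Equiv.Perm.mul_apply] at hlo
      exact (Equiv.Perm.inv_eq_iff_eq.2 xlo.symm).trans (Equiv.Perm.inv_eq_iff_eq.2 hlo.symm).symm
    · rw [he0, Equiv.Perm.mul_apply] at xhi
      rw [hx0, Equiv.Perm.mul_apply] at hhi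
      exact (Equiv.Perm.inv_eq_iff_eq.2 xhi.symm).trans (Equiv.Perm.inv_eq_iff_eq.2 hhi.symm).symm
  have hF1 : FormIn (u ++ w) K1 x (mI k n ^ 2) := by
    rw [he0]
    exact (hR.formIn_iff hu hw hK hK1 (hw e0) _).2 hF0
  refine hκ (form_hat hK1 hL hK3 xlo xhi (fun e he => k2 ?_) hF1 hc hc' hf hf' ha ha' hB)
  obtain ⟨e1, he1⟩ := shape e (he ▸ hx')
  rw [← he, he1]
  exact hu'.asc (hw e1)

theorem double (hA : AllPerv k n) {t : ℕ} (ht : 2 * t ≤ n) {w : List (Let n)} (hw : Win t w)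
    {K : Matrix (Idx w) (Idx w) (QQ k n)} {x y : W n} {v : Fin n} (hv : v.val + 1 = t)
    (_hx : FixFrom t x) (hy : FixFrom t y) (hG : Gd w K x y) (hne : y⁻¹ v ≠ x⁻¹ v) : False := by
  obtain ⟨g, hg, g1, g2⟩ := exists_refl ht
  obtain ⟨w', K', hw', hG'⟩ := mirror hg g1 g2 ht hw hG
  obtain ⟨L, hL, hP, ho, hF⟩ := product hw hw' hG hG'
  let s : Let n := ⟨t - 1, by omega⟩
  have hs : s.a + 1 = t := by show t - 1 + 1 = t; omega
  have hlo : s.lo = v := Fin.ext (by show t - 1 = v.val; omega)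
  have hhi : (s.hi).val = t := hs
  have hgi : g⁻¹ = g := inv_eq_of_mul_eq_one_right hg
  have hgv : g s.hi = v := Fin.ext (by have := g1 s.hi (by omega); omega)
  have low : ∀ z1 z2 : W n, FixFrom t z1 → FixBelow t z2 → (z1 * z2)⁻¹ s.lo = z1⁻¹ v := by
    intro z1 z2 h1 h2
    rw [_root_.mul_inv_rev, Equiv.Perm.mul_apply, hlo]
    exact h2.inv _ ((h1.inv.pres v).1 (by omega))
  have high : ∀ z1 z2 : W n, FixFrom t z1 → (z1 * z2)⁻¹ s.hi = z2⁻¹ s.hi := by
    intro z1 z2 h1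
    rw [_root_.mul_inv_rev, Equiv.Perm.mul_apply, h1.inv _ (by omega)]
  have conj : ∀ z : W n, (g * z * g)⁻¹ s.hi = g (z⁻¹ v) := by
    intro z
    rw [_root_.mul_inv_rev, _root_.mul_inv_rev, hgi, Equiv.Perm.mul_apply, Equiv.Perm.mul_apply, hgv]
  refine double_core hA hs (fun e => ?_) hL hP ho (fun e h1 h2 => ?_)
  · obtain ⟨a, b, rfl⟩ := pairI_surj w w' e
    rw [pt_pairI]
    exact (hw.fixFrom a).pres.mul (hw'.fixBelow b).pres
  · obtain ⟨a, b, rfl⟩ := pairI_surj w w' e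
    rw [pt_pairI] at h1 h2 ⊢
    rw [low _ _ (hw.fixFrom a) (hw'.fixBelow b), low _ _ hy (refl_fixBelow hg g1 g2 hy)] at h1
    rw [high _ _ (hw.fixFrom a), high _ _ hy, conj] at h2
    refine hF _ _ (hw.fixFrom a) (hw'.fixBelow b) (fun h => hne ?_) (fun h => hne ?_)
    · rw [← h1, h]
    · rw [h, conj] at h2
      exact (g.injective h2).symm

end Pool.Agent.PCan
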