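import Pool.Agent.Lib.MP_b03f2e_al.Hom

/-! Reduction modulo `p` and lifting of morphisms. -/

namespace Pool.Agent.PCan

open MvPolynomial Matrix

variable {n : ℕ} {p : ℕ} [Fact p.Prime]

omit [Fact p.Prime] in
theorem red_rt (x : W n) (s : Let n) : red p (rt ℤ x s) = rt (ZMod p) x s := by
  unfold rt
  rw [map_sub, map_X, map_X]
omit [Fact p.Prime] in
theorem red_ee (x : W n) : red p (ee ℤ x) = ee (ZMod p) x := by
  unfold ee
  rw [map_prod]
  exact Finset.prod_congr rfl fun _ _ => by rw [map_sub, map_X, map_X]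
omit [Fact p.Prime] in
theorem red_eul (w : List (Let n)) (e : Idx w) : red p (eul ℤ w e) = eul (ZMod p) w e := by
  induction w with
  | nil => exact map_one _
  | cons s w ih =>
    show red p (eul ℤ w e.1 * _) = eul (ZMod p) w e.1 * _
    rw [map_mul, ih, red_rt]
omit [Fact p.Prime] in
theorem Hz.red {j : ℤ} {r : RR ℤ n} (h : Hz j r) : Hz j (red p r) := by
  intro m hm
  refine h fun h0 => hm ?_
  rw [coeff_map, h0, map_zero]
omit [Fact p.Prime] in
theorem hz_surj {j : ℤ} {r : RR (ZMod p) n} (h : Hz j r) : ∃ r', Hz j r' ∧ red p r' = r := by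
  obtain ⟨r0, rfl⟩ := MvPolynomial.map_surjective (σ := Fin n) (Int.castRingHom (ZMod p))
    (ZMod.ringHom_surjective _) r
  refine ⟨weightedHomogeneousComponent (fun _ => (1 : ℤ)) j r0,
    weightedHomogeneousComponent_isWeightedHomogeneous _ _, ?_⟩
  ext m
  rw [coeff_map, coeff_weightedHomogeneousComponent]
  split_ifs with hm
  · rw [coeff_map]
  · rw [map_zero]
    by_contra h0
    exact hm (h (Ne.symm h0))
omit [Fact p.Prime] in
theorem mem_red {w : List (Let n)} : ∀ {m : Idx w → RR ℤ n}, m ∈ MM ℤ w →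
    (fun e => red p (m e)) ∈ MM (ZMod p) w := by
  induction w with
  | nil => exact fun _ => Submodule.mem_top
  | cons s w ih =>
    intro m hm
    obtain ⟨h1, g, hg, he⟩ := (mem_cons s w m).1 hm
    refine (mem_cons s w _).2 ⟨ih h1, _, ih hg, fun e => ?_⟩
    rw [← map_sub, he, map_mul, red_rt]
omit [Fact p.Prime] in
theorem El.red {w : List (Let n)} {d : ℤ} {m : Idx w → RR ℤ n} (h : El w d m) :
    El w d (fun e => red p (m e)) := ⟨mem_red h.1, fun e => (h.2 e).red⟩
theorem el_surj {w : List (Let n)} {d : ℤ} {m : Idx w → RR (ZMod p) n} (h : El w d m) :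
    ∃ m', El w d m' ∧ ∀ e, red p (m' e) = m e := by
  induction w generalizing d with
  | nil =>
    obtain ⟨r, hr, he⟩ := hz_surj (h.2 ())
    exact ⟨fun _ => r, ⟨Submodule.mem_top, fun _ => hr⟩, fun _ => he⟩
  | cons s w ih =>
    obtain ⟨h0, _, g, hg, he⟩ := h.cons
    obtain ⟨m0, hm0, e0⟩ := ih h0
    obtain ⟨g0, hg0, e1⟩ := ih hg
    refine ⟨fun x => if x.2 then m0 x.1 - rt ℤ (pt w x.1) s * g0 x.1 else m0 x.1,
      el_cons_of (g := g0) hm0 hg0 fun e => by simp, ?_⟩
    rintro ⟨e, b⟩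
    cases b
    · exact e0 e
    · simp only [if_true]
      rw [map_sub, map_mul, red_rt, e0, e1, ← he e, sub_sub_cancel]
theorem Adapted.red {w : List (Let n)} {c : Idx w → Idx w → RR ℤ n} (h : Adapted w c) :
    Adapted w (fun a e => red p (c a e)) := by
  refine ⟨fun a => (h.el a).red, fun a e he => h.below a e fun h0 => he ?_, fun d m hm => ?_⟩
  · simp only [h0, map_zero]
  · obtain ⟨m', hm', he⟩ := el_surj hm
    obtain ⟨l, hl, hs⟩ := h.span d m' hm'
    refine ⟨fun a => PCan.red p (l a), fun a => (hl a).red, fun e => ?_⟩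
    rw [← he, hs, map_sum]
    exact Finset.sum_congr rfl fun a _ => map_mul _ _ _

theorem sum_div_iff {k : Type} [CommRing k] [IsDomain k] {A : Type} [DecidableEq A] (S : Finset A)
    (f g : A → RR k n) (a r : RR k n) (hg : ∀ e ∈ S, g e ≠ 0) :
    io k a * ∑ e ∈ S, io k (f e) / io k (g e) = io k r ↔
      a * ∑ e ∈ S, f e * ∏ x ∈ S.erase e, g x = r * ∏ x ∈ S, g x := by
  have h0 : io k (∏ x ∈ S, g x) ≠ 0 := io_ne_zero (Finset.prod_ne_zero_iff.2 hg)
  have h1 : (∑ e ∈ S, io k (f e) / io k (g e)) * io k (∏ x ∈ S, g x) =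
      io k (∑ e ∈ S, f e * ∏ x ∈ S.erase e, g x) := by
    rw [Finset.sum_mul, map_sum]
    refine Finset.sum_congr rfl fun e he => ?_
    rw [← Finset.mul_prod_erase S g he, map_mul, map_mul, ← mul_assoc,
      div_mul_cancel₀ _ (io_ne_zero (hg e he))]
  rw [← io_inj.eq_iff, map_mul, map_mul, ← h1, ← mul_assoc, mul_left_inj' h0]

theorem sum_div_red {A : Type} (S : Finset A) (f g : A → RR ℤ n) (a r : RR ℤ n)
    (hg : ∀ e ∈ S, red p (g e) ≠ 0) (h : io ℤ a * ∑ e ∈ S, io ℤ (f e) / io ℤ (g e) = io ℤ r) :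
    io (ZMod p) (red p a) * ∑ e ∈ S, io (ZMod p) (red p (f e)) / io (ZMod p) (red p (g e)) =
      io (ZMod p) (red p r) := by
  classical
  rw [sum_div_iff S f g a r fun e he h0 => hg e he (by rw [h0, map_zero])] at h
  rw [sum_div_iff S _ _ _ _ hg]
  have := congrArg (red p) h
  simpa only [map_mul, map_sum, map_prod] using this
theorem BF_red {w : List (Let n)} {y : W n} {c c' : Idx w → RR ℤ n} {r : RR ℤ n}
    (h : BF w y (up c) (up c') = io ℤ r) :
    BF w y (up fun e => red p (c e)) (up fun e => red p (c' e)) = io (ZMod p) (red p r) := by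
  unfold BF up at *
  simp only [← map_mul] at h ⊢
  have := sum_div_red (p := p) _ (fun e => c e * c' e) (eul ℤ w) _ _
    (fun e _ => by rw [red_eul]; exact eul_ne_zero w e) h
  simpa only [red_ee, red_eul] using this
theorem integ_red {w : List (Let n)} {c c' : Idx w → RR ℤ n} {r : RR ℤ n}
    (h : integ w (fun e => up c e * up c' e) = io ℤ r) :
    integ w (fun e => up (fun e => red p (c e)) e * up (fun e => red p (c' e)) e) =
      io (ZMod p) (red p r) := by
  unfold integ up at *
  simp only [← map_mul] at h ⊢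
  have := sum_div_red (p := p) Finset.univ (fun e => c e * c' e) (eul ℤ w) 1 r
    (fun e _ => by rw [red_eul]; exact eul_ne_zero w e) (by rw [map_one, one_mul]; exact h)
  simpa only [red_eul, map_one, one_mul] using this

theorem lift_one {w : List (Let n)} {j : ℤ} {m : Idx w → RR (ZMod p) n} (hm : El w j m)
    (hs : ∀ e, m e ≠ 0 → pt w e = 1) :
    ∃ c, El w j c ∧ (∀ e, c e ≠ 0 → pt w e = 1) ∧ ∀ e, red p (c e) = m e := by
  obtain ⟨c, hc⟩ := exists_adapted ℤ w
  obtain ⟨l, hl, he⟩ := (hc.red (p := p)).span j m hm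
  have h0 := (hc.red (p := p)).coeff_eq_zero {1} (fun x hx z hz => by
    rw [Set.mem_singleton_iff.1 hx] at hz
    exact eq_one_of_le_one hz) (l := l) (fun e h => hs e (by rw [he]; exact h))
  choose l' hl' hr using fun a => hz_surj (hl a)
  refine ⟨fun e => ∑ a ∈ Finset.univ.filter (fun a => pt w a = 1), l' a * c a e,
    El.sum _ fun a _ => ((hc.el a).smul (hl' a)).congr (by ring), fun e h => ?_, fun e => ?_⟩
  · obtain ⟨a, ha, h1⟩ := Finset.exists_ne_zero_of_sum_ne_zero h
    have h2 := hc.below a e (right_ne_zero_of_mul h1)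
    rw [(Finset.mem_filter.1 ha).2] at h2
    exact eq_one_of_le_one h2
  · rw [he, map_sum, Finset.sum_filter]
    refine Finset.sum_congr rfl fun a _ => ?_
    split_ifs with h
    · rw [map_mul, hr]
    · rw [h0 a h, zero_mul]

theorem mulVec_nil {k : Type} [CommRing k] [IsDomain k] {A : Type}
    (K : Matrix A (Idx ([] : List (Let n))) (QQ k n)) (f : Idx ([] : List (Let n)) → QQ k n) (b : A) :
    (K *ᵥ f) b = K b () * f () := by
  unfold mulVec dotProduct
  exact Fintype.sum_unique (ι := Unit) _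

theorem exists_lift (w : List (Let n)) : ∀ (w' : List (Let n)) (j : ℤ)
    (L : Matrix (Idx w') (Idx w) (QQ (ZMod p) n)), IsHom w w' j L →
      ∃ K, IsHom w w' j K ∧ Lifts p w w' K L := by
  induction w with
  | nil =>
    intro w' j L hL
    obtain ⟨m0, hm0, e0⟩ := hL.map 0 _ (el_one [])
    have e1 : ∀ b, L b () = io (ZMod p) (m0 b) := fun b => by
      have := congrFun e0 b
      rw [mulVec_nil] at this
      simpa only [up, map_one, mul_one] using this
    obtain ⟨c, hc, hs, hr⟩ := lift_one (hm0.congr (zero_add j)) (fun e he => by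
      by_contra h
      exact io_ne_zero he ((e1 e).symm.trans (hL.block e () h)))
    refine ⟨fun b _ => io ℤ (c b), ⟨fun b a h => ?_, fun d m hm => ?_⟩, fun d m m' _ h => ?_⟩
    · by_contra h0
      exact h (hs b fun h1 => h0 (by rw [h1, map_zero]))
    · refine ⟨fun b => m () * c b, hc.smul (hm.2 ()), funext fun b => ?_⟩
      rw [mulVec_nil]
      simp only [up, map_mul, mul_comm]
    · funext b
      have := congrFun h b
      rw [mulVec_nil] at this ⊢
      simp only [up] at this ⊢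
      rw [← map_mul] at this
      rw [e1, ← hr, ← io_inj this, map_mul, map_mul]
  | cons s w ih =>
    intro w' j L hL
    obtain ⟨P, hP, hPL⟩ := ih (s :: w') (j + 1) _ hL.toExt
    refine ⟨fromExt s P, hP.fromExt, fun d m m' hm h => funext fun b => ?_⟩
    obtain ⟨h0, h1, _⟩ := hm.cons
    obtain ⟨n0, _, e0⟩ := hP.map _ _ h0
    obtain ⟨n1, _, e1⟩ := hP.map _ _ h1
    have h2 := congrFun h b
    rw [fromExt_mulVec, div_eq_iff (io_ne_zero (rt_ne_zero _ _))] at h2
    have h3 : n0 (b, false) - n1 (b, true) = m' b * rt ℤ (pt w' b) s := by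
      apply io_inj
      rw [map_sub, map_mul]
      exact ((congrArg₂ (· - ·) (congrFun e0 _) (congrFun e1 _)).symm.trans h2)
    rw [← fromExt_toExt s L, fromExt_mulVec, div_eq_iff (io_ne_zero (rt_ne_zero _ _))]
    refine (congrArg₂ (· - ·) (congrFun (hPL _ _ _ h0 e0) _) (congrFun (hPL _ _ _ h1 e1) _)).trans ?_
    simp only [up]
    rw [← map_sub, ← map_sub, h3, map_mul, map_mul, red_rt]

theorem Lifts.adj {w w' : List (Let n)} {j : ℤ} {K : Matrix (Idx w') (Idx w) (QQ ℤ n)}
    {L : Matrix (Idx w') (Idx w) (QQ (ZMod p) n)} (hK : IsHom w w' j K) (h : Lifts p w w' K L) :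
    Lifts p w' w (adj w w' K) (adj w w' L) := by
  intro d m m' hm he
  refine sub_eq_zero.1 (nondeg w _ fun d0 m0 hm0 => ?_)
  obtain ⟨m1, hm1, e1⟩ := el_surj hm0
  obtain rfl : m0 = fun e => red p (m1 e) := funext fun e => (e1 e).symm
  obtain ⟨m2, hm2, e2⟩ := hK.map _ _ hm1
  obtain ⟨r, hr⟩ := integ_mem (mem_mul hm2.1 hm.1)
  have h1 : integ w' (fun e => up m2 e * up m e) = io ℤ r := by
    rw [← hr]
    congr 1
    funext e
    simp only [up, Pi.mul_apply, map_mul]
  have h2 := integ_adj K (up m1) (up m)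
  rw [e2, he, h1] at h2
  have h3 := integ_adj L (up fun e => red p (m1 e)) (up fun e => red p (m e))
  rw [h _ _ _ hm1 e2, integ_red h1, ← integ_red h2.symm] at h3
  unfold integ at h3 ⊢
  rw [← sub_eq_zero.2 h3.symm, ← Finset.sum_sub_distrib]
  refine Finset.sum_congr rfl fun e _ => ?_
  simp only [Pi.sub_apply, mul_sub, sub_div]

end Pool.Agent.PCan
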