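import Pool.Agent.Lib.MP_b03f2e_al.Hom

/-! The mirror image of a window. -/

namespace Pool.Agent.PCan

open MvPolynomial Matrix

variable {n : ℕ} {k : Type} [CommRing k] [IsDomain k]

theorem actQ_io (g : W n) (r : RR k n) : actQ g (io k r) = io k (rename g r) :=
  IsFractionRing.ringEquivOfRingEquiv_algebraMap _ r

omit [IsDomain k] in
private theorem mir_rr {g : W n} (hg : g * g = 1) (r : RR k n) : rename g (rename g r) = r := by
  rw [rename_rename, ← Equiv.Perm.coe_mul, hg, Equiv.Perm.coe_one, rename_id_apply]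

private theorem mir_gg {g : W n} (hg : g * g = 1) (i : Fin n) : g (g i) = i := by
  rw [← Equiv.Perm.mul_apply, hg, Equiv.Perm.one_apply]

private theorem mir_conj {g : W n} (hg : g * g = 1) (x : W n) : g * (g * x * g) * g = x := by
  rw [← mul_assoc, ← mul_assoc, hg, one_mul, mul_assoc, hg, mul_one]

private theorem mir_swap {g : W n} (hg : g * g = 1) (x : W n) (a b : Fin n) :
    g * (x * Equiv.swap a b) * g = g * x * g * Equiv.swap (g b) (g a) := by
  have h : g⁻¹ = g := inv_eq_of_mul_eq_one_right hg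
  rw [Equiv.swap_comm (g b), Equiv.swap_apply_apply, h]
  simp only [mul_assoc]
  rw [← mul_assoc g g, hg, one_mul]

omit [IsDomain k] in
private theorem el_nil' {d : ℤ} {m : Idx ([] : List (Let n)) → RR k n} :
    El [] d m ↔ ∀ e, Hz d (m e) := ⟨fun h => h.2, fun h => ⟨Submodule.mem_top, h⟩⟩

/-- `w'` is the image of the word `w` under the involution `g`, which reverses each letter. -/
inductive Mir (g : W n) : List (Let n) → List (Let n) → Prop
  | nil : Mir g [] []
  | cons {s s' : Let n} {w w' : List (Let n)} :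
      Mir g w w' → g s.lo = s'.hi → g s.hi = s'.lo → Mir g (s :: w) (s' :: w')

/-- Conjugation by `g` identifies the two modules. -/
theorem Mir.equiv {g : W n} (hg : g * g = 1) {w w' : List (Let n)} (h : Mir g w w') :
    w'.length = w.length ∧ ∃ φ : Idx w ≃ Idx w', (∀ e, pt w' (φ e) = g * pt w e * g) ∧
      (∀ e, eul k w' (φ e) = (-1) ^ w.length * rename g (eul k w e)) ∧
      ∀ d (m : Idx w → RR k n), El w d m ↔ El w' d (fun x => rename g (m (φ.symm x))) := by
  induction h with
  | nil =>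
    refine ⟨rfl, Equiv.refl _, fun e => ?_, fun e => ?_, fun d m => ?_⟩
    · rw [pt_nil, mul_one, hg]
    · simp [eul]
    · rw [el_nil', el_nil']
      refine ⟨fun h e => (h _).rename g, fun h e => ?_⟩
      have := (h e).rename g
      rwa [mir_rr hg] at this
  | @cons s s' w w' _ hlo hhi ih =>
    obtain ⟨hl, φ, hp, he, hel⟩ := ih
    have hrt : ∀ x : W n, rt k (g * x * g) s' = - rename g (rt k x s) := by
      intro x
      rw [rename_rt]
      simp only [rt, Equiv.Perm.mul_apply, ← hlo, ← hhi, mir_gg hg, neg_sub]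
    have hp' : ∀ e : Idx (s :: w), pt (s' :: w') (φ e.1, e.2) = g * pt (s :: w) e * g := by
      rintro ⟨e, b⟩
      cases b
      · rw [pt_false, pt_false, hp]
      · rw [pt_true, pt_true, hp, Let.sw, Let.sw, mir_swap hg, hlo, hhi]
    refine ⟨by simp [hl], Equiv.prodCongr φ (Equiv.refl Bool), hp', fun e => ?_, fun d m => ?_⟩
    · show eul k w' (φ e.1) * rt k (pt (s' :: w') (φ e.1, e.2)) s' =
        _ * rename g (eul k w e.1 * rt k (pt (s :: w) e) s)
      rw [hp', he, hrt, map_mul, List.length_cons]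
      ring
    · constructor
      · intro hm
        obtain ⟨h0, -, G, hG, eG⟩ := hm.cons
        refine el_cons_of (g := -fun x => rename g (G (φ.symm x))) ((hel _ _).1 h0)
          ((hel _ _).1 hG).neg fun x => ?_
        obtain ⟨e, rfl⟩ := φ.surjective x
        show rename g (m (φ.symm (φ e), false)) - rename g (m (φ.symm (φ e), true)) =
          _ * -(rename g (G (φ.symm (φ e))))
        rw [φ.symm_apply_apply, hp, hrt, ← map_sub, eG, map_mul]
        ring
      · intro hm
        obtain ⟨h0, -, G, hG, eG⟩ := hm.cons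
        refine el_cons_of (g := fun e => -rename g (G (φ e))) ((hel _ _).2 h0)
          ((hel _ _).2 ?_) fun e => ?_
        · convert hG.neg using 1
          funext x
          simp only [φ.apply_symm_apply, map_neg, mir_rr hg, Pi.neg_apply]
        · have e1 : rename g (m (φ.symm (φ e), false)) - rename g (m (φ.symm (φ e), true)) =
            rt k (pt w' (φ e)) s' * G (φ e) := eG (φ e)
          rw [φ.symm_apply_apply, hp, hrt] at e1
          have e2 := congrArg (rename g) e1
          rw [map_sub, map_mul, map_neg, mir_rr hg, mir_rr hg, mir_rr hg] at e2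
          rw [e2]
          ring

/-- The reflection of `[0, 2t)`. -/
theorem exists_refl {t : ℕ} (ht : 2 * t ≤ n) : ∃ g : W n, g * g = 1 ∧
    (∀ i : Fin n, i.val < 2 * t → (g i).val + i.val + 1 = 2 * t) ∧
    (∀ i : Fin n, 2 * t ≤ i.val → g i = i) := by
  let f : Fin n → Fin n := fun i =>
    if h : i.val < 2 * t then ⟨2 * t - 1 - i.val, by omega⟩ else i
  have f1 : ∀ i : Fin n, i.val < 2 * t → (f i).val + i.val + 1 = 2 * t := by
    intro i hi
    simp only [f, dif_pos hi]
    omega
  have f2 : ∀ i : Fin n, 2 * t ≤ i.val → f i = i := fun i hi => dif_neg (by omega)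
  have hf : Function.Involutive f := by
    intro i
    by_cases hi : i.val < 2 * t
    · have a1 := f1 i hi
      have a2 := f1 (f i) (by omega)
      exact Fin.ext (by omega)
    · rw [f2 i (by omega), f2 i (by omega)]
  exact ⟨hf.toPerm f, Equiv.ext fun i => hf i, f1, f2⟩

private theorem fix_inv_lt {T : ℕ} {x : W n} (hx : FixFrom T x) {a b : Fin n} (hab : a < b)
    (hv : x b < x a) : b.val < T ∧ (x a).val < T := by
  have key : ∀ i : Fin n, T ≤ (x i).val → x i = i := fun i hi => x.injective (hx _ hi)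
  have hb : b.val < T := by
    by_contra hb
    have e1 := hx b (by omega)
    rw [e1] at hv
    have e2 := key a (by have := Fin.lt_def.1 hv; omega)
    rw [e2] at hv
    exact absurd hab (not_lt.2 hv.le)
  refine ⟨hb, ?_⟩
  by_contra ha
  have e2 := key a (by omega)
  rw [e2] at ha
  have := Fin.lt_def.1 hab
  omega

section
variable {t : ℕ} {g : W n} (hg : g * g = 1)
  (h1 : ∀ i : Fin n, i.val < 2 * t → (g i).val + i.val + 1 = 2 * t)
  (h2 : ∀ i : Fin n, 2 * t ≤ i.val → g i = i)
include hg h1 h2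

theorem refl_fixFrom {x : W n} (hx : FixFrom (2 * t) x) : FixFrom (2 * t) (g * x * g) := by
  intro v hv
  rw [Equiv.Perm.mul_apply, Equiv.Perm.mul_apply, h2 v hv, hx v hv, h2 v hv]

theorem refl_fixBelow {x : W n} (hx : FixFrom t x) : FixBelow t (g * x * g) := by
  intro v hv
  have a1 := h1 v (by omega)
  rw [Equiv.Perm.mul_apply, Equiv.Perm.mul_apply, hx (g v) (by omega), mir_gg hg]

omit h2 in
private theorem refl_inv {x : W n} (hx : FixFrom (2 * t) x) {a b : Fin n} (hab : a < b)
    (hv : x b < x a) : g b < g a ∧ (g * x * g) (g a) < (g * x * g) (g b) := by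
  obtain ⟨c1, c2⟩ := fix_inv_lt hx hab hv
  have d1 := Fin.lt_def.1 hab
  have d2 := Fin.lt_def.1 hv
  have a1 := h1 a (by omega)
  have a2 := h1 b (by omega)
  have a3 := h1 (x a) (by omega)
  have a4 := h1 (x b) (by omega)
  simp only [Equiv.Perm.mul_apply, mir_gg hg]
  exact ⟨Fin.lt_def.2 (by omega), Fin.lt_def.2 (by omega)⟩

theorem refl_le {x z : W n} (hx : FixFrom (2 * t) x) (h : Le z x) : Le (g * z * g) (g * x * g) := by
  induction h with
  | refl => exact Le.refl _
  | @tail b c hb hs ih =>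
    obtain ⟨i, j, hij, hv, rfl⟩ := hs
    obtain ⟨c1, c2⟩ := refl_inv hg h1 (FixFrom.of_le hx hb) hij hv
    exact Relation.ReflTransGen.tail ih ⟨g j, g i, c1, c2, mir_swap hg b i j⟩

omit h2 in
private theorem refl_invs {x : W n} (hx : FixFrom (2 * t) x) {p : Fin n × Fin n}
    (hp : p ∈ invs x) : (g p.2, g p.1) ∈ invs (g * x * g) := by
  obtain ⟨c1, c2⟩ := (Finset.mem_filter.1 hp).2
  exact Finset.mem_filter.2 ⟨Finset.mem_univ _, refl_inv hg h1 hx c1 c2⟩

private theorem refl_prod {M : Type} [CommMonoid M] {x : W n} (hx : FixFrom (2 * t) x)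
    (f : Fin n × Fin n → M) : ∏ p ∈ invs (g * x * g), f p = ∏ p ∈ invs x, f (g p.2, g p.1) := by
  refine Finset.prod_nbij' (fun p => (g p.2, g p.1)) (fun p => (g p.2, g p.1)) ?_ ?_ ?_ ?_ ?_
  · intro p hp
    have := refl_invs hg h1 (refl_fixFrom hg h1 h2 hx) hp
    rwa [mir_conj hg] at this
  · intro p hp
    exact refl_invs hg h1 hx hp
  · intro p _
    simp only [mir_gg hg]
  · intro p _
    simp only [mir_gg hg]
  · intro p _
    simp only [mir_gg hg]

theorem refl_len {x : W n} (hx : FixFrom (2 * t) x) : len (g * x * g) = len x := by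
  have := refl_prod hg h1 h2 hx (M := Multiplicative ℕ) (fun _ => Multiplicative.ofAdd 1)
  rw [Finset.prod_const, Finset.prod_const] at this
  simpa [len, ← ofAdd_nsmul] using this

theorem refl_ee {x : W n} (hx : FixFrom (2 * t) x) :
    ee k (g * x * g) = (-1) ^ len x * rename g (ee k x) := by
  rw [ee, refl_prod hg h1 h2 hx, ee, map_prod, len, ← Finset.prod_neg]
  refine Finset.prod_congr rfl fun p _ => ?_
  simp only [Equiv.Perm.mul_apply, mir_gg hg, map_sub, rename_X, neg_sub]

theorem exists_mir (ht : 2 * t ≤ n) {w : List (Let n)} (hw : Win t w) :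
    ∃ w', Mir g w w' ∧ WinHi t w' := by
  induction w with
  | nil => exact ⟨[], Mir.nil, fun s hs => absurd hs List.not_mem_nil⟩
  | cons s w ih =>
    obtain ⟨w', m1, m2⟩ := ih fun s' hs' => hw s' (List.mem_cons_of_mem _ hs')
    have hs := hw s List.mem_cons_self
    have a1 := h1 s.lo (by simp only [Let.lo]; omega)
    have a2 := h1 s.hi (by simp only [Let.hi]; omega)
    have b1 : s.lo.val = s.a := rfl
    have b2 : s.hi.val = s.a + 1 := rfl
    refine ⟨⟨2 * t - 2 - s.a, by omega⟩ :: w', Mir.cons m1 (Fin.ext ?_) (Fin.ext ?_), ?_⟩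
    · show _ = 2 * t - 2 - s.a + 1
      omega
    · show _ = 2 * t - 2 - s.a
      omega
    · intro s' hs'
      rcases List.mem_cons.1 hs' with h | h
      · rw [h]
        show t ≤ 2 * t - 2 - s.a
        omega
      · exact m2 s' h

theorem mirror (ht : 2 * t ≤ n) {w : List (Let n)} (hw : Win t w)
    {K : Matrix (Idx w) (Idx w) (QQ k n)} {x y : W n} (hG : Gd w K x y) :
    ∃ (w' : List (Let n)) (K' : Matrix (Idx w') (Idx w') (QQ k n)), WinHi t w' ∧
      Gd w' K' (g * x * g) (g * y * g) := by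
  obtain ⟨w', hm, hw'⟩ := exists_mir hg h1 h2 ht hw
  obtain ⟨hl, φ, hp, he, hel⟩ := Mir.equiv (k := k) hg hm
  have hfix : ∀ e, FixFrom (2 * t) (pt w e) := fun e v hv => hw.fixFrom e v (by omega)
  let T : (Idx w → RR k n) → Idx w' → RR k n := fun m x => rename g (m (φ.symm x))
  let C : Matrix (Idx w) (Idx w) (QQ k n) → Matrix (Idx w') (Idx w') (QQ k n) :=
    fun L a b => actQ g (L (φ.symm a) (φ.symm b))
  have Tsurj : ∀ m', ∃ m, m' = T m := fun m' =>
    ⟨fun e => rename g (m' (φ e)), funext fun a => by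
      simp only [T, φ.apply_symm_apply, mir_rr hg]⟩
  have Tφ : ∀ m e, T m (φ e) = rename g (m e) := fun m e => by
    simp only [T, φ.symm_apply_apply]
  have Tne : ∀ m e, T m (φ e) ≠ 0 ↔ m e ≠ 0 := by
    intro m e
    rw [Tφ]
    refine ⟨fun h h0 => h (by rw [h0, map_zero]), fun h h0 => h ?_⟩
    rw [← mir_rr hg (m e), h0, map_zero]
  have cinj : ∀ a b : W n, g * a * g = g * b * g ↔ a = b :=
    fun a b => ⟨fun h => mul_left_cancel (mul_right_cancel h), fun h => by rw [h]⟩
  have hact : ∀ L m m2, C L *ᵥ up (T m) = up (T m2) ↔ L *ᵥ up m = up m2 := by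
    intro L m m2
    have e1 : ∀ e, (C L *ᵥ up (T m)) (φ e) = actQ g ((L *ᵥ up m) e) := by
      intro e
      simp only [Matrix.mulVec, dotProduct]
      rw [map_sum, ← φ.sum_comp]
      refine Finset.sum_congr rfl fun a _ => ?_
      simp only [C, up, Tφ, φ.symm_apply_apply, map_mul, actQ_io]
    have e2 : ∀ e, up (T m2) (φ e) = actQ g (up m2 e) := fun e => by
      simp only [up, Tφ, actQ_io]
    constructor
    · intro h
      funext e
      apply (actQ g).injective
      rw [← e1, ← e2, h]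
    · intro h
      funext a
      obtain ⟨e, rfl⟩ := φ.surjective a
      rw [e1, e2, h]
  have hno : ∀ z m, NoAbove w' (g * z * g) (T m) ↔ NoAbove w z m := by
    intro z m
    constructor
    · intro h e hne hle
      have := h (φ e) ((Tne m e).2 hne) (by rw [hp]; exact refl_le hg h1 h2 (hfix e) hle)
      rwa [hp, cinj] at this
    · intro h a hne hle
      obtain ⟨e, rfl⟩ := φ.surjective a
      rw [hp] at hle ⊢
      have h3 := refl_le hg h1 h2 (refl_fixFrom hg h1 h2 (hfix e)) hle
      rw [mir_conj hg, mir_conj hg] at h3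
      rw [h e ((Tne m e).1 hne) h3]
  have hocc : ∀ z d, Occ w' (C K) (g * z * g) d ↔ Occ w K z d := by
    intro z d
    constructor
    · rintro ⟨m', a1, a2, a3, a, a4, a5⟩
      obtain ⟨m, rfl⟩ := Tsurj m'
      obtain ⟨e, rfl⟩ := φ.surjective a
      rw [hp, cinj] at a4
      exact ⟨m, (hel d m).2 a1, (hact K m m).1 a2, (hno z m).1 a3, e, a4, (Tne m e).1 a5⟩
    · rintro ⟨m, a1, a2, a3, e, a4, a5⟩
      exact ⟨T m, (hel d m).1 a1, (hact K m m).2 a2, (hno z m).2 a3, φ e, by rw [hp, a4],
        (Tne m e).2 a5⟩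
  have hnd : ∀ z d, Occ w K z d → nd w' (g * z * g) d = nd w z d := by
    rintro z d ⟨m, -, -, -, e, rfl, -⟩
    rw [nd, nd, hl, refl_len hg h1 h2 (hfix e)]
  have hs : ((-1 : QQ k n)) ^ w.length ≠ 0 := pow_ne_zero _ (neg_ne_zero.2 one_ne_zero)
  have hss : ((-1 : QQ k n)) ^ w.length * (-1) ^ w.length = 1 := by
    rw [← mul_pow]; simp
  have he' : ∀ e, io k (eul k w' (φ e)) = (-1) ^ w.length * actQ g (io k (eul k w e)) := by
    intro e
    rw [he, map_mul, map_pow, map_neg, map_one, actQ_io]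
  have hen : ∀ e, actQ g (io k (eul k w e)) ≠ 0 := fun e =>
    (map_ne_zero _).2 (io_ne_zero (eul_ne_zero w e))
  have hadj : adj w' w' (C K) = C (adj w w K) := by
    ext a b
    obtain ⟨a, rfl⟩ := φ.surjective a
    obtain ⟨b, rfl⟩ := φ.surjective b
    have := hen b
    simp only [adj, C, φ.symm_apply_apply, he', map_div₀, map_mul]
    field_simp
  refine ⟨w', C K, hw', ⟨⟨fun a b hab => ?_, fun d m' hm' => ?_⟩, ?_⟩, fun z' d ho => ?_,
    fun z' hz' d d' m m' a1 a2 a3 a4 a5 a6 => ?_, ?_⟩
  · obtain ⟨a, rfl⟩ := φ.surjective a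
    obtain ⟨b, rfl⟩ := φ.surjective b
    rw [hp, hp] at hab
    simp only [C, φ.symm_apply_apply]
    rw [hG.idem.1.block a b fun h => hab (by rw [h]), map_zero]
  · obtain ⟨m, rfl⟩ := Tsurj m'
    obtain ⟨m2, b1, b2⟩ := hG.idem.1.map d m ((hel d m).2 hm')
    exact ⟨T m2, (hel _ m2).1 b1, (hact K m m2).2 b2⟩
  · ext a b
    have h3 := congrFun (congrFun hG.idem.2 (φ.symm a)) (φ.symm b)
    rw [Matrix.mul_apply] at h3
    rw [Matrix.mul_apply, ← φ.sum_comp]
    simp only [C, φ.symm_apply_apply, ← map_mul, ← map_sum, h3]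
  · rw [← mir_conj hg z'] at ho ⊢
    have h3 := (hocc _ d).1 ho
    rw [hnd _ d h3]
    exact hG.perv _ d h3
  · obtain ⟨z, rfl⟩ : ∃ z, z' = g * z * g := ⟨g * z' * g, (mir_conj hg z').symm⟩
    obtain ⟨m, rfl⟩ := Tsurj m
    obtain ⟨m', rfl⟩ := Tsurj m'
    rw [hadj] at a4
    obtain ⟨r, hr, er⟩ := hG.form z (fun h => hz' (by rw [h])) d d' m m' ((hel _ _).2 a1)
      ((hel _ _).2 a2) ((hact K m m).1 a3) ((hact _ m' m').1 a4) ((hno z m).1 a5) ((hno z m').1 a6)
    have e1 : ∑ a ∈ Finset.univ.filter (fun a => pt w' a = g * z * g),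
        up (T m) a * up (T m') a / io k (eul k w' a) =
        (-1) ^ w.length * actQ g (∑ e ∈ Finset.univ.filter (fun e => pt w e = z),
          up m e * up m' e / io k (eul k w e)) := by
      rw [map_sum, Finset.mul_sum, Finset.sum_filter, Finset.sum_filter, ← φ.sum_comp]
      refine Finset.sum_congr rfl fun e _ => ?_
      simp only [hp, cinj]
      split_ifs
      · have := hen e
        simp only [up, Tφ, he', map_div₀, map_mul, ← actQ_io]
        field_simp
        rw [pow_two, hss, mul_one]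
      · rfl
    by_cases hz : ∃ e, pt w e = z
    · obtain ⟨e, rfl⟩ := hz
      refine ⟨(-1) ^ len (pt w e) * (-1) ^ w.length * rename g r,
        Ideal.mul_mem_left _ _ (rename_mem_mI g hr), ?_⟩
      have e2 := congrArg (actQ g) er
      rw [BF, map_mul] at e2
      rw [BF, e1, refl_ee hg h1 h2 (hfix e)]
      simp only [map_mul, map_pow, map_neg, map_one, ← actQ_io]
      rw [← e2]
      ring
    · refine ⟨0, Submodule.zero_mem _, ?_⟩
      rw [BF, e1, Finset.filter_false_of_mem fun e _ h => hz ⟨e, h⟩]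
      simp
  · obtain ⟨d, b1, b2⟩ := hG.occ
    exact ⟨d, (hocc y d).2 b1, by rw [hnd y d b1, b2]⟩

end

end Pool.Agent.PCan
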