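import Pool.Agent.Lib.MP_b03f2e_al.Core

/-! Every prime is reached by the subtractive Euclidean algorithm in few steps. -/

namespace Pool.Agent.PCan

open Finset

theorem Reach.iter {s a b : ℕ} (h : Reach s a b) (j : ℕ) : Reach (s + j) (a + j * b) b := by
  induction j with
  | zero => simpa using h
  | succ j ih =>
    have := ih.u
    rwa [add_assoc, add_assoc, ← Nat.succ_mul] at this

/-- `q b ≡ ± e` modulo `p`. -/
def Sol (p b q e : ℕ) : Prop := (q : ZMod p) * b = e ∨ (q : ZMod p) * b = - e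

instance (p b q e : ℕ) : Decidable (Sol p b q e) := inferInstanceAs (Decidable (_ ∨ _))

theorem euclid (p b : ℕ) : ∀ (e e' q q' : ℕ) (σ : ZMod p), e < e' → Nat.Coprime e' e →
    q * e' + q' * e = p → 1 ≤ q → (σ = 1 ∨ σ = -1) → (q : ZMod p) * b = σ * e →
    (q' : ZMod p) * b = - σ * e' →
    ∃ s, Reach s e' e ∧ s ≤ ∑ i ∈ Icc 1 e, ∑ r ∈ Ico 1 p, if Sol p b r i then p / (r * i) else 0 := by
  intro e
  induction e using Nat.strong_induction_on with
  | _ e ih =>
    intro e' q q' σ hlt hco hp hq hσ h1 h2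
    rcases Nat.eq_zero_or_pos e with rfl | he
    · rw [Nat.coprime_zero_right] at hco
      subst hco
      exact ⟨0, Reach.base, Nat.zero_le _⟩
    have hdm := Nat.div_add_mod e' e
    have hr := Nat.mod_lt e' he
    have ha : 1 ≤ e' / e := (Nat.le_div_iff_mul_le he).2 (by omega)
    obtain ⟨s, hs, hle⟩ := ih (e' % e) hr e (e' / e * q + q') q (-σ) hr
      (by rw [Nat.Coprime, Nat.gcd_comm, ← Nat.gcd_rec, Nat.gcd_comm]; exact hco)
      (by rw [← hp]; nth_rewrite 3 [← hdm]; ring) (by nlinarith)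
      (by rcases hσ with rfl | rfl <;> simp)
      (by
        have h3 : (e' : ZMod p) = e * (e' / e : ℕ) + (e' % e : ℕ) := by exact_mod_cast congrArg (Nat.cast : ℕ → ZMod p) hdm.symm
        push_cast
        rw [add_mul, mul_assoc, h1, h2]
        linear_combination (-σ) * h3)
      (by rw [h1, neg_neg])
    refine ⟨s + 1 + (e' / e - 1), ?_, ?_⟩
    · have h3 := hs.f.iter (e' / e - 1)
      have h4 : e + e' % e + (e' / e - 1) * e = e' := by
        obtain ⟨a, ha'⟩ : ∃ a, e' / e = a + 1 := ⟨e' / e - 1, by omega⟩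
        rw [ha'] at hdm ⊢
        rw [Nat.add_sub_cancel]
        linarith
      rwa [h4] at h3
    · obtain ⟨e0, rfl⟩ : ∃ e0, e = e0 + 1 := ⟨e - 1, by omega⟩
      rw [sum_Icc_succ_top (by omega)]
      have h3 : s ≤ ∑ i ∈ Icc 1 e0, ∑ r ∈ Ico 1 p, if Sol p b r i then p / (r * i) else 0 :=
        hle.trans (sum_le_sum_of_subset (Icc_subset_Icc_right (by omega)))
      have h4 : Sol p b q (e0 + 1) := by
        rcases hσ with rfl | rfl
        · exact Or.inl (by rw [h1, one_mul])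
        · exact Or.inr (by rw [h1, neg_one_mul])
      have h5 : q ∈ Ico 1 p := mem_Ico.2 ⟨hq, by nlinarith⟩
      have h6 := single_le_sum (f := fun r => if Sol p b r (e0 + 1) then p / (r * (e0 + 1)) else 0)
        (fun _ _ => Nat.zero_le _) h5
      rw [if_pos h4] at h6
      have h7 : e' / (e0 + 1) ≤ p / (q * (e0 + 1)) := by
        refine (Nat.le_div_iff_mul_le (by positivity)).2 ?_
        have h8 : (e0 + 1) * (e' / (e0 + 1)) ≤ e' := by omega
        nlinarith
      omega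

theorem card_sol {p : ℕ} (hp : p.Prime) {q : ℕ} (hq : q ∈ Ico 1 p) (e : ℕ) :
    ((Ico 1 p).filter fun b => Sol p b q e).card ≤ 2 := by
  have := Fact.mk hp
  have hq0 : (q : ZMod p) ≠ 0 := by
    rw [Ne, ZMod.natCast_eq_zero_iff]
    exact Nat.not_dvd_of_pos_of_lt (mem_Ico.1 hq).1 (mem_Ico.1 hq).2
  refine le_trans (card_le_card_of_injOn (t := ({(e : ZMod p), - (e : ZMod p)} : Finset (ZMod p)))
    (fun b => (q : ZMod p) * b) (fun b hb => ?_) (fun b hb b' hb' h => ?_)) card_le_two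
  · have := (mem_filter.1 hb).2
    simpa [Sol] using this
  · have h1 := (mem_Ico.1 (mem_filter.1 hb).1).2
    have h2 := (mem_Ico.1 (mem_filter.1 hb').1).2
    have h3 := (ZMod.natCast_eq_natCast_iff' _ _ _).1 (mul_left_cancel₀ hq0 h)
    rwa [Nat.mod_eq_of_lt h1, Nat.mod_eq_of_lt h2] at h3

theorem sum_inv_le (m : ℕ) : ∑ j ∈ Icc 1 m, (1 / j : ℝ) ≤ 1 + Real.log m := by
  have h := harmonic_le_one_add_log m
  rw [harmonic_eq_sum_Icc] at h
  push_cast at h
  simpa only [one_div] using h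

theorem count_le (p j : ℕ) (hj : 1 ≤ j) :
    ∑ e ∈ Ico 1 p, ∑ q ∈ Ico 1 p, (if j * (q * e) ≤ p then (1 : ℝ) else 0) ≤
      p / j * (1 + Real.log p) := by
  have h1 : ∀ e ∈ Ico 1 p, ∑ q ∈ Ico 1 p, (if j * (q * e) ≤ p then (1 : ℝ) else 0) ≤
      p / j * (1 / e) := by
    intro e he
    have he1 := (mem_Ico.1 he).1
    rw [sum_boole]
    have h2 : ((Ico 1 p).filter fun q => j * (q * e) ≤ p).card ≤ p / (j * e) := by
      refine le_trans (card_le_card (t := Icc 1 (p / (j * e))) fun q hq => ?_) (by simp)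
      refine mem_Icc.2 ⟨(mem_Ico.1 (mem_filter.1 hq).1).1, ?_⟩
      refine (Nat.le_div_iff_mul_le (by positivity)).2 ?_
      have := (mem_filter.1 hq).2
      nlinarith
    refine (Nat.cast_le.2 h2).trans (Nat.cast_div_le.trans (le_of_eq ?_))
    push_cast
    field_simp
  refine (sum_le_sum h1).trans ?_
  rw [← mul_sum]
  refine mul_le_mul_of_nonneg_left (le_trans ?_ (sum_inv_le p)) (by positivity)
  exact sum_le_sum_of_subset_of_nonneg Ico_subset_Icc_self fun _ _ _ => by positivity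

theorem exists_reach : ∃ K : ℝ, 0 ≤ K ∧ ∀ p : ℕ, p.Prime → ∃ s β : ℕ, Reach s p β ∧
    (s : ℝ) ≤ K * (1 + Real.log p) * (1 + Real.log (1 + Real.log p)) := by
  refine ⟨73, by norm_num, fun p hp => ?_⟩
  have hp2 : (2 : ℝ) ≤ p := by exact_mod_cast hp.two_le
  set L := 1 + Real.log p with hL
  have hL1 : 1 ≤ L := by
    have := Real.log_nonneg (by linarith : (1 : ℝ) ≤ p)
    linarith
  obtain ⟨T, hT1, hT2⟩ : ∃ T : ℕ, 8 * L ≤ T ∧ (T : ℝ) ≤ 9 * L :=
    ⟨⌈8 * L⌉₊, Nat.le_ceil _, by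
      have := Nat.ceil_lt_add_one (by linarith : 0 ≤ 8 * L)
      linarith⟩
  have hT0 : (0 : ℝ) < T := by linarith
  have hT : 1 ≤ T := by exact_mod_cast hT0
  set H := ∑ j ∈ Icc 1 T, (1 / j : ℝ) with hH
  have hH0 : 0 ≤ H := sum_nonneg fun _ _ => by positivity
  set M := 8 * L * H + 1 with hM
  have hM0 : 0 < M := by positivity
  let g : ℕ → ℕ → ℝ := fun q e => (∑ j ∈ Icc 1 T, if j * (q * e) ≤ p then (1 : ℝ) else 0) +
    M * if T * (q * e) ≤ p then (1 : ℝ) else 0
  have g0 : ∀ q e, 0 ≤ g q e := fun q e =>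
    add_nonneg (sum_nonneg fun _ _ => by positivity) (by positivity)
  have hg : ∑ e ∈ Ico 1 p, ∑ q ∈ Ico 1 p, g q e ≤ p * L * H + M * (p / T * L) := by
    simp only [g, sum_add_distrib, ← mul_sum]
    refine add_le_add ?_ (mul_le_mul_of_nonneg_left (count_le p T hT) hM0.le)
    rw [sum_congr rfl fun e _ => sum_comm, sum_comm, hH, mul_sum]
    refine sum_le_sum fun j hj => (count_le p j (mem_Icc.1 hj).1).trans (le_of_eq ?_)
    ring
  have hsum : ∑ b ∈ Ico 1 p, ∑ e ∈ Ico 1 p, ∑ q ∈ Ico 1 p, (if Sol p b q e then g q e else 0) <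
      ∑ b ∈ Ico 1 p, M := by
    have h1 : ∑ b ∈ Ico 1 p, ∑ e ∈ Ico 1 p, ∑ q ∈ Ico 1 p, (if Sol p b q e then g q e else 0) ≤
        2 * ∑ e ∈ Ico 1 p, ∑ q ∈ Ico 1 p, g q e := by
      rw [sum_comm, mul_sum]
      refine sum_le_sum fun e _ => ?_
      rw [sum_comm, mul_sum]
      refine sum_le_sum fun q hq => ?_
      rw [← sum_filter, sum_const, nsmul_eq_mul]
      exact mul_le_mul_of_nonneg_right (by exact_mod_cast card_sol hp hq e) (g0 q e)
    have h2 : (p : ℝ) / T * L ≤ p / 8 := by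
      rw [div_mul_eq_mul_div, div_le_div_iff₀ hT0 (by norm_num)]
      nlinarith
    have h3 := mul_le_mul_of_nonneg_left h2 hM0.le
    rw [sum_const, Nat.card_Ico, nsmul_eq_mul, Nat.cast_sub hp.one_le]
    have h4 : p * L * H = p * (M - 1) / 8 := by
      rw [hM]
      ring
    push_cast
    nlinarith
  obtain ⟨b, hb, hG⟩ := exists_lt_of_sum_lt hsum
  obtain ⟨hb1, hb2⟩ := mem_Ico.1 hb
  obtain ⟨s, hs, hle⟩ := euclid p b b p 1 0 1 hb2 (Nat.coprime_of_lt_prime (by omega) hb2 hp)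
    (by ring) le_rfl (Or.inl rfl) (by simp) (by simp)
  refine ⟨s, b, hs, ?_⟩
  have hle' : (s : ℝ) ≤ M := by
    refine le_trans ?_ hG.le
    have h1 : s ≤ ∑ i ∈ Ico 1 p, ∑ r ∈ Ico 1 p, if Sol p b r i then p / (r * i) else 0 :=
      hle.trans (sum_le_sum_of_subset (Icc_subset_Ico_right hb2))
    refine (Nat.cast_le.2 h1).trans ?_
    rw [Nat.cast_sum]
    refine sum_le_sum fun e he => ?_
    rw [Nat.cast_sum]
    refine sum_le_sum fun q hq => ?_
    by_cases hS : Sol p b q e
    · rw [if_pos hS, if_pos hS]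
      have h2 : g q e < M := by
        refine lt_of_le_of_lt ?_ hG
        refine le_trans ?_ (single_le_sum (f := fun e => ∑ q ∈ Ico 1 p,
          if Sol p b q e then g q e else 0) (fun e _ => sum_nonneg fun q _ => ?_) he)
        · refine le_trans (le_of_eq (if_pos hS).symm) (single_le_sum
            (f := fun q => if Sol p b q e then g q e else 0) (fun q _ => ?_) hq)
          split_ifs
          · exact g0 _ _
          · exact le_rfl
        · split_ifs
          · exact g0 _ _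
          · exact le_rfl
      have h3 : ¬ T * (q * e) ≤ p := by
        intro h
        have h4 : 0 ≤ ∑ j ∈ Icc 1 T, if j * (q * e) ≤ p then (1 : ℝ) else 0 :=
          sum_nonneg fun _ _ => by positivity
        simp only [g, if_pos h] at h2
        linarith
      have hqe : 0 < q * e := Nat.mul_pos (mem_Ico.1 hq).1 (mem_Ico.1 he).1
      simp only [g, if_neg h3, mul_zero, add_zero, sum_boole]
      refine Nat.cast_le.2 (le_trans (by simp) (card_le_card (s := Icc 1 (p / (q * e))) fun j hj => ?_))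
      have h5 := (Nat.le_div_iff_mul_le hqe).1 (mem_Icc.1 hj).2
      refine mem_filter.2 ⟨mem_Icc.2 ⟨(mem_Icc.1 hj).1, ?_⟩, h5⟩
      by_contra h6
      exact h3 (le_trans (Nat.mul_le_mul_right _ (by omega)) h5)
    · rw [if_neg hS, if_neg hS, Nat.cast_zero]
  have hH1 : H ≤ 9 + Real.log L := by
    have h1 := sum_inv_le T
    have h2 : Real.log T ≤ Real.log (9 * L) := Real.log_le_log hT0 hT2
    rw [Real.log_mul (by norm_num) (by linarith)] at h2
    have h3 := Real.log_le_sub_one_of_pos (by norm_num : (0 : ℝ) < 9)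
    linarith
  have hl : 0 ≤ Real.log L := Real.log_nonneg hL1
  have h5 : L * H ≤ L * (9 + Real.log L) := mul_le_mul_of_nonneg_left hH1 (by linarith)
  nlinarith [mul_nonneg (by linarith : 0 ≤ L) hl]

end Pool.Agent.PCan
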