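import Pool.Agent.Lib.MP_b03f2e_al.Core

/-! Nil-Hecke operators in five variables. -/

namespace Pool.Agent.PCan.F5

open MvPolynomial

/-- Operators on polynomials in five variables. -/
inductive Op
  | x : Op
  | d : Fin 4 → Op
  deriving DecidableEq

/-- `Ev ops f B`: applying the operators (multiplication by `-y₀`, Demazure operators; first
the head of the list) to `f` and evaluating at the origin gives `B`. -/
inductive Ev : List Op → MvPolynomial (Fin 5) ℤ → ℤ → Prop
  | nil (f : MvPolynomial (Fin 5) ℤ) : Ev [] f (constantCoeff f)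
  | x {r : List Op} {f : MvPolynomial (Fin 5) ℤ} {B : ℤ} : Ev r (-X 0 * f) B → Ev (Op.x :: r) f B
  | d {r : List Op} {f g : MvPolynomial (Fin 5) ℤ} {B : ℤ} (i : Fin 4) :
      f - rename (Equiv.swap i.castSucc i.succ) f = (X i.castSucc - X i.succ) * g →
      Ev r g B → Ev (Op.d i :: r) f B

end Pool.Agent.PCan.F5
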