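import Pool.Agent.Lib.MP_b03f2e_al.Core

/-! Nil-Hecke words for the subtractive Euclidean algorithm. -/

set_option linter.unusedSimpArgs false

namespace Pool.Agent.PCan

open MvPolynomial

noncomputable def lin (A B G : ℤ) : MvPolynomial (Fin 4) ℤ :=
  C A * (X 0 + X 1 + X 2) + C B * (X 0 + X 1) + C G * (X 0 + X 1 + X 2 + X 3)

theorem Ev.d0 {r : List Op} {f g : MvPolynomial (Fin 4) ℤ} {B : ℤ}
    (h : f - rename (Equiv.swap (0 : Fin 4) 1) f = (X 0 - X 1) * g) (hr : Ev r g B) :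
    Ev (Op.d 0 :: r) f B := Ev.d 0 h hr
theorem w00 : Equiv.swap (0 : Fin 4) 1 0 = 1 := by decide
theorem w01 : Equiv.swap (0 : Fin 4) 1 1 = 0 := by decide
theorem w02 : Equiv.swap (0 : Fin 4) 1 2 = 2 := by decide
theorem w03 : Equiv.swap (0 : Fin 4) 1 3 = 3 := by decide
theorem Ev.d1 {r : List Op} {f g : MvPolynomial (Fin 4) ℤ} {B : ℤ}
    (h : f - rename (Equiv.swap (1 : Fin 4) 2) f = (X 1 - X 2) * g) (hr : Ev r g B) :
    Ev (Op.d 1 :: r) f B := Ev.d 1 h hr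
theorem w10 : Equiv.swap (1 : Fin 4) 2 0 = 0 := by decide
theorem w11 : Equiv.swap (1 : Fin 4) 2 1 = 2 := by decide
theorem w12 : Equiv.swap (1 : Fin 4) 2 2 = 1 := by decide
theorem w13 : Equiv.swap (1 : Fin 4) 2 3 = 3 := by decide
theorem Ev.d2 {r : List Op} {f g : MvPolynomial (Fin 4) ℤ} {B : ℤ}
    (h : f - rename (Equiv.swap (2 : Fin 4) 3) f = (X 2 - X 3) * g) (hr : Ev r g B) :
    Ev (Op.d 2 :: r) f B := Ev.d 2 h hr
theorem w20 : Equiv.swap (2 : Fin 4) 3 0 = 0 := by decide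
theorem w21 : Equiv.swap (2 : Fin 4) 3 1 = 1 := by decide
theorem w22 : Equiv.swap (2 : Fin 4) 3 2 = 3 := by decide
theorem w23 : Equiv.swap (2 : Fin 4) 3 3 = 2 := by decide

theorem Ev.congr {r : List Op} {f g : MvPolynomial (Fin 4) ℤ} {B : ℤ} (h : Ev r f B) (e : g = f) :
    Ev r g B := e ▸ h

theorem ev_U {r : List Op} {A B G D : ℤ} (h : Ev r (lin (-(A + B)) (-B) (-G)) D) :
    Ev ([Op.x, Op.x, Op.d 0, Op.x, Op.d 1, Op.d 0] ++ r) (lin A B G) D := by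
  simp only [List.cons_append, List.nil_append]
  refine Ev.x ?_
  refine Ev.x ?_
  refine Ev.d0 (g := (C G * X 1 * X 3) + C A * X 1 * X 2 + C G * X 1 * X 2 + C A * X 1 ^ 2 + C B * X 1 ^ 2 + C G * X 1 ^ 2 + C G * X 0 * X 3 + C A * X 0 * X 2 + C G * X 0 * X 2 + 2 * C A * X 0 * X 1 + 2 * C B * X 0 * X 1 + 2 * C G * X 0 * X 1 + C A * X 0 ^ 2 + C B * X 0 ^ 2 + C G * X 0 ^ 2) (by
    simp only [lin, map_mul, map_add, map_sub, map_neg, map_pow, map_ofNat, map_one, rename_X,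
      rename_C, w00, w01, w02, w03]
    ring) ?_
  refine Ev.x ?_
  refine Ev.d1 (g := -(C G * X 0 * X 3) - C A * X 0 * X 2 - C B * X 0 * X 2 - C G * X 0 * X 2 - C A * X 0 * X 1 - C B * X 0 * X 1 - C G * X 0 * X 1 - C A * X 0 ^ 2 - 2 * C B * X 0 ^ 2 - C G * X 0 ^ 2) (by
    simp only [lin, map_mul, map_add, map_sub, map_neg, map_pow, map_ofNat, map_one, rename_X,
      rename_C, w10, w11, w12, w13]
    ring) ?_
  refine Ev.d0 (g := -(C G * X 3) - C A * X 2 - C B * X 2 - C G * X 2 - C A * X 1 - 2 * C B * X 1 - C G * X 1 - C A * X 0 - 2 * C B * X 0 - C G * X 0) (by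
    simp only [lin, map_mul, map_add, map_sub, map_neg, map_pow, map_ofNat, map_one, rename_X,
      rename_C, w00, w01, w02, w03]
    ring) ?_
  refine h.congr ?_
  simp only [lin, map_add, map_neg]
  ring

theorem ev_F {r : List Op} {A B G D : ℤ} (h : Ev r (lin (A + B) A (A + B + G)) D) :
    Ev ([Op.x, Op.x, Op.x, Op.d 0, Op.x, Op.x, Op.d 1, Op.d 0, Op.x, Op.d 2, Op.d 1, Op.d 0] ++ r) (lin A B G) D := by
  simp only [List.cons_append, List.nil_append]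
  refine Ev.x ?_
  refine Ev.x ?_
  refine Ev.x ?_
  refine Ev.d0 (g := -(C G * X 1 ^ 2 * X 3) - C A * X 1 ^ 2 * X 2 - C G * X 1 ^ 2 * X 2 - C A * X 1 ^ 3 - C B * X 1 ^ 3 - C G * X 1 ^ 3 - C G * X 0 * X 1 * X 3 - C A * X 0 * X 1 * X 2 - C G * X 0 * X 1 * X 2 - 2 * C A * X 0 * X 1 ^ 2 - 2 * C B * X 0 * X 1 ^ 2 - 2 * C G * X 0 * X 1 ^ 2 - C G * X 0 ^ 2 * X 3 - C A * X 0 ^ 2 * X 2 - C G * X 0 ^ 2 * X 2 - 2 * C A * X 0 ^ 2 * X 1 - 2 * C B * X 0 ^ 2 * X 1 - 2 * C G * X 0 ^ 2 * X 1 - C A * X 0 ^ 3 - C B * X 0 ^ 3 - C G * X 0 ^ 3) (by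
    simp only [lin, map_mul, map_add, map_sub, map_neg, map_pow, map_ofNat, map_one, rename_X,
      rename_C, w00, w01, w02, w03]
    ring) ?_
  refine Ev.x ?_
  refine Ev.x ?_
  refine Ev.d1 (g := -(C G * X 0 ^ 2 * X 2 * X 3) - C A * X 0 ^ 2 * X 2 ^ 2 - C B * X 0 ^ 2 * X 2 ^ 2 - C G * X 0 ^ 2 * X 2 ^ 2 - C G * X 0 ^ 2 * X 1 * X 3 - 2 * C A * X 0 ^ 2 * X 1 * X 2 - C B * X 0 ^ 2 * X 1 * X 2 - 2 * C G * X 0 ^ 2 * X 1 * X 2 - C A * X 0 ^ 2 * X 1 ^ 2 - C B * X 0 ^ 2 * X 1 ^ 2 - C G * X 0 ^ 2 * X 1 ^ 2 - C G * X 0 ^ 3 * X 3 - 2 * C A * X 0 ^ 3 * X 2 - 2 * C B * X 0 ^ 3 * X 2 - 2 * C G * X 0 ^ 3 * X 2 - 2 * C A * X 0 ^ 3 * X 1 - 2 * C B * X 0 ^ 3 * X 1 - 2 * C G * X 0 ^ 3 * X 1 - C A * X 0 ^ 4 - 2 * C B * X 0 ^ 4 - C G * X 0 ^ 4) (by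
    simp only [lin, map_mul, map_add, map_sub, map_neg, map_pow, map_ofNat, map_one, rename_X,
      rename_C, w10, w11, w12, w13]
    ring) ?_
  refine Ev.d0 (g := -(C G * X 1 * X 2 * X 3) - C A * X 1 * X 2 ^ 2 - C B * X 1 * X 2 ^ 2 - C G * X 1 * X 2 ^ 2 - C G * X 1 ^ 2 * X 3 - 2 * C A * X 1 ^ 2 * X 2 - 2 * C B * X 1 ^ 2 * X 2 - 2 * C G * X 1 ^ 2 * X 2 - C A * X 1 ^ 3 - 2 * C B * X 1 ^ 3 - C G * X 1 ^ 3 - C G * X 0 * X 2 * X 3 - C A * X 0 * X 2 ^ 2 - C B * X 0 * X 2 ^ 2 - C G * X 0 * X 2 ^ 2 - 2 * C G * X 0 * X 1 * X 3 - 4 * C A * X 0 * X 1 * X 2 - 3 * C B * X 0 * X 1 * X 2 - 4 * C G * X 0 * X 1 * X 2 - 3 * C A * X 0 * X 1 ^ 2 - 4 * C B * X 0 * X 1 ^ 2 - 3 * C G * X 0 * X 1 ^ 2 - C G * X 0 ^ 2 * X 3 - 2 * C A * X 0 ^ 2 * X 2 - 2 * C B * X 0 ^ 2 * X 2 - 2 * C G * X 0 ^ 2 * X 2 - 3 * C A * X 0 ^ 2 * X 1 - 4 * C B * X 0 ^ 2 * X 1 - 3 * C G * X 0 ^ 2 * X 1 - C A * X 0 ^ 3 - 2 * C B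 * X 0 ^ 3 - C G * X 0 ^ 3) (by
    simp only [lin, map_mul, map_add, map_sub, map_neg, map_pow, map_ofNat, map_one, rename_X,
      rename_C, w00, w01, w02, w03]
    ring) ?_
  refine Ev.x ?_
  refine Ev.d2 (g := (C A * X 0 * X 1 * X 3) + C B * X 0 * X 1 * X 3 + C G * X 0 * X 1 * X 3 + C A * X 0 * X 1 * X 2 + C B * X 0 * X 1 * X 2 + C G * X 0 * X 1 * X 2 + 2 * C A * X 0 * X 1 ^ 2 + 2 * C B * X 0 * X 1 ^ 2 + C G * X 0 * X 1 ^ 2 + C A * X 0 ^ 2 * X 3 + C B * X 0 ^ 2 * X 3 + C G * X 0 ^ 2 * X 3 + C A * X 0 ^ 2 * X 2 + C B * X 0 ^ 2 * X 2 + C G * X 0 ^ 2 * X 2 + 4 * C A * X 0 ^ 2 * X 1 + 3 * C B * X 0 ^ 2 * X 1 + 2 * C G * X 0 ^ 2 * X 1 + 2 * C A * X 0 ^ 3 + 2 * C B * X 0 ^ 3 + C G * X 0 ^ 3) (by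
    simp only [lin, map_mul, map_add, map_sub, map_neg, map_pow, map_ofNat, map_one, rename_X,
      rename_C, w20, w21, w22, w23]
    ring) ?_
  refine Ev.d1 (g := (C A * X 0 * X 3) + C B * X 0 * X 3 + C G * X 0 * X 3 + 2 * C A * X 0 * X 2 + 2 * C B * X 0 * X 2 + C G * X 0 * X 2 + 2 * C A * X 0 * X 1 + 2 * C B * X 0 * X 1 + C G * X 0 * X 1 + 3 * C A * X 0 ^ 2 + 2 * C B * X 0 ^ 2 + C G * X 0 ^ 2) (by
    simp only [lin, map_mul, map_add, map_sub, map_neg, map_pow, map_ofNat, map_one, rename_X,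
      rename_C, w10, w11, w12, w13]
    ring) ?_
  refine Ev.d0 (g := (C A * X 3) + C B * X 3 + C G * X 3 + 2 * C A * X 2 + 2 * C B * X 2 + C G * X 2 + 3 * C A * X 1 + 2 * C B * X 1 + C G * X 1 + 3 * C A * X 0 + 2 * C B * X 0 + C G * X 0) (by
    simp only [lin, map_mul, map_add, map_sub, map_neg, map_pow, map_ofNat, map_one, rename_X,
      rename_C, w00, w01, w02, w03]
    ring) ?_
  refine h.congr ?_
  simp only [lin, map_add, map_neg]
  ring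

theorem ev_S {r : List Op} {D : ℤ} (h : Ev r (lin (-1) 0 0) D) :
    Ev ([Op.d 0, Op.d 1, Op.d 2, Op.d 0, Op.d 1, Op.d 0, Op.x, Op.x, Op.x, Op.d 0, Op.d 1] ++ r) (X 0 ^ 3 * X 1 ^ 2 * X 2) D := by
  simp only [List.cons_append, List.nil_append]
  refine Ev.d0 (g := (X 0 ^ 2 * X 1 ^ 2 * X 2)) (by
    simp only [lin, map_mul, map_add, map_sub, map_neg, map_pow, map_ofNat, map_one, rename_X,
      rename_C, w00, w01, w02, w03]
    ring) ?_
  refine Ev.d1 (g := (X 0 ^ 2 * X 1 * X 2)) (by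
    simp only [lin, map_mul, map_add, map_sub, map_neg, map_pow, map_ofNat, map_one, rename_X,
      rename_C, w10, w11, w12, w13]
    ring) ?_
  refine Ev.d2 (g := (X 0 ^ 2 * X 1)) (by
    simp only [lin, map_mul, map_add, map_sub, map_neg, map_pow, map_ofNat, map_one, rename_X,
      rename_C, w20, w21, w22, w23]
    ring) ?_
  refine Ev.d0 (g := (X 0 * X 1)) (by
    simp only [lin, map_mul, map_add, map_sub, map_neg, map_pow, map_ofNat, map_one, rename_X,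
      rename_C, w00, w01, w02, w03]
    ring) ?_
  refine Ev.d1 (g := (X 0)) (by
    simp only [lin, map_mul, map_add, map_sub, map_neg, map_pow, map_ofNat, map_one, rename_X,
      rename_C, w10, w11, w12, w13]
    ring) ?_
  refine Ev.d0 (g := (1)) (by
    simp only [lin, map_mul, map_add, map_sub, map_neg, map_pow, map_ofNat, map_one, rename_X,
      rename_C, w00, w01, w02, w03]
    ring) ?_
  refine Ev.x ?_
  refine Ev.x ?_
  refine Ev.x ?_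
  refine Ev.d0 (g := -(X 1 ^ 2) - X 0 * X 1 - X 0 ^ 2) (by
    simp only [lin, map_mul, map_add, map_sub, map_neg, map_pow, map_ofNat, map_one, rename_X,
      rename_C, w00, w01, w02, w03]
    ring) ?_
  refine Ev.d1 (g := -(X 2) - X 1 - X 0) (by
    simp only [lin, map_mul, map_add, map_sub, map_neg, map_pow, map_ofNat, map_one, rename_X,
      rename_C, w10, w11, w12, w13]
    ring) ?_
  refine h.congr ?_
  simp only [lin, map_add, map_neg, map_one, map_zero]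
  ring

theorem ev_E (A B G : ℤ) : Ev [Op.d 2] (lin A B G) A := by
  refine Ev.d2 (g := (C A)) (by
    simp only [lin, map_mul, map_add, map_sub, map_neg, map_pow, map_ofNat, map_one, rename_X,
      rename_C, w20, w21, w22, w23]
    ring) ?_
  have := Ev.nil (C A)
  rwa [constantCoeff_C] at this

theorem exists_pre {s α β : ℕ} (h : Reach s α β) : ∃ (pre : List Op) (σ G : ℤ),
    (σ = 1 ∨ σ = -1) ∧ pre.length = 2 * pre.count Op.x + 5 ∧ pre.count Op.x ≤ 6 * s + 3 ∧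
      ∀ r D, Ev r (lin (σ * α) (σ * β) G) D → Ev (pre ++ r) (X 0 ^ 3 * X 1 ^ 2 * X 2) D := by
  induction h with
  | base =>
    refine ⟨[Op.d 0, Op.d 1, Op.d 2, Op.d 0, Op.d 1, Op.d 0, Op.x, Op.x, Op.x, Op.d 0, Op.d 1], -1, 0, Or.inr rfl, by decide, by decide, fun r D h => ev_S ?_⟩
    simpa using h
  | @u s a b _ ih =>
    obtain ⟨pre, σ, G, hσ, hl, hc, h⟩ := ih
    refine ⟨pre ++ [Op.x, Op.x, Op.d 0, Op.x, Op.d 1, Op.d 0], -σ, -G, by omega, ?_, ?_, fun r D hr => ?_⟩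
    · have : List.count Op.x [Op.x, Op.x, Op.d 0, Op.x, Op.d 1, Op.d 0] = 3 := by decide
      rw [List.count_append, List.length_append, this, hl]
      simp only [List.length_cons, List.length_nil]
      omega
    · have : List.count Op.x [Op.x, Op.x, Op.d 0, Op.x, Op.d 1, Op.d 0] = 3 := by decide
      rw [List.count_append, this]
      omega
    · rw [List.append_assoc]
      refine h _ _ (ev_U (hr.congr ?_))
      congr 1 <;> push_cast <;> ring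
  | @f s a b _ ih =>
    obtain ⟨pre, σ, G, hσ, hl, hc, h⟩ := ih
    refine ⟨pre ++ [Op.x, Op.x, Op.x, Op.d 0, Op.x, Op.x, Op.d 1, Op.d 0, Op.x, Op.d 2, Op.d 1, Op.d 0], σ, σ * a + σ * b + G, hσ, ?_, ?_, fun r D hr => ?_⟩
    · have : List.count Op.x [Op.x, Op.x, Op.x, Op.d 0, Op.x, Op.x, Op.d 1, Op.d 0, Op.x, Op.d 2, Op.d 1, Op.d 0] = 6 := by decide
      rw [List.count_append, List.length_append, this, hl]
      simp only [List.length_cons, List.length_nil]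
      omega
    · have : List.count Op.x [Op.x, Op.x, Op.x, Op.d 0, Op.x, Op.x, Op.d 1, Op.d 0, Op.x, Op.d 2, Op.d 1, Op.d 0] = 6 := by decide
      rw [List.count_append, this]
      omega
    · rw [List.append_assoc]
      refine h _ _ (ev_F (hr.congr ?_))
      congr 1
      push_cast
      ring

theorem exists_ops {s α β : ℕ} (h : Reach s α β) : ∃ (ops : List Op) (B : ℤ),
    Ev ops (X 0 ^ 3 * X 1 ^ 2 * X 2) B ∧ B.natAbs = α ∧
      ops.length = 2 * ops.count Op.x + 6 ∧ ops.count Op.x ≤ 6 * s + 3 := by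
  obtain ⟨pre, σ, G, hσ, hl, hc, h⟩ := exists_pre h
  have h0 : List.count Op.x [Op.d 2] = 0 := by decide
  refine ⟨pre ++ [Op.d 2], σ * α, h _ _ (ev_E _ _ _), ?_, ?_, ?_⟩
  · rcases hσ with rfl | rfl <;> simp
  · rw [List.count_append, List.length_append, h0, hl]
    simp only [List.length_cons, List.length_nil]
    omega
  · rw [List.count_append, h0]
    omega

end Pool.Agent.PCan
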