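import Pool.Agent.Lib.MP_b03f2e_al.Op5

/-! Nil-Hecke words for a Fibonacci counter with an accumulator. -/

set_option linter.unusedSimpArgs false

namespace Pool.Agent.PCan.F5

open MvPolynomial

noncomputable def lin (A B D G : ℤ) : MvPolynomial (Fin 5) ℤ :=
  C A * (X 0 + X 1 + X 2 + X 3) + C B * (X 0 + X 1 + X 2) + C D * (X 0 + X 1) +
    C G * (X 0 + X 1 + X 2 + X 3 + X 4)

theorem Ev.d0 {r : List Op} {f g : MvPolynomial (Fin 5) ℤ} {B : ℤ}
    (h : f - rename (Equiv.swap (0 : Fin 5) 1) f = (X 0 - X 1) * g) (hr : Ev r g B) :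
    Ev (Op.d 0 :: r) f B := Ev.d 0 h hr
theorem w00 : Equiv.swap (0 : Fin 5) 1 0 = 1 := by decide
theorem w01 : Equiv.swap (0 : Fin 5) 1 1 = 0 := by decide
theorem w02 : Equiv.swap (0 : Fin 5) 1 2 = 2 := by decide
theorem w03 : Equiv.swap (0 : Fin 5) 1 3 = 3 := by decide
theorem w04 : Equiv.swap (0 : Fin 5) 1 4 = 4 := by decide
theorem Ev.d1 {r : List Op} {f g : MvPolynomial (Fin 5) ℤ} {B : ℤ}
    (h : f - rename (Equiv.swap (1 : Fin 5) 2) f = (X 1 - X 2) * g) (hr : Ev r g B) :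
    Ev (Op.d 1 :: r) f B := Ev.d 1 h hr
theorem w10 : Equiv.swap (1 : Fin 5) 2 0 = 0 := by decide
theorem w11 : Equiv.swap (1 : Fin 5) 2 1 = 2 := by decide
theorem w12 : Equiv.swap (1 : Fin 5) 2 2 = 1 := by decide
theorem w13 : Equiv.swap (1 : Fin 5) 2 3 = 3 := by decide
theorem w14 : Equiv.swap (1 : Fin 5) 2 4 = 4 := by decide
theorem Ev.d2 {r : List Op} {f g : MvPolynomial (Fin 5) ℤ} {B : ℤ}
    (h : f - rename (Equiv.swap (2 : Fin 5) 3) f = (X 2 - X 3) * g) (hr : Ev r g B) :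
    Ev (Op.d 2 :: r) f B := Ev.d 2 h hr
theorem w20 : Equiv.swap (2 : Fin 5) 3 0 = 0 := by decide
theorem w21 : Equiv.swap (2 : Fin 5) 3 1 = 1 := by decide
theorem w22 : Equiv.swap (2 : Fin 5) 3 2 = 3 := by decide
theorem w23 : Equiv.swap (2 : Fin 5) 3 3 = 2 := by decide
theorem w24 : Equiv.swap (2 : Fin 5) 3 4 = 4 := by decide
theorem Ev.d3 {r : List Op} {f g : MvPolynomial (Fin 5) ℤ} {B : ℤ}
    (h : f - rename (Equiv.swap (3 : Fin 5) 4) f = (X 3 - X 4) * g) (hr : Ev r g B) :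
    Ev (Op.d 3 :: r) f B := Ev.d 3 h hr
theorem w30 : Equiv.swap (3 : Fin 5) 4 0 = 0 := by decide
theorem w31 : Equiv.swap (3 : Fin 5) 4 1 = 1 := by decide
theorem w32 : Equiv.swap (3 : Fin 5) 4 2 = 2 := by decide
theorem w33 : Equiv.swap (3 : Fin 5) 4 3 = 4 := by decide
theorem w34 : Equiv.swap (3 : Fin 5) 4 4 = 3 := by decide

theorem Ev.congr {r : List Op} {f g : MvPolynomial (Fin 5) ℤ} {B : ℤ} (h : Ev r f B) (e : g = f) :
    Ev r g B := e ▸ h

theorem ev_Q0 {r : List Op} {B D E : ℤ} {t : MvPolynomial (Fin 5) ℤ}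
    (h0 : rename (Equiv.swap (0 : Fin 5) 1) t = t) (h1 : rename (Equiv.swap (1 : Fin 5) 2) t = t)
    (h2 : rename (Equiv.swap (2 : Fin 5) 3) t = t)
    (h : Ev r ((t + 1 * (C B + C D) * (X 0 + X 1 + X 2 + X 3) +
      (C B + C D) * (X 0 + X 1 + X 2) + C B * (X 0 + X 1))) E) :
    Ev ([Op.x, Op.x, Op.x, Op.d 0, Op.d 1, Op.d 2, Op.x, Op.x, Op.d 0, Op.d 1, Op.x, Op.d 0] ++ r)
      (t + C B * (X 0 + X 1 + X 2) + C D * (X 0 + X 1)) E := by
  simp only [List.cons_append, List.nil_append]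
  refine Ev.x ?_
  refine Ev.x ?_
  refine Ev.x ?_
  refine Ev.d0 (g := -(C B * X 1 ^ 2 * X 2) - C B * X 1 ^ 3 - C B * X 0 * X 1 * X 2 - 2 * C B * X 0 * X 1 ^ 2
      - C B * X 0 ^ 2 * X 2 - 2 * C B * X 0 ^ 2 * X 1 - C B * X 0 ^ 3 - C D * X 1 ^ 3 - 2 * C D * X 0 * X 1 ^ 2
      - 2 * C D * X 0 ^ 2 * X 1 - C D * X 0 ^ 3 - t * X 1 ^ 2 - t * X 0 * X 1 - t * X 0 ^ 2) (by
    simp only [lin, map_mul, map_add, map_sub, map_neg, map_pow, map_ofNat, map_one, rename_X,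
      rename_C, w00, w01, w02, w03, w04, h0]
    ring) ?_
  refine Ev.d1 (g := -(C B * X 2 ^ 2) - 2 * C B * X 1 * X 2 - C B * X 1 ^ 2 - 2 * C B * X 0 * X 2 - 2 * C B * X 0 * X 1
      - C B * X 0 ^ 2 - C D * X 2 ^ 2 - C D * X 1 * X 2 - C D * X 1 ^ 2 - 2 * C D * X 0 * X 2 - 2 * C D * X 0 * X 1
      - 2 * C D * X 0 ^ 2 - t * X 2 - t * X 1 - t * X 0) (by
    simp only [lin, map_mul, map_add, map_sub, map_neg, map_pow, map_ofNat, map_one, rename_X,
      rename_C, w10, w11, w12, w13, w14, h1]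
    ring) ?_
  refine Ev.d2 (g := -(C B * X 3) - C B * X 2 - 2 * C B * X 1 - 2 * C B * X 0 - C D * X 3 - C D * X 2 - C D * X 1
      - 2 * C D * X 0 - t) (by
    simp only [lin, map_mul, map_add, map_sub, map_neg, map_pow, map_ofNat, map_one, rename_X,
      rename_C, w20, w21, w22, w23, w24, h2]
    ring) ?_
  refine Ev.x ?_
  refine Ev.x ?_
  refine Ev.d0 (g := -(C B * X 1 * X 3) - C B * X 1 * X 2 - 2 * C B * X 1 ^ 2 - C B * X 0 * X 3 - C B * X 0 * X 2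
      - 4 * C B * X 0 * X 1 - 2 * C B * X 0 ^ 2 - C D * X 1 * X 3 - C D * X 1 * X 2 - 2 * C D * X 1 ^ 2
      - C D * X 0 * X 3 - C D * X 0 * X 2 - 3 * C D * X 0 * X 1 - 2 * C D * X 0 ^ 2 - t * X 1 - t * X 0) (by
    simp only [lin, map_mul, map_add, map_sub, map_neg, map_pow, map_ofNat, map_one, rename_X,
      rename_C, w00, w01, w02, w03, w04, h0]
    ring) ?_
  refine Ev.d1 (g := -(C B * X 3) - 2 * C B * X 2 - 2 * C B * X 1 - 3 * C B * X 0 - C D * X 3 - 2 * C D * X 2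
      - 2 * C D * X 1 - 2 * C D * X 0 - t) (by
    simp only [lin, map_mul, map_add, map_sub, map_neg, map_pow, map_ofNat, map_one, rename_X,
      rename_C, w10, w11, w12, w13, w14, h1]
    ring) ?_
  refine Ev.x ?_
  refine Ev.d0 (g := (C B * X 3) + 2 * C B * X 2 + 3 * C B * X 1 + 3 * C B * X 0 + C D * X 3 + 2 * C D * X 2 + 2 * C D * X 1
      + 2 * C D * X 0 + t) (by
    simp only [lin, map_mul, map_add, map_sub, map_neg, map_pow, map_ofNat, map_one, rename_X,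
      rename_C, w00, w01, w02, w03, w04, h0]
    ring) ?_
  refine h.congr ?_
  ring

theorem ev_Q {r : List Op} {A B D G E : ℤ}
    (h : Ev r (lin ((A + 1 * (B + D))) ((B + D)) (B) (G)) E) :
    Ev ([Op.x, Op.x, Op.x, Op.d 0, Op.d 1, Op.d 2, Op.x, Op.x, Op.d 0, Op.d 1, Op.x, Op.d 0] ++ r)
      (lin A B D G) E := by
  refine (ev_Q0 (B := B) (D := D)
    (t := C A * (X 0 + X 1 + X 2 + X 3) + C G * (X 0 + X 1 + X 2 + X 3 + X 4)) ?_ ?_ ?_
    (h.congr ?_)).congr ?_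
  · simp only [map_mul, map_add, rename_X, rename_C, w00, w01, w02, w03, w04]
    ring
  · simp only [map_mul, map_add, rename_X, rename_C, w10, w11, w12, w13, w14]
    ring
  · simp only [map_mul, map_add, rename_X, rename_C, w20, w21, w22, w23, w24]
    ring
  · simp only [lin, map_add, map_neg, map_mul, map_ofNat, map_one]
    ring
  · simp only [lin]
    ring

theorem ev_R0 {r : List Op} {B D E : ℤ} {t : MvPolynomial (Fin 5) ℤ}
    (h0 : rename (Equiv.swap (0 : Fin 5) 1) t = t) (h1 : rename (Equiv.swap (1 : Fin 5) 2) t = t)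
    (h2 : rename (Equiv.swap (2 : Fin 5) 3) t = t)
    (h : Ev r (-(t + 2 * (C B + C D) * (X 0 + X 1 + X 2 + X 3) +
      (C B + C D) * (X 0 + X 1 + X 2) + C B * (X 0 + X 1))) E) :
    Ev ([Op.x, Op.x, Op.d 0, Op.x, Op.x, Op.x, Op.d 0, Op.d 1, Op.d 2, Op.x, Op.d 0, Op.d 1, Op.x, Op.d 0] ++ r)
      (t + C B * (X 0 + X 1 + X 2) + C D * (X 0 + X 1)) E := by
  simp only [List.cons_append, List.nil_append]
  refine Ev.x ?_
  refine Ev.x ?_
  refine Ev.d0 (g := (C B * X 1 * X 2) + C B * X 1 ^ 2 + C B * X 0 * X 2 + 2 * C B * X 0 * X 1 + C B * X 0 ^ 2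
      + C D * X 1 ^ 2 + 2 * C D * X 0 * X 1 + C D * X 0 ^ 2 + t * X 1 + t * X 0) (by
    simp only [lin, map_mul, map_add, map_sub, map_neg, map_pow, map_ofNat, map_one, rename_X,
      rename_C, w00, w01, w02, w03, w04, h0]
    ring) ?_
  refine Ev.x ?_
  refine Ev.x ?_
  refine Ev.x ?_
  refine Ev.d0 (g := -(C B * X 1 ^ 3 * X 2) - C B * X 1 ^ 4 - 2 * C B * X 0 * X 1 ^ 2 * X 2 - 3 * C B * X 0 * X 1 ^ 3
      - 2 * C B * X 0 ^ 2 * X 1 * X 2 - 4 * C B * X 0 ^ 2 * X 1 ^ 2 - C B * X 0 ^ 3 * X 2 - 3 * C B * X 0 ^ 3 * X 1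
      - C B * X 0 ^ 4 - C D * X 1 ^ 4 - 3 * C D * X 0 * X 1 ^ 3 - 4 * C D * X 0 ^ 2 * X 1 ^ 2 - 3 * C D * X 0 ^ 3 * X 1
      - C D * X 0 ^ 4 - t * X 1 ^ 3 - 2 * t * X 0 * X 1 ^ 2 - 2 * t * X 0 ^ 2 * X 1 - t * X 0 ^ 3) (by
    simp only [lin, map_mul, map_add, map_sub, map_neg, map_pow, map_ofNat, map_one, rename_X,
      rename_C, w00, w01, w02, w03, w04, h0]
    ring) ?_
  refine Ev.d1 (g := -(C B * X 2 ^ 3) - 2 * C B * X 1 * X 2 ^ 2 - 2 * C B * X 1 ^ 2 * X 2 - C B * X 1 ^ 3 - 3 * C B * X 0 * X 2 ^ 2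
      - 5 * C B * X 0 * X 1 * X 2 - 3 * C B * X 0 * X 1 ^ 2 - 4 * C B * X 0 ^ 2 * X 2 - 4 * C B * X 0 ^ 2 * X 1
      - 2 * C B * X 0 ^ 3 - C D * X 2 ^ 3 - C D * X 1 * X 2 ^ 2 - C D * X 1 ^ 2 * X 2 - C D * X 1 ^ 3
      - 3 * C D * X 0 * X 2 ^ 2 - 3 * C D * X 0 * X 1 * X 2 - 3 * C D * X 0 * X 1 ^ 2 - 4 * C D * X 0 ^ 2 * X 2
      - 4 * C D * X 0 ^ 2 * X 1 - 3 * C D * X 0 ^ 3 - t * X 2 ^ 2 - t * X 1 * X 2 - t * X 1 ^ 2
      - 2 * t * X 0 * X 2 - 2 * t * X 0 * X 1 - 2 * t * X 0 ^ 2) (by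
    simp only [lin, map_mul, map_add, map_sub, map_neg, map_pow, map_ofNat, map_one, rename_X,
      rename_C, w10, w11, w12, w13, w14, h1]
    ring) ?_
  refine Ev.d2 (g := -(C B * X 3 ^ 2) - C B * X 2 * X 3 - C B * X 2 ^ 2 - 2 * C B * X 1 * X 3 - 2 * C B * X 1 * X 2
      - 2 * C B * X 1 ^ 2 - 3 * C B * X 0 * X 3 - 3 * C B * X 0 * X 2 - 5 * C B * X 0 * X 1 - 4 * C B * X 0 ^ 2
      - C D * X 3 ^ 2 - C D * X 2 * X 3 - C D * X 2 ^ 2 - C D * X 1 * X 3 - C D * X 1 * X 2 - C D * X 1 ^ 2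
      - 3 * C D * X 0 * X 3 - 3 * C D * X 0 * X 2 - 3 * C D * X 0 * X 1 - 4 * C D * X 0 ^ 2 - t * X 3
      - t * X 2 - t * X 1 - 2 * t * X 0) (by
    simp only [lin, map_mul, map_add, map_sub, map_neg, map_pow, map_ofNat, map_one, rename_X,
      rename_C, w20, w21, w22, w23, w24, h2]
    ring) ?_
  refine Ev.x ?_
  refine Ev.d0 (g := (C B * X 3 ^ 2) + C B * X 2 * X 3 + C B * X 2 ^ 2 + 3 * C B * X 1 * X 3 + 3 * C B * X 1 * X 2
      + 4 * C B * X 1 ^ 2 + 3 * C B * X 0 * X 3 + 3 * C B * X 0 * X 2 + 7 * C B * X 0 * X 1 + 4 * C B * X 0 ^ 2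
      + C D * X 3 ^ 2 + C D * X 2 * X 3 + C D * X 2 ^ 2 + 3 * C D * X 1 * X 3 + 3 * C D * X 1 * X 2
      + 4 * C D * X 1 ^ 2 + 3 * C D * X 0 * X 3 + 3 * C D * X 0 * X 2 + 6 * C D * X 0 * X 1 + 4 * C D * X 0 ^ 2
      + t * X 3 + t * X 2 + 2 * t * X 1 + 2 * t * X 0) (by
    simp only [lin, map_mul, map_add, map_sub, map_neg, map_pow, map_ofNat, map_one, rename_X,
      rename_C, w00, w01, w02, w03, w04, h0]
    ring) ?_
  refine Ev.d1 (g := (2 * C B * X 3) + 3 * C B * X 2 + 3 * C B * X 1 + 4 * C B * X 0 + 2 * C D * X 3 + 3 * C D * X 2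
      + 3 * C D * X 1 + 3 * C D * X 0 + t) (by
    simp only [lin, map_mul, map_add, map_sub, map_neg, map_pow, map_ofNat, map_one, rename_X,
      rename_C, w10, w11, w12, w13, w14, h1]
    ring) ?_
  refine Ev.x ?_
  refine Ev.d0 (g := -(2 * C B * X 3) - 3 * C B * X 2 - 4 * C B * X 1 - 4 * C B * X 0 - 2 * C D * X 3 - 3 * C D * X 2
      - 3 * C D * X 1 - 3 * C D * X 0 - t) (by
    simp only [lin, map_mul, map_add, map_sub, map_neg, map_pow, map_ofNat, map_one, rename_X,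
      rename_C, w00, w01, w02, w03, w04, h0]
    ring) ?_
  refine h.congr ?_
  ring

theorem ev_R {r : List Op} {A B D G E : ℤ}
    (h : Ev r (lin (-(A + 2 * (B + D))) (-(B + D)) (-B) (-G)) E) :
    Ev ([Op.x, Op.x, Op.d 0, Op.x, Op.x, Op.x, Op.d 0, Op.d 1, Op.d 2, Op.x, Op.d 0, Op.d 1, Op.x, Op.d 0] ++ r)
      (lin A B D G) E := by
  refine (ev_R0 (B := B) (D := D)
    (t := C A * (X 0 + X 1 + X 2 + X 3) + C G * (X 0 + X 1 + X 2 + X 3 + X 4)) ?_ ?_ ?_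
    (h.congr ?_)).congr ?_
  · simp only [map_mul, map_add, rename_X, rename_C, w00, w01, w02, w03, w04]
    ring
  · simp only [map_mul, map_add, rename_X, rename_C, w10, w11, w12, w13, w14]
    ring
  · simp only [map_mul, map_add, rename_X, rename_C, w20, w21, w22, w23, w24]
    ring
  · simp only [lin, map_add, map_neg, map_mul, map_ofNat, map_one]
    ring
  · simp only [lin]
    ring

theorem ev_S {r : List Op} {E : ℤ} (h : Ev r (lin 0 (-1) 0 0) E) :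
    Ev ([Op.d 0, Op.d 1, Op.d 2, Op.d 3, Op.d 0, Op.d 1, Op.d 2, Op.d 0, Op.d 1, Op.d 0, Op.x, Op.x, Op.x, Op.d 0, Op.d 1] ++ r) (X 0 ^ 4 * X 1 ^ 3 * X 2 ^ 2 * X 3) E := by
  simp only [List.cons_append, List.nil_append]
  refine Ev.d0 (g := (X 0 ^ 3 * X 1 ^ 3 * X 2 ^ 2 * X 3)) (by
    simp only [lin, map_mul, map_add, map_sub, map_neg, map_pow, map_ofNat, map_one, rename_X,
      rename_C, w00, w01, w02, w03, w04]
    ring) ?_
  refine Ev.d1 (g := (X 0 ^ 3 * X 1 ^ 2 * X 2 ^ 2 * X 3)) (by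
    simp only [lin, map_mul, map_add, map_sub, map_neg, map_pow, map_ofNat, map_one, rename_X,
      rename_C, w10, w11, w12, w13, w14]
    ring) ?_
  refine Ev.d2 (g := (X 0 ^ 3 * X 1 ^ 2 * X 2 * X 3)) (by
    simp only [lin, map_mul, map_add, map_sub, map_neg, map_pow, map_ofNat, map_one, rename_X,
      rename_C, w20, w21, w22, w23, w24]
    ring) ?_
  refine Ev.d3 (g := (X 0 ^ 3 * X 1 ^ 2 * X 2)) (by
    simp only [lin, map_mul, map_add, map_sub, map_neg, map_pow, map_ofNat, map_one, rename_X,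
      rename_C, w30, w31, w32, w33, w34]
    ring) ?_
  refine Ev.d0 (g := (X 0 ^ 2 * X 1 ^ 2 * X 2)) (by
    simp only [lin, map_mul, map_add, map_sub, map_neg, map_pow, map_ofNat, map_one, rename_X,
      rename_C, w00, w01, w02, w03, w04]
    ring) ?_
  refine Ev.d1 (g := (X 0 ^ 2 * X 1 * X 2)) (by
    simp only [lin, map_mul, map_add, map_sub, map_neg, map_pow, map_ofNat, map_one, rename_X,
      rename_C, w10, w11, w12, w13, w14]
    ring) ?_
  refine Ev.d2 (g := (X 0 ^ 2 * X 1)) (by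
    simp only [lin, map_mul, map_add, map_sub, map_neg, map_pow, map_ofNat, map_one, rename_X,
      rename_C, w20, w21, w22, w23, w24]
    ring) ?_
  refine Ev.d0 (g := (X 0 * X 1)) (by
    simp only [lin, map_mul, map_add, map_sub, map_neg, map_pow, map_ofNat, map_one, rename_X,
      rename_C, w00, w01, w02, w03, w04]
    ring) ?_
  refine Ev.d1 (g := (X 0)) (by
    simp only [lin, map_mul, map_add, map_sub, map_neg, map_pow, map_ofNat, map_one, rename_X,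
      rename_C, w10, w11, w12, w13, w14]
    ring) ?_
  refine Ev.d0 (g := (1)) (by
    simp only [lin, map_mul, map_add, map_sub, map_neg, map_pow, map_ofNat, map_one, rename_X,
      rename_C, w00, w01, w02, w03, w04]
    ring) ?_
  refine Ev.x ?_
  refine Ev.x ?_
  refine Ev.x ?_
  refine Ev.d0 (g := -(X 1 ^ 2) - X 0 * X 1 - X 0 ^ 2) (by
    simp only [lin, map_mul, map_add, map_sub, map_neg, map_pow, map_ofNat, map_one, rename_X,
      rename_C, w00, w01, w02, w03, w04]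
    ring) ?_
  refine Ev.d1 (g := -(X 2) - X 1 - X 0) (by
    simp only [lin, map_mul, map_add, map_sub, map_neg, map_pow, map_ofNat, map_one, rename_X,
      rename_C, w10, w11, w12, w13, w14]
    ring) ?_
  refine h.congr ?_
  simp only [lin, map_add, map_neg, map_one, map_zero]
  ring

theorem ev_E (A B D G : ℤ) : Ev [Op.d 3] (lin A B D G) A := by
  refine Ev.d3 (g := (C A)) (by
    simp only [lin, map_mul, map_add, map_sub, map_neg, map_pow, map_ofNat, map_one, rename_X,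
      rename_C, w30, w31, w32, w33, w34]
    ring) ?_
  have := Ev.nil (C A)
  rwa [constantCoeff_C] at this

/-- After `k` steps the accumulator takes every value between `fib (k + 3) - 2` and its double. -/
theorem exists_pre (k : ℕ) : ∀ a : ℕ, Nat.fib (k + 3) ≤ a + 2 → a + 4 ≤ 2 * Nat.fib (k + 3) →
    ∃ (pre : List Op) (σ G : ℤ), (σ = 1 ∨ σ = -1) ∧ pre.length = 2 * pre.count Op.x + 9 ∧
      pre.count Op.x ≤ 7 * k + 3 ∧
      ∀ r E, Ev r (lin (σ * a) (σ * Nat.fib (k + 1)) (σ * Nat.fib k) G) E →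
        Ev (pre ++ r) (X 0 ^ 4 * X 1 ^ 3 * X 2 ^ 2 * X 3) E := by
  induction k with
  | zero =>
    intro a h1 h2
    have h3 : Nat.fib (0 + 3) = 2 := by decide
    obtain rfl : a = 0 := by omega
    refine ⟨[Op.d 0, Op.d 1, Op.d 2, Op.d 3, Op.d 0, Op.d 1, Op.d 2, Op.d 0, Op.d 1, Op.d 0, Op.x, Op.x, Op.x, Op.d 0, Op.d 1], -1, 0, Or.inr rfl, by decide, by decide, fun r E h => ev_S ?_⟩
    simpa using h
  | succ k ih =>
    intro a h1 h2
    have f1 : Nat.fib (k + 2) = Nat.fib k + Nat.fib (k + 1) := Nat.fib_add_two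
    have f2 : Nat.fib (k + 3) = Nat.fib (k + 1) + Nat.fib (k + 2) := Nat.fib_add_two
    have f3 : Nat.fib (k + 1 + 3) = Nat.fib (k + 2) + Nat.fib (k + 3) := Nat.fib_add_two
    have f4 : 0 < Nat.fib (k + 1) := Nat.fib_pos.2 (Nat.succ_pos k)
    by_cases hc : a + 4 ≤ Nat.fib (k + 2) + 2 * Nat.fib (k + 3)
    · obtain ⟨b, rfl⟩ : ∃ b, a = b + Nat.fib (k + 2) := ⟨a - Nat.fib (k + 2), by omega⟩
      obtain ⟨pre, σ, G, hσ, hl, hx, h⟩ := ih b (by omega) (by omega)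
      have c6 : List.count Op.x [Op.x, Op.x, Op.x, Op.d 0, Op.d 1, Op.d 2, Op.x, Op.x, Op.d 0, Op.d 1, Op.x, Op.d 0] = 6 := by decide
      refine ⟨pre ++ [Op.x, Op.x, Op.x, Op.d 0, Op.d 1, Op.d 2, Op.x, Op.x, Op.d 0, Op.d 1, Op.x, Op.d 0], σ, G, hσ, ?_, ?_, fun r E hr => ?_⟩
      rotate_left 2
      · rw [List.append_assoc]
        refine h _ _ (ev_Q (hr.congr ?_))
        rw [show Nat.fib (k + 1 + 1) = Nat.fib (k + 2) from rfl, f1]
        congr 1 <;> push_cast <;> ring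
      · rw [List.count_append, List.length_append, c6, hl]
        simp only [List.length_cons, List.length_nil]
        omega
      · rw [List.count_append, c6]
        omega
    · obtain ⟨b, rfl⟩ : ∃ b, a = b + 2 * Nat.fib (k + 2) := ⟨a - 2 * Nat.fib (k + 2), by omega⟩
      obtain ⟨pre, σ, G, hσ, hl, hx, h⟩ := ih b (by omega) (by omega)
      have c7 : List.count Op.x [Op.x, Op.x, Op.d 0, Op.x, Op.x, Op.x, Op.d 0, Op.d 1, Op.d 2, Op.x, Op.d 0, Op.d 1, Op.x, Op.d 0] = 7 := by decide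
      refine ⟨pre ++ [Op.x, Op.x, Op.d 0, Op.x, Op.x, Op.x, Op.d 0, Op.d 1, Op.d 2, Op.x, Op.d 0, Op.d 1, Op.x, Op.d 0], -σ, -G, by omega, ?_, ?_, fun r E hr => ?_⟩
      rotate_left 2
      · rw [List.append_assoc]
        refine h _ _ (ev_R (hr.congr ?_))
        rw [show Nat.fib (k + 1 + 1) = Nat.fib (k + 2) from rfl, f1]
        congr 1 <;> push_cast <;> ring
      · rw [List.count_append, List.length_append, c7, hl]
        simp only [List.length_cons, List.length_nil]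
        omega
      · rw [List.count_append, c7]
        omega

theorem exists_ops {p k : ℕ} (hp : 2 ≤ p) (hk : p < Nat.fib (k + 3)) :
    ∃ (ops : List Op) (B : ℤ), Ev ops (X 0 ^ 4 * X 1 ^ 3 * X 2 ^ 2 * X 3) B ∧ B ≠ 0 ∧
      (p : ℤ) ∣ B ∧ ops.length = 2 * ops.count Op.x + 10 ∧ ops.count Op.x ≤ 7 * k + 3 := by
  have h1 := Nat.div_add_mod (2 * Nat.fib (k + 3) - 4) p
  have h2 := Nat.mod_lt (2 * Nat.fib (k + 3) - 4) (show 0 < p by omega)
  obtain ⟨a, ha⟩ : ∃ a, a = p * ((2 * Nat.fib (k + 3) - 4) / p) := ⟨_, rfl⟩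
  obtain ⟨pre, σ, G, hσ, hl, hc, h⟩ := exists_pre k a (by omega) (by omega)
  have h0 : List.count Op.x [Op.d 3] = 0 := by decide
  refine ⟨pre ++ [Op.d 3], σ * a, h _ _ (ev_E _ _ _ _), ?_, ?_, ?_, ?_⟩
  · have : a ≠ 0 := by omega
    rcases hσ with rfl | rfl <;> simpa using this
  · exact Dvd.dvd.mul_left (Int.natCast_dvd_natCast.2 (ha ▸ Dvd.intro _ rfl)) _
  · rw [List.count_append, List.length_append, h0, hl]
    simp only [List.length_cons, List.length_nil]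
    omega
  · rw [List.count_append, h0]
    omega

end Pool.Agent.PCan.F5
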