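import Pool.Agent.Lib.MP_b03f2e_al.Core

/-! Bruhat order, length and inversion products in `S_n`. -/

namespace Pool.Agent.PCan

open MvPolynomial

variable {n : ℕ}

theorem Let.lo_lt_hi (s : Let n) : s.lo < s.hi := Fin.lt_def.2 (Nat.lt_succ_self _)
theorem Let.lo_ne_hi (s : Let n) : s.lo ≠ s.hi := s.lo_lt_hi.ne
@[simp] theorem Let.sw_lo (s : Let n) : s.sw s.lo = s.hi := Equiv.swap_apply_left _ _
@[simp] theorem Let.sw_hi (s : Let n) : s.sw s.hi = s.lo := Equiv.swap_apply_right _ _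
theorem Let.sw_other (s : Let n) {i : Fin n} (h1 : i ≠ s.lo) (h2 : i ≠ s.hi) : s.sw i = i :=
  Equiv.swap_apply_of_ne_of_ne h1 h2
@[simp] theorem Let.sw_mul_self (s : Let n) : s.sw * s.sw = 1 := Equiv.swap_mul_self _ _
@[simp] theorem Let.sw_inv (s : Let n) : s.sw⁻¹ = s.sw := Equiv.swap_inv _ _
@[simp] theorem mul_sw_sw (x : W n) (s : Let n) : x * s.sw * s.sw = x := by
  rw [mul_assoc, s.sw_mul_self, mul_one]
@[simp] theorem sw_sw_mul (x : W n) (s : Let n) : s.sw * (s.sw * x) = x := by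
  rw [← mul_assoc, s.sw_mul_self, one_mul]
theorem Let.sw_sw (s : Let n) (i : Fin n) : s.sw (s.sw i) = i := Equiv.swap_apply_self _ _ _
theorem mul_sw_ne (x : W n) (s : Let n) : x * s.sw ≠ x := by
  intro h
  have := congrArg (fun g : W n => g s.lo) h
  simp only [Equiv.Perm.mul_apply, Let.sw_lo] at this
  exact s.lo_ne_hi (x.injective this).symm
theorem sw_mul_ne (x : W n) (s : Let n) : s.sw * x ≠ x := by
  intro h
  apply mul_sw_ne x⁻¹ s
  rw [← s.sw_inv, ← mul_inv_rev, h]

/-- `s` keeps the order of two positions unless they are its own two positions. -/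
theorem Let.sw_lt (s : Let n) {a b : Fin n} (h : a < b) (hne : ¬ (a = s.lo ∧ b = s.hi)) :
    s.sw a < s.sw b := by
  unfold Let.sw
  rw [Equiv.swap_apply_def, Equiv.swap_apply_def]
  have h1 : s.lo.val = s.a := rfl
  have h2 : s.hi.val = s.a + 1 := rfl
  split_ifs <;> simp only [Fin.ext_iff, Fin.lt_def] at * <;> omega

theorem asc_mul_sw (x : W n) (s : Let n) : Asc (x * s.sw) s ↔ ¬ Asc x s := by
  unfold Asc
  rw [Equiv.Perm.mul_apply, Equiv.Perm.mul_apply, s.sw_lo, s.sw_hi, not_lt]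
  exact ⟨le_of_lt, fun h => lt_of_le_of_ne h fun e => s.lo_ne_hi (x.injective e).symm⟩
theorem lasc_sw_mul (x : W n) (s : Let n) : LAsc (s.sw * x) s ↔ ¬ LAsc x s := by
  have := asc_mul_sw x⁻¹ s
  rw [← s.sw_inv, ← mul_inv_rev] at this
  exact this

theorem Le.refl (x : W n) : Le x x := Relation.ReflTransGen.refl
theorem Le.trans {x y z : W n} (h1 : Le x y) (h2 : Le y z) : Le x z :=
  Relation.ReflTransGen.trans h2 h1
theorem Step.le {y z : W n} (h : Step y z) : Le z y := Relation.ReflTransGen.single h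

/-- A potential that strictly increases on the way down. -/
def phi (x : W n) : ℕ := ∑ i : Fin n, i.val * (x i).val

theorem Step.phi_lt {z y : W n} (h : Step y z) : phi y < phi z := by
  obtain ⟨a, b, hab, hy, rfl⟩ := h
  unfold phi
  rw [← Finset.sum_sdiff (Finset.subset_univ {a, b}),
    ← Finset.sum_sdiff (Finset.subset_univ {a, b}), Finset.sum_pair hab.ne, Finset.sum_pair hab.ne]
  have h1 : ∑ i ∈ Finset.univ \ {a, b}, i.val * ((y * Equiv.swap a b) i).val =
      ∑ i ∈ Finset.univ \ {a, b}, i.val * (y i).val := by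
    refine Finset.sum_congr rfl fun i hi => ?_
    simp only [Finset.mem_sdiff, Finset.mem_insert, Finset.mem_singleton, not_or] at hi
    rw [Equiv.Perm.mul_apply, Equiv.swap_apply_of_ne_of_ne hi.2.1 hi.2.2]
  rw [h1, Equiv.Perm.mul_apply, Equiv.Perm.mul_apply, Equiv.swap_apply_left, Equiv.swap_apply_right]
  have h2 := Fin.lt_def.1 hab
  have h3 := Fin.lt_def.1 hy
  nlinarith

theorem phi_lt_of_le {z y : W n} (h : Le z y) (hne : z ≠ y) : phi y < phi z := by
  have : z = y ∨ phi y < phi z := by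
    clear hne
    induction h with
    | refl => exact Or.inl rfl
    | tail _ hs ih =>
      rcases ih with rfl | ih
      · exact Or.inr hs.phi_lt
      · exact Or.inr (ih.trans hs.phi_lt)
  exact this.resolve_left hne
theorem Le.antisymm {x y : W n} (h1 : Le x y) (h2 : Le y x) : x = y := by
  by_contra h
  exact lt_asymm (phi_lt_of_le h1 h) (phi_lt_of_le h2 (Ne.symm h))

theorem swap_comparable (y : W n) (a b : Fin n) :
    Le (y * Equiv.swap a b) y ∨ Le y (y * Equiv.swap a b) := by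
  wlog hab : a < b generalizing a b
  · rcases (not_lt.1 hab).eq_or_lt with rfl | h
    · rw [Equiv.swap_self]
      exact Or.inl (Le.refl _)
    · rw [Equiv.swap_comm]
      exact this b a h
  rcases lt_or_gt_of_ne (y.injective.ne hab.ne) with h | h
  · refine Or.inr (Step.le ⟨a, b, hab, ?_, ?_⟩)
    · rwa [Equiv.Perm.mul_apply, Equiv.Perm.mul_apply, Equiv.swap_apply_left,
        Equiv.swap_apply_right]
    · rw [mul_assoc, Equiv.swap_mul_self, mul_one]
  · exact Or.inl (Step.le ⟨a, b, hab, h, rfl⟩)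
theorem mul_sw_le_of_desc {x : W n} {s : Let n} (h : ¬ Asc x s) : Le (x * s.sw) x :=
  Step.le ⟨s.lo, s.hi, s.lo_lt_hi,
    lt_of_le_of_ne (not_lt.1 h) fun e => s.lo_ne_hi (x.injective e).symm, rfl⟩
theorem le_mul_sw_of_asc {x : W n} {s : Let n} (h : Asc x s) : Le x (x * s.sw) := by
  have := mul_sw_le_of_desc (x := x * s.sw) (s := s) (fun h' => (asc_mul_sw x s).1 h' h)
  rwa [mul_sw_sw] at this

theorem Step.sw {y z : W n} (h : Step y z) (s : Let n) :
    z = y * s.sw ∨ Step (y * s.sw) (z * s.sw) := by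
  obtain ⟨a, b, hab, hy, rfl⟩ := h
  by_cases h : a = s.lo ∧ b = s.hi
  · rw [h.1, h.2]
    exact Or.inl rfl
  · refine Or.inr ⟨s.sw a, s.sw b, s.sw_lt hab h, ?_, ?_⟩
    · rwa [Equiv.Perm.mul_apply, Equiv.Perm.mul_apply, s.sw_sw, s.sw_sw]
    · rw [Equiv.swap_apply_apply, s.sw_inv, mul_assoc, mul_assoc, mul_assoc, sw_sw_mul]

/-- `≤ x` is stable under a descent of `x` (the set of `z` with `z ≤ x` and `z s ≤ x` is closed
under `Step`). -/
theorem mul_sw_le {x z : W n} {s : Let n} (hx : ¬ Asc x s) (h : Le z x) : Le (z * s.sw) x := by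
  induction h with
  | refl => exact mul_sw_le_of_desc hx
  | tail h1 hs ih =>
    rcases hs.sw s with rfl | h
    · rw [mul_sw_sw]
      exact h1
    · exact h.le.trans ih
/-- The set of `z` with `z ≤ x` or `z s ≤ x` is closed under `Step`. -/
theorem le_or_of_le_mul_sw {x z : W n} {s : Let n} (h : Le z (x * s.sw)) :
    Le z x ∨ Le (z * s.sw) x := by
  induction h with
  | refl =>
    rw [mul_sw_sw]
    exact Or.inr (Le.refl _)
  | tail _ hs ih =>
    rcases ih with ih | ih
    · exact Or.inl (hs.le.trans ih)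
    · rcases hs.sw s with rfl | h
      · exact Or.inl ih
      · exact Or.inr (h.le.trans ih)
/-- `≥ x` is stable under an ascent of `x`. -/
theorem le_mul_sw {x z : W n} {s : Let n} (hx : Asc x s) (h : Le x z) : Le x (z * s.sw) := by
  induction h using Relation.ReflTransGen.head_induction_on with
  | refl => exact le_mul_sw_of_asc hx
  | head hs h1 ih =>
    rcases hs.sw s with rfl | h
    · exact h1
    · exact ih.trans h.le
theorem between {x z : W n} {s : Let n} (hx : Asc x s) (h1 : Le x z) (h2 : Le z (x * s.sw)) :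
    z = x ∨ z = x * s.sw := by
  rcases le_or_of_le_mul_sw h2 with h | h
  · exact Or.inl (h.antisymm h1)
  · exact Or.inr (by rw [← h.antisymm (le_mul_sw hx h1), mul_sw_sw])
theorem le_mono {x z : W n} {s : Let n} (h : Le z x) (hx : Asc x s) :
    Le (z * s.sw) (x * s.sw) :=
  mul_sw_le (fun h' => (asc_mul_sw x s).1 h' hx) (h.trans (le_mul_sw_of_asc hx))

theorem Le.inv {x z : W n} (h : Le z x) : Le z⁻¹ x⁻¹ := by
  induction h with
  | refl => exact Le.refl _
  | @tail y z _ hs ih =>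
    refine (Step.le ?_).trans ih
    obtain ⟨a, b, hab, hy, rfl⟩ := hs
    refine ⟨y b, y a, hy, by simpa using hab, ?_⟩
    rw [mul_inv_rev, Equiv.swap_inv, Equiv.swap_apply_apply, Equiv.swap_comm b a, mul_assoc,
      inv_mul_cancel_left]
theorem inv_mul_sw (x : W n) (s : Let n) : (x⁻¹ * s.sw)⁻¹ = s.sw * x := by
  rw [mul_inv_rev, s.sw_inv, inv_inv]
theorem le_sw_mul_of_lasc {x : W n} {s : Let n} (h : LAsc x s) : Le x (s.sw * x) := by
  have := (le_mul_sw_of_asc (x := x⁻¹) h).inv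
  rwa [inv_mul_sw, inv_inv] at this
theorem sw_mul_le_of_ldesc {x : W n} {s : Let n} (h : ¬ LAsc x s) : Le (s.sw * x) x := by
  have := (mul_sw_le_of_desc (x := x⁻¹) h).inv
  rwa [inv_mul_sw, inv_inv] at this
theorem sw_mul_le {x z : W n} {s : Let n} (hx : ¬ LAsc x s) (h : Le z x) : Le (s.sw * z) x := by
  have := (mul_sw_le (x := x⁻¹) hx h.inv).inv
  rwa [inv_mul_sw, inv_inv] at this
theorem le_sw_mul {x z : W n} {s : Let n} (hx : LAsc x s) (h : Le x z) : Le x (s.sw * z) := by
  have := (le_mul_sw (x := x⁻¹) hx h.inv).inv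
  rwa [inv_mul_sw, inv_inv] at this
theorem lbetween {x z : W n} {s : Let n} (hx : LAsc x s) (h1 : Le x z) (h2 : Le z (s.sw * x)) :
    z = x ∨ z = s.sw * x := by
  have h3 := h2.inv
  rw [← inv_mul_sw, inv_inv] at h3
  rcases between (x := x⁻¹) hx h1.inv h3 with h | h
  · exact Or.inl (inv_injective h)
  · exact Or.inr (by rw [← inv_mul_sw, ← h, inv_inv])

theorem eq_one_of_asc {x : W n} (h : ∀ s : Let n, Asc x s) : x = 1 := by
  cases n with
  | zero => exact Subsingleton.elim _ _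
  | succ m =>
    have h1 : StrictMono x := Fin.strictMono_iff_lt_succ.2 fun i => h ⟨i.val, by omega⟩
    exact Equiv.ext fun i => le_antisymm h1.apply_le h1.le_apply
theorem eq_rev_of_desc {x : W n} (h : ∀ s : Let n, ¬ Asc x s) : x = Fin.revPerm := by
  have h1 : (Fin.revPerm : W n) * x = 1 := eq_one_of_asc fun s => by
    unfold Asc
    rw [Equiv.Perm.mul_apply, Equiv.Perm.mul_apply, Fin.revPerm_apply, Fin.revPerm_apply,
      Fin.rev_lt_rev]
    exact lt_of_le_of_ne (not_lt.1 (h s)) fun e => s.lo_ne_hi (x.injective e).symm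
  rw [eq_inv_of_mul_eq_one_right h1]
  rfl
theorem eq_rev_of_rev_le {x : W n} (h : Le (Fin.revPerm : W n) x) : x = Fin.revPerm := by
  rcases Relation.ReflTransGen.cases_tail h with h | ⟨y, _, a, b, hab, hy, h⟩
  · exact h.symm
  · exfalso
    have h1 : y b = Fin.rev a := by
      rw [← Fin.revPerm_apply, h, Equiv.Perm.mul_apply, Equiv.swap_apply_left]
    have h2 : y a = Fin.rev b := by
      rw [← Fin.revPerm_apply, h, Equiv.Perm.mul_apply, Equiv.swap_apply_right]
    rw [h1, h2, Fin.rev_lt_rev] at hy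
    exact lt_asymm hab hy

/-- Two permutations that do not differ by a transposition differ in two different roots. -/
theorem two_roots {z y : W n} (hne : y ≠ z) (hsw : ∀ a b, y ≠ z * Equiv.swap a b) :
    ∃ i j, y i ≠ z i ∧ y j ≠ z j ∧ ¬ (z i = z j ∧ y i = y j) ∧ ¬ (z i = y j ∧ y i = z j) := by
  obtain ⟨i, hi⟩ : ∃ i, y i ≠ z i := by
    by_contra h
    push Not at h
    exact hne (Equiv.ext h)
  obtain ⟨a, ha⟩ := z.surjective (y i)
  have hai : a ≠ i := fun h => hi (by rw [← ha, h])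
  obtain ⟨j, hj⟩ : ∃ j, y j ≠ z (Equiv.swap i a j) := by
    by_contra h
    push Not at h
    exact hsw i a (Equiv.ext h)
  have hji : j ≠ i := fun h => hj (by rw [h, Equiv.swap_apply_left, ha])
  by_cases hja : j = a
  · rw [hja, Equiv.swap_apply_right] at hj
    exact ⟨i, a, hi, fun h => hai (y.injective (h.trans ha)), fun h => hai (z.injective h.1).symm,
      fun h => hj h.1.symm⟩
  · rw [Equiv.swap_apply_of_ne_of_ne hji hja] at hj
    exact ⟨i, j, hi, hj, fun h => hji (z.injective h.1).symm,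
      fun h => hja (z.injective (ha.trans h.2)).symm⟩

theorem mem_invs {x : W n} {p : Fin n × Fin n} : p ∈ invs x ↔ p.1 < p.2 ∧ x p.2 < x p.1 := by
  simp [invs]

theorem invs_one : invs (1 : W n) = ∅ :=
  Finset.eq_empty_of_forall_notMem fun _ hp => lt_asymm (mem_invs.1 hp).1 (mem_invs.1 hp).2

theorem invs_mul_sw {x : W n} {s : Let n} (h : Asc x s) :
    (s.lo, s.hi) ∉ (invs x).map (Equiv.prodCongr s.sw s.sw).toEmbedding ∧ invs (x * s.sw) =
      insert (s.lo, s.hi) ((invs x).map (Equiv.prodCongr s.sw s.sw).toEmbedding) := by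
  have key : ∀ a b : Fin n, (a, b) ∈ (invs x).map (Equiv.prodCongr s.sw s.sw).toEmbedding ↔
      s.sw a < s.sw b ∧ x (s.sw b) < x (s.sw a) := by
    intro a b
    rw [Finset.mem_map_equiv, mem_invs]
    rfl
  constructor
  · rw [key, s.sw_lo, s.sw_hi]
    exact fun h' => lt_asymm h'.1 s.lo_lt_hi
  · ext ⟨a, b⟩
    rw [Finset.mem_insert, key, mem_invs, Prod.mk.injEq, Equiv.Perm.mul_apply, Equiv.Perm.mul_apply]
    constructor
    · rintro ⟨h1, h2⟩
      by_cases h3 : a = s.lo ∧ b = s.hi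
      · exact Or.inl h3
      · exact Or.inr ⟨s.sw_lt h1 h3, h2⟩
    · rintro (⟨rfl, rfl⟩ | ⟨h1, h2⟩)
      · rw [s.sw_lo, s.sw_hi]
        exact ⟨s.lo_lt_hi, h⟩
      · refine ⟨?_, h2⟩
        have := s.sw_lt h1 fun h3 => by
          rw [h3.1, h3.2] at h2
          exact lt_asymm h2 h
        rwa [s.sw_sw, s.sw_sw] at this

theorem invs_sw_mul {x : W n} {s : Let n} (h : LAsc x s) :
    (x⁻¹ s.lo, x⁻¹ s.hi) ∉ invs x ∧ invs (s.sw * x) = insert (x⁻¹ s.lo, x⁻¹ s.hi) (invs x) := by
  have hx : ∀ i, x (x⁻¹ i) = i := fun i => x.apply_symm_apply i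
  constructor
  · rw [mem_invs, hx, hx]
    exact fun h' => lt_asymm h'.2 s.lo_lt_hi
  · ext ⟨a, b⟩
    rw [Finset.mem_insert, mem_invs, mem_invs, Prod.mk.injEq, Equiv.Perm.mul_apply,
      Equiv.Perm.mul_apply]
    constructor
    · rintro ⟨h1, h2⟩
      by_cases h3 : s.sw (x b) = s.lo ∧ s.sw (x a) = s.hi
      · refine Or.inl ⟨Equiv.Perm.eq_inv_iff_eq.2 ?_, Equiv.Perm.eq_inv_iff_eq.2 ?_⟩
        · rw [← s.sw_sw (x a), h3.2, s.sw_hi]
        · rw [← s.sw_sw (x b), h3.1, s.sw_lo]
      · have := s.sw_lt h2 h3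
        rw [s.sw_sw, s.sw_sw] at this
        exact Or.inr ⟨h1, this⟩
    · rintro (⟨rfl, rfl⟩ | ⟨h1, h2⟩)
      · rw [hx, hx, s.sw_lo, s.sw_hi]
        exact ⟨h, s.lo_lt_hi⟩
      · refine ⟨h1, s.sw_lt h2 fun h3 => ?_⟩
        unfold LAsc at h
        rw [Equiv.Perm.inv_eq_iff_eq.2 h3.1.symm, Equiv.Perm.inv_eq_iff_eq.2 h3.2.symm] at h
        exact lt_asymm h h1

@[simp] theorem len_one : len (1 : W n) = 0 := by
  unfold len
  rw [invs_one, Finset.card_empty]
theorem len_mul_sw {x : W n} {s : Let n} (h : Asc x s) : len (x * s.sw) = len x + 1 := by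
  unfold len
  rw [(invs_mul_sw h).2, Finset.card_insert_of_notMem (invs_mul_sw h).1, Finset.card_map]
theorem len_sw_mul {x : W n} {s : Let n} (h : LAsc x s) : len (s.sw * x) = len x + 1 := by
  unfold len
  rw [(invs_sw_mul h).2, Finset.card_insert_of_notMem (invs_sw_mul h).1]

theorem one_le (x : W n) : Le 1 x := by
  induction hl : len x using Nat.strong_induction_on generalizing x with
  | _ l ih =>
    by_cases h : ∀ s : Let n, Asc x s
    · rw [eq_one_of_asc h]
      exact Le.refl _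
    · push Not at h
      obtain ⟨s, hs⟩ := h
      have h1 := len_mul_sw ((asc_mul_sw x s).2 hs)
      rw [mul_sw_sw] at h1
      exact (ih _ (by omega) _ rfl).trans (mul_sw_le_of_desc hs)
theorem eq_one_of_le_one {x : W n} (h : Le x 1) : x = 1 := h.antisymm (one_le x)

variable (k : Type) [CommRing k]

@[simp] theorem ee_one : ee k (1 : W n) = 1 := by
  unfold ee
  rw [invs_one, Finset.prod_empty]
theorem ee_mul_sw {x : W n} {s : Let n} (h : Asc x s) :
    ee k (x * s.sw) = ee k x * rt k x s := by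
  unfold ee rt
  rw [(invs_mul_sw h).2, Finset.prod_insert (invs_mul_sw h).1, Finset.prod_map, mul_comm]
  simp [Let.sw_sw]
theorem ee_sw_mul {x : W n} {s : Let n} (h : LAsc x s) :
    ee k (s.sw * x) = (X s.lo - X s.hi) * rename s.sw (ee k x) := by
  unfold ee
  rw [(invs_sw_mul h).2, Finset.prod_insert (invs_sw_mul h).1, map_prod]
  simp
theorem rt_mul_sw (x : W n) (s : Let n) : rt k (x * s.sw) s = - rt k x s := by
  unfold rt
  rw [Equiv.Perm.mul_apply, Equiv.Perm.mul_apply, s.sw_lo, s.sw_hi, neg_sub]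
theorem rename_rt (g x : W n) (s : Let n) : rename g (rt k x s) = rt k (g * x) s := by
  unfold rt
  rw [map_sub, rename_X, rename_X, Equiv.Perm.mul_apply, Equiv.Perm.mul_apply]

end Pool.Agent.PCan
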