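import Pool.Agent.Lib.MP_b03f2e_al.Hom

/-! Krull-Schmidt theory: indecomposable summands and the local intersection form. -/

namespace Pool.Agent.PCan

open MvPolynomial Matrix

variable {n : ℕ} {k : Type} [Field k]
variable {w : List (Let n)}

private theorem sp_pow_cycle {M : Type} [Monoid M] {T : M} {i p : ℕ} (hp : 0 < p)
    (h : T ^ (i + p) = T ^ i) : ∃ j : ℕ, T ^ (j + 1) * T ^ (j + 1) = T ^ (j + 1) := by
  have h1 : ∀ c m : ℕ, T ^ (i + m + c * p) = T ^ (i + m) := by
    intro c m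
    induction c with
    | zero => simp
    | succ c ih =>
      have e : i + m + (c + 1) * p = (i + p) + (m + c * p) := by ring
      rw [e, pow_add, h, ← pow_add, ← add_assoc, ih]
  have h2 : i + 1 ≤ (i + 1) * p := Nat.le_mul_of_pos_right _ hp
  refine ⟨(i + 1) * p - 1, ?_⟩
  have e1 : (i + 1) * p - 1 + 1 = i + ((i + 1) * p - i) := by omega
  have e2 : (i + 1) * p - 1 + 1 = (i + 1) * p := by omega
  rw [← pow_add]
  nth_rewrite 2 [e2]
  rw [e1, h1]

private theorem sp_up_single (a : Idx w) :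
    up (Pi.single a (eul k w a) : Idx w → RR k n) = Pi.single a (io k (eul k w a)) := by
  funext e
  by_cases h : e = a
  · subst h; simp [up]
  · simp [up, Pi.single_eq_of_ne h]

private theorem sp_noAbove {w' : List (Let n)} {y : W n} {m : Idx w → RR k n}
    {m' : Idx w' → RR k n} (h : ∀ b, m' b ≠ 0 → ∃ a, pt w a = pt w' b ∧ m a ≠ 0)
    (hm : NoAbove w y m) : NoAbove w' y m' := by
  intro b hb hle
  obtain ⟨a, h1, h2⟩ := h b hb
  rw [← h1] at hle ⊢
  exact hm a h2 hle

private theorem sp_top_sum {z : List (Let n)} (hz : Red z) (F : Idx z → QQ k n)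
    (h : ∀ e, pt z e ≠ prodL z → F e = 0) : ∑ e, F e = F (top z) :=
  Finset.sum_eq_single _ (fun e _ he => h e fun hh => he (hz.eq_top hh))
    (fun hh => absurd (Finset.mem_univ _) hh)

private theorem sp_top_mul {z : List (Let n)} (hz : Red z) {P Q : Matrix (Idx z) (Idx z) (QQ k n)}
    (hP : ∀ b a, pt z b ≠ pt z a → P b a = 0) :
    (P * Q) (top z) (top z) = P (top z) (top z) * Q (top z) (top z) := by
  rw [Matrix.mul_apply]
  exact sp_top_sum hz (fun e => P (top z) e * Q e (top z)) fun e he => by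
    rw [hP (top z) e (Ne.symm he), zero_mul]

private theorem sp_BF_sum {A : Type} (S : Finset A) (y : W n) (l : A → QQ k n)
    (f : A → Idx w → QQ k n) (g : Idx w → QQ k n) :
    BF w y (fun e => ∑ a ∈ S, l a * f a e) g = ∑ a ∈ S, l a * BF w y (f a) g := by
  unfold BF
  simp only [Finset.sum_mul, Finset.sum_div, Finset.mul_sum]
  rw [Finset.sum_comm]
  refine Finset.sum_congr rfl fun a _ => Finset.sum_congr rfl fun e _ => ?_
  ring

private theorem sp_mulVec_sum {A : Type} (S : Finset A) (K : Matrix (Idx w) (Idx w) (QQ k n))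
    (l : A → QQ k n) (f : A → Idx w → QQ k n) (e : Idx w) :
    (K *ᵥ fun e => ∑ a ∈ S, l a * f a e) e = ∑ a ∈ S, l a * (K *ᵥ f a) e := by
  simp only [Matrix.mulVec, dotProduct, Finset.mul_sum]
  rw [Finset.sum_comm]
  refine Finset.sum_congr rfl fun a _ => Finset.sum_congr rfl fun e _ => ?_
  ring

private theorem sp_C_ne {κ : k} (h : κ ≠ 0) : (C κ : RR k n) ≠ 0 := by
  simpa using h

private theorem sp_exists {A : Type} [Fintype A] {B : Type} {K : Matrix B A (QQ k n)}
    {f : A → QQ k n} {b : B} (h : (K *ᵥ f) b ≠ 0) : ∃ a, K b a ≠ 0 ∧ f a ≠ 0 := by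
  obtain ⟨a, -, ha⟩ := Finset.exists_ne_zero_of_sum_ne_zero h
  exact ⟨a, mul_ne_zero_iff.mp ha⟩

theorem pow_idem [Finite k] {T : Matrix (Idx w) (Idx w) (QQ k n)} (hT : IsHom w w 0 T) :
    ∃ j : ℕ, T ^ (j + 1) * T ^ (j + 1) = T ^ (j + 1) := by
  have h : ∀ (i : ℕ) (a : Idx w), ∃ m', El w ((w.length : ℤ) + 0) m' ∧
      T ^ i *ᵥ up (Pi.single a (eul k w a) : Idx w → RR k n) = up m' :=
    fun i a => (hT.pow i).map _ _ (el_delta w a)
  choose g hg1 hg2 using h
  have hfin : {f : Idx w → Idx w → RR k n |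
      ∀ a, f a ∈ {m : Idx w → RR k n | El w ((w.length : ℤ) + 0) m}}.Finite :=
    Set.Finite.pi' fun _ => finite_el w _
  have hmem : ∀ i, g i ∈ {f : Idx w → Idx w → RR k n |
      ∀ a, f a ∈ {m : Idx w → RR k n | El w ((w.length : ℤ) + 0) m}} := fun i => hg1 i
  obtain ⟨i, j, hij, hg⟩ := hfin.exists_lt_map_eq_of_forall_mem hmem
  have heq : T ^ i = T ^ j := by
    ext e a
    have h1 := congrFun (hg2 i a) e
    have h2 := congrFun (hg2 j a) e
    rw [hg] at h1
    rw [← h2, sp_up_single] at h1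
    simp only [Matrix.mulVec_single, MulOpposite.smul_eq_mul_unop, MulOpposite.unop_op,
      Pi.smul_apply, Matrix.col_apply] at h1
    exact mul_right_cancel₀ (io_ne_zero (eul_ne_zero w a)) h1
  refine sp_pow_cycle (i := i) (p := j - i) (by omega) ?_
  rw [show i + (j - i) = j by omega, heq]

/-- An endomorphism of a primitive summand that is not nilpotent is invertible. -/
theorem Prim.pow_eq [Finite k] {K T : Matrix (Idx w) (Idx w) (QQ k n)} (hK : Prim w K)
    (hT : IsHom w w 0 T) (h1 : T * K = T) (h2 : K * T = T) (hn : ∀ j : ℕ, T ^ (j + 1) ≠ 0) :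
    ∃ j : ℕ, T ^ (j + 1) = K := by
  obtain ⟨j, hj⟩ := pow_idem hT
  refine ⟨j, (hK.2.2 _ ⟨hT.pow _, hj⟩ ?_ ?_).resolve_left (hn j)⟩
  · rw [pow_succ, Matrix.mul_assoc, h1]
  · rw [pow_succ', ← Matrix.mul_assoc, h2]

theorem Occ.mono {K K0 : Matrix (Idx w) (Idx w) (QQ k n)} (h : K * K0 = K0) {y : W n} {d : ℤ}
    (ho : Occ w K0 y d) : Occ w K y d := by
  obtain ⟨m, h1, h2, h3, h4⟩ := ho
  refine ⟨m, h1, ?_, h3, h4⟩
  unfold Fix at h2 ⊢
  rw [← h2, Matrix.mulVec_mulVec, h]

private theorem sp_rank_lt {K F : Matrix (Idx w) (Idx w) (QQ k n)} (hF : F * F = F)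
    (h1 : F * K = F) (h2 : K * F = F) (hne : F ≠ K) : F.rank < K.rank := by
  unfold Matrix.rank
  refine Submodule.finrank_lt_finrank_of_lt (lt_of_le_of_ne ?_ ?_)
  · rintro _ ⟨v, rfl⟩
    exact ⟨F *ᵥ v, by simp only [Matrix.mulVecLin_apply, Matrix.mulVec_mulVec, h2]⟩
  · intro heq
    apply hne
    have h3 : ∀ v, F *ᵥ v = K *ᵥ v := by
      intro v
      have : K *ᵥ v ∈ LinearMap.range F.mulVecLin := by
        rw [heq]
        exact ⟨v, rfl⟩
      obtain ⟨u, hu⟩ := this
      rw [Matrix.mulVecLin_apply] at hu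
      rw [← h1, ← Matrix.mulVec_mulVec, ← hu, Matrix.mulVec_mulVec, hF]
    exact Matrix.ext_of_mulVec_single fun i => h3 _

private theorem sp_decomp (r : ℕ) : ∀ {K : Matrix (Idx w) (Idx w) (QQ k n)}, K.rank = r →
    Idem w K → ∀ {y : W n} {d : ℤ}, Occ w K y d →
      ∃ K0, Prim w K0 ∧ K0 * K = K0 ∧ K * K0 = K0 ∧ Occ w K0 y d := by
  induction r using Nat.strong_induction_on with
  | _ r ih =>
  intro K hr hK y d ho
  by_cases hp : Prim w K
  · exact ⟨K, hp, hK.2, hK.2, ho⟩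
  obtain ⟨m, hm, hf, ha, e0, he0, hm0⟩ := ho
  have hK0 : K ≠ 0 := by
    rintro rfl
    have := congrFun hf e0
    rw [Matrix.zero_mulVec] at this
    exact io_ne_zero hm0 this.symm
  have : ∃ F, Idem w F ∧ F * K = F ∧ K * F = F ∧ F ≠ 0 ∧ F ≠ K := by
    by_contra hcon
    refine hp ⟨hK, hK0, fun F h1 h2 h3 => ?_⟩
    by_contra h4
    rw [not_or] at h4
    exact hcon ⟨F, h1, h2, h3, h4.1, h4.2⟩
  obtain ⟨F, hF, h1, h2, h3, h4⟩ := this
  have key : ∀ G, Idem w G → G * K = G → K * G = G → G ≠ K → (G *ᵥ up m) e0 ≠ 0 →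
      ∃ K0, Prim w K0 ∧ K0 * K = K0 ∧ K * K0 = K0 ∧ Occ w K0 y d := by
    intro G hG g1 g2 g3 g4
    obtain ⟨m', a1, a2, a3, a4⟩ := hG.project hm
    have hne : m' e0 ≠ 0 := by
      intro h0
      apply g4
      rw [a2]
      simp [up, h0]
    obtain ⟨K0, b1, b2, b3, b4⟩ := ih G.rank (hr ▸ sp_rank_lt hG.2 g1 g2 g3) rfl hG
      ⟨m', a1, a3, sp_noAbove a4 ha, e0, he0, hne⟩
    refine ⟨K0, b1, ?_, ?_, b4⟩
    · rw [← b2, Matrix.mul_assoc, g1]
    · rw [← b3, ← Matrix.mul_assoc, g2]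
  by_cases h5 : (F *ᵥ up m) e0 = 0
  · refine key (K - F) ⟨hK.1.sub hF.1, ?_⟩ ?_ ?_ ?_ ?_
    · rw [Matrix.sub_mul, Matrix.mul_sub, Matrix.mul_sub, hK.2, h1, h2, hF.2, sub_self, sub_zero]
    · rw [Matrix.sub_mul, hK.2, h1]
    · rw [Matrix.mul_sub, hK.2, h2]
    · intro h6
      exact h3 (sub_eq_self.mp h6)
    · unfold Fix at hf
      rw [Matrix.sub_mulVec, Pi.sub_apply, h5, hf, sub_zero]
      exact io_ne_zero hm0
  · exact key F hF h1 h2 h4 h5

theorem prim_decomp {K : Matrix (Idx w) (Idx w) (QQ k n)} (hK : Idem w K) {y : W n} {d : ℤ}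
    (ho : Occ w K y d) : ∃ K0, Prim w K0 ∧ K0 * K = K0 ∧ K * K0 = K0 ∧ Occ w K0 y d :=
  sp_decomp _ rfl hK ho

/-- A costalk element of least degree pairs to a non-zero constant with a stalk element. -/
theorem min_deg {K : Matrix (Idx w) (Idx w) (QQ k n)} (hK : Idem w K) {y : W n} {d : ℤ}
    (ho : Occ w K y d) : ∃ (d0 d' : ℤ) (c m : Idx w → RR k n) (κ : k), d0 ≤ d ∧ El w d0 c ∧
      Fix K c ∧ Below w y c ∧ El w d' m ∧ κ ≠ 0 ∧ d0 + d' + len y = w.length ∧
      BF w y (up c) (up m) = io k (C κ) := by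
  classical
  have hbdd : ∃ b : ℤ, ∀ x : ℤ, Occ w K y x → b ≤ x := by
    refine ⟨0, fun x ⟨m, h1, _, _, e, _, h2⟩ => ?_⟩
    by_contra h
    exact h2 ((h1.2 e).eq_zero_of_neg (by omega))
  obtain ⟨d0, ⟨m0, h1, h2, h3, e0, he0, h4⟩, hmin⟩ := Int.exists_least_of_bdd hbdd ⟨d, ho⟩
  obtain ⟨c, c1, c2, c3, c4⟩ := hK.below h1 h2 h3
  obtain ⟨cc, hcc⟩ := exists_adapted k w
  obtain ⟨l, l1, l2⟩ := hcc.expand c1 c3.noAbove
  have l3 : ∀ e, pt w e = y → up c e =
      ∑ a ∈ Finset.univ.filter (fun a => pt w a = y), io k (l a) * up (cc a) e := by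
    intro e he
    simp only [up, l2 e he, map_sum, map_mul]
  have hex : ∃ a, pt w a = y ∧ l a ≠ 0 ∧ d0 = dg w a := by
    by_contra hcon
    have h5 : up c e0 = 0 := by
      unfold Fix at c2
      rw [← c2, mulVec_fibre hK.1.block l3 he0, sp_mulVec_sum]
      refine Finset.sum_eq_zero fun a ha => ?_
      have ha' : pt w a = y := (Finset.mem_filter.mp ha).2
      by_cases hl : l a = 0
      · rw [hl, map_zero, zero_mul]
      have hlt : (dg w a : ℤ) < d0 := by
        have e1 : ¬ d0 - dg w a < 0 := fun hh => hl ((l1 a).eq_zero_of_neg hh)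
        have e2 : d0 ≠ dg w a := fun hh => hcon ⟨a, ha', hl, hh⟩
        omega
      obtain ⟨m', a1, a2, a3, a4⟩ := hK.project (hcc.el a)
      have hb : Below w y (cc a) := ha' ▸ hcc.below a
      have h6 : m' e0 = 0 := by
        by_contra h7
        have := hmin _ ⟨m', a1, a3, sp_noAbove a4 hb.noAbove, e0, he0, h7⟩
        omega
      rw [a2]
      simp [up, h6]
    rw [← c4 e0 he0] at h4
    exact io_ne_zero h4 h5
  obtain ⟨a, ha, hl, hd⟩ := hex
  obtain ⟨m, m1, m2⟩ := hcc.dual_at a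
  rw [ha] at m1 m2
  have hC : l a = C (constantCoeff (l a)) := ((l1 a).congr (by omega)).eq_C
  refine ⟨d0, _, c, m, constantCoeff (l a), hmin d ho, c1, c2, c3, m1, ?_, by omega, ?_⟩
  · intro h0
    rw [h0, map_zero] at hC
    exact hl hC
  · rw [BF_congr l3 (fun _ _ => rfl), sp_BF_sum, ← hC,
      Finset.sum_eq_single a (fun b hb hne => ?_) (fun hh => absurd (by simpa using ha) hh)]
    · rw [m2 a ha, if_pos rfl, mul_one]
    · rw [m2 b (Finset.mem_filter.mp hb).2, if_neg hne, mul_zero]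

/-- A non-zero summand has a point where its local form takes a non-zero constant value. -/
theorem exists_top {K : Matrix (Idx w) (Idx w) (QQ k n)} (hK : Idem w K) (h0 : K ≠ 0) :
    ∃ (y : W n) (d d' : ℤ) (c c' : Idx w → RR k n) (κ : k), El w d c ∧ El w d' c' ∧ Fix K c ∧
      Fix (adj w w K) c' ∧ NoAbove w y c ∧ NoAbove w y c' ∧ κ ≠ 0 ∧
      BF w y (up c) (up c') = io k (C κ) := by
  classical
  have hne : (Finset.univ.filter fun b : Idx w => ∃ a, K b a ≠ 0).Nonempty := by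
    by_contra hcon
    apply h0
    ext b a
    by_contra h1
    exact hcon ⟨b, Finset.mem_filter.mpr ⟨Finset.mem_univ _, a, h1⟩⟩
  obtain ⟨b, hb, hmin⟩ := Finset.exists_min_image _ (fun b => phi (pt w b)) hne
  obtain ⟨a, ha⟩ := (Finset.mem_filter.mp hb).2
  have hab : pt w b = pt w a := by
    by_contra h
    exact ha (hK.1.block b a h)
  obtain ⟨m0, a1, a2, a3, a4⟩ := hK.project (el_delta (k := k) w a)
  have ho : Occ w K (pt w b) w.length := by
    refine ⟨m0, a1, a3, sp_noAbove a4 fun e he _ => ?_, b, rfl, fun h => ?_⟩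
    · by_cases h : e = a
      · rw [h, hab]
      · exact absurd (Pi.single_eq_of_ne h _) he
    · have h1 := congrFun a2 b
      rw [sp_up_single] at h1
      simp only [Matrix.mulVec_single, MulOpposite.smul_eq_mul_unop, MulOpposite.unop_op,
        Pi.smul_apply, Matrix.col_apply, up, h, map_zero] at h1
      exact mul_ne_zero ha (io_ne_zero (eul_ne_zero w a)) h1
  obtain ⟨d0, d', c, m, κ, -, c1, c2, c3, m1, hκ, -, hB⟩ := min_deg hK ho
  obtain ⟨m', b1, b2, b3, -⟩ := hK.adj.project m1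
  refine ⟨pt w b, d0, d', c, m', κ, c1, b1, c2, b3, c3.noAbove, fun e he hle => ?_, hκ, ?_⟩
  · have h1 : (adj w w K *ᵥ up m) e ≠ 0 := by
      rw [b2]
      exact io_ne_zero he
    obtain ⟨a', h2, -⟩ := sp_exists h1
    have h3 : K a' e ≠ 0 := fun h => h2 (by simp [adj, h])
    have h4 : pt w a' = pt w e := by
      by_contra h
      exact h3 (hK.1.block a' e h)
    have h5 := hmin a' (Finset.mem_filter.mpr ⟨Finset.mem_univ _, e, h3⟩)
    by_contra h6
    have h7 := phi_lt_of_le hle (Ne.symm h6)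
    rw [h4] at h5
    omega
  · unfold Fix at c2
    rw [← b2, ← BF_adj hK.1.block, c2, hB]

/-- `K` is isomorphic, with a shift by `j`, to the indecomposable summand of the reduced word `z`
that contains the top. -/
structure Iso (z w : List (Let n)) (j : ℤ) (K : Matrix (Idx w) (Idx w) (QQ k n))
    (U : Matrix (Idx w) (Idx z) (QQ k n)) (V : Matrix (Idx z) (Idx w) (QQ k n)) : Prop where
  homU : IsHom z w j U
  homV : IsHom w z (-j) V
  uv : U * V = K
  ku : K * U = U
  vk : V * K = V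
  prim : Prim z (V * U)
  top : (V * U) (top z) (top z) = 1

private theorem sp_prim {z : List (Let n)} {i j : ℤ} {K : Matrix (Idx w) (Idx w) (QQ k n)}
    {U : Matrix (Idx w) (Idx z) (QQ k n)} {V : Matrix (Idx z) (Idx w) (QQ k n)} (hK : Prim w K)
    (hU : IsHom z w j U) (hV : IsHom w z i V) (hij : i + j = 0) (uv : U * V = K) (ku : K * U = U)
    (vk : V * K = V) : Prim z (V * U) := by
  have e1 : V * U * V = V := by rw [Matrix.mul_assoc, uv, vk]
  refine ⟨⟨(hV.mul hU).congr (by omega), by rw [← Matrix.mul_assoc, e1]⟩, fun h => ?_,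
    fun F hF f1 f2 => ?_⟩
  · apply hK.2.1
    rw [← uv, ← e1, h, Matrix.zero_mul, Matrix.mul_zero]
  have e2 : V * (U * F * V) * U = F := by
    calc V * (U * F * V) * U = V * U * F * (V * U) := by simp only [Matrix.mul_assoc]
      _ = F := by rw [f2, f1]
  have hG : Idem w (U * F * V) := by
    refine ⟨((hU.mul hF.1).mul hV).congr (by omega), ?_⟩
    calc U * F * V * (U * F * V) = U * (F * (V * U) * F) * V := by simp only [Matrix.mul_assoc]
      _ = U * F * V := by rw [f1, hF.2]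
  rcases hK.2.2 _ hG (by rw [Matrix.mul_assoc, vk])
    (by rw [← Matrix.mul_assoc, ← Matrix.mul_assoc, ku]) with h | h
  · left
    rw [← e2, h, Matrix.mul_zero, Matrix.zero_mul]
  · right
    rw [← e2, h, vk]

theorem split [Finite k] {K : Matrix (Idx w) (Idx w) (QQ k n)} (hK : Prim w K) {y : W n}
    {d d' : ℤ} {c c' : Idx w → RR k n} {κ : k} (hc : El w d c) (hc' : El w d' c') (hf : Fix K c)
    (_hf' : Fix (adj w w K) c') (ha : NoAbove w y c) (ha' : NoAbove w y c') (hκ : κ ≠ 0)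
    (hB : BF w y (up c) (up c') = io k (C κ)) {z : List (Let n)} (hz : Red z) (hy : prodL z = y) :
    ∃ U V, Iso z w d K U V := by
  classical
  subst hy
  obtain ⟨A, hA, hA'⟩ := exists_phi hz w d c hc ha
  obtain ⟨B, hB1, hB'⟩ := exists_phi hz w d' c' hc' ha'
  obtain ⟨r, hr, hr'⟩ := BF_el hc ha hc'
  have hrC : r = C κ := io_inj (hr'.symm.trans hB)
  have hdeg : d + d' + len (prodL z) - w.length = 0 := by
    rw [hrC] at hr
    exact hr.unique (Hz.C κ) (sp_C_ne hκ)
  rw [hz.len] at hdeg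
  have hBa : IsHom w z (-d) (adj z w B) := hB1.adj.congr (by omega)
  set B' := adj z w B with hB'def
  have hKK := hK.1.2
  have hS : IsHom z z 0 (B' * K * A) := ((hBa.mul hK.1.1).mul hA).congr (by omega)
  have hσ : (B' * K * A) (top z) (top z) ≠ 0 := by
    have h1 : (B' * K * A) (top z) (top z) =
        (-1) ^ z.length * BF w (prodL z) (up c) (up c') := by
      rw [Matrix.mul_assoc, Matrix.mul_apply, BF, Finset.sum_filter, Finset.mul_sum,
        Finset.mul_sum]
      refine Finset.sum_congr rfl fun e _ => ?_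
      by_cases he : pt w e = prodL z
      · have h2 : (K * A) e (top z) = up c e := by
          unfold Fix at hf
          rw [← hf, ← mulVec_fibre hK.1.1.block (f := fun e => A e (top z)) hA' he]
          rfl
        rw [if_pos he, h2, hB'def, adj, hB' e he, eul_top hz, map_mul, map_pow, map_neg, map_one]
        ring
      · rw [if_neg he, hBa.block (top z) e (Ne.symm he)]
        simp
    rw [h1, hB]
    exact mul_ne_zero (pow_ne_zero _ (by norm_num)) (io_ne_zero (sp_C_ne hκ))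
  set θ := K * A * B' * K with hθdef
  have hθ : IsHom w w 0 θ := (((hK.1.1.mul hA).mul hBa).mul hK.1.1).congr (by omega)
  have t1 : θ * K = θ := by rw [hθdef, Matrix.mul_assoc _ K K, hKK]
  have t2 : K * θ = θ := by
    rw [hθdef]
    simp only [← Matrix.mul_assoc, hKK]
  have hpow : ∀ j : ℕ, (B' * K * θ ^ j * A) (top z) (top z) ≠ 0 := by
    intro j
    induction j with
    | zero => simpa using hσ
    | succ j ih =>
      have e : B' * K * θ ^ (j + 1) * A = (B' * K * A) * (B' * K * θ ^ j * A) := by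
        rw [pow_succ', ← Matrix.mul_assoc, Matrix.mul_assoc B' K θ, t2, hθdef]
        simp only [Matrix.mul_assoc]
      rw [e, sp_top_mul hz hS.block]
      exact mul_ne_zero hσ ih
  obtain ⟨j, hj⟩ := hK.pow_eq hθ t1 t2 fun j h => hpow (j + 1) (by simp [h])
  have hcomm : K * θ ^ j * K = K * θ ^ j := by
    have : Commute θ K := t1.trans t2.symm
    rw [Matrix.mul_assoc, (this.pow_left j).eq, ← Matrix.mul_assoc, hKK]
  have hU : IsHom z w d (K * A) := (hK.1.1.mul hA).congr (by omega)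
  have hV : IsHom w z (-d) (B' * K * θ ^ j) :=
    ((hBa.mul hK.1.1).mul (hθ.pow j)).congr (by omega)
  have uv : K * A * (B' * K * θ ^ j) = K := by
    calc K * A * (B' * K * θ ^ j) = θ * θ ^ j := by
          rw [hθdef]
          simp only [Matrix.mul_assoc]
      _ = K := by rw [← pow_succ', hj]
  have ku : K * (K * A) = K * A := by rw [← Matrix.mul_assoc, hKK]
  have vk : B' * K * θ ^ j * K = B' * K * θ ^ j := by
    rw [Matrix.mul_assoc B' K, Matrix.mul_assoc B', hcomm]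
  have hP := sp_prim hK hU hV (by omega) uv ku vk
  refine ⟨K * A, B' * K * θ ^ j, hU, hV, uv, ku, vk, hP, ?_⟩
  have h1 := sp_top_mul hz (Q := B' * K * θ ^ j * (K * A)) hP.1.1.block
  rw [hP.1.2] at h1
  have h2 : (B' * K * θ ^ j * (K * A)) (top z) (top z) ≠ 0 := by
    rw [← Matrix.mul_assoc, vk]
    exact hpow j
  exact (mul_eq_left₀ h2).mp h1.symm

variable {z : List (Let n)} {j : ℤ} {K : Matrix (Idx w) (Idx w) (QQ k n)}
  {U : Matrix (Idx w) (Idx z) (QQ k n)} {V : Matrix (Idx z) (Idx w) (QQ k n)}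

private theorem sp_occ {i : ℤ} (hU : ∀ b a, pt w b ≠ pt z a → U b a = 0) (hV : IsHom w z i V)
    (uv : U * V = K) {y : W n} {d : ℤ} (ho : Occ w K y d) : Occ z (V * U) y (d + i) := by
  obtain ⟨m, h1, h2, h3, e0, he0, h4⟩ := ho
  obtain ⟨m', a1, a2⟩ := hV.map d m h1
  unfold Fix at h2
  have a3 : U *ᵥ up m' = up m := by rw [← a2, Matrix.mulVec_mulVec, uv, h2]
  obtain ⟨a, b1, b2⟩ := supp_of_act hU a3 h4
  refine ⟨m', a1, ?_, sp_noAbove (fun b hb => supp_of_act hV.block a2 hb) h3, a,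
    b1.trans he0, b2⟩
  unfold Fix
  rw [← Matrix.mulVec_mulVec, a3, a2]

private theorem sp_rank_one (hz : Red z) (hU : ∀ b a, pt w b ≠ pt z a → U b a = 0)
    (uv : U * V = K) {f g : Idx w → QQ k n}
    (hf : ∀ e, pt w e = prodL z → (K *ᵥ f) e = f e) (hg : ∀ e, pt w e = prodL z → (K *ᵥ g) e = g e)
    (h0 : ∃ e, pt w e = prodL z ∧ g e ≠ 0) : ∃ q, ∀ e, pt w e = prodL z → f e = q * g e := by
  have key : ∀ (f : Idx w → QQ k n) (e : Idx w), pt w e = prodL z →
      (K *ᵥ f) e = U e (top z) * (V *ᵥ f) (top z) := by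
    intro f e he
    rw [← uv, ← Matrix.mulVec_mulVec]
    exact sp_top_sum hz (fun a => U e a * (V *ᵥ f) a) fun a ha => by
      rw [hU e a (by rw [he]; exact Ne.symm ha), zero_mul]
  obtain ⟨e0, he0, h1⟩ := h0
  have h2 : (V *ᵥ g) (top z) ≠ 0 := by
    intro h
    apply h1
    rw [← hg e0 he0, key g e0 he0, h, mul_zero]
  refine ⟨(V *ᵥ f) (top z) / (V *ᵥ g) (top z), fun e he => ?_⟩
  rw [← hf e he, ← hg e he, key f e he, key g e he]
  field_simp

theorem Iso.occ (h : Iso z w j K U V) {y : W n} {d : ℤ} (ho : Occ w K y d) :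
    Occ z (V * U) y (d - j) := by
  rw [sub_eq_add_neg]
  exact sp_occ h.homU.block h.homV h.uv ho
theorem Iso.occ_adj (h : Iso z w j K U V) {y : W n} {d : ℤ} (ho : Occ w (adj w w K) y d) :
    Occ z (adj z z (V * U)) y (d + j + z.length - w.length) := by
  rw [adj_mul, show d + j + z.length - w.length = d + (j + z.length - w.length) by ring]
  exact sp_occ (adj_block h.homV.block) h.homU.adj (by rw [← adj_mul, h.uv]) ho
theorem Iso.occ_top (h : Iso z w j K U V) (hz : Red z) : Occ w K (prodL z) j := by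
  obtain ⟨m, h1, h2⟩ := h.homU.map 0 _ (el_one (k := k) z)
  refine ⟨m, h1.congr (zero_add j), ?_, fun e he hle => ?_, ?_⟩
  · unfold Fix
    rw [← h2, Matrix.mulVec_mulVec, h.ku]
  · obtain ⟨a, h3, -⟩ := supp_of_act h.homU.block h2 he
    exact Le.antisymm (h3 ▸ hz.le_top a) hle
  · have h3 : (V *ᵥ up m) (PCan.top z) ≠ 0 := by
      rw [← h2, Matrix.mulVec_mulVec]
      have := sp_top_sum hz (fun a => (V * U) (PCan.top z) a * up (fun _ => (1 : RR k n)) a)
        fun a ha => by rw [h.prim.1.1.block (PCan.top z) a (Ne.symm ha), zero_mul]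
      intro h0
      rw [h.top] at this
      have h4 := this.symm.trans h0
      simp [up] at h4
    obtain ⟨e, h4, h5⟩ := sp_exists h3
    refine ⟨e, ?_, fun h6 => h5 (by simp [up, h6])⟩
    by_contra h6
    exact h4 (h.homV.block (PCan.top z) e (Ne.symm h6))
theorem Iso.le (h : Iso z w j K U V) (hz : Red z) {y : W n} {d : ℤ} (ho : Occ w K y d) :
    Le y (prodL z) := by
  obtain ⟨m, -, -, -, e, he, -⟩ := h.occ ho
  exact he ▸ hz.le_top e
/-- At the top the summand and its adjoint have rank one. -/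
theorem Iso.rank_one (h : Iso z w j K U V) (hz : Red z) {f g : Idx w → QQ k n}
    (hf : ∀ e, pt w e = prodL z → (K *ᵥ f) e = f e) (hg : ∀ e, pt w e = prodL z → (K *ᵥ g) e = g e)
    (h0 : ∃ e, pt w e = prodL z ∧ g e ≠ 0) : ∃ q, ∀ e, pt w e = prodL z → f e = q * g e :=
  sp_rank_one hz h.homU.block h.uv hf hg h0
theorem Iso.rank_one_adj (h : Iso z w j K U V) (hz : Red z) {f g : Idx w → QQ k n}
    (hf : ∀ e, pt w e = prodL z → (adj w w K *ᵥ f) e = f e)
    (hg : ∀ e, pt w e = prodL z → (adj w w K *ᵥ g) e = g e)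
    (h0 : ∃ e, pt w e = prodL z ∧ g e ≠ 0) : ∃ q, ∀ e, pt w e = prodL z → f e = q * g e :=
  sp_rank_one (V := adj z w U) hz (adj_block h.homV.block) (by rw [← adj_mul, h.uv]) hf hg h0

/-- The local forms of `E_x` away from `x` vanish at the origin. -/
theorem Prim.formIn [Finite k] {K : Matrix (Idx z) (Idx z) (QQ k n)} (hz : Red z) (hK : Prim z K)
    (ht : K (top z) (top z) = 1) {y : W n} (hy : y ≠ prodL z) : FormIn z K y (mI k n) := by
  intro d d' m m' h1 h2 h3 h4 h5 h6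
  obtain ⟨r, hr, hr'⟩ := BF_el h1 h5 h2
  refine ⟨r, ?_, hr'⟩
  by_cases hd : d + d' + len y - z.length = 0
  swap
  · exact hr.mem_mI hd
  have hC := (hr.congr hd).eq_C
  by_contra hκ
  obtain ⟨z', hz', rfl⟩ := exists_red y
  obtain ⟨U, V, hI⟩ := split hK h1 h2 h3 h4 h5 h6 (κ := constantCoeff r) hκ (by rw [hr', ← hC])
    hz' rfl
  obtain ⟨_, -, -, -, e, he, -⟩ := hI.occ_top hz'
  refine hy (Le.antisymm (he ▸ hz.le_top e) ?_)
  have h7 : ∑ a, U (top z) a * V a (top z) ≠ 0 := by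
    rw [← Matrix.mul_apply, hI.uv, ht]
    exact one_ne_zero
  obtain ⟨a, -, ha⟩ := Finset.exists_ne_zero_of_sum_ne_zero h7
  have h8 : pt z (top z) = pt z' a := by
    by_contra h
    exact ha (by rw [hI.homU.block _ _ h, zero_mul])
  have h9 : prodL z = pt z' a := h8
  rw [h9]
  exact hz'.le_top a

/-- A costalk element of negative perverse degree gives, for every degree zero endomorphism with
top entry one, a stalk generator of positive degree. -/
theorem stalk_of_not_perv [Finite k] {K0 : Matrix (Idx z) (Idx z) (QQ k n)} (hz : Red z)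
    (hK : Prim z K0) (ht : K0 (top z) (top z) = 1) (hp : ¬ Perv z K0) :
    ∃ (y : W n) (d : ℕ), (z.length : ℤ) - len y - 2 * d < 0 ∧
      ∀ K, IsHom z z 0 K → K (top z) (top z) = 1 → ∃ m m' : Idx z → RR k n, El z d m ∧ El z d m' ∧
        K *ᵥ up m = up m' ∧ ¬ ∃ g ∈ mI k n • MM k z, ∀ e, pt z e = y → m' e = g e := by
  unfold Perv at hp
  push Not at hp
  obtain ⟨y, d, ho, hd⟩ := hp
  unfold nd at hd
  obtain ⟨d0, d', c, m, κ, hle, c1, c2, c3, m1, hκ, hdeg, hB⟩ := min_deg hK.1 ho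
  have hd' : 0 ≤ d' := by
    by_contra h
    have h1 : ∀ e, m e = 0 := fun e => (m1.2 e).eq_zero_of_neg (by omega)
    apply io_ne_zero (sp_C_ne (n := n) hκ)
    rw [← hB]
    simp [BF, up, h1]
  obtain ⟨d', rfl⟩ := Int.eq_ofNat_of_zero_le hd'
  refine ⟨y, d', by omega, fun K hK1 hK2 => ?_⟩
  have hKa : IsHom z z 0 (adj z z K) := hK1.adj.congr (by omega)
  set θ := K0 * adj z z K * K0 with hθdef
  have hθ : IsHom z z 0 θ := ((hK.1.1.mul hKa).mul hK.1.1).congr (by omega)
  have t1 : θ * K0 = θ := by rw [hθdef, Matrix.mul_assoc _ K0 K0, hK.1.2]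
  have t2 : K0 * θ = θ := by
    rw [hθdef]
    simp only [← Matrix.mul_assoc, hK.1.2]
  have t3 : θ (top z) (top z) = 1 := by
    rw [hθdef, Matrix.mul_assoc, sp_top_mul hz hK.1.1.block, sp_top_mul hz hKa.block, adj_diag,
      ht, hK2, one_mul, one_mul]
  have t4 : ∀ j : ℕ, (θ ^ j) (top z) (top z) = 1 := by
    intro j
    induction j with
    | zero => simp
    | succ j ih => rw [pow_succ', sp_top_mul hz hθ.block, t3, ih, one_mul]
  obtain ⟨j, hj⟩ := hK.pow_eq hθ t1 t2 fun j h => by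
    have := t4 (j + 1)
    rw [h] at this
    simp at this
  have hP : IsHom z z 0 (θ ^ j * K0) := ((hθ.pow j).mul hK.1.1).congr (by omega)
  have hPa : IsHom z z 0 (adj z z (θ ^ j * K0)) := hP.adj.congr (by omega)
  obtain ⟨m2, a1, a2⟩ := hPa.map _ m m1
  obtain ⟨m3, a3, a4⟩ := hK1.map _ m2 a1
  refine ⟨m2, m3, a1.congr (by omega), a3.congr (by omega), a4, ?_⟩
  rintro ⟨g, hg, hg'⟩
  obtain ⟨r, hr, hr'⟩ := BF_mem_mI c1 c3.noAbove hg
  unfold Fix at c2
  have e1 : up c = (θ ^ j * K0) *ᵥ (adj z z K *ᵥ up c) := by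
    calc up c = θ ^ (j + 1) *ᵥ up c := by rw [hj, c2]
      _ = (θ ^ j * K0) *ᵥ (adj z z K *ᵥ (K0 *ᵥ up c)) := by
          rw [pow_succ, Matrix.mulVec_mulVec, Matrix.mulVec_mulVec]
          nth_rewrite 2 [hθdef]
          simp only [Matrix.mul_assoc]
      _ = _ := by rw [c2]
  have e2 : BF z y (up c) (up m) = BF z y (up c) (up g) := by
    calc BF z y (up c) (up m) = BF z y ((θ ^ j * K0) *ᵥ (adj z z K *ᵥ up c)) (up m) := by
          rw [← e1]
      _ = BF z y (up c) (up m3) := by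
          rw [BF_adj hP.block, a2, BF_adj hKa.block, adj_adj, a4]
      _ = _ := BF_congr (fun _ _ => rfl) fun e he => by simp only [up, hg' e he]
  have e3 : C κ = r := io_inj (by rw [← hB, e2, hr'])
  rw [← e3] at hr
  apply hκ
  simpa [mI] using hr

end Pool.Agent.PCan
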