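import Pool.Agent.Lib.MP_b03f2e_al.Adapt

/-! Schubert classes and the duality between stalks and costalks. -/

namespace Pool.Agent.PCan

open MvPolynomial Matrix

variable {n : ℕ} (k : Type) [CommRing k]

/-- Functions on `S_n` generated by the coordinates (equivariant cohomology of the flag variety). -/
noncomputable def ZZ (n : ℕ) : Subalgebra (RR k n) (W n → RR k n) :=
  Algebra.adjoin (RR k n) (Set.range fun i : Fin n => fun x : W n => (X (x i) : RR k n))

variable {k}

private theorem ZZ_X (i : Fin n) : (fun x : W n => (X (x i) : RR k n)) ∈ ZZ k n :=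
  Algebra.subset_adjoin ⟨i, rfl⟩

private theorem ZZ_const (r : RR k n) : (fun _ : W n => r) ∈ ZZ k n := (ZZ k n).algebraMap_mem r

theorem ZZ.mem {f : W n → RR k n} (hf : f ∈ ZZ k n) (w : List (Let n)) :
    (fun e => f (pt w e)) ∈ MM k w := by
  induction hf using Algebra.adjoin_induction with
  | mem f hf =>
    obtain ⟨i, rfl⟩ := hf
    exact mem_X w i
  | algebraMap r =>
    have h := (MM k w).smul_mem r (el_one (k := k) w).1
    have e : (r • fun _ : Idx w => (1 : RR k n)) = fun _ => r := by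
      funext e
      simp
    rw [e] at h
    exact h
  | add f g _ _ hf hg => exact (MM k w).add_mem hf hg
  | mul f g _ _ hf hg => exact mem_mul hf hg

theorem ZZ.demazure {f : W n → RR k n} (hf : f ∈ ZZ k n) (s : Let n) :
    ∃ g ∈ ZZ k n, ∀ x, f x - f (x * s.sw) = rt k x s * g x := by
  induction hf using Algebra.adjoin_induction with
  | mem f hf =>
    obtain ⟨i, rfl⟩ := hf
    by_cases h1 : i = s.lo
    · exact ⟨1, (ZZ k n).one_mem, fun x => by simp [h1, rt]⟩
    · by_cases h2 : i = s.hi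
      · exact ⟨-1, (ZZ k n).neg_mem (ZZ k n).one_mem, fun x => by simp [h2, rt]⟩
      · exact ⟨0, (ZZ k n).zero_mem, fun x => by simp [s.sw_other h1 h2]⟩
  | algebraMap r => exact ⟨0, (ZZ k n).zero_mem, fun x => by simp⟩
  | add f f' _ _ hf hf' =>
    obtain ⟨g, hg, e⟩ := hf
    obtain ⟨g', hg', e'⟩ := hf'
    refine ⟨g + g', (ZZ k n).add_mem hg hg', fun x => ?_⟩
    simp only [Pi.add_apply]
    linear_combination e x + e' x
  | mul f f' h h' hf hf' =>
    obtain ⟨g, hg, e⟩ := hf
    obtain ⟨g', hg', e'⟩ := hf'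
    have hr : (fun x => rt k x s) ∈ ZZ k n := (ZZ k n).sub_mem (ZZ_X s.lo) (ZZ_X s.hi)
    refine ⟨g * f' + (f - (fun x => rt k x s) * g) * g', (ZZ k n).add_mem ((ZZ k n).mul_mem hg h')
      ((ZZ k n).mul_mem ((ZZ k n).sub_mem h ((ZZ k n).mul_mem hr hg)) hg'), fun x => ?_⟩
    simp only [Pi.add_apply, Pi.mul_apply, Pi.sub_apply]
    linear_combination (f' x - rt k x s * g' x) * e x + f (x * s.sw) * e' x

private theorem perm_eq_one {σ : W n} (h : ∀ a, σ a ≤ a) : σ = 1 := by
  have h1 : ∑ a, (σ a).val = ∑ a : Fin n, a.val := Equiv.sum_comp σ Fin.val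
  have h2 := (Finset.sum_eq_sum_iff_of_le (s := Finset.univ) (f := fun a => (σ a).val)
    (g := fun a : Fin n => a.val) fun a _ => h a).1 h1
  ext a
  exact h2 a (Finset.mem_univ a)

private theorem not_le_of_asc {y : W n} {s : Let n} (h : Asc y s) : ¬ Le (y * s.sw) y :=
  fun h' => mul_sw_ne y s (h'.antisymm (le_mul_sw_of_asc h))

variable [IsDomain k]

private theorem xi_step {y : W n} {s : Let n} (h : Asc y s)
    (H : ∃ ξ ∈ ZZ k n, (∀ x, Hz (len (y * s.sw)) (ξ x)) ∧ (∀ x, ξ x ≠ 0 → Le (y * s.sw) x) ∧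
      ξ (y * s.sw) = ee k (y * s.sw)) : ∃ ξ ∈ ZZ k n,
    (∀ x, Hz (len y) (ξ x)) ∧ (∀ x, ξ x ≠ 0 → Le y x) ∧ ξ y = ee k y ∧ ξ (y * s.sw) = ee k y := by
  obtain ⟨ξ, h1, h2, h3, h4⟩ := H
  obtain ⟨g, hg, e⟩ := ZZ.demazure h1 s
  have h0 : ξ y = 0 := by
    by_contra h0
    exact not_le_of_asc h (h3 y h0)
  rw [ee_mul_sw k h] at h4
  refine ⟨-g, (ZZ k n).neg_mem hg, fun x => ?_, fun x hx => ?_, ?_, ?_⟩
  · have h5 := (h2 x).sub (h2 (x * s.sw))
    rw [e x] at h5
    refine ((hz_rt x s).of_mul (rt_ne_zero x s) h5).neg.congr ?_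
    rw [len_mul_sw h]
    push_cast
    ring
  · by_cases a1 : ξ x = 0
    · have a2 : ξ (x * s.sw) ≠ 0 := fun a2 => by
        have := e x
        rw [a1, a2, sub_zero, eq_comm, mul_eq_zero] at this
        exact hx (by simp [this.resolve_left (rt_ne_zero x s)])
      have := le_mul_sw h ((le_mul_sw_of_asc h).trans (h3 _ a2))
      rwa [mul_sw_sw] at this
    · exact (le_mul_sw_of_asc h).trans (h3 x a1)
  · refine mul_left_cancel₀ (rt_ne_zero (k := k) y s) ?_
    have := e y
    rw [h0, h4] at this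
    simp only [Pi.neg_apply]
    linear_combination this
  · refine mul_left_cancel₀ (rt_ne_zero (k := k) y s) ?_
    have := e (y * s.sw)
    rw [mul_sw_sw, h0, h4, rt_mul_sw] at this
    simp only [Pi.neg_apply]
    linear_combination -this

omit [IsDomain k] in
private theorem xi_rev : ∃ ξ ∈ ZZ k n, (∀ x, Hz (len (Fin.revPerm : W n)) (ξ x)) ∧
    (∀ x, ξ x ≠ 0 → Le (Fin.revPerm : W n) x) ∧ ξ Fin.revPerm = ee k (Fin.revPerm : W n) := by
  refine ⟨∏ p ∈ invs (Fin.revPerm : W n),
    fun x : W n => (X ((Fin.revPerm : W n) p.2) - X (x p.1) : RR k n),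
    (ZZ k n).prod_mem fun p _ => (ZZ k n).sub_mem (ZZ_const _) (ZZ_X p.1), fun x => ?_,
    fun x hx => ?_, ?_⟩
  · rw [Finset.prod_apply]
    exact Hz.prod_one _ fun p _ => (Hz.X _).sub (Hz.X _)
  · have h1 : (Fin.revPerm : W n)⁻¹ * x = 1 := perm_eq_one fun a => by
      by_contra hlt
      rw [not_le] at hlt
      refine hx ?_
      rw [Finset.prod_apply]
      refine Finset.prod_eq_zero (i := (a, ((Fin.revPerm : W n)⁻¹ * x) a)) ?_ (by simp)
      simp only [invs, Finset.mem_filter, Finset.mem_univ, true_and]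
      exact ⟨hlt, Fin.rev_lt_rev.2 hlt⟩
    rw [inv_mul_eq_one.1 h1]
    exact Le.refl _
  · rw [Finset.prod_apply, ee]

theorem exists_xi (y : W n) : ∃ ξ ∈ ZZ k n, (∀ x, Hz (len y) (ξ x)) ∧ (∀ x, ξ x ≠ 0 → Le y x) ∧
    ξ y = ee k y := by
  induction h : phi y using Nat.strong_induction_on generalizing y with
  | _ m ih =>
    by_cases ha : ∃ s, Asc y s
    · obtain ⟨s, hs⟩ := ha
      obtain ⟨ξ, h1, h2, h3, h4, -⟩ := xi_step hs
        (ih _ (h ▸ phi_lt_of_le (le_mul_sw_of_asc hs) (mul_sw_ne y s).symm) (y * s.sw) rfl)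
      exact ⟨ξ, h1, h2, h3, h4⟩
    · obtain rfl := eq_rev_of_desc (not_exists.1 ha)
      exact xi_rev

theorem exists_xi_pair {y : W n} {s : Let n} (h : Asc y s) : ∃ ξ ∈ ZZ k n,
    (∀ x, Hz (len y) (ξ x)) ∧ (∀ x, ξ x ≠ 0 → Le y x) ∧ ξ y = ee k y ∧ ξ (y * s.sw) = ee k y :=
  xi_step h (exists_xi _)

theorem BF_congr {w : List (Let n)} {y : W n} {f f' g g' : Idx w → QQ k n}
    (hf : ∀ e, pt w e = y → f e = f' e) (hg : ∀ e, pt w e = y → g e = g' e) :
    BF w y f g = BF w y f' g' := by
  unfold BF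
  congr 1
  refine Finset.sum_congr rfl fun e he => ?_
  rw [hf e (Finset.mem_filter.1 he).2, hg e (Finset.mem_filter.1 he).2]

theorem BF_comm (w : List (Let n)) (y : W n) (f g : Idx w → QQ k n) : BF w y f g = BF w y g f := by
  unfold BF
  congr 1
  exact Finset.sum_congr rfl fun e _ => by rw [mul_comm (f e)]

private theorem BF_eq_integ {w : List (Let n)} {y : W n} {f g F : Idx w → QQ k n}
    (h0 : ∀ e, pt w e ≠ y → F e = 0) (h1 : ∀ e, pt w e = y → F e = io k (ee k y) * (f e * g e)) :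
    BF w y f g = integ w F := by
  rw [BF, integ, Finset.mul_sum, Finset.sum_filter]
  refine Finset.sum_congr rfl fun e _ => ?_
  split_ifs with h
  · rw [h1 e h, mul_div_assoc (io k (ee k y))]
  · rw [h0 e h, zero_div]

private theorem BF_xi {w : List (Let n)} {y : W n} {c : Idx w → RR k n} (hb : NoAbove w y c)
    {ξ : W n → RR k n} (h3 : ∀ x, ξ x ≠ 0 → Le y x) (h4 : ξ y = ee k y) (m : Idx w → RR k n) :
    BF w y (up c) (up m) = integ w (up fun e => ξ (pt w e) * (c e * m e)) := by
  refine BF_eq_integ (fun e he => ?_) fun e he => ?_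
  · by_cases a1 : ξ (pt w e) = 0
    · simp [up, a1]
    · have a2 : c e = 0 := by
        by_contra a2
        exact he (hb e a2 (h3 _ a1))
      simp [up, a2]
  · simp only [up, he, h4, map_mul]

private theorem BF_mem' {w : List (Let n)} {y : W n} {c m : Idx w → RR k n} (hc : c ∈ MM k w)
    (hb : NoAbove w y c) (hm : m ∈ MM k w) : ∃ r, BF w y (up c) (up m) = io k r := by
  obtain ⟨ξ, h1, -, h3, h4⟩ := exists_xi (k := k) y
  rw [BF_xi hb h3 h4]
  exact integ_mem (mem_mul (ZZ.mem h1 w) (mem_mul hc hm))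

theorem BF_mem {w : List (Let n)} {y : W n} {c m : Idx w → RR k n} (hc : c ∈ MM k w)
    (hb : Below w y c) (hm : m ∈ MM k w) : ∃ r, BF w y (up c) (up m) = io k r :=
  BF_mem' hc (fun e he h => (hb e he).antisymm h) hm

theorem BF_el {w : List (Let n)} {y : W n} {d d' : ℤ} {c m : Idx w → RR k n} (hc : El w d c)
    (hb : NoAbove w y c) (hm : El w d' m) :
    ∃ r, Hz (d + d' + len y - w.length) r ∧ BF w y (up c) (up m) = io k r := by
  obtain ⟨ξ, h1, h2, h3, h4⟩ := exists_xi (k := k) y
  rw [BF_xi hb h3 h4]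
  have h5 : El w (len y) fun e => ξ (pt w e) := ⟨ZZ.mem h1 w, fun e => h2 _⟩
  exact integ_el ((h5.mul (hc.mul hm)).congr (add_comm _ _))

/-- The form of a costalk element with an element of `R_+ M` lies in `R_+`. -/
theorem BF_mem_mI {w : List (Let n)} {y : W n} {d : ℤ} {c g : Idx w → RR k n} (hc : El w d c)
    (hb : NoAbove w y c) (hg : g ∈ mI k n • MM k w) :
    ∃ r ∈ mI k n, BF w y (up c) (up g) = io k r := by
  refine Submodule.smul_induction_on hg (fun a ha m hm => ?_) ?_
  · obtain ⟨r, hr⟩ := BF_mem' hc.1 hb hm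
    refine ⟨a * r, Ideal.mul_mem_right _ _ ha, ?_⟩
    rw [map_mul, ← hr, BF, BF, mul_left_comm, Finset.mul_sum _ _ (io k a)]
    congr 1
    refine Finset.sum_congr rfl fun e _ => ?_
    simp only [up, Pi.smul_apply, smul_eq_mul, map_mul]
    ring
  · rintro g g' ⟨r, hr, e⟩ ⟨r', hr', e'⟩
    refine ⟨r + r', Ideal.add_mem _ hr hr', ?_⟩
    rw [map_add, ← e, ← e', BF, BF, BF, ← mul_add, ← Finset.sum_add_distrib]
    congr 1
    refine Finset.sum_congr rfl fun e _ => ?_
    simp only [up, Pi.add_apply, map_add]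
    ring

private theorem stalk_pair {w : List (Let n)}
    (ih : ∀ (x : W n) (d : ℤ) (m : Idx w → RR k n), El w d m → Above w x m →
      ∃ m', El w (d - len x) m' ∧ ∀ e, pt w e = x → m e = ee k x * m' e)
    {x : W n} {s : Let n} (h : Asc x s) {d : ℤ} {m : Idx w → RR k n} (hm : El w d m)
    (ha : Above w x m) : ∃ m', El w (d - len x) m' ∧
      ∀ e, pt w e = x ∨ pt w e = x * s.sw → m e = ee k x * m' e := by
  obtain ⟨m1, hm1, e1⟩ := ih x d m hm ha
  obtain ⟨ξ, h1, h2, h3, h4, h5⟩ := exists_xi_pair (k := k) h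
  have hξ : El w (len x) fun e => ξ (pt w e) := ⟨ZZ.mem h1 w, fun e => h2 _⟩
  have h9 := hξ.mul hm1
  have h6 : El w d (m - fun e => ξ (pt w e) * m1 e) := hm.sub (h9.congr (by ring))
  have hN : NoBelow w (x * s.sw) (m - fun e => ξ (pt w e) * m1 e) := by
    intro e he hle
    rw [Pi.sub_apply] at he
    have h7 : Le x (pt w e) := by
      by_cases a1 : m e = 0
      · exact h3 _ fun a2 => he (by rw [a1, a2, zero_mul, sub_zero])
      · exact ha e a1
    refine (between h h7 hle).resolve_left fun a1 => he ?_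
    rw [e1 e a1, a1, h4, sub_self]
  obtain ⟨n2, hn2, ha2, e2⟩ := above_of_noBelow h6 hN
  obtain ⟨m2, hm2, e3⟩ := ih _ d n2 hn2 ha2
  have h8 : El w 1 fun e => (X (x s.lo) - X (pt w e s.lo) : RR k n) :=
    ⟨ZZ.mem (f := fun z => X (x s.lo) - X (z s.lo))
      ((ZZ k n).sub_mem (ZZ_const _) (ZZ_X s.lo)) w, fun e => (Hz.X _).sub (Hz.X _)⟩
  have h10 := h8.mul hm2
  have hl : 1 + (d - (len (x * s.sw) : ℤ)) = d - len x := by
    rw [len_mul_sw h]
    push_cast
    ring
  refine ⟨_, hm1.add (h10.congr hl), fun e he => ?_⟩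
  rw [Pi.add_apply]
  rcases he with he | he
  · rw [e1 e he, he, sub_self, zero_mul, add_zero]
  · have a1 := e2 e he
    rw [e3 e he, ee_mul_sw k h, Pi.sub_apply, he, h5, rt] at a1
    rw [he, Equiv.Perm.mul_apply, Let.sw_lo]
    linear_combination -a1

/-- An element supported on `≥ x` is divisible by `ee x` at `x`. -/
theorem stalk_of_above (w : List (Let n)) : ∀ (x : W n) (d : ℤ) (m : Idx w → RR k n),
    El w d m → Above w x m →
      ∃ m', El w (d - len x) m' ∧ ∀ e, pt w e = x → m e = ee k x * m' e := by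
  induction w with
  | nil =>
    intro x d m hm _
    by_cases hx : x = 1
    · subst hx
      exact ⟨m, hm.congr (by simp), fun e _ => by simp⟩
    · exact ⟨0, El.zero _ _, fun e he => absurd he.symm hx⟩
  | cons s w ih =>
    intro x d F hF ha
    obtain ⟨h0, -, g, hg, e⟩ := hF.cons
    have a0 : ∀ e, F (e, false) ≠ 0 → Le x (pt w e) := fun e he => by simpa using ha _ he
    have a1 : ∀ e, F (e, true) ≠ 0 → Le x (pt w e * s.sw) := fun e he => by simpa using ha _ he
    have ag : ∀ z, Asc z s → Le z x → Above w z g := fun z hz hzx e' he => by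
      by_cases b0 : F (e', false) = 0
      · have b1 : F (e', true) ≠ 0 := fun b1 => by
          have := e e'
          rw [b0, b1, sub_zero, eq_comm, mul_eq_zero] at this
          exact he (this.resolve_left (rt_ne_zero _ _))
        have := le_mul_sw hz (hzx.trans (a1 e' b1))
        rwa [mul_sw_sw] at this
      · exact hzx.trans (a0 e' b0)
    by_cases hx : Asc x s
    · obtain ⟨m0, hm0, e0⟩ := stalk_pair ih hx h0 a0
      obtain ⟨mg, hmg, eg⟩ := stalk_pair ih hx hg (ag x hx (Le.refl x))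
      refine ⟨fun e => if e.2 then m0 e.1 - rt k (pt w e.1) s * mg e.1 else m0 e.1,
        el_cons_of (g := mg) hm0 (hmg.congr (by ring)) fun e => by simp, ?_⟩
      rintro ⟨e', _ | _⟩ he
      · exact e0 e' (Or.inl (by simpa using he))
      · have h2 : pt w e' = x * s.sw := by
          rw [← he]
          simp
        have h3 := e e'
        rw [e0 e' (Or.inr h2), eg e' (Or.inr h2)] at h3
        simp only [if_true]
        linear_combination -h3
    · have hz : Asc (x * s.sw) s := (asc_mul_sw x s).2 hx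
      have hn : ¬ Le x (x * s.sw) := by simpa using not_le_of_asc hz
      have hee := ee_mul_sw k hz
      have hl := len_mul_sw hz
      rw [mul_sw_sw] at hee hl
      obtain ⟨mg, hmg, eg⟩ := stalk_pair ih hz hg (ag _ hz (mul_sw_le_of_desc hx))
      refine ⟨fun e => (-mg) e.1, el_diag s (hmg.neg.congr ?_), ?_⟩
      · rw [hl]
        push_cast
        ring
      · rintro ⟨e', _ | _⟩ he
        · have h2 : pt w e' = x := by simpa using he
          have h4 : F (e', true) = 0 := by
            by_contra h4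
            exact hn (h2 ▸ a1 e' h4)
          have h3 := e e'
          rw [h4, eg e' (Or.inr (by rw [h2, mul_sw_sw])), h2] at h3
          rw [hee, rt_mul_sw]
          simp only [Pi.neg_apply]
          linear_combination h3
        · have h2 : pt w e' = x * s.sw := by
            rw [← he]
            simp
          have h4 : F (e', false) = 0 := by
            by_contra h4
            exact hn (h2 ▸ a0 e' h4)
          have h3 := e e'
          rw [h4, eg e' (Or.inl h2), h2] at h3
          rw [hee]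
          simp only [Pi.neg_apply]
          linear_combination -h3

theorem Adapted.dual_at {w : List (Let n)} {c : Idx w → Idx w → RR k n} (hc : Adapted w c)
    (a : Idx w) : ∃ m : Idx w → RR k n, El w (w.length - dg w a - len (pt w a)) m ∧
      ∀ b, pt w b = pt w a → BF w (pt w a) (up (c b)) (up m) = if b = a then 1 else 0 := by
  obtain ⟨cv, h1, h2, h3, -⟩ := hc.dual
  obtain ⟨m, hm, e1⟩ := stalk_of_above w _ _ _ (h1 a) (h2 a)
  refine ⟨m, hm, fun b hb => ?_⟩
  rw [← h3 a b]
  refine BF_eq_integ (fun e he => ?_) fun e he => ?_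
  · by_cases a1 : c b e = 0
    · simp [up, a1]
    · have a2 : cv a e = 0 := by
        by_contra a2
        exact he ((hb ▸ hc.below b e a1).antisymm (h2 a e a2))
      simp [up, a2]
  · simp only [up, e1 e he, map_mul]
    ring

end Pool.Agent.PCan
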