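import Pool.Agent.Lib.MP_b03f2e_al.Split
import Pool.Agent.Lib.MP_b03f2e_al.Lift

/-! From a degenerate integral intersection form to an indecomposable object with an extra
summand in characteristic zero. -/

namespace Pool.Agent.PCan

open MvPolynomial Matrix

variable {n : ℕ}

/-- In the lowest degree the costalk has rank at most one. -/
theorem low_prop {k : Type} [CommRing k] [IsDomain k] {v : List (Let n)} {y : W n} {d0 : ℕ}
    (low : ∀ e, pt v e = y → d0 ≤ dg v e)
    (uniq : ∀ e e', pt v e = y → pt v e' = y → dg v e = d0 → dg v e' = d0 → e = e') :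
    ∃ b : Idx v → RR k n, El v d0 b ∧ ∀ m : Idx v → RR k n, El v d0 m → NoAbove v y m →
      ∃ a : k, ∀ e, pt v e = y → m e = C a * b e := by
  obtain ⟨c, hc⟩ := exists_adapted k v
  by_cases h : ∃ e0, pt v e0 = y ∧ dg v e0 = d0
  · obtain ⟨e0, h1, h2⟩ := h
    refine ⟨c e0, h2 ▸ hc.el e0, fun m hm hn => ?_⟩
    obtain ⟨l, hl, he⟩ := hc.expand hm hn
    refine ⟨constantCoeff (l e0), fun e hy => ?_⟩
    rw [he e hy, Finset.sum_eq_single e0]
    · rw [← ((hl e0).congr (by rw [h2, sub_self])).eq_C]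
    · intro a ha hne
      have h3 := (Finset.mem_filter.1 ha).2
      have h4 := low a h3
      have h5 : dg v a ≠ d0 := fun h => hne (uniq a e0 h3 h1 h h2)
      rw [(hl a).eq_zero_of_neg (by omega), zero_mul]
    · intro h3
      exact (h3 (Finset.mem_filter.2 ⟨Finset.mem_univ _, h1⟩)).elim
  · refine ⟨0, El.zero _ _, fun m hm hn => ⟨0, fun e hy => ?_⟩⟩
    obtain ⟨l, hl, he⟩ := hc.expand hm hn
    rw [he e hy, Pi.zero_apply, mul_zero]
    refine Finset.sum_eq_zero fun a ha => ?_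
    have h3 := (Finset.mem_filter.1 ha).2
    have h4 := low a h3
    have h5 : dg v a ≠ d0 := fun h5 => h ⟨a, h3, h5⟩
    rw [(hl a).eq_zero_of_neg (by omega), zero_mul]

theorem BF_scal {k : Type} [CommRing k] [IsDomain k] {v : List (Let n)} {y : W n}
    {f g b b' : Idx v → QQ k n} {q q' : QQ k n} (hf : ∀ e, pt v e = y → f e = q * b e)
    (hg : ∀ e, pt v e = y → g e = q' * b' e) : BF v y f g = q * q' * BF v y b b' := by
  rw [BF_congr hf hg]
  unfold BF
  rw [Finset.mul_sum, Finset.mul_sum, Finset.mul_sum]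
  refine Finset.sum_congr rfl fun e _ => ?_
  ring

theorem noAbove_of_act {k : Type} [CommRing k] [IsDomain k] {v : List (Let n)} {y : W n}
    {K : Matrix (Idx v) (Idx v) (QQ k n)} (hK : ∀ b a, pt v b ≠ pt v a → K b a = 0)
    {m m' : Idx v → RR k n} (h : K *ᵥ up m = up m') (hm : NoAbove v y m) : NoAbove v y m' := by
  intro e he hle
  obtain ⟨a, ha, h0⟩ := supp_of_act hK h he
  rw [← ha] at hle ⊢
  exact hm a h0 hle

variable {p : ℕ} [Fact p.Prime]

/-- A degree zero endomorphism and its adjoint act in the same way on the lowest costalk class. -/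
theorem WD.adj_eq {N : ℕ} {v : List (Let n)} {y : W n} {d0 : ℕ} {c : Idx v → RR ℤ n}
    (h : WD p N v y d0 c) {L : Matrix (Idx v) (Idx v) (QQ (ZMod p) n)} (hL : IsHom v v 0 L) :
    ∀ e, pt v e = y → (L *ᵥ up fun e => red p (c e)) e =
      (adj v v L *ᵥ up fun e => red p (c e)) e := by
  intro e he
  obtain ⟨K, hK, hKL⟩ := exists_lift v v 0 L hL
  have hK' : IsHom v v 0 (adj v v K) := hK.adj.congr (by ring)
  obtain ⟨m1, hm1, e1⟩ := hK.map _ _ h.el
  obtain ⟨m2, hm2, e2⟩ := hK'.map _ _ h.el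
  rw [add_zero] at hm1 hm2
  obtain ⟨b, _, hb⟩ := low_prop (k := ℤ) h.low h.uniq
  obtain ⟨a0, h0⟩ := hb c h.el h.below.noAbove
  obtain ⟨a1, h1⟩ := hb m1 hm1 (noAbove_of_act hK.block e1 h.below.noAbove)
  obtain ⟨a2, h2⟩ := hb m2 hm2 (noAbove_of_act hK'.block e2 h.below.noAbove)
  have u0 : ∀ e, pt v e = y → up c e = io ℤ (C a0) * up b e := fun e he => by
    unfold up
    rw [h0 e he, map_mul]
  have u1 : ∀ e, pt v e = y → up m1 e = io ℤ (C a1) * up b e := fun e he => by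
    unfold up
    rw [h1 e he, map_mul]
  have u2 : ∀ e, pt v e = y → up m2 e = io ℤ (C a2) * up b e := fun e he => by
    unfold up
    rw [h2 e he, map_mul]
  have hB := BF_adj hK.block y (up c) (up c)
  rw [e1, e2, BF_scal u1 u0, BF_scal u0 u2] at hB
  obtain ⟨B, hB0, _, hBF⟩ := h.form
  rw [BF_scal u0 u0] at hBF
  have hne : io ℤ (C a0 : RR ℤ n) * BF v y (up b) (up b) ≠ 0 := by
    intro h0
    rw [mul_assoc, h0, mul_zero] at hBF
    exact io_ne_zero (by simpa using hB0) hBF.symm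
  have h12 : (C a1 : RR ℤ n) = C a2 := io_inj (mul_right_cancel₀ hne (by linear_combination hB))
  rw [hKL _ _ _ h.el e1, (hKL.adj hK) _ _ _ h.el e2]
  simp only [up]
  rw [h1 e he, h2 e he, h12]

theorem torsion {N : ℕ} {v : List (Let n)} {y : W n} {d0 : ℕ} {c : Idx v → RR ℤ n}
    (h : WD p N v y d0 c) (hA : AllPerv (ZMod p) n) :
    ∃ (w : List (Let n)) (K : Matrix (Idx w) (Idx w) (QQ (ZMod p) n)),
      NF N w ∧ Gd w K (prodL w) y ∧ y ≠ prodL w := by
  set cb : Idx v → RR (ZMod p) n := fun e => red p (c e) with hcb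
  have el : El v d0 cb := h.el.red
  have na : NoAbove v y cb := fun e he => h.below.noAbove e fun h0 => he (by simp only [hcb, h0, map_zero])
  have h1 : Idem v (1 : Matrix (Idx v) (Idx v) (QQ (ZMod p) n)) := ⟨isHom_one v, mul_one _⟩
  obtain ⟨K0, hK0, _, _, ho⟩ := prim_decomp h1 (y := y) (d := d0) ⟨cb, el, one_mulVec _, na, h.nz⟩
  have fx : ∀ e, pt v e = y → (K0 *ᵥ up cb) e = up cb e := by
    obtain ⟨m, hm, hf, hn, e0, he0, hne⟩ := ho
    obtain ⟨b, _, hb⟩ := low_prop (k := ZMod p) h.low h.uniq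
    obtain ⟨a, ha⟩ := hb m hm hn
    obtain ⟨a', ha'⟩ := hb cb el na
    have ha0 : a ≠ 0 := by
      rintro rfl
      exact hne (by rw [ha e0 he0, C_0, zero_mul])
    have hq : ∀ e, pt v e = y → up cb e = (io (ZMod p) (C (a' / a) : RR (ZMod p) n) • up m) e := by
      intro e he
      rw [Pi.smul_apply, smul_eq_mul]
      unfold up
      rw [ha e he, ha' e he, ← map_mul, ← mul_assoc, ← C_mul, div_mul_cancel₀ _ ha0]
    intro e he
    rw [mulVec_fibre hK0.1.1.block hq he, mulVec_smul, hf, hq e he]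
  have fx' : ∀ e, pt v e = y → (adj v v K0 *ᵥ up cb) e = up cb e := fun e he =>
    (h.adj_eq hK0.1.1 e he).symm.trans (fx e he)
  have nz : ∃ e, pt v e = y ∧ up cb e ≠ 0 := by
    obtain ⟨e, he, h0⟩ := h.nz
    exact ⟨e, he, io_ne_zero h0⟩
  have ho' : Occ v (adj v v K0) y d0 := by
    obtain ⟨m, hm, hmm, hf, _⟩ := hK0.1.adj.project el
    obtain ⟨e, he, h0⟩ := nz
    refine ⟨m, hm, hf, noAbove_of_act hK0.1.adj.1.block hmm na, e, he, fun h2 => h0 ?_⟩
    rw [← fx' e he, hmm]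
    unfold up
    rw [h2, map_zero]
  obtain ⟨y0, d1, d2, c1, c1', κ, hc, hc', hf, hf', ha, ha', hκ, hB⟩ := exists_top hK0.1 hK0.2.1
  have hκ' : io (ZMod p) (C κ : RR (ZMod p) n) ≠ 0 := io_ne_zero (by simpa using hκ)
  have hy0 : FixFrom N y0 := by
    by_contra hne
    apply hκ'
    rw [← hB]
    unfold BF
    rw [Finset.sum_eq_zero, mul_zero]
    intro e he
    exact absurd ((Finset.mem_filter.1 he).2 ▸ h.win.fixFrom e) hne
  obtain ⟨z, hz, rfl⟩ := exists_NF N y0 hy0
  obtain ⟨U, V, hI⟩ := split hK0 hc hc' hf hf' ha ha' hκ hB hz.red rfl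
  have p1 := hA z _ hz.red hI.prim hI.top
  have p2 := hA z _ hz.red hI.prim.adj (by rw [adj_diag, hI.top])
  refine ⟨z, V * U, hz, ⟨hI.prim.1, p1, fun x hx => hI.prim.formIn hz.red hI.top hx,
    _, hI.occ ho, ?_⟩, ?_⟩
  · have q1 := p1 _ _ (hI.occ ho)
    have q2 := p2 _ _ (hI.occ_adj ho')
    have q3 := h.deg0
    unfold nd at *
    omega
  · rintro rfl
    obtain ⟨q, hq⟩ := hI.rank_one hz.red (fun e _ => congrFun hf e) fx nz
    obtain ⟨q', hq'⟩ := hI.rank_one_adj hz.red (fun e _ => congrFun hf' e) fx' nz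
    obtain ⟨B, _, hpB, hBF⟩ := h.form
    apply hκ'
    rw [← hB, BF_scal hq hq', BF_red hBF, map_C, eq_intCast,
      (ZMod.intCast_zmod_eq_zero_iff_dvd B p).2 hpB, C_0, map_zero, mul_zero]

end Pool.Agent.PCan
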