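import Pool.Agent.Lib.MP_b03f2e_al.Basic
import Pool.Agent.Lib.MP_b03f2e_al.Op5
import Pool.Agent.Lib.MP_b03f2e_al.EqFix

/-! Combinatorics of the nil-Hecke words.  Letters are of three kinds: `s.a + 1 = a` (kind K),
`s.a + 1 < a` (kind A) and `a ≤ s.a` (kind M). -/

namespace Pool.Agent.PCan.F5

open MvPolynomial

variable {n : ℕ}

/-- The string `s_(a-1) s_(a-2) ... s_q` (the head of the list is the last letter `s_q`). -/
inductive Str (a : ℕ) : ℕ → List (Let n) → Prop
  | base {s : Let n} : s.a + 1 = a → Str a s.a [s]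
  | step {s : Let n} {u : List (Let n)} : Str a (s.a + 1) u → Str a s.a (s :: u)

/-- The word attached to a list of operators; `cnt` is the number of strings. -/
inductive WW (a : ℕ) : List Op → ℕ → List (Let n) → Prop
  | nil : WW a [] 0 []
  | d {r : List Op} {cnt : ℕ} {v : List (Let n)} {s : Let n} (i : Fin 4) :
      WW a r cnt v → s.a = a + i.val → WW a (Op.d i :: r) cnt (s :: v)
  | x {r : List Op} {cnt : ℕ} {v u : List (Let n)} :
      WW a r cnt v → Str a cnt u → WW a (Op.x :: r) (cnt + 1) (u ++ v)

/-- No letter of kind K is taken. -/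
def NoK (a : ℕ) : (v : List (Let n)) → Idx v → Prop
  | [], _ => True
  | s :: v, e => NoK a v e.1 ∧ (s.a + 1 = a → e.2 = false)

/-- No letter of kind K is taken and all letters of kind A are taken. -/
def Forced (a : ℕ) : (v : List (Let n)) → Idx v → Prop
  | [], _ => True
  | s :: v, e => Forced a v e.1 ∧ (s.a + 1 = a → e.2 = false) ∧ (s.a + 1 < a → e.2 = true)

def cntK (a : ℕ) (v : List (Let n)) : ℕ := v.countP (fun s => s.a + 1 = a)
def cntA (a : ℕ) (v : List (Let n)) : ℕ := v.countP (fun s => s.a + 1 < a)

/-- The state along a forced path after `cnt` strings. -/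
def WInv (a cnt : ℕ) (x : W n) : Prop :=
  (∀ p : Fin n, p.val < cnt → (x p).val + p.val + 1 = a) ∧
  (∀ p : Fin n, cnt ≤ p.val → p.val < a → (x p).val + cnt = p.val) ∧
  (∀ p : Fin n, a ≤ p.val → p.val < a + 5 → a ≤ (x p).val ∧ (x p).val < a + 5) ∧
  FixFrom (a + 5) x

/-- The reversal of the two blocks. -/
def IsY (a : ℕ) (y : W n) : Prop :=
  (∀ p : Fin n, p.val < a → (y p).val + p.val + 1 = a) ∧
  (∀ p : Fin n, a ≤ p.val → p.val < a + 5 → (y p).val + p.val = 2 * a + 4) ∧
  FixFrom (a + 5) y

private theorem sw_cases (s : Let n) (p : Fin n) :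
    (p.val = s.a ∧ (s.sw p).val = s.a + 1) ∨ (p.val = s.a + 1 ∧ (s.sw p).val = s.a) ∨
      (p.val ≠ s.a ∧ p.val ≠ s.a + 1 ∧ (s.sw p).val = p.val) := by
  by_cases h1 : p = s.lo
  · rw [h1, s.sw_lo]
    exact Or.inl ⟨rfl, rfl⟩
  · by_cases h2 : p = s.hi
    · rw [h2, s.sw_hi]
      exact Or.inr (Or.inl ⟨rfl, rfl⟩)
    · rw [s.sw_other h1 h2]
      exact Or.inr (Or.inr ⟨fun h => h1 (Fin.ext h), fun h => h2 (Fin.ext h), rfl⟩)

private theorem sw_fix (s : Let n) {p : Fin n} (h1 : p.val ≠ s.a) (h2 : p.val ≠ s.a + 1) :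
    s.sw p = p := by
  have := sw_cases s p
  exact Fin.ext (by omega)

private theorem pt_fix (s : Let n) (v : List (Let n)) (e : Idx (s :: v)) {p : Fin n}
    (h1 : p.val ≠ s.a) (h2 : p.val ≠ s.a + 1) : pt (s :: v) e p = pt v e.1 p := by
  obtain ⟨e, b⟩ := e
  cases b with
  | false => rfl
  | true => rw [pt_true, Equiv.Perm.mul_apply, sw_fix s h1 h2]

private theorem pres_sw {a : ℕ} {s : Let n} (h : s.a + 1 ≠ a) : Pres a s.sw := fun p => by
  have := sw_cases s p
  omega

private theorem cntK_cons (a : ℕ) (s : Let n) (v : List (Let n)) :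
    cntK a (s :: v) = cntK a v + if s.a + 1 = a then 1 else 0 := by
  simp [cntK, List.countP_cons]

private theorem cntA_cons (a : ℕ) (s : Let n) (v : List (Let n)) :
    cntA a (s :: v) = cntA a v + if s.a + 1 < a then 1 else 0 := by
  simp [cntA, List.countP_cons]

private theorem str_lt {a q : ℕ} {u : List (Let n)} (h : Str a q u) : q < a ∧ a < n := by
  induction h with
  | @base s hs => exact ⟨by omega, hs ▸ s.h⟩
  | step _ ih => exact ⟨by omega, ih.2⟩

private theorem str_mem {a q : ℕ} {u : List (Let n)} (h : Str a q u) : ∀ s ∈ u, s.a < a := by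
  induction h with
  | base hs =>
    intro r hr
    rw [List.mem_singleton.1 hr]
    omega
  | step h ih =>
    intro r hr
    rcases List.mem_cons.1 hr with rfl | hr
    · have := (str_lt h).1
      omega
    · exact ih r hr

private theorem str_cnt {a q : ℕ} {u : List (Let n)} (h : Str a q u) :
    cntK a u = 1 ∧ cntA a u = a - 1 - q ∧ u.length = a - q := by
  induction h with
  | base hs =>
    rw [cntK_cons, cntA_cons, if_pos hs, if_neg (by omega), List.length_singleton]
    exact ⟨rfl, by simp [cntA]; omega, by omega⟩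
  | step h ih =>
    have := (str_lt h).1
    rw [cntK_cons, cntA_cons, if_neg (by omega), if_pos this, List.length_cons]
    omega

theorem exists_str {a q : ℕ} (hq : q < a) (hn : a < n) : ∃ u : List (Let n), Str a q u := by
  obtain ⟨j, hj⟩ : ∃ j, a = q + 1 + j := ⟨a - q - 1, by omega⟩
  induction j generalizing q with
  | zero => exact ⟨_, Str.base (s := ⟨q, by omega⟩) (by simpa using hj.symm)⟩
  | succ j ih =>
    obtain ⟨u, hu⟩ := ih (q := q + 1) (by omega) (by omega)
    exact ⟨_, Str.step (s := ⟨q, by omega⟩) hu⟩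
theorem exists_WW {a : ℕ} (hn : a + 5 ≤ n) (ops : List Op) (h : ops.count Op.x ≤ a) :
    ∃ v : List (Let n), WW a ops (ops.count Op.x) v := by
  induction ops with
  | nil => exact ⟨[], WW.nil⟩
  | cons o r ih =>
    cases o with
    | x =>
      rw [List.count_cons_self] at h ⊢
      obtain ⟨v, hv⟩ := ih (by omega)
      obtain ⟨u, hu⟩ := exists_str (n := n) (a := a) (q := r.count Op.x) (by omega) (by omega)
      exact ⟨_, WW.x hv hu⟩
    | d i =>
      rw [List.count_cons_of_ne (by simp)] at h ⊢
      obtain ⟨v, hv⟩ := ih h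
      have := i.isLt
      exact ⟨_, WW.d (s := ⟨a + i.val, by omega⟩) i hv rfl⟩
theorem exists_isY {a : ℕ} (hn : a + 5 ≤ n) : ∃ y : W n, IsY a y := by
  obtain ⟨f, hf⟩ : ∃ f : Fin n → Fin n, ∀ p, (p.val < a → (f p).val + p.val + 1 = a) ∧
      (a ≤ p.val → p.val < a + 5 → (f p).val + p.val = 2 * a + 4) ∧
      (a + 5 ≤ p.val → (f p).val = p.val) := by
    refine ⟨fun p => if h1 : p.val < a then ⟨a - 1 - p.val, by omega⟩ else
      if h2 : p.val < a + 5 then ⟨2 * a + 4 - p.val, by omega⟩ else p, fun p =>
      ⟨fun h => ?_, fun h h' => ?_, fun h => ?_⟩⟩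
    · simp only [dif_pos h]
      omega
    · simp only [dif_neg (not_lt.2 h), dif_pos h']
      omega
    · simp only [dif_neg (show ¬ p.val < a by omega), dif_neg (not_lt.2 h)]
  have hi : Function.Involutive f := fun p => by
    have h1 := hf p
    have h2 := hf (f p)
    exact Fin.ext (by omega)
  exact ⟨hi.toPerm f, fun p => (hf p).1, fun p => (hf p).2.1, fun p h => Fin.ext ((hf p).2.2 h)⟩
theorem IsY.len {a : ℕ} (hn : a + 5 ≤ n) {y : W n} (h : IsY a y) :
    len y = (∑ c ∈ Finset.range a, c) + 10 := by
  have key : ∀ q : Fin n, (∑ p : Fin n, if p < q ∧ y q < y p then 1 else 0) =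
      (fun c : ℕ => if c < a then c else if c < a + 5 then c - a else 0) q.val := fun q => by
    have hv : ∀ p : Fin n, a + 5 ≤ p.val → (y p).val = p.val :=
      fun p hp => congrArg Fin.val (h.2.2 p hp)
    have q1 := h.1 q
    have q2 := h.2.1 q
    have q3 := hv q
    rw [← Finset.card_filter]
    beta_reduce
    split_ifs with h1 h2
    · rw [← Fin.card_Iio]
      congr 1
      ext p
      have p1 := h.1 p
      simp only [Finset.mem_filter, Finset.mem_univ, true_and, Finset.mem_Iio, Fin.lt_def]
      omega
    · have e := Fin.card_Ico (⟨a, by omega⟩ : Fin n) q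
      rw [← show _ = q.val - a from e]
      congr 1
      ext p
      have p1 := h.1 p
      have p2 := h.2.1 p
      simp only [Finset.mem_filter, Finset.mem_univ, true_and, Finset.mem_Ico, Fin.lt_def,
        Fin.le_def]
      omega
    · rw [Finset.card_eq_zero]
      ext p
      have p1 := h.1 p
      have p2 := h.2.1 p
      have p3 := hv p
      simp only [Finset.mem_filter, Finset.mem_univ, true_and, Finset.notMem_empty, Fin.lt_def,
        iff_false]
      omega
  unfold PCan.len invs
  rw [Finset.card_filter, Fintype.sum_prod_type_right]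
  simp only [key]
  rw [Fin.sum_univ_eq_sum_range
    (fun c : ℕ => if c < a then c else if c < a + 5 then c - a else 0) n]
  obtain ⟨r, rfl⟩ := Nat.exists_eq_add_of_le hn
  rw [Finset.sum_range_add, Finset.sum_range_add, Finset.sum_eq_zero (s := Finset.range r)
    fun c _ => by rw [if_neg (by omega), if_neg (by omega)], add_zero]
  congr 1
  · exact Finset.sum_congr rfl fun c hc => if_pos (Finset.mem_range.1 hc)
  · rw [Finset.sum_congr rfl (g := fun c => c) fun c hc => by
      have := Finset.mem_range.1 hc
      rw [if_neg (by omega), if_pos (by omega)]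
      omega]
    rfl

theorem Forced.noK {a : ℕ} {v : List (Let n)} {e : Idx v} (h : Forced a v e) : NoK a v e := by
  induction v with
  | nil => trivial
  | cons s v ih => exact ⟨ih h.1, h.2.1⟩
theorem NoK.pres {a : ℕ} {v : List (Let n)} {e : Idx v} (h : NoK a v e) : Pres a (pt v e) := by
  induction v with
  | nil => exact fun _ => Iff.rfl
  | cons s v ih =>
    obtain ⟨e, b⟩ := e
    cases b with
    | false => exact ih h.1
    | true => exact (ih h.1).mul (pres_sw fun hs => Bool.noConfusion (h.2 hs))
private theorem asc_K {a : ℕ} {s : Let n} {v : List (Let n)} {e : Idx (s :: v)}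
    (h : NoK a (s :: v) e) (hs : s.a + 1 = a) : Asc (pt (s :: v) e) s := by
  have h1 := h.pres s.lo
  have h2 := h.pres s.hi
  have h3 : s.lo.val = s.a := rfl
  have h4 : s.hi.val = s.a + 1 := rfl
  exact Fin.lt_def.2 (by omega)
theorem NoK.dg_low {a : ℕ} {v : List (Let n)} {e : Idx v} (h : NoK a v e) :
    cntK a v ≤ dg v e := by
  induction v with
  | nil => exact le_rfl
  | cons s v ih =>
    have h1 := ih h.1
    rw [cntK_cons, dg]
    by_cases hs : s.a + 1 = a
    · rw [if_pos hs, if_pos (asc_K h hs)]
      omega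
    · rw [if_neg hs]
      omega
theorem NoK.dg_uniq {a : ℕ} {v : List (Let n)} {e e' : Idx v} (h : NoK a v e) (h' : NoK a v e')
    (hd : dg v e = cntK a v) (hd' : dg v e' = cntK a v) : e = e' := by
  induction v with
  | nil => rfl
  | cons s v ih =>
    rw [cntK_cons, dg] at hd hd'
    by_cases hs : s.a + 1 = a
    · rw [if_pos hs, if_pos (asc_K h hs)] at hd
      rw [if_pos hs, if_pos (asc_K h' hs)] at hd'
      exact Prod.ext (ih h.1 h'.1 (by omega) (by omega)) ((h.2 hs).trans (h'.2 hs).symm)
    · have h1 := NoK.dg_low h.1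
      have h2 := NoK.dg_low h'.1
      rw [if_neg hs] at hd hd'
      have h3 : ¬ Asc (pt (s :: v) e) s := fun hh => by
        rw [if_pos hh] at hd
        omega
      have h4 : ¬ Asc (pt (s :: v) e') s := fun hh => by
        rw [if_pos hh] at hd'
        omega
      have h5 := ih h.1 h'.1 (by omega) (by omega)
      obtain ⟨e, b⟩ := e
      obtain ⟨e', b'⟩ := e'
      obtain rfl : e = e' := h5
      cases b <;> cases b'
      · rfl
      · exact absurd ((asc_mul_sw _ s).2 h3) h4
      · exact absurd ((asc_mul_sw _ s).2 h4) h3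
      · rfl
private theorem le_Y {a : ℕ} {y : W n} (hy : IsY a y) (x : W n) (h1 : Pres a x)
    (h2 : FixFrom (a + 5) x) : Le x y := by
  induction hl : phi x using Nat.strong_induction_on generalizing x with
  | _ l ih =>
    by_cases h : ∃ s : Let n, s.a + 1 ≠ a ∧ s.a + 1 < a + 5 ∧ Asc x s
    · obtain ⟨s, s1, s2, s3⟩ := h
      have h3 := le_mul_sw_of_asc s3
      refine h3.trans (ih _ (hl ▸ phi_lt_of_le h3 (mul_sw_ne x s).symm) _ (h1.mul (pres_sw s1))
        (fun p hp => ?_) rfl)
      rw [Equiv.Perm.mul_apply, sw_fix s (by omega) (by omega), h2 p hp]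
    · have hv : ∀ p : Fin n, a + 5 ≤ p.val → (y p).val = p.val :=
        fun p hp => congrArg Fin.val (hy.2.2 p hp)
      have h3 : y * x = 1 := eq_one_of_asc fun s => by
        have a1 : s.a + 1 ≠ a → s.a + 1 < a + 5 → (x s.hi).val ≤ (x s.lo).val :=
          fun s1 s2 => not_lt.1 fun s3 => h ⟨s, s1, s2, s3⟩
        have a2 : (x s.hi).val ≠ (x s.lo).val :=
          fun e => s.lo_ne_hi (x.injective (Fin.ext e)).symm
        have a3 : s.lo.val = s.a := rfl
        have a4 : s.hi.val = s.a + 1 := rfl
        have b1 := h1 s.lo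
        have b2 := h1 s.hi
        have b3 := h2.pres s.lo
        have b4 := h2.pres s.hi
        have b5 : a + 5 ≤ s.lo.val → (x s.lo).val = s.lo.val :=
          fun hp => congrArg Fin.val (h2 _ hp)
        have b6 : a + 5 ≤ s.hi.val → (x s.hi).val = s.hi.val :=
          fun hp => congrArg Fin.val (h2 _ hp)
        have c1 := hy.1 (x s.lo)
        have c2 := hy.1 (x s.hi)
        have c3 := hy.2.1 (x s.lo)
        have c4 := hy.2.1 (x s.hi)
        have c5 := hv (x s.lo)
        have c6 := hv (x s.hi)
        show (y (x s.lo)).val < (y (x s.hi)).val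
        omega
      have h4 : y * y = 1 := Equiv.ext fun p => by
        have c1 := hy.1 p
        have c2 := hy.1 (y p)
        have c3 := hy.2.1 p
        have c4 := hy.2.1 (y p)
        have c5 := hv p
        have c6 := hv (y p)
        refine Fin.ext ?_
        show (y (y p)).val = p.val
        omega
      rw [mul_left_cancel (h3.trans h4.symm)]
      exact Le.refl y
theorem NoK.le {a : ℕ} {v : List (Let n)} (hv : Win (a + 5) v) {y : W n} (hy : IsY a y)
    {e : Idx v} (h : NoK a v e) : Le (pt v e) y := le_Y hy _ h.pres (hv.fixFrom e)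
theorem Forced.agree {a : ℕ} {v : List (Let n)} {e e' : Idx v} (h : Forced a v e)
    (h' : Forced a v e') (p : Fin n) (hp : p.val < a) : pt v e p = pt v e' p := by
  induction v generalizing p with
  | nil => rfl
  | cons s v ih =>
    rcases lt_trichotomy (s.a + 1) a with hs | hs | hs
    · obtain ⟨e, b⟩ := e
      obtain ⟨e', b'⟩ := e'
      obtain rfl : b = true := h.2.2 hs
      obtain rfl : b' = true := h'.2.2 hs
      have := sw_cases s p
      exact ih h.1 h'.1 (s.sw p) (by omega)
    · obtain ⟨e, b⟩ := e
      obtain ⟨e', b'⟩ := e'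
      obtain rfl : b = false := h.2.1 hs
      obtain rfl : b' = false := h'.2.1 hs
      exact ih h.1 h'.1 p hp
    · rw [pt_fix s v e (by omega) (by omega), pt_fix s v e' (by omega) (by omega)]
      exact ih h.1 h'.1 p hp

/-- The effect of a string along a forced path. -/
private theorem str_move {a q : ℕ} {u : List (Let n)} (v : List (Let n)) (h : Str a q u) :
    ∀ e : Idx (u ++ v), Forced a (u ++ v) e → Forced a v (pr v u e) ∧
      (∀ p : Fin n, p.val < q ∨ a ≤ p.val → pt (u ++ v) e p = pt v (pr v u e) p) ∧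
      (∀ p p' : Fin n, p.val = q → p'.val + 1 = a → pt (u ++ v) e p = pt v (pr v u e) p') ∧
      ∀ p p' : Fin n, q < p.val → p.val < a → p'.val + 1 = p.val →
        pt (u ++ v) e p = pt v (pr v u e) p' := by
  induction h with
  | @base s hs =>
    rintro ⟨e, b⟩ he
    obtain rfl : b = false := he.2.1 hs
    refine ⟨he.1, fun p _ => rfl, fun p p' h1 h2 => ?_, fun p p' h1 h2 _ => by omega⟩
    rw [show p' = p from Fin.ext (by omega)]
    rfl
  | @step s u h ih =>
    rintro ⟨e, b⟩ he
    have hs := (str_lt h).1
    obtain rfl : b = true := he.2.2 hs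
    obtain ⟨i1, i2, i3, i4⟩ := ih e he.1
    refine ⟨i1, fun p hp => ?_, fun p p' h1 h2 => ?_, fun p p' h1 h2 h3 => ?_⟩
    · exact (pt_fix s (u ++ v) (e, true) (by omega) (by omega)).trans (i2 p (by omega))
    · have := sw_cases s p
      exact i3 (s.sw p) p' (by omega) h2
    · have := sw_cases s p
      by_cases hp : p.val = s.a + 1
      · rw [show p' = s.sw p from Fin.ext (by omega)]
        exact i2 (s.sw p) (by omega)
      · exact i4 (s.sw p) p' (by omega) (by omega) (by omega)

private theorem str_frozen {a q : ℕ} {u : List (Let n)} (v : List (Let n)) (h : Str a q u) :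
    ∀ (e : Idx (u ++ v)) (p : Fin n), p.val < q → pt (u ++ v) e p = pt v (pr v u e) p := by
  induction h with
  | @base s hs => exact fun e p hp => pt_fix s v e (by omega) (by omega)
  | @step s u h ih =>
    exact fun e p hp => (pt_fix s (u ++ v) e (by omega) (by omega)).trans (ih e.1 p (by omega))

private theorem str_track {a q : ℕ} {u : List (Let n)} (v : List (Let n)) (h : Str a q u) :
    ∀ e : Idx (u ++ v), Forced a v (pr v u e) → ∀ p p' : Fin n, p'.val + 1 = a →
      pt (u ++ v) e p = pt v (pr v u e) p' → q ≤ p.val ∧ (p.val = q → Forced a (u ++ v) e) := by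
  induction h with
  | @base s hs =>
    rintro ⟨e, b⟩ he p p' hp h
    cases b with
    | false =>
      have h1 : p = p' := (pt v e).injective h
      exact ⟨by omega, fun _ => ⟨he, fun _ => rfl, fun h2 => by omega⟩⟩
    | true =>
      have h1 : s.sw p = p' := (pt v e).injective h
      have h2 := congrArg Fin.val h1
      have := sw_cases s p
      exact ⟨by omega, fun _ => by omega⟩
  | @step s u h ih =>
    rintro ⟨e, b⟩ he p p' hp h'
    have hs := (str_lt h).1
    cases b with
    | false =>
      have h1 := (ih e he p p' hp h').1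
      exact ⟨by omega, fun _ => by omega⟩
    | true =>
      obtain ⟨h1, h2⟩ := ih e he (s.sw p) p' hp h'
      have := sw_cases s p
      exact ⟨by omega, fun _ => ⟨h2 (by omega), fun _ => by omega, fun _ => rfl⟩⟩

variable {a : ℕ} {ops : List Op} {cnt : ℕ} {v : List (Let n)}

theorem WW.win (h : WW a ops cnt v) : Win (a + 5) v := by
  induction h with
  | nil => exact fun s hs => absurd hs List.not_mem_nil
  | d i _ hs ih =>
    intro r hr
    rcases List.mem_cons.1 hr with rfl | hr
    · have := i.isLt
      omega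
    · exact ih r hr
  | x _ hu ih =>
    intro r hr
    rcases List.mem_append.1 hr with hr | hr
    · have := str_mem hu r hr
      omega
    · exact ih r hr
theorem WW.cnt_le (h : WW a ops cnt v) : cnt ≤ a := by
  induction h with
  | nil => exact Nat.zero_le a
  | d _ _ _ ih => exact ih
  | x _ hu _ => exact (str_lt hu).1
theorem WW.cntK (h : WW a ops cnt v) : cntK a v = cnt := by
  induction h with
  | nil => rfl
  | d i _ hs ih => rw [cntK_cons, if_neg (by omega), ih, add_zero]
  | x _ hu ih =>
    have h1 := (str_cnt hu).1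
    unfold F5.cntK at h1 ih ⊢
    rw [List.countP_append, h1, ih, add_comm]
theorem WW.cntA (h : WW a ops cnt v) : cntA a v = ∑ c ∈ Finset.range cnt, (a - 1 - c) := by
  induction h with
  | nil => rfl
  | d i _ hs ih => rw [cntA_cons, if_neg (by omega), ih, add_zero]
  | x _ hu ih =>
    have h1 := (str_cnt hu).2.1
    unfold F5.cntA at h1 ih ⊢
    rw [List.countP_append, h1, ih, Finset.sum_range_succ, add_comm]
theorem WW.length (h : WW a ops cnt v) : v.length = ops.length + F5.cntA a v := by
  induction h with
  | nil => rfl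
  | d i _ hs ih =>
    rw [cntA_cons, if_neg (by omega), List.length_cons, List.length_cons, ih]
    omega
  | x _ hu ih =>
    obtain ⟨-, h1, h2⟩ := str_cnt hu
    have h3 := (str_lt hu).1
    unfold F5.cntA at h1 ih ⊢
    rw [List.countP_append, List.length_append, List.length_cons, h1, h2, ih]
    omega
theorem WW.inv (h : WW a ops cnt v) {e : Idx v} (he : Forced a v e) : WInv a cnt (pt v e) := by
  induction h with
  | nil =>
    exact ⟨fun p hp => absurd hp (Nat.not_lt_zero _), fun p _ _ => rfl, fun p h1 h2 => ⟨h1, h2⟩,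
      fun _ _ => rfl⟩
  | @d r cnt v s i h hs ih =>
    obtain ⟨i1, i2, i3, i4⟩ := ih he.1
    have h1 := h.cnt_le
    have h2 := i.isLt
    refine ⟨fun p hp => ?_, fun p hp hp' => ?_, fun p hp hp' => ?_, fun p hp => ?_⟩
    · rw [pt_fix s v e (by omega) (by omega)]
      exact i1 p hp
    · rw [pt_fix s v e (by omega) (by omega)]
      exact i2 p hp hp'
    · obtain ⟨e, b⟩ := e
      cases b with
      | false => exact i3 p hp hp'
      | true =>
        have := sw_cases s p
        exact i3 (s.sw p) (by omega) (by omega)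
    · rw [pt_fix s v e (by omega) (by omega)]
      exact i4 p hp
  | @x r cnt v u h hu ih =>
    obtain ⟨m1, m2, m3, m4⟩ := str_move v hu e he
    obtain ⟨i1, i2, i3, i4⟩ := ih m1
    obtain ⟨h1, h2⟩ := str_lt hu
    refine ⟨fun p hp => ?_, fun p hp hp' => ?_, fun p hp hp' => ?_, fun p hp => ?_⟩
    · by_cases hc : p.val = cnt
      · have h3 := i2 ⟨a - 1, by omega⟩ (by simp only; omega) (by simp only; omega)
        rw [m3 p ⟨a - 1, by omega⟩ hc (by simp only; omega)]
        simp only at h3
        omega
      · rw [m2 p (by omega)]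
        exact i1 p (by omega)
    · have h3 := i2 ⟨p.val - 1, by omega⟩ (by simp only; omega) (by simp only; omega)
      rw [m4 p ⟨p.val - 1, by omega⟩ (by omega) hp' (by simp only; omega)]
      simp only at h3
      omega
    · rw [m2 p (Or.inr hp)]
      exact i3 p hp hp'
    · rw [m2 p (by omega)]
      exact i4 p hp
/-- The frozen positions force the path. -/
theorem WW.forced (h : WW a ops cnt v) {e : Idx v}
    (he : ∀ p : Fin n, p.val < cnt → (pt v e p).val + p.val + 1 = a) : Forced a v e := by
  induction h with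
  | nil => trivial
  | @d r cnt v s i h hs ih =>
    have h1 := h.cnt_le
    refine ⟨ih fun p hp => ?_, fun _ => by omega, fun _ => by omega⟩
    rw [← pt_fix s v e (by omega) (by omega)]
    exact he p hp
  | @x r cnt v u h hu ih =>
    obtain ⟨h1, h2⟩ := str_lt hu
    have hF : Forced a v (pr v u e) := ih fun p hp => by
      rw [← str_frozen v hu e p hp]
      exact he p (by omega)
    have h3 := (h.inv hF).2.1 ⟨a - 1, by omega⟩ (by simp only; omega) (by simp only; omega)
    have h4 := he ⟨cnt, by omega⟩ (by simp only; omega)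
    simp only at h3 h4
    exact (str_track v hu e hF ⟨cnt, by omega⟩ ⟨a - 1, by omega⟩ (by simp only; omega)
      (Fin.ext (by omega))).2 rfl

end Pool.Agent.PCan.F5
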