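import Pool.Agent.Lib.MP_b03f2e_al.Will5A
import Pool.Agent.Lib.MP_b03f2e_al.Lift

/-! The intersection form of a nil-Hecke word. -/

namespace Pool.Agent.PCan.F5

open MvPolynomial Matrix

variable {n : ℕ}

/-- Product of the divisor classes of the letters of kind K. -/
noncomputable def cK (a : ℕ) : (v : List (Let n)) → Idx v → RR ℤ n
  | [], _ => 1
  | s :: v, e => if s.a + 1 = a then (if e.2 then 0 else rt ℤ (pt v e.1) s * cK a v e.1)
      else cK a v e.1

/-- Product of the roots of the letters of kind A. -/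
noncomputable def aK (a : ℕ) : (v : List (Let n)) → Idx v → RR ℤ n
  | [], _ => 1
  | s :: v, e => if s.a + 1 < a then - rt ℤ (pt v e.1) s * aK a v e.1 else aK a v e.1

/-- `cK ^ 2 * aK` on forced paths, zero elsewhere. -/
noncomputable def hK (a : ℕ) : (v : List (Let n)) → Idx v → RR ℤ n
  | [], _ => 1
  | s :: v, e => if s.a + 1 = a then (if e.2 then 0 else rt ℤ (pt v e.1) s ^ 2 * hK a v e.1)
      else if s.a + 1 < a then (if e.2 then - rt ℤ (pt v e.1) s * hK a v e.1 else 0)
      else hK a v e.1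

/-- Evaluate the five variables at the weights in the positions `a, ..., a+4`. -/
noncomputable def evM {a : ℕ} (hn : a + 5 ≤ n) (x : W n) (f : MvPolynomial (Fin 5) (RR ℤ n)) :
    RR ℤ n :=
  aeval (fun i : Fin 5 => (X (x ⟨a + i.val, by have := i.isLt; omega⟩) : RR ℤ n)) f

variable {a : ℕ} {v : List (Let n)}

private theorem cntK_cons (a : ℕ) (s : Let n) (v : List (Let n)) :
    cntK a (s :: v) = cntK a v + if s.a + 1 = a then 1 else 0 := by
  simp [cntK, List.countP_cons]

private theorem cntA_cons (a : ℕ) (s : Let n) (v : List (Let n)) :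
    cntA a (s :: v) = cntA a v + if s.a + 1 < a then 1 else 0 := by
  simp [cntA, List.countP_cons]

theorem el_cK (a : ℕ) (v : List (Let n)) : El v (cntK a v) (cK a v) := by
  induction v with
  | nil => exact el_one []
  | cons s v ih =>
    rw [cntK_cons]
    by_cases h : s.a + 1 = a
    · refine el_cons_of (g := cK a v) ?_ (ih.congr (by simp [h])) fun e => by simp [cK, h]
      have h1 : (fun e => cK a (s :: v) (e, false)) = fun e => rt ℤ (pt v e) s * cK a v e :=
        funext fun e => by simp [cK, h]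
      rw [h1]
      exact ((el_rt v s).mul ih).congr (by simp [h, add_comm])
    · have h1 : cK a (s :: v) = fun e => cK a v e.1 := funext fun e => by simp [cK, h]
      rw [h1]
      exact (el_diag s ih).congr (by simp [h])

theorem el_hK (a : ℕ) (v : List (Let n)) : El v (2 * cntK a v + cntA a v) (hK a v) := by
  induction v with
  | nil => exact el_one []
  | cons s v ih =>
    rw [cntK_cons, cntA_cons]
    by_cases h : s.a + 1 = a
    · have h' : ¬ s.a + 1 < a := by omega
      refine el_cons_of (g := fun e => rt ℤ (pt v e) s * hK a v e) ?_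
        (((el_rt v s).mul ih).congr (by rw [if_pos h, if_neg h']; push_cast; ring))
        fun e => by simp [hK, h, pow_two, mul_assoc]
      have h1 : (fun e => hK a (s :: v) (e, false)) =
          fun e => rt ℤ (pt v e) s * (rt ℤ (pt v e) s * hK a v e) :=
        funext fun e => by simp [hK, h, pow_two, mul_assoc]
      rw [h1]
      exact ((el_rt v s).mul ((el_rt v s).mul ih)).congr
        (by rw [if_pos h, if_neg h']; push_cast; ring)
    · by_cases h' : s.a + 1 < a
      · refine el_cons_of (g := hK a v) ?_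
          (ih.congr (by simp only [h, h', if_true, if_false]; push_cast; ring))
          fun e => by simp [hK, h, h']
        have h1 : (fun e => hK a (s :: v) (e, false)) = 0 := funext fun e => by simp [hK, h, h']
        rw [h1]
        exact El.zero _ _
      · have h1 : hK a (s :: v) = fun e => hK a v e.1 := funext fun e => by simp [hK, h, h']
        rw [h1]
        exact (el_diag s ih).congr (by simp [h, h'])

theorem cK_noK {e : Idx v} (h : cK a v e ≠ 0) : NoK a v e := by
  induction v with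
  | nil => trivial
  | cons s v ih =>
    obtain ⟨e, b⟩ := e
    by_cases hs : s.a + 1 = a
    · cases b
      · refine ⟨ih fun h0 => h ?_, fun _ => rfl⟩
        simp [cK, hs, h0]
      · exact (h (by simp [cK, hs])).elim
    · refine ⟨ih fun h0 => h ?_, fun h1 => (hs h1).elim⟩
      simp [cK, hs, h0]

theorem red_cK_ne {p : ℕ} [Fact p.Prime] {e : Idx v} (h : NoK a v e) : red p (cK a v e) ≠ 0 := by
  induction v with
  | nil => simp [cK]
  | cons s v ih =>
    obtain ⟨e, b⟩ := e
    obtain ⟨h1, h2⟩ := h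
    by_cases hs : s.a + 1 = a
    · have hb : b = false := h2 hs
      subst hb
      have : cK a (s :: v) (e, false) = rt ℤ (pt v e) s * cK a v e := by simp [cK, hs]
      rw [this, map_mul, red_rt]
      exact mul_ne_zero (rt_ne_zero _ _) (ih h1)
    · have : cK a (s :: v) (e, b) = cK a v e := by simp [cK, hs]
      rw [this]
      exact ih h1

theorem red_aK_ne {p : ℕ} [Fact p.Prime] (e : Idx v) : red p (aK a v e) ≠ 0 := by
  induction v with
  | nil => simp [aK]
  | cons s v ih =>
    obtain ⟨e, b⟩ := e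
    by_cases hs : s.a + 1 < a
    · have : aK a (s :: v) (e, b) = - rt ℤ (pt v e) s * aK a v e := by simp [aK, hs]
      rw [this, map_mul, map_neg, red_rt]
      exact mul_ne_zero (neg_ne_zero.2 (rt_ne_zero _ _)) (ih e)
    · have : aK a (s :: v) (e, b) = aK a v e := by simp [aK, hs]
      rw [this]
      exact ih e

theorem hK_forced {e : Idx v} (h : hK a v e ≠ 0) : Forced a v e := by
  induction v with
  | nil => trivial
  | cons s v ih =>
    obtain ⟨e, b⟩ := e
    by_cases hs : s.a + 1 = a
    · cases b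
      · refine ⟨ih fun h0 => h ?_, fun _ => rfl, fun h1 => by omega⟩
        simp [hK, hs, h0]
      · exact (h (by simp [hK, hs])).elim
    · by_cases hs' : s.a + 1 < a
      · cases b
        · exact (h (by simp [hK, hs, hs'])).elim
        · refine ⟨ih fun h0 => h ?_, fun h1 => (hs h1).elim, fun _ => rfl⟩
          simp [hK, hs, hs', h0]
      · refine ⟨ih fun h0 => h ?_, fun h1 => (hs h1).elim, fun h1 => (hs' h1).elim⟩
        simp [hK, hs, hs', h0]

theorem hK_eq {e : Idx v} (h : Forced a v e) : hK a v e = cK a v e * cK a v e * aK a v e := by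
  induction v with
  | nil => simp [hK, cK, aK]
  | cons s v ih =>
    obtain ⟨e, b⟩ := e
    obtain ⟨h1, h2, h3⟩ := h
    have ih' := ih h1
    by_cases hs : s.a + 1 = a
    · have hb : b = false := h2 hs
      have hs' : ¬ s.a + 1 < a := by omega
      subst hb
      simp only [hK, cK, aK, if_pos hs, if_neg hs', Bool.false_eq_true, if_false]
      rw [ih']
      ring
    · by_cases hs' : s.a + 1 < a
      · have hb : b = true := h3 hs'
        subst hb
        simp only [hK, cK, aK, if_neg hs, if_pos hs', if_true]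
        rw [ih']
        ring
      · simp only [hK, cK, aK, if_neg hs, if_neg hs']
        exact ih'

theorem aK_eq {e e' : Idx v} (h : Forced a v e) (h' : Forced a v e') : aK a v e = aK a v e' := by
  induction v with
  | nil => rfl
  | cons s v ih =>
    have ih' := ih h.1 h'.1
    by_cases hs : s.a + 1 < a
    · simp only [aK, if_pos hs, ih', rt]
      rw [h.1.agree h'.1 s.lo (by simp only [Let.lo]; omega),
        h.1.agree h'.1 s.hi (by simp only [Let.hi]; omega)]
    · simp only [aK, if_neg hs, ih']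

theorem exists_dem {S : Type} [CommRing S] (i j : Fin 5) (f : MvPolynomial (Fin 5) S) :
    ∃ g, f - rename (Equiv.swap i j) f = (X i - X j) * g := by
  induction f using MvPolynomial.induction_on with
  | C c => exact ⟨0, by simp⟩
  | add f g hf hg =>
    obtain ⟨f', hf⟩ := hf
    obtain ⟨g', hg⟩ := hg
    exact ⟨f' + g', by rw [map_add]; linear_combination hf + hg⟩
  | mul_X f l hf =>
    obtain ⟨f', hf⟩ := hf
    rw [map_mul, rename_X]
    by_cases h1 : l = i
    · subst h1
      rw [Equiv.swap_apply_left]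
      exact ⟨f' * X l + rename (Equiv.swap l j) f, by linear_combination X l * hf⟩
    · by_cases h2 : l = j
      · subst h2
        rw [Equiv.swap_apply_right]
        exact ⟨f' * X l - rename (Equiv.swap i l) f, by linear_combination X l * hf⟩
      · rw [Equiv.swap_apply_of_ne_of_ne h1 h2]
        exact ⟨f' * X l, by linear_combination X l * hf⟩

private theorem Str.lt {q : ℕ} {u : List (Let n)} (hu : Str a q u) : q < a := by
  induction hu with
  | base h => omega
  | step _ ih => omega

private theorem evM_low (hn : a + 5 ≤ n) (x : W n) {s : Let n} (hs : s.a + 1 < a)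
    (f : MvPolynomial (Fin 5) (RR ℤ n)) : evM hn (x * s.sw) f = evM hn x f := by
  unfold evM
  congr 2
  funext i
  rw [Equiv.Perm.mul_apply, s.sw_other]
  · intro h
    have := congrArg Fin.val h
    simp only [Let.lo] at this
    omega
  · intro h
    have := congrArg Fin.val h
    simp only [Let.hi] at this
    omega

private theorem div_rt (x : W n) (s : Let n) {A B D : RR ℤ n} (h : A - B = rt ℤ x s * D) :
    (io ℤ A - io ℤ B) / io ℤ (rt ℤ x s) = io ℤ D := by
  rw [← map_sub, h, map_mul, mul_div_cancel_left₀ _ (io_ne_zero (k := ℤ) (rt_ne_zero x s))]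

/-- Integration over a string is multiplication by the root of its first letter. -/
theorem integ_str (hn : a + 5 ≤ n) {q : ℕ} {u : List (Let n)} (hu : Str a q u) (sK : Let n)
    (hs : sK.a + 1 = a) (f : MvPolynomial (Fin 5) (RR ℤ n)) :
    integ (u ++ v) (up fun e => hK a (u ++ v) e * evM hn (pt (u ++ v) e) f) =
      integ v (up fun e => rt ℤ (pt v e) sK * hK a v e * evM hn (pt v e) f) := by
  induction hu with
  | @base s h =>
    have hsK : s = sK := by
      obtain ⟨x, hx⟩ := s
      obtain ⟨y, hy⟩ := sK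
      have : x = y := by simp only at h hs; omega
      subst this
      rfl
    subst hsK
    change integ (s :: v) (up fun e => hK a (s :: v) e * evM hn (pt (s :: v) e) f) = _
    rw [integ_cons]
    congr 1
    funext e
    refine div_rt _ _ ?_
    simp only [hK, if_pos h, Bool.false_eq_true, if_false, if_true, pt_false]
    ring
  | @step s u hu ih =>
    have h' := hu.lt
    have h : ¬ s.a + 1 = a := by omega
    change integ (s :: (u ++ v))
      (up fun e => hK a (s :: (u ++ v)) e * evM hn (pt (s :: (u ++ v)) e) f) = _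
    rw [integ_cons, ← ih]
    congr 1
    funext e
    refine div_rt _ _ ?_
    simp only [hK, if_neg h, if_pos h', Bool.false_eq_true, if_false, if_true, pt_true,
      evM_low hn _ h']
    ring

private theorem Ev.nil_inv {f : MvPolynomial (Fin 5) ℤ} {B : ℤ} (h : Ev [] f B) :
    B = constantCoeff f := by
  cases h
  rfl

private theorem Ev.x_inv {r : List Op} {f : MvPolynomial (Fin 5) ℤ} {B : ℤ}
    (h : Ev (Op.x :: r) f B) : Ev r (-X 0 * f) B := by
  cases h
  assumption

private theorem Ev.d_inv {r : List Op} {i : Fin 4} {f : MvPolynomial (Fin 5) ℤ} {B : ℤ}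
    (h : Ev (Op.d i :: r) f B) : ∃ g, f - rename (Equiv.swap i.castSucc i.succ) f =
      (X i.castSucc - X i.succ) * g ∧ Ev r g B := by
  cases h with
  | d _ h1 h2 => exact ⟨_, h1, h2⟩

private theorem cc_evM (hn : a + 5 ≤ n) (x : W n) (f : MvPolynomial (Fin 5) (RR ℤ n)) :
    constantCoeff (evM hn x f) =
      constantCoeff (MvPolynomial.map (constantCoeff : RR ℤ n →+* ℤ) f) := by
  unfold evM
  induction f using MvPolynomial.induction_on with
  | C c => simp
  | add f g hf hg => simp only [map_add, hf, hg]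
  | mul_X f l _ => simp

private theorem evM_mid (hn : a + 5 ≤ n) (x : W n) {s : Let n} {i : Fin 4} (hs : s.a = a + i.val)
    (f : MvPolynomial (Fin 5) (RR ℤ n)) :
    evM hn (x * s.sw) f = evM hn x (rename (Equiv.swap i.castSucc i.succ) f) := by
  unfold evM
  rw [aeval_rename]
  congr 2
  funext j
  rw [Equiv.Perm.mul_apply, Function.comp_apply]
  congr 2
  by_cases h1 : j = i.castSucc
  · subst h1
    rw [Equiv.swap_apply_left]
    have : (⟨a + (i.castSucc : Fin 5).val, by have := i.isLt; simp; omega⟩ : Fin n) = s.lo :=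
      Fin.ext (by simp [Let.lo, hs])
    rw [this, Let.sw_lo]
    exact Fin.ext (by simp [Let.hi, hs, add_assoc])
  · by_cases h2 : j = i.succ
    · subst h2
      rw [Equiv.swap_apply_right]
      have : (⟨a + (i.succ : Fin 5).val, by have := i.isLt; simp; omega⟩ : Fin n) = s.hi :=
        Fin.ext (by simp [Let.hi, hs, add_assoc])
      rw [this, Let.sw_hi]
      exact Fin.ext (by simp [Let.lo, hs])
    · rw [Equiv.swap_apply_of_ne_of_ne h1 h2, s.sw_other]
      · intro h
        have := congrArg Fin.val h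
        simp only [Let.lo] at this
        exact h1 (Fin.ext (by simp; omega))
      · intro h
        have := congrArg Fin.val h
        simp only [Let.hi] at this
        exact h2 (Fin.ext (by simp; omega))

private theorem evM_root (hn : a + 5 ≤ n) (x : W n) {s : Let n} {i : Fin 4}
    (hs : s.a = a + i.val) (g : MvPolynomial (Fin 5) (RR ℤ n)) :
    evM hn x ((X i.castSucc - X i.succ) * g) = rt ℤ x s * evM hn x g := by
  unfold evM rt
  rw [map_mul, map_sub, aeval_X, aeval_X]
  congr 4
  · exact Fin.ext (by simp [Let.lo, hs])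
  · exact Fin.ext (by simp [Let.hi, hs, add_assoc])

theorem integ_ev (hn : a + 5 ≤ n) {ops : List Op} {cnt : ℕ} (h : WW a ops cnt v) :
    ∀ (f : MvPolynomial (Fin 5) (RR ℤ n)) (B : ℤ),
      Ev ops (MvPolynomial.map (constantCoeff : RR ℤ n →+* ℤ) f) B →
      ∃ r, integ v (up fun e => hK a v e * evM hn (pt v e) f) = io ℤ r ∧ constantCoeff r = B := by
  induction h with
  | nil =>
    intro f B hE
    refine ⟨evM hn 1 f, ?_, by rw [hE.nil_inv, cc_evM]⟩
    simp [integ, up, hK, eul]
  | @d r cnt v s i _ hs ih =>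
    intro f B hE
    obtain ⟨g', h1, h2⟩ := hE.d_inv
    obtain ⟨g, hg⟩ := exists_dem i.castSucc i.succ f
    have hg' : g' = MvPolynomial.map (constantCoeff : RR ℤ n →+* ℤ) g := by
      have h3 := congrArg (MvPolynomial.map (constantCoeff : RR ℤ n →+* ℤ)) hg
      rw [map_sub, map_mul, map_sub, map_X, map_X, map_rename, h1] at h3
      exact mul_left_cancel₀ (X_sub_ne_zero (k := ℤ) (Fin.castSucc_lt_succ (i := i)).ne) h3
    obtain ⟨ρ, h4, h5⟩ := ih g B (hg' ▸ h2)
    refine ⟨ρ, ?_, h5⟩
    rw [integ_cons, ← h4]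
    congr 1
    funext e
    refine div_rt _ _ ?_
    have k1 : ¬ s.a + 1 = a := by omega
    have k2 : ¬ s.a + 1 < a := by omega
    have k3 : evM hn (pt v e) f - evM hn (pt v e * s.sw) f =
        rt ℤ (pt v e) s * evM hn (pt v e) g := by
      rw [evM_mid hn _ hs, ← evM_root hn _ hs, ← hg]
      unfold evM
      rw [map_sub]
    simp only [hK, if_neg k1, if_neg k2, pt_true, pt_false]
    linear_combination hK a v e * k3
  | @x r cnt v u hr hu ih =>
    intro f B hE
    have hc := hu.lt
    let sK : Let n := ⟨a - 1, by omega⟩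
    have hsK : sK.a + 1 = a := by simp only [sK]; omega
    let j : Fin n := ⟨a - 1 - cnt, by omega⟩
    obtain ⟨ρ, h4, h5⟩ := ih ((C (X j) - X 0) * f) B (by
      have := hE.x_inv
      simpa using this)
    refine ⟨ρ, ?_, h5⟩
    rw [integ_str hn hu sK hsK, ← h4]
    congr 2
    funext e
    by_cases h0 : hK a v e = 0
    · simp [h0]
    · have hw := hr.inv (hK_forced h0)
      have k1 : pt v e sK.lo = j := Fin.ext (by
        have := hw.2.1 sK.lo (by simp only [sK, Let.lo]; omega) (by simp only [sK, Let.lo]; omega)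
        simp only [sK, Let.lo, j] at this ⊢
        omega)
      have k2 : evM hn (pt v e) ((C (X j) - X 0) * f) =
          rt ℤ (pt v e) sK * evM hn (pt v e) f := by
        unfold evM rt
        rw [map_mul, map_sub, aeval_X, aeval_C, k1]
        have k3 : (⟨a + (0 : Fin 5).val, by simp; omega⟩ : Fin n) = sK.hi :=
          Fin.ext (by simp [sK, Let.hi]; omega)
        rw [k3]
        rfl
      rw [k2]
      ring

/-- The class of the longest element of the block of five. -/
private noncomputable def fM (hn : a + 5 ≤ n) : MvPolynomial (Fin 5) (RR ℤ n) :=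
  (X 0 - C (X ⟨a, by omega⟩)) *
    (X 0 - C (X ⟨a + 1, by omega⟩)) *
    (X 0 - C (X ⟨a + 2, by omega⟩)) *
    (X 0 - C (X ⟨a + 3, by omega⟩)) *
    (X 1 - C (X ⟨a, by omega⟩)) *
    (X 1 - C (X ⟨a + 1, by omega⟩)) *
    (X 1 - C (X ⟨a + 2, by omega⟩)) *
    (X 2 - C (X ⟨a, by omega⟩)) *
    (X 2 - C (X ⟨a + 1, by omega⟩)) *
    (X 3 - C (X ⟨a, by omega⟩))

private theorem evM_fM (hn : a + 5 ≤ n) (x : W n) : evM hn x (fM hn) =
    (X (x ⟨a, by omega⟩) - X ⟨a, by omega⟩) *
    (X (x ⟨a, by omega⟩) - X ⟨a + 1, by omega⟩) *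
    (X (x ⟨a, by omega⟩) - X ⟨a + 2, by omega⟩) *
    (X (x ⟨a, by omega⟩) - X ⟨a + 3, by omega⟩) *
    (X (x ⟨a + 1, by omega⟩) - X ⟨a, by omega⟩) *
    (X (x ⟨a + 1, by omega⟩) - X ⟨a + 1, by omega⟩) *
    (X (x ⟨a + 1, by omega⟩) - X ⟨a + 2, by omega⟩) *
    (X (x ⟨a + 2, by omega⟩) - X ⟨a, by omega⟩) *
    (X (x ⟨a + 2, by omega⟩) - X ⟨a + 1, by omega⟩) *
    (X (x ⟨a + 3, by omega⟩) - X ⟨a, by omega⟩) := by
  unfold evM fM
  simp only [map_mul, map_sub, aeval_X, aeval_C, Algebra.algebraMap_self, RingHom.id_apply]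
  rfl

private theorem map_fM (hn : a + 5 ≤ n) :
    MvPolynomial.map (constantCoeff : RR ℤ n →+* ℤ) (fM hn) = X 0 ^ 4 * X 1 ^ 3 * X 2 ^ 2 * X 3 := by
  unfold fM
  simp only [map_mul, map_sub, map_X, map_C, constantCoeff_X, map_zero, sub_zero]
  ring

private theorem el_diff (v : List (Let n)) (i j : Fin n) :
    El v 1 (fun e => (X (pt v e i) - X j : RR ℤ n)) := by
  have h := (el_X (k := ℤ) v i).sub ((El.smul (Hz.X j) (el_one v)).congr (add_zero 1))
  have h1 : (fun e => (X (pt v e i) - X j : RR ℤ n)) =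
      (fun e => (X (pt v e i) : RR ℤ n)) - fun _ => X j * 1 := funext fun e => by simp
  rw [h1]
  exact h

private theorem el_fM (hn : a + 5 ≤ n) (v : List (Let n)) :
    El v 10 (fun e => evM hn (pt v e) (fM hn)) := by
  simp only [evM_fM]
  exact ((((((((((el_diff v _ _).mul
    (el_diff v _ _)).mul
    (el_diff v _ _)).mul
    (el_diff v _ _)).mul
    (el_diff v _ _)).mul
    (el_diff v _ _)).mul
    (el_diff v _ _)).mul
    (el_diff v _ _)).mul
    (el_diff v _ _)).mul
    (el_diff v _ _)).congr (by norm_num)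

private theorem red_fM_ne {p : ℕ} [Fact p.Prime] (hn : a + 5 ≤ n) {y : W n} (hy : IsY a y) :
    red p (evM hn y (fM hn)) ≠ 0 := by
  have k0 := hy.2.1 ⟨a, by omega⟩ (by simp) (by simp)
  have k1 := hy.2.1 ⟨a + 1, by omega⟩ (by simp) (by simp)
  have k2 := hy.2.1 ⟨a + 2, by omega⟩ (by simp) (by simp)
  have k3 := hy.2.1 ⟨a + 3, by omega⟩ (by simp) (by simp)
  simp only at k0 k1 k2 k3
  rw [evM_fM]
  simp only [map_mul, map_sub, map_X]
  refine mul_ne_zero (mul_ne_zero (mul_ne_zero (mul_ne_zero (mul_ne_zero (mul_ne_zero 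
    (mul_ne_zero (mul_ne_zero (mul_ne_zero ?_ ?_) ?_) ?_) ?_) ?_) ?_) ?_) ?_) ?_ <;>
  · refine X_sub_ne_zero fun h => ?_
    have := congrArg Fin.val h
    simp only at this
    omega

private theorem eq_of_fM (hn : a + 5 ≤ n) {x y : W n} (hy : IsY a y) (hx : WInv a a x)
    (h : evM hn x (fM hn) ≠ 0) : x = y := by
  rw [evM_fM] at h
  simp only [ne_eq, mul_eq_zero, not_or] at h
  obtain ⟨⟨⟨⟨⟨⟨⟨⟨⟨h00, h01⟩, h02⟩, h03⟩, h10⟩, h11⟩, h12⟩, h20⟩, h21⟩, h30⟩ := h
  have key : ∀ i j : Fin n, ¬ (X (x i) - X j : RR ℤ n) = 0 → (x i).val ≠ j.val := fun i j h1 h2 =>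
    h1 (by rw [Fin.ext h2, sub_self])
  have inj : ∀ i j : Fin n, i.val ≠ j.val → (x i).val ≠ (x j).val := fun i j h1 h2 =>
    h1 (congrArg Fin.val (x.injective (Fin.ext h2)))
  have a00 := key _ _ h00
  have a01 := key _ _ h01
  have a02 := key _ _ h02
  have a03 := key _ _ h03
  have a10 := key _ _ h10
  have a11 := key _ _ h11
  have a12 := key _ _ h12
  have a20 := key _ _ h20
  have a21 := key _ _ h21
  have a30 := key _ _ h30
  have b0 := hx.2.2.1 ⟨a, by omega⟩ (by simp) (by simp)
  have b1 := hx.2.2.1 ⟨a + 1, by omega⟩ (by simp) (by simp)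
  have b2 := hx.2.2.1 ⟨a + 2, by omega⟩ (by simp) (by simp)
  have b3 := hx.2.2.1 ⟨a + 3, by omega⟩ (by simp) (by simp)
  have b4 := hx.2.2.1 ⟨a + 4, by omega⟩ (by simp) (by simp)
  have c01 := inj ⟨a, by omega⟩ ⟨a + 1, by omega⟩ (by simp)
  have c02 := inj ⟨a, by omega⟩ ⟨a + 2, by omega⟩ (by simp)
  have c03 := inj ⟨a, by omega⟩ ⟨a + 3, by omega⟩ (by simp)
  have c04 := inj ⟨a, by omega⟩ ⟨a + 4, by omega⟩ (by simp)
  have c12 := inj ⟨a + 1, by omega⟩ ⟨a + 2, by omega⟩ (by simp)
  have c13 := inj ⟨a + 1, by omega⟩ ⟨a + 3, by omega⟩ (by simp)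
  have c14 := inj ⟨a + 1, by omega⟩ ⟨a + 4, by omega⟩ (by simp)
  have c23 := inj ⟨a + 2, by omega⟩ ⟨a + 3, by omega⟩ (by simp)
  have c24 := inj ⟨a + 2, by omega⟩ ⟨a + 4, by omega⟩ (by simp)
  have c34 := inj ⟨a + 3, by omega⟩ ⟨a + 4, by omega⟩ (by simp)
  simp only at a00 a01 a02 a03 a10 a11 a12 a20 a21 a30
  have e0 : (x ⟨a, by omega⟩).val = a + 4 := by omega
  have e1 : (x ⟨a + 1, by omega⟩).val = a + 3 := by omega
  have e2 : (x ⟨a + 2, by omega⟩).val = a + 2 := by omega
  have e3 : (x ⟨a + 3, by omega⟩).val = a + 1 := by omega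
  have e4 : (x ⟨a + 4, by omega⟩).val = a := by omega
  clear a00 a01 a02 a03 a10 a11 a12 a20 a21 a30 c01 c02 c03 c04 c12 c13 c14 c23 c24 c34 b0 b1 b2 b3 b4
  refine Equiv.ext fun q => ?_
  by_cases q1 : q.val < a
  · have := hx.1 q q1
    have := hy.1 q q1
    exact Fin.ext (by omega)
  by_cases q2 : q.val < a + 5
  · have hq := hy.2.1 q (by omega) q2
    obtain ⟨q, hq'⟩ := q
    simp only at q1 q2 hq
    have : q = a ∨ q = a + 1 ∨ q = a + 2 ∨ q = a + 3 ∨ q = a + 4 := by omega
    rcases this with rfl | rfl | rfl | rfl | rfl <;> exact Fin.ext (by omega)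
  · rw [hx.2.2.2 q (by omega), hy.2.2 q (by omega)]

theorem exists_WD {p : ℕ} [Fact p.Prime] (hn : a + 5 ≤ n) {ops : List Op} {B : ℤ}
    (hE : Ev ops (X 0 ^ 4 * X 1 ^ 3 * X 2 ^ 2 * X 3) B) (hB : B ≠ 0) (hp : (p : ℤ) ∣ B)
    (hx : ops.count Op.x = a) (hl : ops.length = 2 * a + 10) :
    ∃ (v : List (Let n)) (y : W n) (c : Idx v → RR ℤ n), WD p (a + 5) v y a c := by
  obtain ⟨v, hv⟩ := exists_WW hn ops hx.le
  rw [hx] at hv
  obtain ⟨y, hy⟩ := exists_isY hn
  have hF : ∀ e, pt v e = y → Forced a v e := fun e he =>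
    hv.forced fun q hq => by rw [he]; exact hy.1 q hq
  have hel : El v a (cK a v) := (el_cK a v).congr (by rw [hv.cntK])
  have hbel : Below v y (cK a v) := fun e he => NoK.le hv.win hy (cK_noK he)
  have hA : cntA a v = ∑ c ∈ Finset.range a, c := by
    rw [hv.cntA]
    exact Finset.sum_range_reflect (fun c => c) a
  have hlen : (v.length : ℤ) = 2 * a + len y := by
    have h1 := hv.length
    have h2 := hy.len hn
    omega
  obtain ⟨r, hr, hrB⟩ := integ_ev hn hv (fM hn) B (by rw [map_fM]; exact hE)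
  have hz : ∀ e, pt v e ≠ y → hK a v e * evM hn (pt v e) (fM hn) = 0 := fun e he => by
    by_contra h
    exact he (eq_of_fM hn hy (hv.inv (hK_forced (left_ne_zero_of_mul h)))
      (right_ne_zero_of_mul h))
  have hrC : r = C B := by
    obtain ⟨r2, h1, h2⟩ := integ_el ((el_hK a v).mul (el_fM hn v))
    have h3 : r = r2 := io_inj (hr.symm.trans h2)
    subst h3
    rw [← hrB]
    refine (h1.congr ?_).eq_C
    have h1 := hv.length
    have h2 := hv.cntK
    omega
  obtain ⟨e0, he0⟩ : ∃ e, pt v e = y := by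
    by_contra h
    have h1 : io ℤ r = 0 := by
      rw [← hr]
      refine Finset.sum_eq_zero fun e _ => ?_
      simp only [up]
      rw [hz e fun he => h ⟨e, he⟩, map_zero, zero_div]
    have h2 : r = 0 := io_inj (h1.trans (map_zero _).symm)
    exact hB (by rw [← hrB, h2, map_zero])
  obtain ⟨r', h1, h2⟩ := BF_el hel (fun e he hle => (Le.antisymm (hbel e he) hle)) hel
  have hr'C : r' = C (constantCoeff r') := (h1.congr (by omega)).eq_C
  have hmain : ee ℤ y * C B = evM hn y (fM hn) * aK a v e0 * C (constantCoeff r') := by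
    apply io_inj (k := ℤ)
    rw [← hr'C, ← hrC, map_mul, map_mul (io ℤ) _ r', ← hr, ← h2, BF, integ, mul_left_comm]
    congr 1
    rw [Finset.mul_sum, Finset.sum_filter]
    refine Finset.sum_congr rfl fun e _ => ?_
    simp only [up]
    by_cases he : pt v e = y
    · rw [if_pos he, hK_eq (hF e he), aK_eq (hF e he) (hF e0 he0), he]
      simp only [map_mul]
      ring
    · rw [if_neg he, hz e he, map_zero, zero_div]
  refine ⟨v, y, cK a v, hv.win, hel, hbel, fun e he => ?_, fun e e' he he' hd hd' => ?_, ?_,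
    ⟨constantCoeff r', fun h0 => ?_, ?_, by rw [← hr'C, h2]⟩, e0, he0,
    red_cK_ne (hF e0 he0).noK⟩
  · have := (hF e he).noK.dg_low
    rwa [hv.cntK] at this
  · exact (hF e he).noK.dg_uniq (hF e' he').noK (by rw [hv.cntK, hd]) (by rw [hv.cntK, hd'])
  · unfold nd
    omega
  · rw [h0, map_zero, mul_zero] at hmain
    exact mul_ne_zero (ee_ne_zero y) (fun h => hB (C_eq_zero.1 h)) hmain
  · have h3 := congrArg (red p) hmain
    rw [map_mul, map_mul, map_mul, map_C, map_C, eq_intCast, eq_intCast,
      (ZMod.intCast_zmod_eq_zero_iff_dvd B p).2 hp, map_zero, mul_zero] at h3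
    have h4 := (mul_eq_zero.1 h3.symm).resolve_left
      (mul_ne_zero (red_fM_ne hn hy) (red_aK_ne e0))
    exact (ZMod.intCast_zmod_eq_zero_iff_dvd _ p).1 (C_eq_zero.1 h4)

end Pool.Agent.PCan.F5
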